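import Pool.Agent.H98.STB.S
import Mathlib.LinearAlgebra.Lagrange

/-!
# Interpolation in one direction
-/

set_option autoImplicit false

namespace Pool.STB6

open Finset Real MvPolynomial
open Pool.STB (V3 Po Bx)

/-- The Lagrange polynomials of the nodes `N / M`. -/
noncomputable def lg (M : ℕ) {n : ℕ} (N : Fin n → ℤ) (i : Fin n) : Polynomial ℝ :=
  Lagrange.basis univ (fun j => (N j : ℝ) / M) i

theorem lg_deg (M : ℕ) {n : ℕ} (N : Fin (n + 1) → ℤ) (i : Fin (n + 1)) :
    (lg M N i).natDegree ≤ n := by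
  unfold lg Lagrange.basis
  refine (Polynomial.natDegree_prod_le _ _).trans ?_
  have h : ∀ j ∈ univ.erase i, (Lagrange.basisDivisor ((N i : ℝ) / M) ((N j : ℝ) / M)).natDegree ≤
      1 := by
    intro j _
    by_cases h : (N i : ℝ) / M = (N j : ℝ) / M
    · rw [h, Lagrange.natDegree_basisDivisor_self]
      exact Nat.zero_le _
    · rw [Lagrange.natDegree_basisDivisor_of_ne h]
  refine (Finset.sum_le_card_nsmul _ _ 1 h).trans (le_of_eq ?_)
  rw [smul_eq_mul, mul_one, Finset.card_erase_of_mem (Finset.mem_univ i), Finset.card_univ,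
    Fintype.card_fin]
  omega

theorem lg_bd {M : ℕ} (hM : 1 ≤ M) {n : ℕ} (N : Fin (n + 1) → ℤ) (hN : ∀ i, |N i| ≤ (M : ℤ))
    {ρ : ℝ} (hρ : 0 < ρ) (hsep : ∀ i j, i ≠ j → ρ * M / 2 < |(N i : ℝ) - N j|) (i : Fin (n + 1))
    {s : ℝ} (hs : |s| ≤ 3) : |(lg M N i).eval s| ≤ (8 / ρ) ^ n := by
  have hM0 : (0 : ℝ) < M := by exact_mod_cast hM
  unfold lg Lagrange.basis
  rw [Polynomial.eval_prod, Finset.abs_prod]
  have h : ∀ j ∈ univ.erase i, |(Lagrange.basisDivisor ((N i : ℝ) / M) ((N j : ℝ) / M)).eval s| ≤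
      8 / ρ := by
    intro j hj
    have hne : i ≠ j := (Finset.ne_of_mem_erase hj).symm
    have h1 := hsep i j hne
    have h2 : |(N j : ℝ) / M| ≤ 1 := by
      rw [abs_div, abs_of_pos hM0]
      refine (div_le_one hM0).2 ?_
      exact_mod_cast hN j
    have h3 : |(N i : ℝ) / M - (N j : ℝ) / M| = |(N i : ℝ) - N j| / M := by
      rw [← sub_div, abs_div, abs_of_pos hM0]
    have h4 : |s - (N j : ℝ) / M| ≤ 4 := by
      calc |s - (N j : ℝ) / M| ≤ |s| + |(N j : ℝ) / M| := abs_sub _ _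
        _ ≤ 4 := by linarith
    have h5 : ρ / 2 < |(N i : ℝ) - N j| / M := by
      rw [lt_div_iff₀ hM0]
      linarith
    rw [Lagrange.basisDivisor, Polynomial.eval_mul, Polynomial.eval_C, Polynomial.eval_sub,
      Polynomial.eval_X, Polynomial.eval_C, abs_mul, abs_inv, h3]
    have h6 : 0 < |(N i : ℝ) - N j| / M := by linarith
    rw [inv_mul_eq_div, div_le_div_iff₀ h6 hρ]
    nlinarith
  refine (Finset.prod_le_prod (fun j _ => abs_nonneg _) h).trans (le_of_eq ?_)
  rw [Finset.prod_const, Finset.card_erase_of_mem (Finset.mem_univ i), Finset.card_univ,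
    Fintype.card_fin]
  rfl

theorem lg_int {M : ℕ} (hM : 1 ≤ M) {n : ℕ} (N : Fin (n + 1) → ℤ)
    (hsep : ∀ i j, i ≠ j → N i ≠ N j) (B : Polynomial ℝ) (hB : B.natDegree ≤ n) (s : ℝ) :
    B.eval s = ∑ i, B.eval ((N i : ℝ) / M) * (lg M N i).eval s := by
  have hM0 : (M : ℝ) ≠ 0 := by
    have : (0 : ℝ) < M := by exact_mod_cast hM
    exact this.ne'
  have h1 : Set.InjOn (fun j => (N j : ℝ) / M) ((univ : Finset (Fin (n + 1))) : Set (Fin (n + 1))) := by
    intro i _ j _ h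
    by_contra hne
    have h2 : (N i : ℝ) / M = (N j : ℝ) / M := h
    rw [div_left_inj' hM0] at h2
    exact hsep i j hne (by exact_mod_cast h2)
  have h2 : B.degree < (univ : Finset (Fin (n + 1))).card := by
    rw [Finset.card_univ, Fintype.card_fin]
    refine lt_of_le_of_lt Polynomial.degree_le_natDegree ?_
    exact_mod_cast Nat.lt_succ_of_le hB
  have h3 := Lagrange.eq_interpolate h1 h2
  conv_lhs => rw [h3]
  rw [Lagrange.interpolate_apply, Polynomial.eval_finsetSum]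
  refine Finset.sum_congr rfl fun i _ => ?_
  rw [Polynomial.eval_mul, Polynomial.eval_C]
  rfl

theorem ev_aev (a : Fin 3) (P : Polynomial ℝ) (s : V3) :
    eval s (Polynomial.aeval (X a : Po) P) = P.eval (s a) := by
  induction P using Polynomial.induction_on' with
  | add p q hp hq => rw [map_add, map_add, hp, hq, Polynomial.eval_add]
  | monomial n c =>
    rw [Polynomial.aeval_monomial, map_mul, map_pow, eval_X, Polynomial.eval_monomial]
    congr 1
    exact eval_C _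

theorem deg_aev (a b : Fin 3) (P : Polynomial ℝ) :
    (Polynomial.aeval (X a : Po) P).degreeOf b ≤ if b = a then P.natDegree else 0 := by
  classical
  rw [Polynomial.aeval_eq_sum_range]
  refine (degreeOf_sum_le _ _ _).trans (Finset.sup_le fun i hi => ?_)
  rw [MvPolynomial.smul_eq_C_mul]
  refine (degreeOf_C_mul_le _ _ _).trans ((degreeOf_pow_le _ _ _).trans ?_)
  rw [degreeOf_X]
  have := Finset.mem_range.1 hi
  split_ifs <;> simp <;> omega

/-- **Interpolation in the direction `a`.** -/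
noncomputable def stepF (M : ℕ) (a : Fin 3) {n : ℕ} {𝒲 G : Type} (F : 𝒲 → G → Po)
    (w : 𝒲 × (Fin n → ℤ)) (g : Fin n → G) : Po :=
  ∑ i, Polynomial.aeval (X a : Po) (lg M w.2 i) * F w.1 (g i)

theorem stepF_eval (M : ℕ) (a : Fin 3) {n : ℕ} {𝒲 G : Type} (F : 𝒲 → G → Po)
    (w : 𝒲 × (Fin n → ℤ)) (g : Fin n → G) (s : V3) :
    eval s (stepF M a F w g) = ∑ i, (lg M w.2 i).eval (s a) * eval s (F w.1 (g i)) := by
  unfold stepF
  rw [map_sum]
  refine Finset.sum_congr rfl fun i _ => ?_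
  rw [map_mul, ev_aev]

theorem stepF_deg (M : ℕ) (a : Fin 3) {n : ℕ} {𝒲 G : Type} (F : 𝒲 → G → Po)
    (w : 𝒲 × (Fin (n + 1) → ℤ)) (g : Fin (n + 1) → G) (b : Fin 3) {K : ℕ}
    (h : ∀ i, (F w.1 (g i)).degreeOf b ≤ K) :
    (stepF M a F w g).degreeOf b ≤ (if b = a then n else 0) + K := by
  unfold stepF
  refine (degreeOf_sum_le _ _ _).trans (Finset.sup_le fun i _ => ?_)
  refine (degreeOf_mul_le _ _ _).trans (add_le_add ?_ (h i))
  refine (deg_aev a b _).trans ?_
  have := lg_deg M w.2 i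
  split_ifs
  · exact this
  · exact le_rfl

/-- A polynomial which does not contain `X a`. -/
theorem eval_indep {a : Fin 3} {Q : Po} (h : Q.degreeOf a = 0) (s s' : V3)
    (hs : ∀ b, b ≠ a → s b = s' b) : eval s Q = eval s' Q := by
  rw [eval_eq', eval_eq']
  refine Finset.sum_congr rfl fun d hd => ?_
  congr 1
  refine Finset.prod_congr rfl fun b _ => ?_
  by_cases hb : b = a
  · have h1 : d b = 0 := by
      rw [hb]
      have := (degreeOf_le_iff.1 h.le) d hd
      omega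
    rw [h1, pow_zero, pow_zero]
  · rw [hs b hb]

/-- **The interpolation theorem of a step.** -/
theorem stepF_path {M : ℕ} (hM : 1 ≤ M) (a : Fin 3) {n : ℕ} {𝒲 G : Type} (F : 𝒲 → G → Po)
    (w : 𝒲) (N : Fin (n + 1) → ℤ) (g : Fin (n + 1) → G) (B : Polynomial ℝ) (hB : B.natDegree ≤ n)
    (hN : ∀ i, |N i| ≤ (M : ℤ)) {ρ : ℝ} (hρ : 0 < ρ)
    (hsep : ∀ i j, i ≠ j → ρ * M / 2 < |(N i : ℝ) - N j|) (ξ : Fin (n + 1) → V3) (x : V3)
    (hξa : ∀ i, ξ i a = (N i : ℝ) / M) (hξ : ∀ i b, b ≠ a → ξ i b = x b)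
    (hdeg : ∀ i, (F w (g i)).degreeOf a = 0) {δ : ℝ}
    (hδ : ∀ i, |B.eval ((N i : ℝ) / M) - eval (ξ i) (F w (g i))| ≤ δ) {s : ℝ} (hs : |s| ≤ 3) :
    |B.eval s - eval (Function.update x a s) (stepF M a F (w, N) g)| ≤
      (n + 1) * (8 / ρ) ^ n * δ := by
  have hM0 : (0 : ℝ) < M := by exact_mod_cast hM
  have hne : ∀ i j, i ≠ j → N i ≠ N j := by
    intro i j hij h
    have h1 := hsep i j hij
    rw [h, sub_self, abs_zero] at h1
    have : 0 < ρ * M / 2 := by positivity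
    linarith
  rw [lg_int hM N hne B hB s, stepF_eval, ← Finset.sum_sub_distrib]
  have h1 : ∀ i, eval (Function.update x a s) (F w (g i)) = eval (ξ i) (F w (g i)) := fun i =>
    eval_indep (hdeg i) _ _ fun b hb => by
      rw [Function.update_of_ne hb, hξ i b hb]
  have h2 : ∀ i, |B.eval ((N i : ℝ) / M) * (lg M N i).eval s -
      (lg M (w, N).2 i).eval ((Function.update x a s) a) *
        eval (Function.update x a s) (F (w, N).1 (g i))| ≤ (8 / ρ) ^ n * δ := by
    intro i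
    show |B.eval ((N i : ℝ) / M) * (lg M N i).eval s -
      (lg M N i).eval ((Function.update x a s) a) * eval (Function.update x a s) (F w (g i))| ≤ _
    rw [Function.update_self, h1 i]
    have e : B.eval ((N i : ℝ) / M) * (lg M N i).eval s -
      (lg M N i).eval s * eval (ξ i) (F w (g i)) = (lg M N i).eval s *
        (B.eval ((N i : ℝ) / M) - eval (ξ i) (F w (g i))) := by ring
    rw [e, abs_mul]
    exact mul_le_mul (lg_bd hM N hN hρ hsep i hs) (hδ i) (abs_nonneg _) (by positivity)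
  refine (Finset.abs_sum_le_sum_abs _ _).trans ((Finset.sum_le_sum fun i _ => h2 i).trans
    (le_of_eq ?_))
  rw [Finset.sum_const, Finset.card_univ, Fintype.card_fin, nsmul_eq_mul]
  push_cast
  ring

/-- The bound of the interpolation. -/
theorem stepF_bd {M : ℕ} (hM : 1 ≤ M) (a : Fin 3) {n : ℕ} {𝒲 G : Type} (F : 𝒲 → G → Po)
    (w : 𝒲) (N : Fin (n + 1) → ℤ) (g : Fin (n + 1) → G)
    (hN : ∀ i, |N i| ≤ (M : ℤ)) {ρ : ℝ} (hρ : 0 < ρ)
    (hsep : ∀ i j, i ≠ j → ρ * M / 2 < |(N i : ℝ) - N j|) {U : ℝ} {s : V3} (hs : Bx 3 s)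
    (hU : ∀ i, |eval s (F w (g i))| ≤ U) :
    |eval s (stepF M a F (w, N) g)| ≤ (n + 1) * (8 / ρ) ^ n * U := by
  rw [stepF_eval]
  have h2 : ∀ i, |(lg M (w, N).2 i).eval (s a) * eval s (F (w, N).1 (g i))| ≤ (8 / ρ) ^ n * U := by
    intro i
    rw [abs_mul]
    exact mul_le_mul (lg_bd hM N hN hρ hsep i (hs a)) (hU i) (abs_nonneg _) (by positivity)
  refine (Finset.abs_sum_le_sum_abs _ _).trans ((Finset.sum_le_sum fun i _ => h2 i).trans
    (le_of_eq ?_))
  rw [Finset.sum_const, Finset.card_univ, Fintype.card_fin, nsmul_eq_mul]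
  push_cast
  ring

end Pool.STB6
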