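import Pool.Agent.H6.STB.Alg
import Pool.Agent.H6.STB.Lag
import Pool.Agent.H98.STB.Lip
import Pool.Agent.H50.PW.Cover

/-!
# Coordinates with respect to three directions
-/

set_option autoImplicit false

namespace Pool.STB6

open Finset Real MvPolynomial
open Pool.STB (V3 Po Bx mt lin ln ln_eval ln_deg)

/-- Lipschitz bound in one variable. -/
theorem lip1 (N : ℕ) : ∃ C : ℝ, 1 ≤ C ∧ ∀ (P : Polynomial ℝ) (U : ℝ), P.natDegree ≤ N →
    (∀ s : ℝ, |s| ≤ 2 → |P.eval s| ≤ U) → ∀ s s' : ℝ, |s| ≤ 2 → |s'| ≤ 2 →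
    |P.eval s - P.eval s'| ≤ C * U * |s - s'| := by
  obtain ⟨C, hC, h⟩ := Pool.Agent.H40.BFL.mko_thm N
  refine ⟨C, hC, fun P U hP hU s s' hs hs' => ?_⟩
  have hd := h P (-2) 4 U hP (by norm_num) (fun t ht => hU t (abs_le.2 ⟨ht.1, by linarith [ht.2]⟩))
  have hmvt := (convex_Icc (-2 : ℝ) 2).norm_image_sub_le_of_norm_hasDerivWithin_le
    (f := fun s => P.eval s) (f' := fun s => P.derivative.eval s) (C := C * U / 4)
    (x := s') (y := s) (fun s _ => (P.hasDerivAt s).hasDerivWithinAt) (fun s hs => by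
      rw [Real.norm_eq_abs]
      exact hd s ⟨hs.1, by linarith [hs.2]⟩) (abs_le.1 hs') (abs_le.1 hs)
  rw [Real.norm_eq_abs, Real.norm_eq_abs] at hmvt
  have hU0 : 0 ≤ U := (abs_nonneg _).trans (hU 0 (by simp))
  refine hmvt.trans (mul_le_mul_of_nonneg_right ?_ (abs_nonneg _))
  have : 0 ≤ C * U := by positivity
  linarith

/-- Lipschitz bound on the box. -/
theorem lip3 (N : ℕ) : ∃ C : ℝ, 1 ≤ C ∧ ∀ (Φ : Po) (U : ℝ), Φ.totalDegree ≤ N →
    (∀ s : V3, Bx 3 s → |eval s Φ| ≤ U) → ∀ (u e : V3) (ε : ℝ), 0 ≤ ε → ε ≤ 1 → Bx 2 u →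
    Bx ε e → |eval (u + e) Φ - eval u Φ| ≤ C * U * ε := by
  obtain ⟨C, hC, h⟩ := Pool.Agent.H40.BFL.mko_thm N
  refine ⟨C, hC, fun Φ U hΦ hU u e ε hε0 hε1 hu he => ?_⟩
  have hU0 : 0 ≤ U := (abs_nonneg _).trans (hU 0 fun i => by simp)
  rcases hε0.eq_or_lt with h0 | hε
  · have : e = 0 := by
      funext i
      have := he i
      rw [← h0] at this
      exact abs_eq_zero.1 (le_antisymm this (abs_nonneg _))
    rw [this, add_zero, sub_self, abs_zero]
    positivity
  obtain ⟨v, hv⟩ : ∃ v : V3, v = fun i => e i / ε := ⟨_, rfl⟩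
  have hv1 : ∀ i, |v i| ≤ 1 := fun i => by
    rw [hv, abs_div, abs_of_pos hε]
    exact (div_le_one hε).2 (he i)
  obtain ⟨g, hg⟩ : ∃ g : Polynomial ℝ, g = ln u v Φ := ⟨_, rfl⟩
  have hge : ∀ s : ℝ, g.eval s = eval (fun j => u j + s * v j) Φ := fun s => by
    rw [hg, ln_eval]
  have hdeg : g.natDegree ≤ N := by
    rw [hg]
    exact ln_deg _ _ hΦ
  have hb : ∀ s ∈ Set.Icc (0 : ℝ) (0 + 1), |g.eval s| ≤ U := by
    intro s hs
    rw [hge]
    refine hU _ fun i => ?_
    have h1 := hu i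
    have h2 := hv1 i
    have h3 : |s * v i| ≤ 1 := by
      rw [abs_mul, abs_of_nonneg hs.1]
      have := hs.2
      nlinarith [abs_nonneg (v i)]
    calc |u i + s * v i| ≤ |u i| + |s * v i| := abs_add_le _ _
      _ ≤ 3 := by linarith
  have hd := h g 0 1 U hdeg one_pos hb
  have e1 : g.eval 0 = eval u Φ := by
    rw [hge]
    congr 1
    congr 1
    funext j
    ring
  have e2 : g.eval ε = eval (u + e) Φ := by
    rw [hge]
    congr 1
    congr 1
    funext j
    rw [hv, Pi.add_apply]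
    field_simp
  rw [← e1, ← e2]
  have hmvt := (convex_Icc (0 : ℝ) (0 + 1)).norm_image_sub_le_of_norm_hasDerivWithin_le
    (f := fun s => g.eval s) (f' := fun s => g.derivative.eval s) (C := C * U)
    (x := 0) (y := ε) (fun s _ => (g.hasDerivAt s).hasDerivWithinAt) (fun s hs => by
      have := hd s hs
      rw [div_one] at this
      rwa [Real.norm_eq_abs]) ⟨le_rfl, by norm_num⟩ ⟨hε.le, by linarith⟩
  rw [Real.norm_eq_abs, Real.norm_eq_abs, sub_zero, abs_of_pos hε] at hmvt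
  exact hmvt

/-- The total degree is at most the sum of the degrees. -/
theorem tdeg_le {Φ : Po} {K : ℕ} (h : ∀ i, Φ.degreeOf i ≤ K) : Φ.totalDegree ≤ 3 * K := by
  unfold totalDegree
  refine Finset.sup_le fun d hd => ?_
  rw [Finsupp.sum_fintype _ _ (fun _ => rfl), Fin.sum_univ_three]
  have h0 := (degreeOf_le_iff.1 (h 0)) d hd
  have h1 := (degreeOf_le_iff.1 (h 1)) d hd
  have h2 := (degreeOf_le_iff.1 (h 2)) d hd
  omega

section

variable {𝒟 : Type}

/-- Three directions in general position. -/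
def Gp (X : 𝒟 → V3) (η : ℝ) (d : Fin 3 → 𝒟) : Prop := η ^ 3 ≤ |(mt fun a => X (d a)).det|

open Classical in
/-- **The normalised coordinates.** -/
noncomputable def cr (X : 𝒟 → V3) (η : ℝ) (d : Fin 3 → 𝒟) (q : V3) : V3 :=
  if Gp X η d then (η ^ 3 / 6) • sol (fun a => X (d a)) q else 0

variable {X : 𝒟 → V3} {η : ℝ} {d : Fin 3 → 𝒟}

theorem cr_bad (h : ¬ Gp X η d) (q : V3) : cr X η d q = 0 := by
  unfold cr
  rw [if_neg h]

theorem cr_good (h : Gp X η d) (q : V3) :
    cr X η d q = (η ^ 3 / 6) • sol (fun a => X (d a)) q := by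
  unfold cr
  rw [if_pos h]

theorem cr_bx (hη : 0 < η) (hX : ∀ d, Bx 1 (X d)) {r : ℝ} {q : V3} (hq : Bx r q) :
    Bx r (cr X η d q) := by
  by_cases h : Gp X η d
  · rw [cr_good h]
    intro i
    have h1 := sol_le (fun a => X (d a)) (η := η ^ 3) (by positivity) (fun a => hX _) h hq i
    rw [Pi.smul_apply, smul_eq_mul, abs_mul, abs_of_pos (by positivity)]
    have h2 : (0 : ℝ) < η ^ 3 := by positivity
    calc η ^ 3 / 6 * |sol (fun a => X (d a)) q i| ≤ η ^ 3 / 6 * (6 * r / η ^ 3) :=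
          mul_le_mul_of_nonneg_left h1 (by positivity)
      _ = r := by field_simp
  · rw [cr_bad h]
    intro i
    rw [Pi.zero_apply, abs_zero]
    exact (abs_nonneg _).trans (hq i)

theorem cr_add (q q' : V3) : cr X η d (q + q') = cr X η d q + cr X η d q' := by
  by_cases h : Gp X η d
  · rw [cr_good h, cr_good h, cr_good h]
    unfold sol
    rw [Matrix.mulVec_add, smul_add]
  · rw [cr_bad h, cr_bad h, cr_bad h, add_zero]

theorem cr_sub (q q' : V3) : cr X η d (q - q') = cr X η d q - cr X η d q' := by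
  by_cases h : Gp X η d
  · rw [cr_good h, cr_good h, cr_good h]
    unfold sol
    rw [Matrix.mulVec_sub, smul_sub]
  · rw [cr_bad h, cr_bad h, cr_bad h, sub_zero]

theorem cr_smul (c : ℝ) (q : V3) : cr X η d (c • q) = c • cr X η d q := by
  by_cases h : Gp X η d
  · rw [cr_good h, cr_good h, sol_smul, smul_comm]
  · rw [cr_bad h, cr_bad h, smul_zero]

theorem Gp.ne (hη : 0 < η) (h : Gp X η d) : (mt fun a => X (d a)).det ≠ 0 := by
  intro h0
  unfold Gp at h
  rw [h0, abs_zero] at h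
  have : (0 : ℝ) < η ^ 3 := by positivity
  linarith

theorem cr_dir (hη : 0 < η) (h : Gp X η d) (a : Fin 3) :
    cr X η d (X (d a)) = (η ^ 3 / 6) • Pi.single a (1 : ℝ) := by
  rw [cr_good h]
  congr 1
  have h1 := sol_comb (fun a => X (d a)) (h.ne hη) (Pi.single a (1 : ℝ))
  have h2 : ∑ b, (Pi.single a (1 : ℝ) : Fin 3 → ℝ) b • X (d b) = X (d a) := by
    rw [Finset.sum_eq_single a]
    · rw [Pi.single_eq_same, one_smul]
    · intro b _ hb
      rw [Pi.single_eq_of_ne hb, zero_smul]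
    · intro h
      exact absurd (Finset.mem_univ a) h
  rw [h2] at h1
  exact h1

theorem cr_inv (hη : 0 < η) (h : Gp X η d) (q : V3) :
    ∑ a, cr X η d q a • X (d a) = (η ^ 3 / 6) • q := by
  have h1 := sol_spec (fun a => X (d a)) (h.ne hη) q
  conv_rhs => rw [← h1]
  rw [cr_good h, Finset.smul_sum]
  refine Finset.sum_congr rfl fun a _ => ?_
  rw [Pi.smul_apply, smul_eq_mul, mul_smul]

/-- The substitution of the coordinates. -/
noncomputable def sb (X : 𝒟 → V3) (η : ℝ) (d : Fin 3 → 𝒟) (Q : Po) : Po :=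
  bind₁ (lin ((η ^ 3 / 6) • (mt fun a => X (d a))⁻¹)) Q

theorem sb_eval (h : Gp X η d) (Q : Po) (q : V3) :
    eval q (sb X η d Q) = eval (cr X η d q) Q := by
  unfold sb
  rw [eval_lin, Matrix.smul_mulVec, cr_good h]
  rfl

theorem sb_deg (Q : Po) : (sb X η d Q).totalDegree ≤ Q.totalDegree := by
  unfold sb
  refine Pool.Agent.H50.PW.totalDegree_bind₁_le _ (fun i => ?_) Q
  exact (lin_hom _ _).totalDegree_le

end

end Pool.STB6
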