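import Pool.Agent.H6.STB.CloS
import Pool.Agent.H6.STB.Geo
import Pool.Agent.H6.STB.Stp
import Pool.Agent.H98.STB.Gp
import Pool.Agent.H52.TIE.Few

/-!
# The star of three lines through a record
-/

set_option autoImplicit false

namespace Pool.STB6

open Finset Real MvPolynomial
open Pool.Agent.H49.Ent Pool.Agent.H32.Dense Pool.STK
open Pool.BFL (Pb)
open Pool.K2S (cpn)
open Pool.CLU (cpn_law cpn_pos cpn_marg cpn_nonneg)
open Pool.STB (V3 Po Bx mt cv Pb_mono Pb_or Pb_le2)

section gen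

variable {Ω S T U R : Type} [Fintype Ω] {q : Ω → ℝ}

/-- Information of the side `A` on `F`. -/
theorem mi_le (h0 : ∀ ω, 0 ≤ q ω) (F : Ω → S) (A : Ω → T) (y : Ω → U) (z : Ω → R)
    (hF : Det q z F) (hy : Det q z y) :
    CH q F y - (CH q A y - CH q A z) ≤ CH q F (fun ω => (A ω, y ω)) := by
  have h1 : CH q F y - CH q F (fun ω => (A ω, y ω)) = CH q A y - CH q A (fun ω => (F ω, y ω)) := by
    have c1 := CH_chain h0 F A y
    have c2 := CH_chain h0 A F y
    have c3 : CH q (fun ω => (F ω, A ω)) y = CH q (fun ω => (A ω, F ω)) y :=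
      Pool.MIC.CH_swl h0 _ _ _
    linarith
  have h2 : CH q A z ≤ CH q A (fun ω => (F ω, y ω)) :=
    CH_mono_cond h0 fun ω ω' a b h => Prod.ext (hF _ _ a b h) (hy _ _ a b h)
  linarith

/-- Entropy of an integer which is close to a function of the record. -/
theorem CH_near (hq : IsLaw q) (ξ : Ω → ℤ) (W : Ω → T) (ctr : T → ℝ) (G : Ω → Prop) {A : ℝ}
    (hA : 1 ≤ A) {M : ℕ} (hM : ∀ ω, 0 < q ω → |ξ ω| ≤ (M : ℤ))
    (hG : ∀ ω, 0 < q ω → G ω → |(ξ ω : ℝ) - ctr (W ω)| ≤ A) :
    CH q ξ W ≤ Real.log 2 + Real.log (3 * A) + Pb q (fun ω => ¬ G ω) * Real.log (2 * M + 1) := by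
  have hc : (Finset.Icc (-(M : ℤ)) M).card = 2 * M + 1 := by
    rw [Int.card_Icc]
    omega
  have hA3 : 1 ≤ 3 * A := by linarith
  have h1 := Pool.H52.TIE.CH_le_two hq ξ W G (fun v => Finset.Icc ⌈ctr v - A⌉ ⌊ctr v + A⌋)
    (fun _ => Finset.Icc (-(M : ℤ)) M) (K := ⌊3 * A⌋₊) (N := 2 * M + 1) (fun ω hω h => ?_)
    (fun v => ?_) (fun ω hω => ?_) (fun v => hc.le) (Nat.le_floor (by exact_mod_cast hA3)) (by omega)
  · refine h1.trans ?_
    have h2 : Real.log (⌊3 * A⌋₊ : ℝ) ≤ Real.log (3 * A) := by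
      refine Real.log_le_log ?_ (Nat.floor_le (by linarith))
      exact_mod_cast Nat.floor_pos.2 hA3
    push_cast
    linarith
  · have h2 := abs_le.1 (hG ω hω h)
    rw [Finset.mem_Icc]
    exact ⟨Int.ceil_le.2 (by linarith), Int.le_floor.2 (by linarith)⟩
  · refine Nat.le_floor ?_
    rw [Int.card_Icc]
    have h3 : (⌊ctr v + A⌋ : ℝ) ≤ ctr v + A := Int.floor_le _
    have h4 : ctr v - A ≤ (⌈ctr v - A⌉ : ℝ) := Int.le_ceil _
    rcases le_or_gt (⌊ctr v + A⌋ + 1 - ⌈ctr v - A⌉) 0 with h5 | h5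
    · rw [Int.toNat_eq_zero.2 h5]
      push_cast
      linarith
    · have h6 : (((⌊ctr v + A⌋ + 1 - ⌈ctr v - A⌉).toNat : ℕ) : ℤ) =
          ⌊ctr v + A⌋ + 1 - ⌈ctr v - A⌉ := Int.toNat_of_nonneg h5.le
      have h7 : (((⌊ctr v + A⌋ + 1 - ⌈ctr v - A⌉).toNat : ℕ) : ℝ) =
          (⌊ctr v + A⌋ : ℝ) + 1 - ⌈ctr v - A⌉ := by exact_mod_cast h6
      rw [h7]
      linarith
  · rw [Finset.mem_Icc, ← abs_le]
    exact hM ω hω

end gen

section star

variable {Ω Λ Z Y 𝒟 : Type} [Fintype Ω] {p : Ω → ℝ}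

/-- The star is the image of the star of `S3`. -/
theorem Pb_star (hp : IsLaw p) (L : Ω → Λ) (z : Ω → Z) (A : Ω → Ω → Ω → Prop) :
    Pb (cpn p z 2) (fun w => A (w 0) (w 1) (w 2)) =
      Pb (Pool.STB.S3 p L z) (fun w => A w.2.2.1 w.2.1 w.1) := by
  classical
  have hT2 : ∀ u, law p z u = law (glue p p z z) (fun w => z w.1) u := fun u =>
    ((marg_fst (Z₁ := z) (Z₂ := z) hp.nonneg fun _ => rfl).law z u).symm
  have m2 : Marg (Pool.STB.S2 p L z) (glue p p z z) (fun w => (w.1, w.2.1)) :=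
    Marg.glue (Z₁ := z) (Z₂ := z) (Marg.id p) (Pool.STB.S1_f hp L z)
  have m3 : Marg (Pool.STB.S3 p L z) (glue p (glue p p z z) z (fun w => z w.1))
      (fun w => (w.1, (w.2.1, w.2.2.1))) :=
    Marg.glue (Z₁ := z) (Z₂ := fun w : Ω × Ω => z w.1) (Marg.id p) m2
  rw [Pool.MIC.Marg.Pb_eq m3 (fun w => A w.2.2 w.2.1 w.1)]
  unfold Pb
  obtain ⟨E, hE⟩ : ∃ E : (Fin 3 → Ω) ≃ Ω × (Ω × Ω), ∀ v, E v = (v 2, (v 1, v 0)) :=
    ⟨{ toFun := fun v => (v 2, (v 1, v 0))
       invFun := fun w => ![w.2.2, w.2.1, w.1]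
       left_inv := fun v => by
         funext i
         fin_cases i <;> rfl
       right_inv := fun w => rfl }, fun v => rfl⟩
  refine Fintype.sum_equiv E _ _ fun v => ?_
  rw [hE]
  have h1 : cpn p z 2 v = glue p (glue p p z z) z (fun w => z w.1) (v 2, (v 1, v 0)) := by
    have h2 := hT2 (z (v 2))
    unfold cpn
    unfold glue at h2 ⊢
    simp only at h2 ⊢
    by_cases ha : ∀ i : Fin (2 + 1), z (v i) = z (v 0)
    · have e1 : z (v 1) = z (v 0) := ha 1
      have e2 : z (v 2) = z (v 0) := ha 2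
      rw [if_pos ha, if_pos (e2.trans e1.symm), if_pos e1, Fin.prod_univ_three, e2, e1]
      rw [pow_two, div_eq_div_iff_comm]
      by_cases hl : law p z (z (v 0)) = 0
      · rw [hl]
        simp
      · field_simp
    · rw [if_neg ha]
      by_cases h3 : z (v 2) = z (v 1)
      · rw [if_pos h3]
        by_cases h4 : z (v 1) = z (v 0)
        · exfalso
          refine ha fun i => ?_
          fin_cases i
          · rfl
          · exact h4
          · exact h3.trans h4
        · rw [if_neg h4, mul_zero, zero_div]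
      · rw [if_neg h3]
  rw [h1]

variable {L : Ω → Λ} {z : Ω → Z} {y : Ω → Y} {t : Ω → ℤ} {D : Λ → 𝒟} {X : 𝒟 → V3} {x : Z → V3}
  {V : Z → ℝ} {P : Λ → Polynomial ℝ} {N M : ℕ} {K e η c : ℝ}

/-- The directions of the star. -/
def dd (L : Ω → Λ) (D : Λ → 𝒟) (w : Fin 3 → Ω) : Fin 3 → 𝒟 := fun a => D (L (w a))

/-- **General position of the star.** -/
theorem gp_star (hC : CloH p L z y t D X x V P N M K e η c) (hη : 0 < η) :
    Pb (cpn p z 2) (fun w => ¬ Gp X η (dd L D w)) ≤ 3 * c := by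
  have h1 := Pool.STB.gp_three hC.law L z (fun ω => X (D (L ω))) hη hC.gp
  rw [← Pb_star hC.law L z (fun a b c => ¬ η ^ 3 ≤
    |(mt ![X (D (L a)), X (D (L b)), X (D (L c))]).det|)] at h1
  refine le_trans (Pb_mono (cpn_nonneg hC.law.nonneg z 2) fun w _ h => ?_) h1
  have h2 : (fun a => X (dd L D w a)) = ![X (D (L (w 0))), X (D (L (w 1))), X (D (L (w 2)))] := by
    funext a
    fin_cases a <;> rfl
  unfold Gp at h
  rw [h2] at h
  exact h

/-- The directions are nearly independent of the record. -/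
theorem D_star (hC : CloH p L z y t D X x V P N M K e η c) :
    CH (cpn p z 2) (dd L D) (fun w => y (w 0)) - CH (cpn p z 2) (dd L D) (fun w => z (w 0)) ≤
      3 * e := by
  have h0 := hC.law.nonneg
  have m0 := cpn_nonneg h0 z 2
  have hpos := cpn_pos h0 z 2
  have h1 : CH (cpn p z 2) (dd L D) (fun w => y (w 0)) ≤ 3 * CH p (fun ω => D (L ω)) y := by
    refine (Pool.H54.QF.CH_pi_le m0 (fun w : Fin 3 → Ω => y (w 0)) 3 (dd L D)).trans ?_
    have h2 : ∀ i : Fin 3, CH (cpn p z 2) (fun w => dd L D w i) (fun w => y (w 0)) =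
        CH p (fun ω => D (L ω)) y := by
      intro i
      exact Pool.H52.TIE.CH_cpn_zero hC.law z 2 i (fun ω => D (L ω)) y
        (fun ω ω' a b h => hC.yz ω ω' a b h)
    rw [Finset.sum_congr rfl fun i _ => h2 i, Finset.sum_const, Finset.card_univ,
      Fintype.card_fin, nsmul_eq_mul]
    push_cast
    exact le_rfl
  have h3 := Pool.TMS.cpn_times hC.law z (fun ω => D (L ω)) 2
  have h4 : CH (cpn p z 2) (dd L D) (fun w => z (w 0)) = 3 * CH p (fun ω => D (L ω)) z := by
    refine h3.trans ?_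
    norm_num
  have h5 := hC.free
  linarith

/-- **The record given the directions.** -/
theorem free_star (hC : CloH p L z y t D X x V P N M K e η c) {T : Type} (F : Z → T) :
    CH p (fun ω => F (z ω)) y - 3 * e ≤
      CH (cpn p z 2) (fun w => F (z (w 0))) (fun w => (y (w 0), dd L D w)) := by
  have h0 := hC.law.nonneg
  have m0 := cpn_nonneg h0 z 2
  have hpos := cpn_pos h0 z 2
  have h1 := mi_le m0 (fun w => F (z (w 0))) (dd L D) (fun w => y (w 0)) (fun w => z (w 0))
    (fun w w' _ _ h => congrArg F h) (fun w w' a b h => hC.yz _ _ ((hpos w a).1 0)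
      ((hpos w' b).1 0) h)
  have h2 := D_star hC
  have h3 : CH (cpn p z 2) (fun w => F (z (w 0))) (fun w => y (w 0)) = CH p (fun ω => F (z ω)) y :=
    (cpn_marg h0 z 2 0).CH (fun ω => F (z ω)) y
  have h4 : CH (cpn p z 2) (fun w => F (z (w 0))) (fun w => (dd L D w, y (w 0))) =
      CH (cpn p z 2) (fun w => F (z (w 0))) (fun w => (y (w 0), dd L D w)) :=
    Pool.MIC.CH_swc m0 _ _ _
  linarith

/-- The directions of the other lines given a sample. -/
theorem D_one (hC : CloH p L z y t D X x V P N M K e η c) (a : Fin 3) :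
    CH (cpn p z 2) (dd L D) (fun w => L (w a)) - CH (cpn p z 2) (dd L D) (fun w => w a) ≤
      2 * e := by
  classical
  have h0 := hC.law.nonneg
  have m0 := cpn_nonneg h0 z 2
  have hpos := cpn_pos h0 z 2
  obtain ⟨X', hX'⟩ : ∃ X' : Fin 3 → Ω → Ω ⊕ (𝒟 × Z), X' = fun i ω =>
    if i = a then Sum.inl ω else Sum.inr (D (L ω), z ω) := ⟨_, rfl⟩
  have Xa : ∀ ω, X' a ω = Sum.inl ω := fun ω => by rw [hX']; exact if_pos rfl
  have Xn : ∀ i, i ≠ a → ∀ ω, X' i ω = Sum.inr (D (L ω), z ω) := fun i hi ω => by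
    rw [hX']; exact if_neg hi
  have hdet : ∀ i, Det p (X' i) z := by
    intro i ω ω' _ _ h
    by_cases hi : i = a
    · rw [hi, Xa, Xa] at h
      rw [Sum.inl.inj h]
    · rw [Xn i hi, Xn i hi] at h
      exact (Prod.ext_iff.1 (Sum.inr.inj h)).2
  have h1 := Pool.TIE38.H_cpn' h0 z 2 X' hdet
  have hsum : ∑ i, H p (X' i) = H p (fun ω => ω) + 2 * H p (fun ω => (D (L ω), z ω)) := by
    have e1 : H p (X' a) = H p (fun ω => ω) := H_congr h0
      (fun ω ω' _ _ h => by
        show X' a ω = X' a ω'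
        rw [Xa, Xa]
        exact congrArg Sum.inl h)
      (fun ω ω' _ _ h => by
        rw [Xa, Xa] at h
        exact Sum.inl.inj h)
    have e2 : ∀ i, i ≠ a → H p (X' i) = H p (fun ω => (D (L ω), z ω)) := fun i hi => H_congr h0
      (fun ω ω' _ _ h => by
        show X' i ω = X' i ω'
        rw [Xn i hi, Xn i hi]
        exact congrArg Sum.inr h)
      (fun ω ω' _ _ h => by
        rw [Xn i hi, Xn i hi] at h
        exact Sum.inr.inj h)
    rw [← Finset.add_sum_erase _ _ (Finset.mem_univ a), e1]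
    congr 1
    rw [Finset.sum_congr rfl fun i hi => e2 i (Finset.ne_of_mem_erase hi), Finset.sum_const,
      Finset.card_erase_of_mem (Finset.mem_univ a), Finset.card_univ, Fintype.card_fin,
      nsmul_eq_mul]
    norm_num
  -- the entropy of the sample with the directions
  have h2 : H (cpn p z 2) (fun w => fun i => X' i (w i)) =
      H (cpn p z 2) (fun w => (dd L D w, w a)) := by
    refine H_congr m0 (fun w w' _ _ h => ?_) (fun w w' hw hw' h => ?_)
    · obtain ⟨g1, g2⟩ := Prod.ext_iff.1 h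
      have g2' : w a = w' a := g2
      funext i
      by_cases hi : i = a
      · rw [hi]
        show X' a (w a) = X' a (w' a)
        rw [g2']
      · show X' i (w i) = X' i (w' i)
        rw [Xn i hi, Xn i hi]
        refine congrArg Sum.inr (Prod.ext (congrFun g1 i) ?_)
        show z (w i) = z (w' i)
        rename_i hw hw'
        rw [(hpos w hw).2 i, (hpos w' hw').2 i, ← (hpos w hw).2 a, ← (hpos w' hw').2 a, g2']
    · have ga := congrFun h a
      simp only [Xa] at ga
      have ga' := Sum.inl.inj ga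
      refine Prod.ext (funext fun i => ?_) ga'
      by_cases hi : i = a
      · show D (L (w i)) = D (L (w' i))
        rw [hi, ga']
      · have gi := congrFun h i
        simp only [Xn i hi] at gi
        exact (Prod.ext_iff.1 (Sum.inr.inj gi)).1
  have h3 : H (cpn p z 2) (fun w => w a) = H p (fun ω => ω) := (cpn_marg h0 z 2 a).H (fun ω => ω)
  have h4 : CH (cpn p z 2) (dd L D) (fun w => w a) = 2 * CH p (fun ω => D (L ω)) z := by
    unfold CH
    rw [← h2, h1, hsum, h3]
    push_cast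
    ring
  have h5 : CH (cpn p z 2) (dd L D) (fun w => L (w a)) ≤ 2 * CH p (fun ω => D (L ω)) y := by
    refine (Pool.H54.QF.CH_pi_le m0 (fun w : Fin 3 → Ω => L (w a)) 3 (dd L D)).trans ?_
    have e1 : CH (cpn p z 2) (fun w => dd L D w a) (fun w => L (w a)) = 0 :=
      CH_eq_zero m0 fun w w' _ _ h => congrArg D h
    have e2 : ∀ i, i ≠ a → CH (cpn p z 2) (fun w => dd L D w i) (fun w => L (w a)) ≤
        CH p (fun ω => D (L ω)) y := by
      intro i _
      rw [← (cpn_marg h0 z 2 i).CH (fun ω => D (L ω)) y]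
      refine CH_mono_cond m0 fun w w' hw hw' h => ?_
      obtain ⟨a1, a2⟩ := hpos w hw
      obtain ⟨b1, b2⟩ := hpos w' hw'
      have k1 : y (w i) = y (w a) := hC.yz _ _ (a1 i) (a1 a) ((a2 i).trans (a2 a).symm)
      have k2 : y (w' i) = y (w' a) := hC.yz _ _ (b1 i) (b1 a) ((b2 i).trans (b2 a).symm)
      show y (w i) = y (w' i)
      rw [k1, k2]
      exact hC.yL _ _ (a1 a) (b1 a) h
    rw [← Finset.add_sum_erase _ _ (Finset.mem_univ a), e1, zero_add]
    refine (Finset.sum_le_sum fun i hi => e2 i (Finset.ne_of_mem_erase hi)).trans (le_of_eq ?_)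
    rw [Finset.sum_const, Finset.card_erase_of_mem (Finset.mem_univ a), Finset.card_univ,
      Fintype.card_fin, nsmul_eq_mul]
    norm_num
  have h6 := hC.free
  linarith

/-- **The time of a sample given its line and the directions.** -/
theorem full_star (hC : CloH p L z y t D X x V P N M K e η c) (a : Fin 3) :
    Real.log (2 * M + 1) - 3 * e ≤
      CH (cpn p z 2) (fun w => t (w a)) (fun w => (dd L D w, L (w a))) := by
  have h0 := hC.law.nonneg
  have m0 := cpn_nonneg h0 z 2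
  have h1 := mi_le m0 (fun w : Fin 3 → Ω => t (w a)) (dd L D) (fun w => L (w a)) (fun w => w a)
    (fun w w' _ _ h => congrArg t h) (fun w w' _ _ h => congrArg L h)
  have h2 := D_one hC a
  have h3 : CH (cpn p z 2) (fun w => t (w a)) (fun w => L (w a)) = CH p t L :=
    (cpn_marg h0 z 2 a).CH t L
  have h4 := hC.full
  linarith

end star

end Pool.STB6
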