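import Mathlib.Analysis.SpecialFunctions.Pow.Real
import Mathlib.Analysis.SpecialFunctions.Log.Basic
import Mathlib.Tactic.FieldSimp
import Mathlib.Tactic.LinearCombination
import Mathlib.Tactic.Positivity
import Mathlib.Analysis.Complex.ExponentialBounds
import Mathlib.Algebra.Order.Floor.Semiring

/-!
# The numbers of the chains of lines

`rates`: the rates, for `J` large. The other lemmas: the inequalities in the shapes of their uses, from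
one linear inequality `A (y + x + 1) ≤ τ k`. Here `2 ^ k` is the size of a window, `2 ^ y` the size of
the losses, `x` the excess of the levels.
-/

set_option autoImplicit false

namespace Pool.STB6

open Real

/-- **The rates.** `k`: the digits of a window, `y`: the losses, `x`: the excess of the levels. -/
theorem rates {A τ kr C B : ℝ} (hA : 0 < A) (hτ : 0 < τ) (hkr : 0 < kr) (hC : 0 < C) (N₁ : ℕ) :
    ∃ ur s : ℝ, 0 < ur ∧ 0 < s ∧ s ≤ ur ∧ ur ≤ kr ∧ ∃ J₀ : ℕ, ∀ J : ℕ, J₀ ≤ J → ∀ k y x : ℕ,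
      k = ⌊kr * J⌋₊ → y = ⌊ur * J⌋₊ → (x : ℝ) ≤ s * J →
      A * ((y : ℝ) + x + 1) ≤ τ * k ∧ C * (s * J + 1) ≤ y * Real.log 2 ∧
      s * J + B ≤ τ * k * Real.log 2 ∧ N₁ ≤ y ∧ N₁ ≤ k ∧ (k : ℝ) ≤ kr * J ∧ (y : ℝ) ≤ ur * J := by
  have hl : 0 < Real.log 2 := Real.log_pos one_lt_two
  obtain ⟨ur, hur⟩ : ∃ ur : ℝ, ur = min kr (τ * kr / (8 * A)) := ⟨_, rfl⟩
  have hur0 : 0 < ur := by rw [hur]; exact lt_min hkr (by positivity)
  have hur1 : ur ≤ kr := by rw [hur]; exact min_le_left _ _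
  have hur2 : A * ur ≤ τ * kr / 8 := by
    have h1 : ur ≤ τ * kr / (8 * A) := by rw [hur]; exact min_le_right _ _
    calc A * ur ≤ A * (τ * kr / (8 * A)) := mul_le_mul_of_nonneg_left h1 hA.le
      _ = τ * kr / 8 := by field_simp
  obtain ⟨s, hs⟩ : ∃ s : ℝ, s = min ur (min (ur * Real.log 2 / (4 * C))
    (τ * kr * Real.log 2 / 4)) := ⟨_, rfl⟩
  have hs0 : 0 < s := by rw [hs]; exact lt_min hur0 (lt_min (by positivity) (by positivity))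
  have hs1 : s ≤ ur := by rw [hs]; exact min_le_left _ _
  have hs2 : C * s ≤ ur * Real.log 2 / 4 := by
    have h1 : s ≤ ur * Real.log 2 / (4 * C) := by
      rw [hs]; exact (min_le_right _ _).trans (min_le_left _ _)
    calc C * s ≤ C * (ur * Real.log 2 / (4 * C)) := mul_le_mul_of_nonneg_left h1 hC.le
      _ = _ := by field_simp
  have hs3 : s ≤ τ * kr * Real.log 2 / 4 := by
    rw [hs]; exact (min_le_right _ _).trans (min_le_right _ _)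
  obtain ⟨J₁, hJ₁⟩ := exists_nat_ge (((N₁ : ℝ) + 2) / ur)
  obtain ⟨J₂, hJ₂⟩ := exists_nat_ge ((4 * (A + τ)) / (τ * kr))
  obtain ⟨J₃, hJ₃⟩ := exists_nat_ge ((4 * (C + Real.log 2)) / (ur * Real.log 2))
  obtain ⟨J₄, hJ₄⟩ := exists_nat_ge ((4 * (|B| + τ * Real.log 2)) / (τ * kr * Real.log 2))
  refine ⟨ur, s, hur0, hs0, hs1, hur1, max (max J₁ J₂) (max J₃ J₄), ?_⟩
  intro J hJ k y x hk hy hx
  have c1 : ((J₁ : ℕ) : ℝ) ≤ J := by
    exact_mod_cast ((le_max_left _ _).trans (le_max_left _ _)).trans hJ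
  have c2 : ((J₂ : ℕ) : ℝ) ≤ J := by
    exact_mod_cast ((le_max_right _ _).trans (le_max_left _ _)).trans hJ
  have c3 : ((J₃ : ℕ) : ℝ) ≤ J := by
    exact_mod_cast ((le_max_left _ _).trans (le_max_right _ _)).trans hJ
  have c4 : ((J₄ : ℕ) : ℝ) ≤ J := by
    exact_mod_cast ((le_max_right _ _).trans (le_max_right _ _)).trans hJ
  have hJ0 : (0 : ℝ) ≤ J := Nat.cast_nonneg J
  have d1 : (N₁ : ℝ) + 2 ≤ ur * J := by
    have := hJ₁.trans c1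
    rwa [div_le_iff₀ hur0, mul_comm] at this
  have d2 : 4 * (A + τ) ≤ τ * kr * J := by
    have := hJ₂.trans c2
    rw [div_le_iff₀ (by positivity)] at this
    linarith
  have d3 : 4 * (C + Real.log 2) ≤ ur * Real.log 2 * J := by
    have := hJ₃.trans c3
    rw [div_le_iff₀ (by positivity)] at this
    linarith
  have d4 : 4 * (|B| + τ * Real.log 2) ≤ τ * kr * Real.log 2 * J := by
    have := hJ₄.trans c4
    rw [div_le_iff₀ (by positivity)] at this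
    linarith
  have k1 : (k : ℝ) ≤ kr * J := by rw [hk]; exact Nat.floor_le (by positivity)
  have k2 : kr * J < k + 1 := by rw [hk]; exact Nat.lt_floor_add_one _
  have y1 : (y : ℝ) ≤ ur * J := by rw [hy]; exact Nat.floor_le (by positivity)
  have y2 : ur * J < y + 1 := by rw [hy]; exact Nat.lt_floor_add_one _
  have hτk : τ * (kr * J) ≤ τ * (k + 1) := mul_le_mul_of_nonneg_left k2.le hτ.le
  refine ⟨?_, ?_, ?_, ?_, ?_, k1, y1⟩
  · have h1 : A * ((y : ℝ) + x + 1) ≤ A * (ur * J + ur * J + 1) := by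
      refine mul_le_mul_of_nonneg_left ?_ hA.le
      have : s * J ≤ ur * J := mul_le_mul_of_nonneg_right hs1 hJ0
      linarith
    have h2 : A * (ur * J) ≤ τ * kr / 8 * J := by
      rw [← mul_assoc]
      exact mul_le_mul_of_nonneg_right hur2 hJ0
    nlinarith
  · have h1 : C * (s * J) ≤ ur * Real.log 2 / 4 * J := by
      rw [← mul_assoc]
      exact mul_le_mul_of_nonneg_right hs2 hJ0
    have h2 : ur * J * Real.log 2 ≤ (y + 1) * Real.log 2 :=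
      mul_le_mul_of_nonneg_right y2.le hl.le
    nlinarith
  · have h1 : s * J ≤ τ * kr * Real.log 2 / 4 * J := mul_le_mul_of_nonneg_right hs3 hJ0
    have h2 : τ * (kr * J) * Real.log 2 ≤ τ * (k + 1) * Real.log 2 :=
      mul_le_mul_of_nonneg_right hτk hl.le
    have h3 := le_abs_self B
    have h4 : 0 ≤ |B| := abs_nonneg B
    nlinarith
  · have : (N₁ : ℝ) ≤ y := by linarith
    exact_mod_cast this
  · have h1 : ur * J ≤ kr * J := mul_le_mul_of_nonneg_right hur1 hJ0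
    have : (N₁ : ℝ) ≤ k := by linarith
    exact_mod_cast this

/-- **The rates, in the order of the chain.** `A` (degree, number of chain windows) comes first, then
the rate `ur` of the losses, then the constants `C`, `B`, `N₁` (which may depend on the number of the
balls), then the rate `s` of the excess. -/
theorem rates2 {A τ kr : ℝ} (hA : 0 < A) (hτ : 0 < τ) (hkr : 0 < kr) :
    ∃ ur : ℝ, 0 < ur ∧ ur ≤ kr ∧ ∀ (C B : ℝ) (N₁ : ℕ), 0 < C → ∃ s : ℝ, 0 < s ∧ s ≤ ur ∧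
      ∃ J₀ : ℕ, ∀ J : ℕ, J₀ ≤ J → ∀ k y x : ℕ,
      k = ⌊kr * J⌋₊ → y = ⌊ur * J⌋₊ → (x : ℝ) ≤ s * J →
      A * ((y : ℝ) + x + 1) ≤ τ * k ∧ C * (s * J + 1) ≤ y * Real.log 2 ∧
      s * J + B ≤ τ * k * Real.log 2 ∧ N₁ ≤ y ∧ N₁ ≤ k ∧ (k : ℝ) ≤ kr * J ∧ (y : ℝ) ≤ ur * J := by
  have hl : 0 < Real.log 2 := Real.log_pos one_lt_two
  obtain ⟨ur, hur⟩ : ∃ ur : ℝ, ur = min kr (τ * kr / (8 * A)) := ⟨_, rfl⟩
  have hur0 : 0 < ur := by rw [hur]; exact lt_min hkr (by positivity)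
  have hur1 : ur ≤ kr := by rw [hur]; exact min_le_left _ _
  have hur2 : A * ur ≤ τ * kr / 8 := by
    have h1 : ur ≤ τ * kr / (8 * A) := by rw [hur]; exact min_le_right _ _
    calc A * ur ≤ A * (τ * kr / (8 * A)) := mul_le_mul_of_nonneg_left h1 hA.le
      _ = τ * kr / 8 := by field_simp
  refine ⟨ur, hur0, hur1, ?_⟩
  intro C B N₁ hC
  obtain ⟨s, hs⟩ : ∃ s : ℝ, s = min ur (min (ur * Real.log 2 / (4 * C))
    (τ * kr * Real.log 2 / 4)) := ⟨_, rfl⟩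
  have hs0 : 0 < s := by rw [hs]; exact lt_min hur0 (lt_min (by positivity) (by positivity))
  have hs1 : s ≤ ur := by rw [hs]; exact min_le_left _ _
  have hs2 : C * s ≤ ur * Real.log 2 / 4 := by
    have h1 : s ≤ ur * Real.log 2 / (4 * C) := by
      rw [hs]; exact (min_le_right _ _).trans (min_le_left _ _)
    calc C * s ≤ C * (ur * Real.log 2 / (4 * C)) := mul_le_mul_of_nonneg_left h1 hC.le
      _ = _ := by field_simp
  have hs3 : s ≤ τ * kr * Real.log 2 / 4 := by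
    rw [hs]; exact (min_le_right _ _).trans (min_le_right _ _)
  obtain ⟨J₁, hJ₁⟩ := exists_nat_ge (((N₁ : ℝ) + 2) / ur)
  obtain ⟨J₂, hJ₂⟩ := exists_nat_ge ((4 * (A + τ)) / (τ * kr))
  obtain ⟨J₃, hJ₃⟩ := exists_nat_ge ((4 * (C + Real.log 2)) / (ur * Real.log 2))
  obtain ⟨J₄, hJ₄⟩ := exists_nat_ge ((4 * (|B| + τ * Real.log 2)) / (τ * kr * Real.log 2))
  refine ⟨s, hs0, hs1, max (max J₁ J₂) (max J₃ J₄), ?_⟩
  intro J hJ k y x hk hy hx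
  have c1 : ((J₁ : ℕ) : ℝ) ≤ J := by
    exact_mod_cast ((le_max_left _ _).trans (le_max_left _ _)).trans hJ
  have c2 : ((J₂ : ℕ) : ℝ) ≤ J := by
    exact_mod_cast ((le_max_right _ _).trans (le_max_left _ _)).trans hJ
  have c3 : ((J₃ : ℕ) : ℝ) ≤ J := by
    exact_mod_cast ((le_max_left _ _).trans (le_max_right _ _)).trans hJ
  have c4 : ((J₄ : ℕ) : ℝ) ≤ J := by
    exact_mod_cast ((le_max_right _ _).trans (le_max_right _ _)).trans hJ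
  have hJ0 : (0 : ℝ) ≤ J := Nat.cast_nonneg J
  have d1 : (N₁ : ℝ) + 2 ≤ ur * J := by
    have := hJ₁.trans c1
    rwa [div_le_iff₀ hur0, mul_comm] at this
  have d2 : 4 * (A + τ) ≤ τ * kr * J := by
    have := hJ₂.trans c2
    rw [div_le_iff₀ (by positivity)] at this
    linarith
  have d3 : 4 * (C + Real.log 2) ≤ ur * Real.log 2 * J := by
    have := hJ₃.trans c3
    rw [div_le_iff₀ (by positivity)] at this
    linarith
  have d4 : 4 * (|B| + τ * Real.log 2) ≤ τ * kr * Real.log 2 * J := by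
    have := hJ₄.trans c4
    rw [div_le_iff₀ (by positivity)] at this
    linarith
  have k1 : (k : ℝ) ≤ kr * J := by rw [hk]; exact Nat.floor_le (by positivity)
  have k2 : kr * J < k + 1 := by rw [hk]; exact Nat.lt_floor_add_one _
  have y1 : (y : ℝ) ≤ ur * J := by rw [hy]; exact Nat.floor_le (by positivity)
  have y2 : ur * J < y + 1 := by rw [hy]; exact Nat.lt_floor_add_one _
  have hτk : τ * (kr * J) ≤ τ * (k + 1) := mul_le_mul_of_nonneg_left k2.le hτ.le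
  refine ⟨?_, ?_, ?_, ?_, ?_, k1, y1⟩
  · have h1 : A * ((y : ℝ) + x + 1) ≤ A * (ur * J + ur * J + 1) := by
      refine mul_le_mul_of_nonneg_left ?_ hA.le
      have : s * J ≤ ur * J := mul_le_mul_of_nonneg_right hs1 hJ0
      linarith
    have h2 : A * (ur * J) ≤ τ * kr / 8 * J := by
      rw [← mul_assoc]
      exact mul_le_mul_of_nonneg_right hur2 hJ0
    nlinarith
  · have h1 : C * (s * J) ≤ ur * Real.log 2 / 4 * J := by
      rw [← mul_assoc]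
      exact mul_le_mul_of_nonneg_right hs2 hJ0
    have h2 : ur * J * Real.log 2 ≤ (y + 1) * Real.log 2 :=
      mul_le_mul_of_nonneg_right y2.le hl.le
    nlinarith
  · have h1 : s * J ≤ τ * kr * Real.log 2 / 4 * J := mul_le_mul_of_nonneg_right hs3 hJ0
    have h2 : τ * (kr * J) * Real.log 2 ≤ τ * (k + 1) * Real.log 2 :=
      mul_le_mul_of_nonneg_right hτk hl.le
    have h3 := le_abs_self B
    have h4 : 0 ≤ |B| := abs_nonneg B
    nlinarith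
  · have : (N₁ : ℝ) ≤ y := by linarith
    exact_mod_cast this
  · have h1 : ur * J ≤ kr * J := mul_le_mul_of_nonneg_right hur1 hJ0
    have : (N₁ : ℝ) ≤ k := by linarith
    exact_mod_cast this

/-- The steps of the balls: neighbours at the distance `ρ ≤ ur / 2` differ by at most `y` digits. -/
theorem ball_step {ur ρ w : ℝ} {J y : ℕ} (hw : 0 ≤ w) (hρ0 : 0 ≤ ρ) (hρ : ρ ≤ ur / 2)
    (hJ : 4 ≤ ur * J) (hy : y = ⌊ur * J⌋₊) : ⌊(w + ρ) * J⌋₊ ≤ ⌊w * J⌋₊ + y := by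
  have hJ0 : (0 : ℝ) ≤ J := Nat.cast_nonneg J
  have h1 : (⌊(w + ρ) * J⌋₊ : ℝ) ≤ (w + ρ) * J :=
    Nat.floor_le (mul_nonneg (add_nonneg hw hρ0) hJ0)
  have h2 : w * J < ⌊w * J⌋₊ + 1 := Nat.lt_floor_add_one _
  have h3 : ur * J < y + 1 := by rw [hy]; exact Nat.lt_floor_add_one _
  have h4 : ρ * J ≤ ur / 2 * J := mul_le_mul_of_nonneg_right hρ hJ0
  have h5 : (⌊(w + ρ) * J⌋₊ : ℝ) ≤ ((⌊w * J⌋₊ + y : ℕ) : ℝ) := by
    push_cast
    nlinarith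
  exact_mod_cast h5

/-! ### Powers -/

/-- `(2 ^ k) ^ t` as a power of two. -/
theorem rp_two (k : ℕ) (t : ℝ) : (((2 ^ k : ℕ) : ℝ)) ^ t = (2 : ℝ) ^ ((k : ℝ) * t) := by
  have h : (((2 ^ k : ℕ) : ℝ)) = (2 : ℝ) ^ (k : ℝ) := by
    push_cast
    rw [Real.rpow_natCast]
  rw [h, ← Real.rpow_mul (by norm_num)]

theorem two_rp (s : ℕ) : (2 : ℝ) ^ s = (2 : ℝ) ^ (s : ℝ) := (Real.rpow_natCast 2 s).symm

/-- `2 ^ s ≤ (2 ^ k) ^ t`. -/
theorem pow_le_rp {s k : ℕ} {t : ℝ} (h : (s : ℝ) ≤ t * k) : (2 : ℝ) ^ s ≤ (((2 ^ k : ℕ) : ℝ)) ^ t := by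
  rw [rp_two, two_rp]
  exact Real.rpow_le_rpow_of_exponent_le one_le_two (by linarith)

/-- `(2 ^ k) ^ t ≤ 2 ^ s`. -/
theorem rp_le_pow {s k : ℕ} {t : ℝ} (h : t * k ≤ s) : (((2 ^ k : ℕ) : ℝ)) ^ t ≤ (2 : ℝ) ^ s := by
  rw [rp_two, two_rp]
  exact Real.rpow_le_rpow_of_exponent_le one_le_two (by linarith)

/-- `2 ^ s * (2 ^ k) ^ (-t) ≤ 1 / 2 ^ r`. -/
theorem rp_neg_le {s k r : ℕ} {t : ℝ} (h : (s : ℝ) + r ≤ t * k) :
    (2 : ℝ) ^ s * (((2 ^ k : ℕ) : ℝ)) ^ (-t) ≤ 1 / 2 ^ r := by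
  rw [rp_two, two_rp, two_rp, one_div, ← Real.rpow_neg (by norm_num), ← Real.rpow_add (by norm_num)]
  exact Real.rpow_le_rpow_of_exponent_le one_le_two (by linarith)

theorem rp_log (k : ℕ) : Real.log (((2 ^ k : ℕ) : ℝ)) = k * Real.log 2 := by
  push_cast
  rw [Real.log_pow]

/-- A constant times a power. -/
theorem c_pow_le_rp {C : ℝ} {c s k : ℕ} {t : ℝ} (hC : C ≤ 2 ^ c) (h : ((c + s : ℕ) : ℝ) ≤ t * k) :
    C * 2 ^ s ≤ (((2 ^ k : ℕ) : ℝ)) ^ t := by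
  refine le_trans ?_ (pow_le_rp h)
  rw [pow_add]
  exact mul_le_mul_of_nonneg_right hC (by positivity)

/-! ### The windows: `WinD`, `jet_ev` -/

section

variable {A τ : ℝ} {k y x : ℕ}

/-- The comparison of linear forms. -/
theorem lin_le (H : A * ((y : ℝ) + x + 1) ≤ τ * k) {a b c : ℕ} (ha : (a : ℝ) ≤ A)
    (hb : (b : ℝ) ≤ A) (hc : (c : ℝ) ≤ A) : ((a * y + b * x + c : ℕ) : ℝ) ≤ τ * k := by
  push_cast
  have h1 : (a : ℝ) * y ≤ A * y := mul_le_mul_of_nonneg_right ha (Nat.cast_nonneg y)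
  have h2 : (b : ℝ) * x ≤ A * x := mul_le_mul_of_nonneg_right hb (Nat.cast_nonneg x)
  linarith

/-- The same with a smaller number of digits. -/
theorem lin_le' (H : A * ((y : ℝ) + x + 1) ≤ τ * k) {s a b c : ℕ} {t : ℝ} (ht : τ ≤ t)
    (hs : s ≤ a * y + b * x + c) (ha : (a : ℝ) ≤ A) (hb : (b : ℝ) ≤ A) (hc : (c : ℝ) ≤ A) :
    (s : ℝ) ≤ t * k := by
  have h1 := lin_le H ha hb hc
  have h2 : (s : ℝ) ≤ ((a * y + b * x + c : ℕ) : ℝ) := by exact_mod_cast hs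
  have h3 : τ * k ≤ t * k := mul_le_mul_of_nonneg_right ht (Nat.cast_nonneg k)
  linarith

/-- Natural numbers: a linear form is at most `k`. -/
theorem lin_nat (H : A * ((y : ℝ) + x + 1) ≤ τ * k) (hτ : τ ≤ 1) {s a b c : ℕ}
    (hs : s ≤ a * y + b * x + c) (ha : (a : ℝ) ≤ A) (hb : (b : ℝ) ≤ A) (hc : (c : ℝ) ≤ A) :
    s ≤ k := by
  have h1 := lin_le' H hτ hs ha hb hc
  rw [one_mul] at h1
  exact_mod_cast h1

/-- `wind_of`, `chh_vis`: the constant `C Y` of the positions. -/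
theorem vn_CY (H : A * ((y : ℝ) + x + 1) ≤ τ * k) {C e₀ : ℝ} {c : ℕ} (hC : C ≤ 2 ^ c)
    (hc : (c : ℝ) ≤ A) (hA : 1 ≤ A) (hτ : τ ≤ e₀) : C * 2 ^ y ≤ (((2 ^ k : ℕ) : ℝ)) ^ e₀ := by
  refine c_pow_le_rp hC (lin_le' H hτ (a := 1) (b := 0) (c := c) (by omega) (by
    rw [Nat.cast_one]; exact hA) (by rw [Nat.cast_zero]; linarith) hc)

/-- `wind_of`: the constant `C Y` of the positions, for a constant which is at most `2 ^ y`. -/
theorem vn_CY' (H : A * ((y : ℝ) + x + 1) ≤ τ * k) {C e₀ : ℝ} (hC : C ≤ 2 ^ y)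
    (hA : 2 ≤ A) (hτ : τ ≤ e₀) : C * 2 ^ y ≤ (((2 ^ k : ℕ) : ℝ)) ^ e₀ := by
  refine c_pow_le_rp hC (lin_le' H hτ (a := 2) (b := 0) (c := 0) (by omega) (by
    push_cast; exact hA) (by rw [Nat.cast_zero]; linarith) (by rw [Nat.cast_zero]; linarith))

/-- A constant which is at most `2 ^ y`. -/
theorem vn_C' (H : A * ((y : ℝ) + x + 1) ≤ τ * k) {C e₀ : ℝ} (hC : C ≤ 2 ^ y)
    (hA : 1 ≤ A) (hτ : τ ≤ e₀) : C ≤ (((2 ^ k : ℕ) : ℝ)) ^ e₀ := by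
  refine hC.trans (pow_le_rp (lin_le' H hτ (a := 1) (b := 0) (c := 0) (by omega) (by
    rw [Nat.cast_one]; exact hA) (by rw [Nat.cast_zero]; linarith)
    (by rw [Nat.cast_zero]; linarith)))

/-- A constant. -/
theorem vn_C (H : A * ((y : ℝ) + x + 1) ≤ τ * k) {C e₀ : ℝ} {c : ℕ} (hC : C ≤ 2 ^ c)
    (hc : (c : ℝ) ≤ A) (hA : 0 ≤ A) (hτ : τ ≤ e₀) : C ≤ (((2 ^ k : ℕ) : ℝ)) ^ e₀ := by
  refine hC.trans (pow_le_rp (lin_le' H hτ (a := 0) (b := 0) (c := c) (by omega) (by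
    rw [Nat.cast_zero]; linarith) (by rw [Nat.cast_zero]; linarith) hc))

/-- `jet_ev`: `Y ^ E ≤ 2 ^ k`. -/
theorem vn_YE (H : A * ((y : ℝ) + x + 1) ≤ τ * k) {E : ℕ} (hE : (E : ℝ) ≤ A) (hτ : τ ≤ 1) :
    ((2 : ℝ) ^ y) ^ E ≤ 2 ^ k := by
  rw [← pow_mul]
  refine pow_le_pow_right₀ one_le_two (lin_nat H hτ (a := E) (b := 0) (c := 0) (by
    rw [mul_comm]; omega) hE (by rw [Nat.cast_zero]; exact (Nat.cast_nonneg E).trans hE)
    (by rw [Nat.cast_zero]; exact (Nat.cast_nonneg E).trans hE))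

/-- `jet_ev`, `pos_ev`: the number `σ = Y ^ 2`. -/
theorem vn_sig {n y : ℕ} (hy : 108 * n + 4 ≤ y) :
    108 * (n : ℝ) * 2 ^ y ≤ (2 ^ y) ^ 2 ∧ 4 * (2 : ℝ) ^ y ≤ (2 ^ y) ^ 2 := by
  have h1 : y < 2 ^ y := Nat.lt_two_pow_self
  have h2 : ((108 * n + 4 : ℕ) : ℝ) ≤ 2 ^ y := by
    have h3 : 108 * n + 4 ≤ 2 ^ y := by omega
    exact_mod_cast h3
  push_cast at h2
  have h3 : (0 : ℝ) < 2 ^ y := by positivity
  have h4 : (0 : ℝ) ≤ n := Nat.cast_nonneg n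
  constructor <;> nlinarith

/-- `jet_ev`: `C ≤ Y`. -/
theorem vn_CleY {C : ℝ} {c y : ℕ} (hC : C ≤ 2 ^ c) (hy : c ≤ y) : C ≤ 2 ^ y :=
  hC.trans (pow_le_pow_right₀ one_le_two hy)

/-- `jet_ev`: `exp (C (θ + 1)) ≤ Y`. -/
theorem vn_exp {C θ : ℝ} {y : ℕ} (h : C * (θ + 1) ≤ y * Real.log 2) :
    Real.exp (C * (θ + 1)) ≤ 2 ^ y := by
  have h1 : (2 : ℝ) ^ y = Real.exp (y * Real.log 2) := by
    rw [mul_comm, Real.exp_mul, Real.exp_log two_pos, Real.rpow_natCast]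
  rw [h1]
  exact Real.exp_le_exp.2 h

/-- `chh_vis`: the cardinality of the data of a line. -/
theorem vn_card {T₀ : ℕ} {n : ℕ} {e₀ lc : ℝ} (hn0 : 0 < n) (hn : 2 * (T₀ : ℝ) ≤ e₀ * n) (hk : 2 ≤ k)
    (hlc : lc ≤ T₀ * ((k + 2) * Real.log 2)) : lc / n ≤ e₀ * Real.log (((2 ^ k : ℕ) : ℝ)) := by
  have hl : 0 < Real.log 2 := Real.log_pos one_lt_two
  have hn' : (0 : ℝ) < n := by exact_mod_cast hn0
  have hk' : (2 : ℝ) ≤ k := by exact_mod_cast hk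
  rw [rp_log, div_le_iff₀ hn']
  have h1 : (T₀ : ℝ) * ((k + 2) * Real.log 2) ≤ T₀ * (2 * k * Real.log 2) :=
    mul_le_mul_of_nonneg_left (mul_le_mul_of_nonneg_right (by linarith) hl.le)
      (Nat.cast_nonneg T₀)
  have h2 : 2 * (T₀ : ℝ) * (k * Real.log 2) ≤ e₀ * n * (k * Real.log 2) :=
    mul_le_mul_of_nonneg_right hn (by positivity)
  linarith

/-- `chh_vis`: the fullness of the time. -/
theorem vn_full {s e₀ : ℝ} {J : ℕ} (h : s * J + Real.log 3 ≤ τ * k * Real.log 2) (hτ : τ ≤ e₀) :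
    s * J + Real.log 3 ≤ e₀ * Real.log (((2 ^ k : ℕ) : ℝ)) := by
  have hl : 0 < Real.log 2 := Real.log_pos one_lt_two
  rw [rp_log]
  refine h.trans ?_
  rw [mul_assoc]
  exact mul_le_mul_of_nonneg_right hτ (by positivity)

/-! ### General position: `winV_of`, `gnum_of` -/

/-- `winV_of`: the digits of the position of the first place. -/
theorem vn_g0 {W₀ r y : ℕ} (h : 2 * y + 1 ≤ W₀ + r) :
    2 * ((2 : ℝ) ^ y) ^ 2 * 2 ^ (W₀ + r - (2 * y + 1)) ≤ 2 ^ (W₀ + r) := by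
  have h1 : (2 : ℝ) ^ (W₀ + r) = 2 ^ (2 * y + 1) * 2 ^ (W₀ + r - (2 * y + 1)) := by
    rw [← pow_add]
    congr 1
    omega
  rw [h1, ← pow_mul, pow_succ, show y * 2 = 2 * y by ring]
  linarith

/-- `winV_of`: the size of the velocities. -/
theorem vn_V (H : A * ((y : ℝ) + x + 1) ≤ τ * k) (hA : 1 ≤ A) (hτ : τ ≤ 1) :
    (2 : ℝ) ^ y + ((2 : ℝ) ^ y) ^ 2 / 2 ^ k ≤ 2 ^ (y + 1) := by
  have hyk : y ≤ k := lin_nat H hτ (a := 1) (b := 0) (c := 0) (by omega) (by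
    rw [Nat.cast_one]; exact hA) (by rw [Nat.cast_zero]; linarith) (by
      rw [Nat.cast_zero]; linarith)
  have h1 : (2 : ℝ) ^ y ≤ 2 ^ k := pow_le_pow_right₀ one_le_two hyk
  have h2 : ((2 : ℝ) ^ y) ^ 2 / 2 ^ k ≤ 2 ^ y := by
    rw [div_le_iff₀ (by positivity), sq]
    exact mul_le_mul_of_nonneg_left h1 (by positivity)
  have h3 : (2 : ℝ) ^ (y + 1) = 2 ^ y * 2 := pow_succ _ _
  rw [h3]
  linarith

/-- `winV_of`: the width of the general position, `N = y + 2 x + 7`. -/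
theorem vn_N (H : A * ((y : ℝ) + x + 1) ≤ τ * k) (hA : 9 ≤ A) {γ₀ : ℝ} (hτ : τ ≤ γ₀) (hτ1 : τ ≤ 1) :
    ((2 : ℝ) ^ y) ^ 2 * (((2 ^ k : ℕ) : ℝ)) ^ (-γ₀) + 2 * (((2 : ℝ) ^ y) ^ 2 / 2 ^ k) ≤
      1 / 2 ^ (y + 2 * x + 7) := by
  have h1 : ((2 : ℝ) ^ y) ^ 2 * (((2 ^ k : ℕ) : ℝ)) ^ (-γ₀) ≤ 1 / 2 ^ (y + 2 * x + 7 + 1) := by
    rw [← pow_mul]
    refine rp_neg_le ?_
    have h2 := lin_le' H hτ (s := y * 2 + (y + 2 * x + 7 + 1)) (a := 3) (b := 2) (c := 8)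
      (by omega) (by push_cast; linarith) (by push_cast; linarith) (by push_cast; linarith)
    push_cast at h2 ⊢
    exact h2
  have h2 : 2 * (((2 : ℝ) ^ y) ^ 2 / 2 ^ k) ≤ 1 / 2 ^ (y + 2 * x + 7 + 1) := by
    rw [← pow_mul, mul_div_assoc', div_le_div_iff₀ (by positivity) (by positivity), one_mul]
    have h3 : 1 + y * 2 + (y + 2 * x + 7 + 1) ≤ k := lin_nat H hτ1 (a := 3) (b := 2) (c := 9)
      (by omega) (by push_cast; linarith) (by push_cast; linarith) (by push_cast; linarith)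
    calc 2 * (2 : ℝ) ^ (y * 2) * 2 ^ (y + 2 * x + 7 + 1) =
        2 ^ (1 + y * 2 + (y + 2 * x + 7 + 1)) := by
          rw [pow_add 2 (1 + y * 2) _, pow_add 2 1 (y * 2), pow_one]
      _ ≤ 2 ^ k := pow_le_pow_right₀ one_le_two h3
  have h3 : (1 : ℝ) / 2 ^ (y + 2 * x + 7) = 1 / 2 ^ (y + 2 * x + 7 + 1) +
      1 / 2 ^ (y + 2 * x + 7 + 1) := by
    have h4 : (2 : ℝ) ^ (y + 2 * x + 7 + 1) = 2 ^ (y + 2 * x + 7) * 2 := pow_succ _ _
    rw [h4]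
    field_simp
    norm_num
  rw [h3]
  exact add_le_add h1 h2

/-- `gnum_of`: the error of the motion. -/
theorem vn_Er (H : A * ((y : ℝ) + x + 1) ≤ τ * k) {C : ℝ} {c : ℕ} (hC : C ≤ 2 ^ c)
    (hc : (c : ℝ) + 3 ≤ A) (hτ : τ ≤ 1) :
    C * 2 ^ y / 2 ^ k + ((2 : ℝ) ^ y) ^ 2 / 2 ^ k ≤ 1 / 2 ^ (x + 2) := by
  have hc0 : (0 : ℝ) ≤ c := Nat.cast_nonneg c
  have h1 : C * 2 ^ y / 2 ^ k ≤ 1 / 2 ^ (x + 2 + 1) := by
    rw [div_le_div_iff₀ (by positivity) (by positivity), one_mul]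
    have h3 : c + y + (x + 2 + 1) ≤ k := lin_nat H hτ (a := 1) (b := 1) (c := c + 3)
      (by omega) (by push_cast; linarith) (by push_cast; linarith) (by push_cast; linarith)
    calc C * 2 ^ y * 2 ^ (x + 2 + 1) ≤ 2 ^ c * 2 ^ y * 2 ^ (x + 2 + 1) :=
          mul_le_mul_of_nonneg_right (mul_le_mul_of_nonneg_right hC (by positivity))
            (by positivity)
      _ = 2 ^ (c + y + (x + 2 + 1)) := by rw [pow_add 2 (c + y), pow_add 2 c y]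
      _ ≤ 2 ^ k := pow_le_pow_right₀ one_le_two h3
  have h2 : ((2 : ℝ) ^ y) ^ 2 / 2 ^ k ≤ 1 / 2 ^ (x + 2 + 1) := by
    rw [← pow_mul, div_le_div_iff₀ (by positivity) (by positivity), one_mul, ← pow_add]
    refine pow_le_pow_right₀ one_le_two (lin_nat H hτ (a := 2) (b := 1) (c := 3)
      (by omega) (by push_cast; linarith) (by push_cast; linarith) (by push_cast; linarith))
  have h3 : (1 : ℝ) / 2 ^ (x + 2) = 1 / 2 ^ (x + 2 + 1) + 1 / 2 ^ (x + 2 + 1) := by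
    have h4 : (2 : ℝ) ^ (x + 2 + 1) = 2 ^ (x + 2) * 2 := pow_succ _ _
    rw [h4]
    field_simp
    norm_num
  rw [h3]
  exact add_le_add h1 h2

/-- `gnum_of`: the error of the motion, for a constant which is at most `2 ^ y`. -/
theorem vn_Er' (H : A * ((y : ℝ) + x + 1) ≤ τ * k) {C : ℝ} (hC : C ≤ 2 ^ y)
    (hA : 3 ≤ A) (hτ : τ ≤ 1) :
    C * 2 ^ y / 2 ^ k + ((2 : ℝ) ^ y) ^ 2 / 2 ^ k ≤ 1 / 2 ^ (x + 2) := by
  have h1 : C * 2 ^ y / 2 ^ k ≤ 1 / 2 ^ (x + 2 + 1) := by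
    rw [div_le_div_iff₀ (by positivity) (by positivity), one_mul]
    have h3 : y + y + (x + 2 + 1) ≤ k := lin_nat H hτ (a := 2) (b := 1) (c := 3)
      (by omega) (by push_cast; linarith) (by push_cast; linarith) (by push_cast; linarith)
    calc C * 2 ^ y * 2 ^ (x + 2 + 1) ≤ 2 ^ y * 2 ^ y * 2 ^ (x + 2 + 1) :=
          mul_le_mul_of_nonneg_right (mul_le_mul_of_nonneg_right hC (by positivity))
            (by positivity)
      _ = 2 ^ (y + y + (x + 2 + 1)) := by rw [pow_add 2 (y + y), pow_add 2 y y]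
      _ ≤ 2 ^ k := pow_le_pow_right₀ one_le_two h3
  have h2 : ((2 : ℝ) ^ y) ^ 2 / 2 ^ k ≤ 1 / 2 ^ (x + 2 + 1) := by
    rw [← pow_mul, div_le_div_iff₀ (by positivity) (by positivity), one_mul, ← pow_add]
    refine pow_le_pow_right₀ one_le_two (lin_nat H hτ (a := 2) (b := 1) (c := 3)
      (by omega) (by push_cast; linarith) (by push_cast; linarith) (by push_cast; linarith))
  have h3 : (1 : ℝ) / 2 ^ (x + 2) = 1 / 2 ^ (x + 2 + 1) + 1 / 2 ^ (x + 2 + 1) := by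
    have h4 : (2 : ℝ) ^ (x + 2 + 1) = 2 ^ (x + 2) * 2 := pow_succ _ _
    rw [h4]
    field_simp
    norm_num
  rw [h3]
  exact add_le_add h1 h2

/-! ### Nonfullness: `winN_cls` -/

/-- `winN_cls`: the last inequality, from a row bound `D` of a row of `k + s'` digits. -/
theorem vn_row (H : A * ((y : ℝ) + x + 1) ≤ τ * k) {hr e₀ D R δ ε : ℝ} {J : ℕ} {a : ℝ}
    (hr0 : 0 ≤ hr) (hr1 : hr ≤ 1) (ha0 : 0 ≤ a) (haA : a ≤ A) (he₀ : 0 ≤ e₀) (hτ : τ ≤ hr / 8)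
    (hD : D ≤ (1 - hr) * ((k : ℝ) + a * (y + x + 1)) * Real.log 2 + ε * J)
    (hsm : (2 * ε + (R + 1) * δ) * J ≤ hr / 8 * k * Real.log 2) :
    D + (ε + (R + 1) * δ) * J ≤ (1 - hr / 2) * Real.log (((2 ^ k : ℕ) : ℝ)) +
      e₀ * Real.log (((2 ^ k : ℕ) : ℝ)) := by
  have hl : 0 < Real.log 2 := Real.log_pos one_lt_two
  have hk0 : (0 : ℝ) ≤ k := Nat.cast_nonneg k
  have hy0 : (0 : ℝ) ≤ (y : ℝ) + x + 1 := by positivity
  rw [rp_log]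
  have h1 : a * ((y : ℝ) + x + 1) ≤ hr / 8 * k := by
    have h2 : a * ((y : ℝ) + x + 1) ≤ A * (y + x + 1) := mul_le_mul_of_nonneg_right haA hy0
    have h3 : τ * k ≤ hr / 8 * k := mul_le_mul_of_nonneg_right hτ hk0
    linarith
  have h2 : (1 - hr) * ((k : ℝ) + a * (y + x + 1)) * Real.log 2 ≤
      ((1 - hr) * k + hr / 8 * k) * Real.log 2 := by
    refine mul_le_mul_of_nonneg_right ?_ hl.le
    have h3 : (1 - hr) * (a * (y + x + 1)) ≤ 1 * (a * (y + x + 1)) :=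
      mul_le_mul_of_nonneg_right (by linarith) (by positivity)
    linarith
  have h3 : 0 ≤ e₀ * (k * Real.log 2) := by positivity
  have h4 : 0 ≤ hr * k * Real.log 2 := by positivity
  nlinarith

/-! ### The end: `stb_false` -/

/-- `stb_false`: the value at the position. -/
theorem vn_mu1 (H : A * ((y : ℝ) + x + 1) ≤ τ * k) {mu ε : ℝ} {z p a : ℕ} (hmu0 : 0 ≤ mu)
    (hmu : mu ≤ 2 ^ z / 2 ^ p) (hz : z ≤ a * y + a * x + a) (ha : (a : ℝ) + 3 ≤ A) (hτ : τ ≤ 1 / 2)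
    (hε : ε ≤ 4 / 2 ^ k) : mu * ((((2 ^ k : ℕ) : ℝ)) ^ (1 / 2 : ℝ) * ε) ≤ 1 / 2 ^ (p + 1) := by
  have ha0 : (0 : ℝ) ≤ a := Nat.cast_nonneg a
  have h1 := lin_le' H hτ (s := z + 3) (a := a) (b := a) (c := a + 3) (by omega)
    (by linarith) (by linarith) (by push_cast; linarith)
  have h2 : (((2 ^ k : ℕ) : ℝ)) ^ (1 / 2 : ℝ) * ε ≤ (((2 ^ k : ℕ) : ℝ)) ^ (1 / 2 : ℝ) * (4 / 2 ^ k) :=
    mul_le_mul_of_nonneg_left hε (by positivity)
  have h3 : (((2 ^ k : ℕ) : ℝ)) ^ (1 / 2 : ℝ) * (4 / 2 ^ k) =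
      4 * (((2 ^ k : ℕ) : ℝ)) ^ (-(1 / 2 : ℝ)) := by
    have h4 : (0 : ℝ) < ((2 ^ k : ℕ) : ℝ) := by positivity
    have h5 : (((2 ^ k : ℕ) : ℝ)) ^ (1 / 2 : ℝ) =
        (((2 ^ k : ℕ) : ℝ)) ^ (-(1 / 2 : ℝ)) * 2 ^ k := by
      have h6 : ((2 : ℝ) ^ k) = (((2 ^ k : ℕ) : ℝ)) ^ (1 : ℝ) := by
        rw [Real.rpow_one]
        push_cast
        rfl
      rw [h6, ← Real.rpow_add h4]
      congr 1
      norm_num
    rw [h5]
    field_simp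
  have h4 : (2 : ℝ) ^ (z + 2) * (((2 ^ k : ℕ) : ℝ)) ^ (-(1 / 2 : ℝ)) ≤ 1 / 2 ^ 1 := by
    refine rp_neg_le ?_
    push_cast at h1 ⊢
    linarith
  calc mu * ((((2 ^ k : ℕ) : ℝ)) ^ (1 / 2 : ℝ) * ε) ≤ 2 ^ z / 2 ^ p *
        (4 * (((2 ^ k : ℕ) : ℝ)) ^ (-(1 / 2 : ℝ))) := by
        rw [← h3]
        exact (mul_le_mul_of_nonneg_left h2 hmu0).trans
          (mul_le_mul_of_nonneg_right hmu (by positivity))
    _ = 1 / 2 ^ p * (2 ^ (z + 2) * (((2 ^ k : ℕ) : ℝ)) ^ (-(1 / 2 : ℝ))) := by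
        rw [pow_add]
        ring
    _ ≤ 1 / 2 ^ p * (1 / 2 ^ 1) := mul_le_mul_of_nonneg_left h4 (by positivity)
    _ = 1 / 2 ^ (p + 1) := by rw [pow_succ]; ring

/-- `stb_false`: the nearness. -/
theorem vn_mu2 (H : A * ((y : ℝ) + x + 1) ≤ τ * k) {mu γ : ℝ} {z p a : ℕ}
    (hmu : mu ≤ 2 ^ z / 2 ^ p) (hz : z ≤ a * y + a * x + a) (ha : (a : ℝ) ≤ A) (hτ : τ ≤ γ) :
    mu * (((2 ^ k : ℕ) : ℝ)) ^ (-γ) ≤ 1 / 2 ^ p := by
  have h1 := lin_le' H hτ hz ha ha ha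
  have h4 : (2 : ℝ) ^ z * (((2 ^ k : ℕ) : ℝ)) ^ (-γ) ≤ 1 / 2 ^ 0 := by
    refine rp_neg_le ?_
    rw [Nat.cast_zero, add_zero]
    exact h1
  calc mu * (((2 ^ k : ℕ) : ℝ)) ^ (-γ) ≤ 2 ^ z / 2 ^ p * (((2 ^ k : ℕ) : ℝ)) ^ (-γ) :=
        mul_le_mul_of_nonneg_right hmu (by positivity)
    _ = 1 / 2 ^ p * (2 ^ z * (((2 ^ k : ℕ) : ℝ)) ^ (-γ)) := by ring
    _ ≤ 1 / 2 ^ p * (1 / 2 ^ 0) := mul_le_mul_of_nonneg_left h4 (by positivity)
    _ = 1 / 2 ^ p := by norm_num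

/-- `stb_false`: the gradients. -/
theorem vn_mu3 {mu e₀ C₀ Λ : ℝ} {c e₁ z nl : ℕ} (he₀ : e₀ ≤ 1) (hC₀ : 0 ≤ C₀) (hC : C₀ ≤ 2 ^ c)
    (hΛ : 0 ≤ mu * Λ) (hmΛ : mu * Λ ≤ 2 ^ z * 2 ^ nl) (he₁ : c + 1 + k + z ≤ e₁) :
    C₀ * (mu * ((((2 ^ k : ℕ) : ℝ)) ^ e₀ + (((2 ^ k : ℕ) : ℝ)) ^ (1 / 2 : ℝ)) * Λ) ≤
      2 ^ (e₁ + nl) := by
  have hk0 : (0 : ℝ) ≤ k := Nat.cast_nonneg k
  have h1 : (((2 ^ k : ℕ) : ℝ)) ^ e₀ ≤ 2 ^ k := rp_le_pow (by nlinarith)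
  have h2 : (((2 ^ k : ℕ) : ℝ)) ^ (1 / 2 : ℝ) ≤ 2 ^ k := rp_le_pow (by linarith)
  have h3 : (0 : ℝ) ≤ (((2 ^ k : ℕ) : ℝ)) ^ e₀ + (((2 ^ k : ℕ) : ℝ)) ^ (1 / 2 : ℝ) := by positivity
  calc C₀ * (mu * ((((2 ^ k : ℕ) : ℝ)) ^ e₀ + (((2 ^ k : ℕ) : ℝ)) ^ (1 / 2 : ℝ)) * Λ) =
        C₀ * ((((2 ^ k : ℕ) : ℝ)) ^ e₀ + (((2 ^ k : ℕ) : ℝ)) ^ (1 / 2 : ℝ)) * (mu * Λ) := by ring
    _ ≤ 2 ^ c * (2 * 2 ^ k) * (2 ^ z * 2 ^ nl) := by
        refine mul_le_mul ?_ hmΛ hΛ (by positivity)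
        exact mul_le_mul hC (by linarith) h3 (by positivity)
    _ = 2 ^ (c + 1 + k + z + nl) := by
        rw [pow_add, pow_add, pow_add, pow_add, pow_one]
        ring
    _ ≤ 2 ^ (e₁ + nl) := pow_le_pow_right₀ one_le_two (by omega)

end

end Pool.STB6
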