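import Pool.Agent.H6.STB.Geo
import Pool.Agent.H36.KBX.Coef
import Pool.Agent.H89.GEN.PolyA

/-!
# Polynomials on the box: derivatives and the potential
-/

set_option autoImplicit false

namespace Pool.STB6

open Finset Real MvPolynomial
open Pool.STB (V3 Po Bx ln ln_eval ln_deg)

/-- The degree of a derivative. -/
theorem tdp {P : Po} {N : ℕ} (h : P.totalDegree ≤ N + 1) (i : Fin 3) :
    (pderiv i P).totalDegree ≤ N := by
  classical
  rw [totalDegree]
  refine Finset.sup_le fun k hk => ?_
  have h1 : coeff k (pderiv i P) ≠ 0 := mem_support_iff.1 hk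
  rw [coeff_pderiv] at h1
  have h2 : (k + Finsupp.single i 1) ∈ P.support := mem_support_iff.2 (left_ne_zero_of_mul h1)
  have h3 : ((k + Finsupp.single i 1).sum fun _ x => x) ≤ P.totalDegree := le_totalDegree h2
  have h4 : ((k + Finsupp.single i 1).sum fun _ x => x) = (k.sum fun _ x => x) + 1 := by
    rw [Finsupp.sum_add_index' (fun _ => rfl) (fun _ _ _ => rfl), Finsupp.sum_single_index rfl]
  omega

theorem tdp' {P : Po} {N : ℕ} (h : P.totalDegree ≤ N) (i : Fin 3) :
    (pderiv i P).totalDegree ≤ N := Pool.POLY.totalDegree_pderiv P i h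

theorem pdc (i j : Fin 3) (P : Po) : pderiv i (pderiv j P) = pderiv j (pderiv i P) := by
  ext d
  rw [coeff_pderiv, coeff_pderiv, coeff_pderiv, coeff_pderiv]
  by_cases hij : i = j
  · rw [hij]
  · rw [add_right_comm]
    have h1 : (d + (Finsupp.single i 1 : Fin 3 →₀ ℕ)) j = d j := by
      rw [Finsupp.add_apply, Finsupp.single_apply, if_neg hij, add_zero]
    have h2 : (d + (Finsupp.single j 1 : Fin 3 →₀ ℕ)) i = d i := by
      rw [Finsupp.add_apply, Finsupp.single_apply, if_neg (fun h => hij h.symm), add_zero]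
    rw [h1, h2]
    ring

/-- **The bounds on the box.** -/
theorem bdx (N : ℕ) : ∃ C : ℝ, 1 ≤ C ∧ ∀ (P : Po) (U : ℝ), P.totalDegree ≤ N →
    (∀ q : V3, Bx 1 q → |eval q P| ≤ U) → (∀ q : V3, Bx 8 q → |eval q P| ≤ C * U) ∧
    ∀ (j : Fin 3) (q : V3), Bx 8 q → |eval q (pderiv j P)| ≤ C * U := by
  obtain ⟨C, hC, h⟩ := Pool.Agent.H36.KBX.coef_bound 3 N
  refine ⟨((N : ℝ) + 1) ^ 3 * ((N + 1) * C * 8 ^ N) + 1, by
    have : (0 : ℝ) ≤ ((N : ℝ) + 1) ^ 3 * ((N + 1) * C * 8 ^ N) := by positivity
    linarith, fun P U hP hU => ?_⟩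
  have hU0 : 0 ≤ U := (abs_nonneg _).trans (hU 0 fun i => by simp)
  have h1 := h P U hP hU
  have hN : (0 : ℝ) ≤ N := Nat.cast_nonneg N
  have hb : ∀ (Q : Po), Q.totalDegree ≤ N → (∀ d, |coeff d Q| ≤ (N + 1) * (C * U)) →
      ∀ q : V3, Bx 8 q → |eval q Q| ≤ (((N : ℝ) + 1) ^ 3 * ((N + 1) * C * 8 ^ N) + 1) * U := by
    intro Q hQ hc q hq
    have h2 := Pool.POLY.abs_eval_le Q hQ hc (show (1 : ℝ) ≤ 8 by norm_num) q hq
    refine h2.trans ?_
    have : (((N : ℝ) + 1) ^ 3 * ((N + 1) * C * 8 ^ N) + 1) * U =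
      ((N : ℝ) + 1) ^ 3 * ((N + 1) * (C * U) * 8 ^ N) + U := by ring
    linarith
  refine ⟨hb P hP fun d => (h1 d).trans ?_, fun j => hb _ (tdp' hP j) fun d => ?_⟩
  · have : 0 ≤ C * U := by positivity
    nlinarith
  · rw [coeff_pderiv, abs_mul]
    by_cases h0 : coeff (d + Finsupp.single j 1) P = 0
    · rw [h0, abs_zero, zero_mul]
      positivity
    · have h2 : (d + Finsupp.single j 1) ∈ P.support := mem_support_iff.2 h0
      have h3 : (d + (Finsupp.single j 1 : Fin 3 →₀ ℕ)) j ≤ P.totalDegree := by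
        refine le_trans ?_ (degreeOf_le_totalDegree P j)
        exact (degreeOf_le_iff.1 le_rfl) _ h2
      have h4 : d j + 1 ≤ N := by
        rw [Finsupp.add_apply, Finsupp.single_eq_same] at h3
        omega
      have h5 : (d j : ℝ) + 1 ≤ N := by exact_mod_cast h4
      have h6 : (0 : ℝ) ≤ d j := Nat.cast_nonneg _
      rw [abs_of_nonneg (show (0 : ℝ) ≤ (d j : ℝ) + 1 by positivity), mul_comm]
      exact mul_le_mul (by linarith) (h1 _) (abs_nonneg _) (by positivity)

/-- The derivative along a line. -/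
theorem ln_der (a v : V3) (Φ : Po) : (ln a v Φ).derivative =
    ∑ k, Polynomial.C (v k) * ln a v (pderiv k Φ) := by
  have hadd : ∀ P Q : Po, ln a v (P + Q) = ln a v P + ln a v Q := fun P Q => by
    unfold ln
    rw [map_add]
  have hmul : ∀ P Q : Po, ln a v (P * Q) = ln a v P * ln a v Q := fun P Q => by
    unfold ln
    rw [map_mul]
  have h0 : ln a v 0 = 0 := by
    unfold ln
    rw [map_zero]
  induction Φ using MvPolynomial.induction_on with
  | C c =>
    have h1 : ln a v (C c) = Polynomial.C c := by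
      unfold ln
      rw [aeval_C]
      rfl
    rw [h1, Polynomial.derivative_C]
    refine (Finset.sum_eq_zero fun k _ => ?_).symm
    rw [pderiv_C, h0, mul_zero]
  | add p q hp hq =>
    rw [hadd, Polynomial.derivative_add, hp, hq, ← Finset.sum_add_distrib]
    refine Finset.sum_congr rfl fun k _ => ?_
    rw [map_add, hadd, mul_add]
  | mul_X p i hp =>
    have hX : ln a v (X i) = Polynomial.C (a i) + Polynomial.C (v i) * Polynomial.X := by
      unfold ln
      rw [aeval_X]
    have hX' : (ln a v (X i)).derivative = Polynomial.C (v i) := by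
      rw [hX, Polynomial.derivative_add, Polynomial.derivative_C, zero_add,
        Polynomial.derivative_C_mul, Polynomial.derivative_X, mul_one]
    rw [hmul, Polynomial.derivative_mul, hp, hX', Finset.sum_mul]
    have h2 : ∀ k : Fin 3, Polynomial.C (v k) * ln a v (pderiv k (p * X i)) =
        Polynomial.C (v k) * ln a v (pderiv k p) * ln a v (X i) +
          (if k = i then ln a v p * Polynomial.C (v i) else 0) := by
      intro k
      rw [pderiv_mul, hadd, hmul, hmul]
      by_cases hk : k = i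
      · rw [if_pos hk, hk, pderiv_X_self]
        have h1 : ln a v (1 : Po) = 1 := by
          unfold ln
          rw [map_one]
        rw [h1]
        ring
      · rw [if_neg hk, pderiv_X_of_ne (fun h => hk h.symm), h0]
        ring
    rw [Finset.sum_congr rfl fun k _ => h2 k, Finset.sum_add_distrib, Finset.sum_ite_eq' univ i]
    simp

theorem ln_sub (a v : V3) (P Q : Po) : ln a v (P - Q) = ln a v P - ln a v Q := by
  unfold ln
  rw [map_sub]

theorem ln_ev (a v : V3) (Φ : Po) (t : ℝ) : (ln a v Φ).eval t = eval (a + t • v) Φ := by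
  rw [ln_eval]
  congr 1

theorem ln_dev (a v : V3) (Φ : Po) (t : ℝ) : (ln a v Φ).derivative.eval t =
    ∑ k, v k * eval (a + t • v) (pderiv k Φ) := by
  rw [ln_der, Polynomial.eval_finsetSum]
  refine Finset.sum_congr rfl fun k _ => ?_
  rw [Polynomial.eval_mul, Polynomial.eval_C, ln_ev]

/-- **The mean value theorem on a box.** -/
theorem mv3 {P : Po} {r D : ℝ} {u w : V3} (hu : Bx r u) (hw : Bx r w)
    (hD : ∀ (j : Fin 3) (q : V3), Bx r q → |eval q (pderiv j P)| ≤ D) {ε : ℝ}
    (he : Bx ε (u - w)) : |eval u P - eval w P| ≤ 3 * (D * ε) := by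
  have hD0 : 0 ≤ D := (abs_nonneg _).trans (hD 0 u hu)
  have hconv : ∀ s : ℝ, s ∈ Set.Icc (0 : ℝ) 1 → Bx r (w + s • (u - w)) := by
    intro s hs i
    have h1 := abs_le.1 (hu i)
    have h2 := abs_le.1 (hw i)
    rw [Pi.add_apply, Pi.smul_apply, Pi.sub_apply, smul_eq_mul]
    obtain ⟨s0, s1⟩ := hs
    refine abs_le.2 ⟨?_, ?_⟩
    · nlinarith [h1.1, h2.1]
    · nlinarith [h1.2, h2.2]
  have hmvt := (convex_Icc (0 : ℝ) 1).norm_image_sub_le_of_norm_hasDerivWithin_le
    (f := fun s => (ln w (u - w) P).eval s) (f' := fun s => (ln w (u - w) P).derivative.eval s)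
    (C := 3 * (D * ε)) (x := 0) (y := 1)
    (fun s _ => ((ln w (u - w) P).hasDerivAt s).hasDerivWithinAt) (fun s hs => by
      rw [Real.norm_eq_abs, ln_dev]
      refine (Finset.abs_sum_le_sum_abs _ _).trans ?_
      have h1 : ∀ k ∈ (univ : Finset (Fin 3)), |(u - w) k *
          eval (w + s • (u - w)) (pderiv k P)| ≤ D * ε := by
        intro k _
        rw [abs_mul, mul_comm]
        exact mul_le_mul (hD k _ (hconv s hs)) (he k) (abs_nonneg _) hD0
      refine (Finset.sum_le_sum h1).trans (le_of_eq ?_)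
      rw [Finset.sum_const, Finset.card_univ, Fintype.card_fin, nsmul_eq_mul]
      norm_num) ⟨le_rfl, by norm_num⟩ ⟨by norm_num, le_rfl⟩
  rw [Real.norm_eq_abs, Real.norm_eq_abs, ln_ev, ln_ev] at hmvt
  have e1 : w + (1 : ℝ) • (u - w) = u := by rw [one_smul, add_sub_cancel]
  have e0 : w + (0 : ℝ) • (u - w) = w := by rw [zero_smul, add_zero]
  rw [e1, e0, sub_zero, abs_one, mul_one] at hmvt
  exact hmvt

/-- Markov's inequality in one variable. -/
theorem mk1 (N : ℕ) : ∃ C : ℝ, 1 ≤ C ∧ ∀ (P : Polynomial ℝ) (U : ℝ), P.natDegree ≤ N →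
    (∀ s : ℝ, |s| ≤ 1 → |P.eval s| ≤ U) → ∀ s : ℝ, |s| ≤ 1 → |P.derivative.eval s| ≤ C * U := by
  obtain ⟨C, hC, h⟩ := Pool.Agent.H40.BFL.mko_thm N
  refine ⟨C, hC, fun P U hP hU s hs => ?_⟩
  have h1 := h P (-1) 2 U hP (by norm_num) (fun t ht => hU t (abs_le.2 ⟨ht.1, by linarith [ht.2]⟩))
    s ⟨(abs_le.1 hs).1, by linarith [(abs_le.1 hs).2]⟩
  have hU0 : 0 ≤ U := (abs_nonneg _).trans (hU 0 (by simp))
  have : 0 ≤ C * U := by positivity
  linarith

/-- A polynomial of one variable as one of several. -/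
noncomputable def m1 (P : Polynomial ℝ) : MvPolynomial (Fin 1) ℝ := Polynomial.aeval (X 0) P

theorem m1_eval (P : Polynomial ℝ) (s : Fin 1 → ℝ) : eval s (m1 P) = P.eval (s 0) := by
  unfold m1
  induction P using Polynomial.induction_on' with
  | add p q hp hq => rw [map_add, map_add, hp, hq, Polynomial.eval_add]
  | monomial n c =>
    rw [Polynomial.aeval_monomial, map_mul, map_pow, eval_X, Polynomial.eval_monomial]
    congr 1
    exact eval_C _

theorem m1_deg (P : Polynomial ℝ) (i : Fin 1) : (m1 P).degreeOf i ≤ P.natDegree := by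
  classical
  unfold m1
  rw [Polynomial.aeval_eq_sum_range]
  refine (degreeOf_sum_le _ _ _).trans (Finset.sup_le fun k hk => ?_)
  rw [MvPolynomial.smul_eq_C_mul]
  refine (degreeOf_C_mul_le _ _ _).trans ((degreeOf_pow_le _ _ _).trans ?_)
  rw [degreeOf_X]
  have := Finset.mem_range.1 hk
  split_ifs <;> simp <;> omega

/-! ### The potential -/

/-- **The radial potential.** -/
noncomputable def pot (N : ℕ) (f : Fin 3 → Po) : Po :=
  ∑ d ∈ range (N + 1), C (1 / ((d : ℝ) + 1)) * ∑ i, X i * homogeneousComponent d (f i)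

theorem pot_sub (N : ℕ) (f g : Fin 3 → Po) : pot N (f - g) = pot N f - pot N g := by
  unfold pot
  rw [← Finset.sum_sub_distrib]
  refine Finset.sum_congr rfl fun d _ => ?_
  rw [← mul_sub, ← Finset.sum_sub_distrib]
  congr 1
  refine Finset.sum_congr rfl fun i _ => ?_
  rw [Pi.sub_apply, map_sub, mul_sub]

theorem pot_deg (N : ℕ) (f : Fin 3 → Po) : (pot N f).totalDegree ≤ N + 1 := by
  unfold pot
  refine (totalDegree_finsetSum _ _).trans (Finset.sup_le fun d hd => ?_)
  refine (totalDegree_mul _ _).trans ?_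
  rw [totalDegree_C, zero_add]
  refine (totalDegree_finsetSum _ _).trans (Finset.sup_le fun i _ => ?_)
  refine (totalDegree_mul _ _).trans ?_
  rw [totalDegree_X]
  have h1 := (homogeneousComponent_isHomogeneous d (f i)).totalDegree_le
  have h2 := Finset.mem_range.1 hd
  omega

theorem sum_hc {N : ℕ} {P : Po} (h : P.totalDegree ≤ N) :
    ∑ d ∈ range (N + 1), homogeneousComponent d P = P := by
  ext e
  rw [coeff_sum]
  simp only [coeff_homogeneousComponent]
  by_cases he : coeff e P = 0
  · rw [he]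
    refine Finset.sum_eq_zero fun d _ => ?_
    split_ifs <;> rfl
  · have h1 : e ∈ P.support := mem_support_iff.2 he
    have h2 : e.degree ≤ N := (le_totalDegree h1).trans h
    rw [Finset.sum_ite_eq (range (N + 1)) e.degree]
    rw [if_pos (Finset.mem_range.2 (by omega))]

theorem pot_pd {N : ℕ} {f : Fin 3 → Po} (hf : ∀ i, (f i).totalDegree ≤ N) (k : Fin 3) :
    pderiv k (pot N f) - f k = ∑ d ∈ range (N + 1), C (1 / ((d : ℝ) + 1)) *
      ∑ i, X i * (pderiv k (homogeneousComponent d (f i)) -
        pderiv i (homogeneousComponent d (f k))) := by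
  have e1 : f k = ∑ d ∈ range (N + 1), C (1 / ((d : ℝ) + 1)) *
      (C ((d : ℝ) + 1) * homogeneousComponent d (f k)) := by
    conv_lhs => rw [← sum_hc (hf k)]
    refine Finset.sum_congr rfl fun d _ => ?_
    rw [← mul_assoc, ← C_mul, one_div_mul_cancel (by positivity), C_1, one_mul]
  have e2 : pderiv k (pot N f) = ∑ d ∈ range (N + 1), C (1 / ((d : ℝ) + 1)) *
      (homogeneousComponent d (f k) + ∑ i, X i * pderiv k (homogeneousComponent d (f i))) := by
    unfold pot
    rw [map_sum]
    refine Finset.sum_congr rfl fun d _ => ?_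
    rw [pderiv_C_mul, map_sum]
    congr 1
    have h1 : ∀ i : Fin 3, pderiv k (X i * homogeneousComponent d (f i)) =
        (if i = k then homogeneousComponent d (f k) else 0) +
          X i * pderiv k (homogeneousComponent d (f i)) := by
      intro i
      rw [pderiv_mul]
      by_cases hi : i = k
      · rw [if_pos hi, hi, pderiv_X_self, one_mul]
      · rw [if_neg hi, pderiv_X_of_ne hi, zero_mul]
    rw [Finset.sum_congr rfl fun i _ => h1 i, Finset.sum_add_distrib, Finset.sum_ite_eq' univ k]
    simp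
  rw [e2]
  refine (congrArg (fun y => (∑ d ∈ range (N + 1), C (1 / ((d : ℝ) + 1)) *
      (homogeneousComponent d (f k) + ∑ i, X i * pderiv k (homogeneousComponent d (f i)))) - y)
      e1).trans ?_
  show _ - _ = _
  rw [← Finset.sum_sub_distrib]
  refine Finset.sum_congr rfl fun d _ => ?_
  rw [← mul_sub]
  congr 1
  have e3 := (homogeneousComponent_isHomogeneous d (f k)).sum_X_mul_pderiv
  have e4 : C ((d : ℝ) + 1) * homogeneousComponent d (f k) = homogeneousComponent d (f k) +
      ∑ i, X i * pderiv i (homogeneousComponent d (f k)) := by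
    rw [e3, nsmul_eq_mul, C_add, C_1, add_mul, one_mul, add_comm, map_natCast]
  rw [e4]
  simp only [mul_sub, Finset.sum_sub_distrib]
  ring

theorem hc_pd (d : ℕ) (f : Fin 3 → Po) (i k : Fin 3) (e : Fin 3 →₀ ℕ) :
    coeff e (pderiv k (homogeneousComponent d (f i)) - pderiv i (homogeneousComponent d (f k))) =
      if e.degree + 1 = d then coeff e (pderiv k (f i) - pderiv i (f k)) else 0 := by
  rw [coeff_sub, coeff_sub, coeff_pderiv, coeff_pderiv, coeff_pderiv, coeff_pderiv,
    coeff_homogeneousComponent, coeff_homogeneousComponent]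
  have h1 : ∀ j : Fin 3, (e + Finsupp.single j 1).degree = e.degree + 1 := by
    intro j
    rw [map_add, Finsupp.degree_single]
  rw [h1, h1]
  split_ifs
  · rfl
  · ring

/-- **The bounds of the potential.** -/
theorem pot_bd (N : ℕ) : ∃ A : ℝ, 1 ≤ A ∧ ∀ f : Fin 3 → Po, (∀ i, (f i).totalDegree ≤ N) →
    (∀ U : ℝ, (∀ i, ∀ q : V3, Bx 1 q → |eval q (f i)| ≤ U) →
      ∀ q : V3, Bx 8 q → |eval q (pot N f)| ≤ A * U) ∧
    ∀ δ : ℝ, (∀ i k, ∀ q : V3, Bx 1 q → |eval q (pderiv k (f i) - pderiv i (f k))| ≤ δ) →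
      ∀ (k : Fin 3) (q : V3), Bx 8 q → |eval q (pderiv k (pot N f)) - eval q (f k)| ≤ A * δ := by
  obtain ⟨C₁, hC, h⟩ := Pool.Agent.H36.KBX.coef_bound 3 N
  obtain ⟨B, hB⟩ : ∃ B : ℝ, B = ((N : ℝ) + 1) ^ 3 * (C₁ * 8 ^ N) := ⟨_, rfl⟩
  have hB0 : 0 ≤ B := by rw [hB]; positivity
  refine ⟨(N + 1) * (3 * (8 * B)) + 1, by
    have : (0 : ℝ) ≤ (N + 1) * (3 * (8 * B)) := by positivity
    linarith, fun f hf => ⟨fun U hU q hq => ?_, fun δ hδ k q hq => ?_⟩⟩
  · have hU0 : 0 ≤ U := (abs_nonneg _).trans (hU 0 0 fun i => by simp)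
    have h1 : ∀ (d : ℕ) (i : Fin 3), |eval q (homogeneousComponent d (f i))| ≤ B * U := by
      intro d i
      have h2 := h (f i) U (hf i) (hU i)
      have h3 : (homogeneousComponent d (f i)).totalDegree ≤ N := by
        by_cases hd : d ≤ N
        · exact ((homogeneousComponent_isHomogeneous d (f i)).totalDegree_le).trans hd
        · rw [homogeneousComponent_eq_zero d (f i) (by have := hf i; omega), totalDegree_zero]
          exact Nat.zero_le _
      have h4 := Pool.POLY.abs_eval_le (homogeneousComponent d (f i)) h3 (B := C₁ * U) (fun e => by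
        rw [coeff_homogeneousComponent]
        split_ifs
        · exact h2 e
        · rw [abs_zero]
          positivity) (show (1 : ℝ) ≤ 8 by norm_num) q hq
      rw [hB]
      linarith
    unfold pot
    rw [map_sum]
    refine (Finset.abs_sum_le_sum_abs _ _).trans ?_
    have h5 : ∀ d ∈ range (N + 1), |eval q (C (1 / ((d : ℝ) + 1)) *
        ∑ i, X i * homogeneousComponent d (f i))| ≤ 3 * (8 * (B * U)) := by
      intro d _
      rw [map_mul, eval_C, abs_mul, map_sum]
      have h6 : |1 / ((d : ℝ) + 1)| ≤ 1 := by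
        rw [abs_of_nonneg (by positivity), div_le_one (by positivity)]
        have : (0 : ℝ) ≤ d := Nat.cast_nonneg d
        linarith
      have h7 : |∑ i, eval q (X i * homogeneousComponent d (f i))| ≤ 3 * (8 * (B * U)) := by
        refine (Finset.abs_sum_le_sum_abs _ _).trans ?_
        have h8 : ∀ i ∈ (univ : Finset (Fin 3)), |eval q (X i * homogeneousComponent d (f i))| ≤
            8 * (B * U) := by
          intro i _
          rw [map_mul, eval_X, abs_mul]
          exact mul_le_mul (hq i) (h1 d i) (abs_nonneg _) (by norm_num)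
        refine (Finset.sum_le_sum h8).trans (le_of_eq ?_)
        rw [Finset.sum_const, Finset.card_univ, Fintype.card_fin, nsmul_eq_mul]
        norm_num
      calc |1 / ((d : ℝ) + 1)| * |∑ i, eval q (X i * homogeneousComponent d (f i))| ≤
          1 * (3 * (8 * (B * U))) := mul_le_mul h6 h7 (abs_nonneg _) (by norm_num)
        _ = _ := one_mul _
    refine (Finset.sum_le_sum h5).trans ?_
    rw [Finset.sum_const, Finset.card_range, nsmul_eq_mul]
    push_cast
    have : ((N + 1) * (3 * (8 * B)) + 1) * U = ((N : ℝ) + 1) * (3 * (8 * (B * U))) + U := by ring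
    linarith
  · have hδ0 : 0 ≤ δ := (abs_nonneg _).trans (hδ 0 0 0 fun i => by simp)
    rw [← map_sub, pot_pd hf k, map_sum]
    refine (Finset.abs_sum_le_sum_abs _ _).trans ?_
    have h1 : ∀ (d : ℕ) (i : Fin 3), |eval q (pderiv k (homogeneousComponent d (f i)) -
        pderiv i (homogeneousComponent d (f k)))| ≤ B * δ := by
      intro d i
      have h2 := h (pderiv k (f i) - pderiv i (f k)) δ ((totalDegree_sub _ _).trans
        (max_le (tdp' (hf i) k) (tdp' (hf k) i))) (hδ i k)
      have h3 : (pderiv k (homogeneousComponent d (f i)) -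
          pderiv i (homogeneousComponent d (f k))).totalDegree ≤ N := by
        have h9 : ∀ j, (homogeneousComponent d (f j)).totalDegree ≤ N := by
          intro j
          by_cases hd : d ≤ N
          · exact ((homogeneousComponent_isHomogeneous d (f j)).totalDegree_le).trans hd
          · rw [homogeneousComponent_eq_zero d (f j) (by have := hf j; omega), totalDegree_zero]
            exact Nat.zero_le _
        exact (totalDegree_sub _ _).trans (max_le (tdp' (h9 i) k) (tdp' (h9 k) i))
      have h4 := Pool.POLY.abs_eval_le _ h3 (B := C₁ * δ) (fun e => by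
        rw [hc_pd]
        split_ifs
        · exact h2 e
        · rw [abs_zero]
          positivity) (show (1 : ℝ) ≤ 8 by norm_num) q hq
      rw [hB]
      linarith
    have h5 : ∀ d ∈ range (N + 1), |eval q (C (1 / ((d : ℝ) + 1)) *
        ∑ i, X i * (pderiv k (homogeneousComponent d (f i)) -
          pderiv i (homogeneousComponent d (f k))))| ≤ 3 * (8 * (B * δ)) := by
      intro d _
      rw [map_mul, eval_C, abs_mul, map_sum]
      have h6 : |1 / ((d : ℝ) + 1)| ≤ 1 := by
        rw [abs_of_nonneg (by positivity), div_le_one (by positivity)]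
        have : (0 : ℝ) ≤ d := Nat.cast_nonneg d
        linarith
      have h7 : |∑ i, eval q (X i * (pderiv k (homogeneousComponent d (f i)) -
          pderiv i (homogeneousComponent d (f k))))| ≤ 3 * (8 * (B * δ)) := by
        refine (Finset.abs_sum_le_sum_abs _ _).trans ?_
        have h8 : ∀ i ∈ (univ : Finset (Fin 3)), |eval q (X i * (pderiv k
            (homogeneousComponent d (f i)) - pderiv i (homogeneousComponent d (f k))))| ≤
            8 * (B * δ) := by
          intro i _
          rw [map_mul, eval_X, abs_mul]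
          exact mul_le_mul (hq i) (h1 d i) (abs_nonneg _) (by norm_num)
        refine (Finset.sum_le_sum h8).trans (le_of_eq ?_)
        rw [Finset.sum_const, Finset.card_univ, Fintype.card_fin, nsmul_eq_mul]
        norm_num
      calc |1 / ((d : ℝ) + 1)| * |∑ i, eval q (X i * (pderiv k (homogeneousComponent d (f i)) -
          pderiv i (homogeneousComponent d (f k))))| ≤
          1 * (3 * (8 * (B * δ))) := mul_le_mul h6 h7 (abs_nonneg _) (by norm_num)
        _ = _ := one_mul _
    refine (Finset.sum_le_sum h5).trans ?_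
    rw [Finset.sum_const, Finset.card_range, nsmul_eq_mul]
    push_cast
    have : ((N + 1) * (3 * (8 * B)) + 1) * δ = ((N : ℝ) + 1) * (3 * (8 * (B * δ))) + δ := by ring
    linarith

end Pool.STB6
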