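import Pool.Agent.H21.RDP.Rdp
import Pool.Agent.H89.GEN.PolyB
import Pool.Agent.H42.D2.Join2b

/-!
# Reading a polynomial in several full times

The integers `ξ` in the box of side `2 M + 1` are full given `W` up to `e`, the polynomials `F (W ω)`
are small at the points `ξ / M` on an event. Then they are small on the whole box on most of the event.
-/

set_option autoImplicit false

namespace Pool.STB6

open Finset Real MvPolynomial
open Pool.Agent.H49.Ent Pool.Agent.H32.Dense Pool.STK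
open Pool.BFL (Pb)

/-- The box of integers. -/
noncomputable def bxi (n M : ℕ) : Finset (Fin n → ℤ) :=
  Fintype.piFinset fun _ : Fin n => Finset.Icc (-(M : ℤ)) M

theorem mem_bxi {n M : ℕ} {y : Fin n → ℤ} : y ∈ bxi n M ↔ ∀ i, |y i| ≤ (M : ℤ) := by
  unfold bxi
  rw [Fintype.mem_piFinset]
  exact forall_congr' fun i => by rw [Finset.mem_Icc, abs_le]

theorem card_bxi (n M : ℕ) : (bxi n M).card = (2 * M + 1) ^ n := by
  unfold bxi
  rw [Fintype.card_piFinset]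
  have h : (Finset.Icc (-(M : ℤ)) M).card = 2 * M + 1 := by
    rw [Int.card_Icc]
    omega
  simp only [h, Finset.prod_const, Finset.card_univ, Fintype.card_fin]

open Classical in
/-- **Few points are bad**: the box of integers, any scale. -/
theorem bad_box (n K : ℕ) : ∃ C : ℕ, 1 ≤ C ∧ ∀ (Q : MvPolynomial (Fin n) ℝ) (M : ℕ) (ρ R η : ℝ)
    (z : Fin n → ℝ), (∀ i, Q.degreeOf i ≤ K) → 1 ≤ M → 0 < ρ → ρ ≤ 1 →
    (C : ℝ) ≤ ρ ^ C * (2 * M + 1) → 1 ≤ R → 0 ≤ η → (∀ i, |z i| ≤ R) →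
    C * (R / ρ) ^ C * η < |eval z Q| →
    (((bxi n M).filter fun y => |eval (fun i => ((y i : ℤ) : ℝ) / M) Q| ≤ η).card : ℝ) <
      ρ * (2 * M + 1) ^ n := by
  obtain ⟨C, hC1, hC⟩ := Pool.KAL.rmn_thm Pool.KAL.rmg_thm n K
  refine ⟨C, hC1, ?_⟩
  intro Q M ρ R η z hQ hM hρ hρ1 hN hR hη hz hbig
  by_contra hcon
  push Not at hcon
  have hM0 : (0 : ℝ) < M := by exact_mod_cast hM
  have hM1 : (1 : ℝ) ≤ M := by exact_mod_cast hM
  obtain ⟨F, hF⟩ : ∃ F, F = (bxi n M).filter fun y =>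
    |eval (fun i => ((y i : ℤ) : ℝ) / M) Q| ≤ η := ⟨_, rfl⟩
  rw [← hF] at hcon
  have hFm : ∀ y ∈ F, (∀ i, |y i| ≤ (M : ℤ)) ∧
      |eval (fun i => ((y i : ℤ) : ℝ) / M) Q| ≤ η := by
    intro y hy
    rw [hF, Finset.mem_filter, mem_bxi] at hy
    exact hy
  set N : ℕ := 2 * M + 1 with hNd
  have hNpos : 0 < N := by omega
  have : NeZero N := ⟨hNpos.ne'⟩
  have hN' : (N : ℝ) = 2 * M + 1 := by rw [hNd]; push_cast; ring
  have hrange : ∀ y ∈ F, ∀ j, 0 ≤ y j + M ∧ (y j + M).toNat < N := by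
    intro y hy j
    have h1 := abs_le.1 ((hFm y hy).1 j)
    omega
  set φ : (Fin n → ℤ) → Fin n → Fin N := fun y j => Fin.ofNat N (y j + M).toNat with hφ
  have hval : ∀ y ∈ F, ∀ j, ((φ y j : ℕ) : ℝ) = (y j : ℝ) + M := by
    intro y hy j
    obtain ⟨h1, h2⟩ := hrange y hy j
    have h3 : (φ y j : ℕ) = (y j + M).toNat := by
      simp only [hφ, Fin.ofNat]
      exact Nat.mod_eq_of_lt h2
    rw [h3]
    have h4 : (((y j + M).toNat : ℕ) : ℤ) = y j + M := Int.toNat_of_nonneg h1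
    have h5 : ((((y j + M).toNat : ℕ) : ℤ) : ℝ) = ((y j + M : ℤ) : ℝ) := by rw [h4]
    push_cast at h5 ⊢
    exact h5
  have hinj : Set.InjOn φ F := by
    intro y hy y' hy' h
    funext j
    have e1 := hval y hy j
    have e2 := hval y' hy' j
    rw [h] at e1
    have : ((y j : ℤ) : ℝ) = y' j := by linarith
    exact_mod_cast this
  set P' := Pool.POLY.affs (1 / M : ℝ) (-1 : ℝ) Q with hP'
  have hP'deg : ∀ i, P'.degreeOf i ≤ K := fun i => (Pool.POLY.degreeOf_affs _ _ Q i).trans (hQ i)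
  have hev : ∀ x : Fin n → ℝ, eval (fun i => M * x i + M) P' = eval x Q := by
    intro x
    rw [hP', Pool.POLY.eval_affs]
    congr 1
    congr 1
    funext i
    field_simp
    ring
  have hsub : F.image φ ⊆ univ.filter fun x : Fin n → Fin N =>
      |MvPolynomial.eval (fun i => ((x i : ℕ) : ℝ)) P'| ≤ η := by
    intro x hx
    rw [Finset.mem_image] at hx
    obtain ⟨y, hy, rfl⟩ := hx
    rw [Finset.mem_filter]
    refine ⟨Finset.mem_univ _, ?_⟩
    have h1 := (hFm y hy).2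
    rw [← hev] at h1
    have h2 : (fun i => ((φ y i : ℕ) : ℝ)) = fun i => (M : ℝ) * (((y i : ℤ) : ℝ) / M) + M := by
      funext i
      rw [hval y hy i]
      field_simp
    rw [h2]
    exact h1
  have hcard : ρ * (N : ℝ) ^ n ≤ ((univ.filter fun x : Fin n → Fin N =>
      |MvPolynomial.eval (fun i => ((x i : ℕ) : ℝ)) P'| ≤ η).card : ℝ) := by
    have h1 := Finset.card_le_card hsub
    rw [Finset.card_image_of_injOn hinj] at h1
    have h2 : (F.card : ℝ) ≤ ((univ.filter fun x : Fin n → Fin N =>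
      |MvPolynomial.eval (fun i => ((x i : ℕ) : ℝ)) P'| ≤ η).card : ℝ) := by exact_mod_cast h1
    rw [hN']
    exact hcon.trans h2
  have hfin := hC N P' ρ R η hP'deg hρ hρ1 (by rw [hN']; exact hN) hR hη hcard
    (fun i => M * z i + M) (by
      intro i
      rw [hN']
      have h1 : |(M : ℝ) * z i| ≤ M * R := by
        rw [abs_mul, abs_of_nonneg hM0.le]
        exact mul_le_mul_of_nonneg_left (hz i) hM0.le
      refine (abs_add_le _ _).trans ?_
      rw [abs_of_nonneg hM0.le]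
      nlinarith)
  rw [hev] at hfin
  exact absurd hbig (not_lt.2 hfin)

/-- The mass of an event times the gain. -/
theorem Ex_gain {Ω : Type} [Fintype Ω] {q : Ω → ℝ} (hq : IsLaw q) (B : Ω → Prop) (f : Ω → ℝ)
    (c g : ℝ) (h : ∀ ω, 0 < q ω → ¬ B ω → f ω ≤ c) (h' : ∀ ω, 0 < q ω → B ω → f ω ≤ c - g) :
    Ex q f ≤ c - Pb q B * g := by
  classical
  have h1 : Ex q f ≤ Ex q (fun ω => c - (if B ω then (1 : ℝ) else 0) * g) := by
    unfold Ex
    refine Finset.sum_le_sum fun ω _ => ?_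
    rcases (hq.nonneg ω).eq_or_lt with h0 | h0
    · rw [← h0, zero_mul, zero_mul]
    · refine mul_le_mul_of_nonneg_left ?_ h0.le
      show f ω ≤ c - (if B ω then (1 : ℝ) else 0) * g
      by_cases hb : B ω
      · rw [if_pos hb, one_mul]
        exact h' ω h0 hb
      · rw [if_neg hb, zero_mul, sub_zero]
        exact h ω h0 hb
  refine h1.trans (le_of_eq ?_)
  rw [Ex_sub, Ex_const hq.sum_one, Pool.D2G30.Ex_ite]

open Classical in
/-- **A full variable avoids the small sets.** On the event `B` (a function of anything) the variable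
lies in the set `S (W ω)` of at most `ρ` times the box. -/
theorem read_set {Ω τ σ : Type} [Fintype Ω] {q : Ω → ℝ} (hq : IsLaw q) (W : Ω → τ) (ξ : Ω → σ)
    (Bx : Finset σ) (S : τ → Finset σ) (B : Ω → Prop) {e ρ : ℝ} (hρ : 0 < ρ)
    (hξ : ∀ ω, 0 < q ω → ξ ω ∈ Bx) (hfull : Real.log Bx.card - e ≤ CH q ξ W)
    (hB : ∀ ω, 0 < q ω → B ω → ξ ω ∈ S (W ω) ∧ ((S (W ω)).card : ℝ) ≤ ρ * Bx.card) :
    Pb q B * Real.log (1 / ρ) ≤ e + Real.log 2 := by
  have h0 := hq.nonneg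
  obtain ⟨b, hb⟩ : ∃ b : Ω → Bool, b = fun ω => decide (B ω) := ⟨_, rfl⟩
  have c1 : CH q b W ≤ Real.log 2 := by
    have h2 := CH_le_card h0 hq.sum_one b W (fun _ => (Finset.univ : Finset Bool))
      (fun ω _ => Finset.mem_univ _)
    rw [Ex_const hq.sum_one, Finset.card_univ, Fintype.card_bool] at h2
    push_cast at h2
    exact h2
  have c2 : CH q ξ (fun ω => (b ω, W ω)) ≤ Real.log Bx.card - Pb q B * Real.log (1 / ρ) := by
    have h1 := CH_le_card h0 hq.sum_one ξ (fun ω => (b ω, W ω))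
      (fun y => if y.1 = true then S y.2 else Bx) (by
        intro ω hω
        show ξ ω ∈ (if b ω = true then S (W ω) else Bx)
        by_cases h : b ω = true
        · rw [if_pos h]
          rw [hb] at h
          exact (hB ω hω (of_decide_eq_true h)).1
        · rw [if_neg h]
          exact hξ ω hω)
    refine h1.trans (Ex_gain hq B _ _ _ ?_ ?_)
    · intro ω hω h
      have hbt : ¬ b ω = true := by
        rw [hb]
        exact fun hh => h (of_decide_eq_true hh)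
      show Real.log (((if b ω = true then S (W ω) else Bx).card : ℕ) : ℝ) ≤ _
      rw [if_neg hbt]
    · intro ω hω h
      have hbt : b ω = true := by
        rw [hb]
        exact decide_eq_true h
      show Real.log (((if b ω = true then S (W ω) else Bx).card : ℕ) : ℝ) ≤ _
      rw [if_pos hbt]
      obtain ⟨h3, h4⟩ := hB ω hω h
      have h5 : (0 : ℝ) < (S (W ω)).card := by
        exact_mod_cast Finset.card_pos.2 ⟨_, h3⟩
      have h6 : (0 : ℝ) < Bx.card := by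
        exact_mod_cast Finset.card_pos.2 ⟨_, hξ ω hω⟩
      have h7 := Real.log_le_log h5 h4
      rw [Real.log_mul hρ.ne' h6.ne'] at h7
      rw [one_div, Real.log_inv]
      linarith
  have c3 := CH_le_add h0 ξ b W
  linarith

/-- **Reading a polynomial in several full times.** -/
theorem read_mv (n K : ℕ) : ∃ C : ℕ, 1 ≤ C ∧ ∀ (Ω τ : Type) [Fintype Ω] (q : Ω → ℝ) (W : Ω → τ)
    (M : ℕ) (ξ : Ω → Fin n → ℤ) (F : τ → MvPolynomial (Fin n) ℝ) (η : τ → ℝ) (Ev : Ω → Prop)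
    (e ρ R : ℝ), IsLaw q → 1 ≤ M → 0 < ρ → ρ ≤ 1 → (C : ℝ) ≤ ρ ^ C * (2 * M + 1) → 1 ≤ R →
    (∀ ω, 0 < q ω → ∀ i, |ξ ω i| ≤ (M : ℤ)) → n * Real.log (2 * M + 1) - e ≤ CH q ξ W →
    (∀ ω, 0 < q ω → Ev ω → (∀ i, (F (W ω)).degreeOf i ≤ K) ∧
      |eval (fun i => ((ξ ω i : ℤ) : ℝ) / M) (F (W ω))| ≤ η (W ω)) →
    Pb q (fun ω => Ev ω ∧ ∃ z : Fin n → ℝ, (∀ i, |z i| ≤ R) ∧
      C * (R / ρ) ^ C * η (W ω) < |eval z (F (W ω))|) * Real.log (1 / ρ) ≤ e + Real.log 2 := by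
  classical
  obtain ⟨C, hC1, hC⟩ := bad_box n K
  refine ⟨C, hC1, ?_⟩
  intro Ω τ _ q W M ξ F η Ev e ρ R hq hM hρ hρ1 hCN hR hξ hfull hF
  refine read_set hq W ξ (bxi n M)
    (fun w => (bxi n M).filter fun y => |eval (fun i => ((y i : ℤ) : ℝ) / M) (F w)| ≤ η w) _ hρ
    (fun ω hω => mem_bxi.2 (hξ ω hω)) ?_ ?_
  · rw [card_bxi]
    push_cast
    rw [Real.log_pow]
    exact hfull
  · rintro ω hω ⟨hE, z, hz, hbig⟩
    obtain ⟨hdeg, hsm⟩ := hF ω hω hE
    refine ⟨Finset.mem_filter.2 ⟨mem_bxi.2 (hξ ω hω), hsm⟩, ?_⟩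
    rw [card_bxi]
    push_cast
    exact (hC (F (W ω)) M ρ R (η (W ω)) z hdeg hM hρ hρ1 hCN hR
      ((abs_nonneg _).trans hsm) hz hbig).le

/-- **Reading a family of polynomials at the cost of one event.** -/
theorem read_mvf (n K : ℕ) : ∃ C : ℕ, 1 ≤ C ∧ ∀ (Ω τ ι : Type) [Fintype Ω] (q : Ω → ℝ)
    (W : Ω → τ) (M : ℕ) (ξ : Ω → Fin n → ℤ) (F : τ → ι → MvPolynomial (Fin n) ℝ) (η : τ → ι → ℝ)
    (Ev : Ω → Prop) (e ρ R : ℝ), IsLaw q → 1 ≤ M → 0 < ρ → ρ ≤ 1 →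
    (C : ℝ) ≤ ρ ^ C * (2 * M + 1) → 1 ≤ R →
    (∀ ω, 0 < q ω → ∀ i, |ξ ω i| ≤ (M : ℤ)) → n * Real.log (2 * M + 1) - e ≤ CH q ξ W →
    (∀ ω, 0 < q ω → Ev ω → ∀ j, (∀ i, (F (W ω) j).degreeOf i ≤ K) ∧
      |eval (fun i => ((ξ ω i : ℤ) : ℝ) / M) (F (W ω) j)| ≤ η (W ω) j) →
    Pb q (fun ω => Ev ω ∧ ∃ j, ∃ z : Fin n → ℝ, (∀ i, |z i| ≤ R) ∧
      C * (R / ρ) ^ C * η (W ω) j < |eval z (F (W ω) j)|) * Real.log (1 / ρ) ≤
        e + Real.log 2 := by
  classical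
  obtain ⟨C, hC1, hC⟩ := read_mv n K
  refine ⟨C, hC1, ?_⟩
  intro Ω τ ι _ q W M ξ F η Ev e ρ R hq hM hρ hρ1 hCN hR hξ hfull hF
  obtain ⟨P, hP⟩ : ∃ P : τ → ι → Prop, P = fun w j => ∃ z : Fin n → ℝ, (∀ i, |z i| ≤ R) ∧
    C * (R / ρ) ^ C * η w j < |eval z (F w j)| := ⟨_, rfl⟩
  have hPe : ∀ w j, P w j → ∃ z : Fin n → ℝ, (∀ i, |z i| ≤ R) ∧
      C * (R / ρ) ^ C * η w j < |eval z (F w j)| := by
    intro w j h
    rw [hP] at h
    exact h
  obtain ⟨F', hF'⟩ : ∃ F' : τ → MvPolynomial (Fin n) ℝ, F' = fun w =>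
    if h : ∃ j, P w j then F w h.choose else 0 := ⟨_, rfl⟩
  obtain ⟨η', hη'⟩ : ∃ η' : τ → ℝ, η' = fun w =>
    if h : ∃ j, P w j then η w h.choose else 0 := ⟨_, rfl⟩
  have h1 := hC Ω τ q W M ξ F' η' Ev e ρ R hq hM hρ hρ1 hCN hR hξ hfull (fun ω hω hE => by
    rw [hF', hη']
    by_cases h : ∃ j, P (W ω) j
    · simp only [dif_pos h]
      exact hF ω hω hE _
    · simp only [dif_neg h, map_zero, abs_zero, le_refl, and_true, degreeOf_zero, Nat.zero_le,
        implies_true])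
  have h2 : (fun ω => Ev ω ∧ ∃ j, ∃ z : Fin n → ℝ, (∀ i, |z i| ≤ R) ∧
      C * (R / ρ) ^ C * η (W ω) j < |eval z (F (W ω) j)|) =
      fun ω => Ev ω ∧ ∃ z : Fin n → ℝ, (∀ i, |z i| ≤ R) ∧
      C * (R / ρ) ^ C * η' (W ω) < |eval z (F' (W ω))| := by
    funext ω
    refine propext (and_congr_right fun _ => ⟨fun h => ?_, fun h => ?_⟩)
    · have h' : ∃ j, P (W ω) j := by rw [hP]; exact h
      rw [hF', hη']
      simp only [dif_pos h']
      exact hPe _ _ h'.choose_spec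
    · by_cases h' : ∃ j, P (W ω) j
      · rw [hP] at h'
        exact h'
      · exfalso
        obtain ⟨z, -, hz⟩ := h
        rw [hF', hη'] at hz
        simp only [dif_neg h', map_zero, abs_zero, mul_zero] at hz
        exact lt_irrefl _ hz
  rw [h2]
  exact h1

end Pool.STB6
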