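import Pool.Agent.H98.STB.S

/-!
# The algebra of branches

The statements `UnqStmt`, `FbbStmt`, `FbvStmt`, `FbcStmt` of `H98/STB/S`.
-/

set_option autoImplicit false

namespace Pool.STB6

open Finset Real MvPolynomial
open Pool.STB

/-! ### Evaluation -/

theorem eval_lin (B : Matrix (Fin 3) (Fin 3) ℝ) (Ψ : Po) (q : V3) :
    eval q (bind₁ (lin B) Ψ) = eval (B.mulVec q) Ψ := by
  rw [← coe_aeval_eq_eval, ← coe_aeval_eq_eval, RingHom.coe_coe, RingHom.coe_coe, aeval_bind₁]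
  congr 1
  congr 1
  funext j
  unfold lin
  simp [Matrix.mulVec, dotProduct]

theorem eval_hom {b : ℕ} {Φ : Po} (h : Φ.IsHomogeneous b) (c : ℝ) (q : V3) :
    eval (c • q) Φ = c ^ b * eval q Φ := by
  rw [eval_eq', eval_eq', Finset.mul_sum]
  refine Finset.sum_congr rfl fun d hd => ?_
  have h1 : d.degree = b := by
    by_contra hne
    exact (MvPolynomial.mem_support_iff.1 hd) (h.coeff_eq_zero hne)
  have h2 : ∏ i, (c • q) i ^ d i = c ^ b * ∏ i, q i ^ d i := by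
    rw [← h1, Finsupp.degree_eq_sum, ← Finset.prod_pow_eq_pow_sum, ← Finset.prod_mul_distrib]
    refine Finset.prod_congr rfl fun i _ => ?_
    rw [Pi.smul_apply, smul_eq_mul, mul_pow]
  rw [h2]
  ring

theorem eval_hom0 {b : ℕ} (hb : 1 ≤ b) {Φ : Po} (h : Φ.IsHomogeneous b) : eval (0 : V3) Φ = 0 := by
  have := eval_hom h 0 0
  rw [smul_zero, zero_pow (by omega), zero_mul] at this
  exact this

/-! ### The coordinates of a vector -/

/-- The coordinates in the basis `X`. -/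
noncomputable def sol (X : Fin 3 → V3) (q : V3) : Fin 3 → ℝ := (mt X)⁻¹.mulVec q

theorem mt_mulVec (X : Fin 3 → V3) (s : Fin 3 → ℝ) : (mt X).mulVec s = ∑ a, s a • X a := by
  funext j
  simp only [Pool.STB.mt, Matrix.mulVec, dotProduct, Matrix.of_apply, Finset.sum_apply, Pi.smul_apply,
    smul_eq_mul]
  exact Finset.sum_congr rfl fun a _ => mul_comm _ _

theorem sol_spec (X : Fin 3 → V3) (h : (mt X).det ≠ 0) (q : V3) : ∑ a, sol X q a • X a = q := by
  rw [← mt_mulVec, sol, Matrix.mulVec_mulVec, Matrix.mul_nonsing_inv _ (isUnit_iff_ne_zero.2 h),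
    Matrix.one_mulVec]

theorem sol_comb (X : Fin 3 → V3) (h : (mt X).det ≠ 0) (s : Fin 3 → ℝ) :
    sol X (∑ a, s a • X a) = s := by
  rw [← mt_mulVec, sol, Matrix.mulVec_mulVec, Matrix.nonsing_inv_mul _ (isUnit_iff_ne_zero.2 h),
    Matrix.one_mulVec]

theorem sol_smul (X : Fin 3 → V3) (c : ℝ) (q : V3) : sol X (c • q) = c • sol X q := by
  unfold sol
  rw [Matrix.mulVec_smul]

theorem prj_mulVec (X : Fin 3 → V3) (S : Finset (Fin 3)) (q : V3) :
    (prj X S).mulVec q = ∑ a ∈ S, sol X q a • X a := by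
  funext j
  simp only [prj, Matrix.mulVec, dotProduct, Matrix.of_apply, Finset.sum_apply, Pi.smul_apply,
    smul_eq_mul, sol, Finset.sum_mul, Finset.mul_sum]
  rw [Finset.sum_comm]
  refine Finset.sum_congr rfl fun a _ => Finset.sum_congr rfl fun l _ => ?_
  ring

theorem mul_le_two {a b c d : ℝ} (ha : |a| ≤ 1) (hb : |b| ≤ 1) (hc : |c| ≤ 1) (hd : |d| ≤ 1) :
    |a * b - c * d| ≤ 2 := by
  have h1 : |a * b| ≤ 1 := by
    rw [abs_mul]
    calc |a| * |b| ≤ 1 * 1 := mul_le_mul ha hb (abs_nonneg _) zero_le_one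
      _ = 1 := one_mul 1
  have h2 : |c * d| ≤ 1 := by
    rw [abs_mul]
    calc |c| * |d| ≤ 1 * 1 := mul_le_mul hc hd (abs_nonneg _) zero_le_one
      _ = 1 := one_mul 1
  have := abs_sub (a * b) (c * d)
  linarith

theorem mul_le_two' {a b c d : ℝ} (ha : |a| ≤ 1) (hb : |b| ≤ 1) (hc : |c| ≤ 1) (hd : |d| ≤ 1) :
    |-(a * b) + c * d| ≤ 2 := by
  rw [neg_add_eq_sub]
  exact mul_le_two hc hd ha hb

theorem adj_le (X : Fin 3 → V3) (hX : ∀ a, Bx 1 (X a)) (i j : Fin 3) :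
    |(mt X).adjugate i j| ≤ 2 := by
  have h : ∀ a j, |X a j| ≤ 1 := fun a j => hX a j
  rw [Matrix.adjugate_fin_three]
  fin_cases i <;> fin_cases j <;> simp [Pool.STB.mt] <;>
    first
    | exact mul_le_two (h _ _) (h _ _) (h _ _) (h _ _)
    | exact mul_le_two' (h _ _) (h _ _) (h _ _) (h _ _)

theorem sol_le (X : Fin 3 → V3) {η : ℝ} (hη : 0 < η) (hX : ∀ a, Bx 1 (X a))
    (hd : η ≤ |(mt X).det|) {r : ℝ} {q : V3} (hq : Bx r q) (a : Fin 3) :
    |sol X q a| ≤ 6 * r / η := by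
  have hd0 : 0 < |(mt X).det| := lt_of_lt_of_le hη hd
  have hr : 0 ≤ r := (abs_nonneg _).trans (hq 0)
  have h1 : sol X q a = (mt X).det⁻¹ * ∑ l, (mt X).adjugate a l * q l := by
    unfold sol
    rw [Matrix.inv_def, Ring.inverse_eq_inv', Matrix.smul_mulVec]
    simp [Matrix.mulVec, dotProduct]
  have h2 : |∑ l, (mt X).adjugate a l * q l| ≤ 6 * r := by
    refine (Finset.abs_sum_le_sum_abs _ _).trans ?_
    refine (Finset.sum_le_card_nsmul _ _ (2 * r) fun l _ => ?_).trans (le_of_eq ?_)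
    · rw [abs_mul]
      exact mul_le_mul (adj_le X hX a l) (hq l) (abs_nonneg _) (by norm_num)
    · rw [Finset.card_univ, Fintype.card_fin, nsmul_eq_mul]
      push_cast
      ring
  rw [h1, abs_mul, abs_inv]
  calc |(mt X).det|⁻¹ * |∑ l, (mt X).adjugate a l * q l| ≤ η⁻¹ * (6 * r) :=
        mul_le_mul (inv_anti₀ hη hd) h2 (abs_nonneg _) (by positivity)
    _ = 6 * r / η := by ring

theorem comb_le (X : Fin 3 → V3) (hX : ∀ a, Bx 1 (X a)) (S : Finset (Fin 3)) (s : Fin 3 → ℝ)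
    {r : ℝ} (hs : ∀ a, |s a| ≤ r) : Bx (3 * r) (∑ a ∈ S, s a • X a) := by
  have hr : 0 ≤ r := (abs_nonneg _).trans (hs 0)
  intro j
  rw [Finset.sum_apply]
  refine (Finset.abs_sum_le_sum_abs _ _).trans ?_
  refine (Finset.sum_le_card_nsmul _ _ r fun a _ => ?_).trans ?_
  · rw [Pi.smul_apply, smul_eq_mul, abs_mul]
    calc |s a| * |X a j| ≤ r * 1 := mul_le_mul (hs a) (hX a j) (abs_nonneg _) hr
      _ = r := mul_one r
  · rw [nsmul_eq_mul]
    have h1 : S.card ≤ 3 := (Finset.card_le_univ S).trans (by simp)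
    have h2 : (S.card : ℝ) ≤ 3 := by exact_mod_cast h1
    exact mul_le_mul_of_nonneg_right h2 hr

/-! ### The values -/

theorem fb_eval (X : Fin 3 → V3) (Φ : Fin 3 → Po) (s : Fin 3 → ℝ) (h : (mt X).det ≠ 0) :
    eval (∑ a, s a • X a) (fb X Φ) = eval (∑ a, s a • X a) (Φ 0) +
      (eval (s 1 • X 1 + s 2 • X 2) (Φ 1) - eval (s 1 • X 1 + s 2 • X 2) (Φ 0)) +
      (eval (s 2 • X 2) (Φ 2) - eval (s 2 • X 2) (Φ 1)) := by
  unfold fb
  rw [map_add, map_add, eval_lin, eval_lin, prj_mulVec, prj_mulVec, sol_comb X h, map_sub, map_sub,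
    Finset.sum_singleton, Finset.sum_pair (by decide)]

theorem fbv : FbvStmt := fun X Φ s h => fb_eval X Φ s h

theorem lin_hom (B : Matrix (Fin 3) (Fin 3) ℝ) (j : Fin 3) : (lin B j).IsHomogeneous 1 := by
  unfold lin
  exact IsHomogeneous.sum _ _ _ fun l _ => isHomogeneous_C_mul_X _ _

theorem fb_hom {b : ℕ} (X : Fin 3 → V3) (Φ : Fin 3 → Po) (h : ∀ a, (Φ a).IsHomogeneous b) :
    (fb X Φ).IsHomogeneous b := by
  have h1 : ∀ (B : Matrix (Fin 3) (Fin 3) ℝ) (Ψ : Po), Ψ.IsHomogeneous b →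
      (bind₁ (lin B) Ψ).IsHomogeneous b := by
    intro B Ψ hΨ
    have := hΨ.aeval (lin B) (n := 1) (lin_hom B)
    rw [one_mul] at this
    exact this
  unfold fb
  exact ((h 0).add (h1 _ _ ((h 1).sub (h 0)))).add (h1 _ _ ((h 2).sub (h 1)))

/-! ### Scaling -/

/-- A homogeneous polynomial which is small on a small parallelepiped is small on the box. -/
theorem scale {b : ℕ} {f : Po} (hf : f.IsHomogeneous b) (X : Fin 3 → V3) {η δ : ℝ} (hη : 0 < η)
    (hη1 : η ≤ 1) (hX : ∀ a, Bx 1 (X a)) (hd : η ≤ |(mt X).det|)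
    (h : ∀ s : Fin 3 → ℝ, (∀ a, |s a| ≤ 1 / 3) → |eval (∑ a, s a • X a) f| ≤ δ) (q : V3)
    (hq : Bx 1 q) : |eval q f| ≤ 18 ^ b * δ / η ^ b := by
  have hd0 : (mt X).det ≠ 0 := by
    intro h0
    rw [h0, abs_zero] at hd
    linarith
  have h1 := h (sol X ((η / 18) • q)) (by
    intro a
    rw [sol_smul, Pi.smul_apply, smul_eq_mul, abs_mul, abs_of_pos (by positivity : 0 < η / 18)]
    have h2 := sol_le X hη hX hd hq a
    calc η / 18 * |sol X q a| ≤ η / 18 * (6 * 1 / η) :=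
          mul_le_mul_of_nonneg_left h2 (by positivity)
      _ = 1 / 3 := by
          field_simp
          norm_num)
  rw [sol_spec X hd0, eval_hom hf, abs_mul, abs_of_nonneg (by positivity : 0 ≤ (η / 18) ^ b)] at h1
  have h3 : (0 : ℝ) < η ^ b := by positivity
  have h4 : (0 : ℝ) < 18 ^ b := by positivity
  rw [div_pow] at h1
  rw [le_div_iff₀ h3]
  have h5 := mul_le_mul_of_nonneg_left h1 h4.le
  calc |eval q f| * η ^ b = 18 ^ b * (η ^ b / 18 ^ b * |eval q f|) := by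
        field_simp
    _ ≤ 18 ^ b * δ := h5

theorem Bx_mono {r r' : ℝ} (h : r ≤ r') {q : V3} (hq : Bx r q) : Bx r' q := fun i => (hq i).trans h

theorem unq : UnqStmt := by
  intro b hb
  refine ⟨18 ^ b * 6, by nlinarith [one_le_pow₀ (M₀ := ℝ) (by norm_num : (1 : ℝ) ≤ 18) (n := b)],
    ?_⟩
  intro X Φ f f' η δ hη hη1 hδ hX hd hf hf' h h' q hq
  have hg : ∀ (a : Fin 3) (q : V3), Bx 1 q → ∀ s : ℝ, |s| ≤ 1 →
      |eval (q + s • X a) (f - f') - eval q (f - f')| ≤ 2 * δ := by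
    intro a q hq s hs
    have h1 := h a q hq s hs
    have h2 := h' a q hq s hs
    rw [map_sub, map_sub]
    rw [abs_le] at h1 h2 ⊢
    constructor <;> linarith [h1.1, h1.2, h2.1, h2.2]
  have hfin := scale (hf.sub hf') X (δ := 6 * δ) hη hη1 hX hd (by
    intro s hs
    have hs1 : ∀ a, |s a| ≤ 1 := fun a => (hs a).trans (by norm_num)
    have e0 : Bx 1 (0 : V3) := fun i => by simp
    have e1 : Bx 1 (s 0 • X 0) := by
      have := comb_le X hX {0} s hs
      rw [Finset.sum_singleton] at this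
      exact Bx_mono (by norm_num) this
    have e2 : Bx 1 (s 0 • X 0 + s 1 • X 1) := by
      have := comb_le X hX {0, 1} s hs
      rw [Finset.sum_pair (by decide)] at this
      exact Bx_mono (by norm_num) this
    have g0 := hg 0 0 e0 (s 0) (hs1 0)
    have g1 := hg 1 _ e1 (s 1) (hs1 1)
    have g2 := hg 2 _ e2 (s 2) (hs1 2)
    rw [zero_add, eval_hom0 hb (hf.sub hf'), sub_zero] at g0
    rw [Fin.sum_univ_three]
    rw [abs_le] at g0 g1 g2 ⊢
    constructor <;> linarith [g0.1, g0.2, g1.1, g1.2, g2.1, g2.2]) q hq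
  rw [map_sub] at hfin
  refine hfin.trans (le_of_eq ?_)
  ring

theorem fbb : FbbStmt := by
  intro b
  refine ⟨5 * 18 ^ b, by nlinarith [one_le_pow₀ (M₀ := ℝ) (by norm_num : (1 : ℝ) ≤ 18) (n := b)],
    ?_⟩
  intro X Φ η hη hη1 hX hd hΦ
  refine ⟨fb_hom X Φ fun a => (hΦ a).hom, fun q hq => ?_⟩
  have hd0 : (mt X).det ≠ 0 := by
    intro h0
    rw [h0, abs_zero] at hd
    linarith
  refine (scale (fb_hom X Φ fun a => (hΦ a).hom) X (δ := 5) hη hη1 hX hd ?_ q hq).trans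
    (le_of_eq (by ring))
  intro s hs
  rw [fb_eval X Φ s hd0]
  have e1 : Bx 1 (∑ a, s a • X a) := Bx_mono (by norm_num) (comb_le X hX univ s hs)
  have e2 : Bx 1 (s 1 • X 1 + s 2 • X 2) := by
    have := comb_le X hX {1, 2} s hs
    rw [Finset.sum_pair (by decide)] at this
    exact Bx_mono (by norm_num) this
  have e3 : Bx 1 (s 2 • X 2) := by
    have := comb_le X hX {2} s hs
    rw [Finset.sum_singleton] at this
    exact Bx_mono (by norm_num) this
  have k1 := abs_le.1 ((hΦ 0).bd _ e1)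
  have k2 := abs_le.1 ((hΦ 1).bd _ e2)
  have k3 := abs_le.1 ((hΦ 0).bd _ e2)
  have k4 := abs_le.1 ((hΦ 2).bd _ e3)
  have k5 := abs_le.1 ((hΦ 1).bd _ e3)
  rw [abs_le]
  constructor <;> linarith [k1.1, k1.2, k2.1, k2.2, k3.1, k3.2, k4.1, k4.2, k5.1, k5.2]

theorem fbc : FbcStmt := by
  intro b hb
  refine ⟨18 ^ b, one_le_pow₀ (by norm_num), ?_⟩
  intro X Φ η δ hη hη1 hδ hX hd hd' hΦ hI q hq
  have hd0 : (mt ![X 0, X 1, X 2]).det ≠ 0 := by
    intro h0
    rw [h0, abs_zero] at hd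
    linarith
  have hd0' : (mt ![X 1, X 2, X 3]).det ≠ 0 := by
    intro h0
    rw [h0, abs_zero] at hd'
    linarith
  have hXa : ∀ a, Bx 1 (![X 0, X 1, X 2] a) := by
    intro a
    fin_cases a
    exacts [hX 0, hX 1, hX 2]
  have hh : (fb ![X 0, X 1, X 2] ![Φ 0, Φ 1, Φ 2]).IsHomogeneous b := fb_hom _ _ (by
    intro a
    fin_cases a
    exacts [hΦ 0, hΦ 1, hΦ 2])
  have hh' : (fb ![X 1, X 2, X 3] ![Φ 1, Φ 2, Φ 3]).IsHomogeneous b := fb_hom _ _ (by
    intro a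
    fin_cases a
    exacts [hΦ 1, hΦ 2, hΦ 3])
  have hfin := scale (hh.sub hh') ![X 0, X 1, X 2] (δ := δ) hη hη1 hXa hd (by
    intro s hs
    have hs1 : ∀ a, |s a| ≤ 1 := fun a => (hs a).trans (by norm_num)
    have v1 := fb_eval ![X 0, X 1, X 2] ![Φ 0, Φ 1, Φ 2] s hd0
    have v2 := fb_eval ![X 1, X 2, X 3] ![Φ 1, Φ 2, Φ 3] ![s 1, s 2, 0] hd0'
    simp only [Fin.sum_univ_three, Matrix.cons_val_zero, Matrix.cons_val_one,
      Matrix.cons_val_two, Matrix.cons_val, Matrix.head_cons, Matrix.tail_cons, zero_smul,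
      add_zero] at v1 v2 ⊢
    rw [eval_hom0 hb (hΦ 3), eval_hom0 hb (hΦ 2)] at v2
    have e2 : Bx 1 (s 1 • X 1 + s 2 • X 2) := by
      have := comb_le ![X 0, X 1, X 2] hXa {1, 2} s hs
      rw [Finset.sum_pair (by decide)] at this
      exact Bx_mono (by norm_num) this
    have g := hI _ e2 (s 0) (hs1 0)
    have e : s 1 • X 1 + s 2 • X 2 + s 0 • X 0 = s 0 • X 0 + s 1 • X 1 + s 2 • X 2 := by
      abel
    rw [e] at g
    rw [map_sub, v1]
    rw [v2] at g
    rw [abs_le] at g ⊢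
    constructor <;> linarith [g.1, g.2]) q hq
  rw [map_sub] at hfin
  exact hfin

end Pool.STB6
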