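import Pool.Agent.H6.STB.Lvl

/-!
# Comparison of the polynomials of two structures
-/

set_option autoImplicit false

namespace Pool.STB6

open Finset Real MvPolynomial
open Pool.Agent.H49.Ent Pool.Agent.H32.Dense Pool.STK
open Pool.BFL (Pb)
open Pool.K2S (cpn)
open Pool.CLU (cpn_law cpn_pos cpn_marg cpn_nonneg)
open Pool.STB (V3 Po Bx mt cv Pb_mono Pb_or Pb_le2)

/-- **Two polynomials with the same value at a full position.** -/
theorem cmp (N : ℕ) : ∃ (Cr : ℕ) (Cl : ℝ), 1 ≤ Cr ∧ 1 ≤ Cl ∧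
    (∀ (Φ : Po) (U : ℝ), Φ.totalDegree ≤ N → (∀ s : V3, Bx 3 s → |eval s Φ| ≤ U) →
      ∀ (u e : V3) (ε : ℝ), 0 ≤ ε → ε ≤ 1 → Bx 2 u → Bx ε e →
      |eval (u + e) Φ - eval u Φ| ≤ Cl * U * ε) ∧
    ∀ (Ω τ : Type) [Fintype Ω] (Q : Ω → ℝ) (W : Ω → τ) (M : ℕ) (ζ : Ω → V3) (v : Ω → ℝ)
    (A B : τ → Po) (U δ e ρ : ℝ) (Ev : Ω → Prop), IsLaw Q → 1 ≤ M → 0 < ρ → ρ < 1 →
    (Cr : ℝ) ≤ ρ ^ Cr * (2 * M + 1) → (∀ ω, Bx 1 (ζ ω)) →
    3 * Real.log (2 * M + 1) - e ≤ CH Q (fun ω => cv M (ζ ω)) W →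
    (∀ ω, 0 < Q ω → Ev ω → (A (W ω)).totalDegree ≤ N ∧ (B (W ω)).totalDegree ≤ N ∧
      (∀ s : V3, Bx 3 s → |eval s (A (W ω))| ≤ U) ∧ (∀ s : V3, Bx 3 s → |eval s (B (W ω))| ≤ U) ∧
      |v ω - eval (ζ ω) (A (W ω))| ≤ δ ∧ |v ω - eval (ζ ω) (B (W ω))| ≤ δ) →
    Pb Q (fun ω => Ev ω ∧ ¬ ∀ s : V3, Bx 1 s → |eval s (A (W ω)) - eval s (B (W ω))| ≤
      Cr * (1 / ρ) ^ Cr * (2 * δ + 2 * (Cl * U * (1 / M)))) ≤ (e + Real.log 2) / Real.log (1 / ρ) := by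
  classical
  obtain ⟨Cr, hCr, hr⟩ := read_mv 3 N
  obtain ⟨Cl, hCl, hl⟩ := lip3 N
  refine ⟨Cr, Cl, hCr, hCl, hl, ?_⟩
  intro Ω τ _ Q W M ζ v A B U δ e ρ Ev hQ hM hρ hρ1 hCM hζ hfull hE
  have hM0 : (0 : ℝ) < M := by exact_mod_cast hM
  have hM1 : (1 : ℝ) ≤ M := by exact_mod_cast hM
  have hlog : 0 < Real.log (1 / ρ) := Real.log_pos (by rw [lt_div_iff₀ hρ]; linarith)
  rw [le_div_iff₀ hlog]
  have h1 := hr Ω τ Q W M (fun ω => cv M (ζ ω)) (fun u => A u - B u)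
    (fun _ => 2 * δ + 2 * (Cl * U * (1 / M))) Ev e ρ 1 hQ hM hρ hρ1.le hCM le_rfl
    (fun ω _ i => cv_le (hζ ω) i) (by push_cast; exact hfull) ?_
  · refine le_trans (mul_le_mul_of_nonneg_right (Pb_mono hQ.nonneg fun ω _ h => ?_) hlog.le) h1
    refine ⟨h.1, ?_⟩
    by_contra hc
    push Not at hc
    refine h.2 fun s hs => ?_
    have h2 := hc s hs
    rw [map_sub] at h2
    exact h2
  · intro ω hω hev
    obtain ⟨d1, d2, u1, u2, v1, v2⟩ := hE ω hω hev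
    have hnear : Bx (1 / (M : ℝ)) (pt M (cv M (ζ ω)) - ζ ω) := fun i => by
      rw [Pi.sub_apply]
      exact pt_near hM (ζ ω) i
    have h1M : 1 / (M : ℝ) ≤ 1 := by
      rw [div_le_one hM0]
      exact hM1
    have e1 : ζ ω + (pt M (cv M (ζ ω)) - ζ ω) = pt M (cv M (ζ ω)) := by
      rw [add_sub_cancel]
    have hb2 : Bx 2 (ζ ω) := fun i => (hζ ω i).trans (by norm_num)
    have a1 := hl (A (W ω)) U d1 u1 (ζ ω) (pt M (cv M (ζ ω)) - ζ ω) (1 / M) (by positivity) h1M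
      hb2 hnear
    have a2 := hl (B (W ω)) U d2 u2 (ζ ω) (pt M (cv M (ζ ω)) - ζ ω) (1 / M) (by positivity) h1M
      hb2 hnear
    rw [e1] at a1 a2
    refine ⟨fun i => ?_, ?_⟩
    · refine (degreeOf_sub_le _ _ _).trans (max_le ?_ ?_)
      · exact (degreeOf_le_totalDegree _ _).trans d1
      · exact (degreeOf_le_totalDegree _ _).trans d2
    · show |eval (pt M (cv M (ζ ω))) (A (W ω) - B (W ω))| ≤ _
      rw [map_sub]
      obtain ⟨p1, p2⟩ := abs_le.1 a1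
      obtain ⟨q1, q2⟩ := abs_le.1 a2
      obtain ⟨r1, r2⟩ := abs_le.1 v1
      obtain ⟨s1, s2⟩ := abs_le.1 v2
      exact abs_le.2 ⟨by linarith, by linarith⟩

section

variable {Ω Λ Z Y 𝒟 : Type} [Fintype Ω] {p : Ω → ℝ} {L : Ω → Λ} {z : Ω → Z} {y : Ω → Y} {t : Ω → ℤ}
  {D : Λ → 𝒟} {X : 𝒟 → V3} {x : Z → V3} {V : Z → ℝ} {P : Λ → Polynomial ℝ} {N M : ℕ}
  {K e η c : ℝ} {E δ c₃ U : ℝ}

/-- The record of the base sample of a level. -/
def zb (z : Ω → Z) (D3 : Lv (cpn p z 2) (w0 L y D) (ro M L z D X x η) (fun w => V (z (w 0))) M N ∅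
    E δ c₃ U) (w : D3.Ω) : Z := z (D3.σ w 0)

variable {D3 : Lv (cpn p z 2) (w0 L y D) (ro M L z D X x η) (fun w => V (z (w 0))) M N ∅ E δ c₃ U}

/-- The record of a level is nearly independent of the record of the point. -/
theorem inf_W (hC : CloH p L z y t D X x V P N M K e η c) :
    CH D3.q D3.W (fun w => y (D3.σ w 0)) - CH D3.q D3.W (zb z D3) ≤ 3 * e + E := by
  have d0 := D3.law.nonneg
  have h1 : CH D3.q (zb z D3) (fun w => y (D3.σ w 0)) -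
      CH D3.q (zb z D3) (fun w => (D3.W w, y (D3.σ w 0))) =
      CH D3.q D3.W (fun w => y (D3.σ w 0)) - CH D3.q D3.W (fun w => (zb z D3 w, y (D3.σ w 0))) := by
    have c1 := CH_chain d0 (zb z D3) D3.W (fun w => y (D3.σ w 0))
    have c2 := CH_chain d0 D3.W (zb z D3) (fun w => y (D3.σ w 0))
    have c3 : CH D3.q (fun ω => (zb z D3 ω, D3.W ω)) (fun w => y (D3.σ w 0)) =
      CH D3.q (fun ω => (D3.W ω, zb z D3 ω)) (fun w => y (D3.σ w 0)) :=
      Pool.MIC.CH_swl d0 _ _ _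
    linarith
  have h2 : CH D3.q D3.W (fun w => (zb z D3 w, y (D3.σ w 0))) ≤ CH D3.q D3.W (zb z D3) :=
    CH_mono_cond d0 fun _ _ _ _ h => (Prod.ext_iff.1 h).1
  obtain ⟨φ, hφ⟩ := D3.w0
  have h3 : CH D3.q (zb z D3) D3.W ≤ CH D3.q (zb z D3) (fun w => (D3.W w, y (D3.σ w 0))) :=
    CH_mono_cond d0 fun w w' _ _ h => by
      have h4 : D3.W w = D3.W w' := h
      refine Prod.ext h4 ?_
      have h5 := hφ w
      have h6 := hφ w'
      rw [h4, h6] at h5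
      exact (congrArg Prod.fst h5).symm
  have h4 := D3.full Z Unit (fun w => z (w 0)) (fun _ => ())
  have h5 : CH (cpn p z 2) (fun w => z (w 0)) (fun w => ((), w0 L y D w)) =
      CH (cpn p z 2) (fun w => z (w 0)) (w0 L y D) :=
    CH_congr (cpn_nonneg hC.law.nonneg z 2) (fun _ _ _ _ h => (Prod.ext_iff.1 h).1)
      (fun _ _ _ _ h => (Prod.ext_iff.1 h).1) (fun _ _ _ _ h => (Prod.ext_iff.1 h).2)
      (fun _ _ _ _ h => Prod.ext rfl h)
  have h6 : CH D3.q (fun w => z (D3.σ w 0)) (fun w => ((), D3.W w)) =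
      CH D3.q (zb z D3) D3.W :=
    CH_congr d0 (fun _ _ _ _ h => (Prod.ext_iff.1 h).1)
      (fun _ _ _ _ h => (Prod.ext_iff.1 h).1) (fun _ _ _ _ h => (Prod.ext_iff.1 h).2)
      (fun _ _ _ _ h => Prod.ext rfl h)
  have h7 : CH p z y - 3 * e ≤ CH (cpn p z 2) (fun w => z (w 0)) (fun w => (y (w 0), dd L D w)) :=
    free_star hC (fun r : Z => r)
  have h8 : CH D3.q (zb z D3) (fun w => y (D3.σ w 0)) = CH p z y :=
    (D3.mg.comp (cpn_marg hC.law.nonneg z 2 0)).CH z y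
  have h9 : CH (cpn p z 2) (fun w => z (w 0)) (w0 L y D) =
      CH (cpn p z 2) (fun w => z (w 0)) (fun w => (y (w 0), dd L D w)) := rfl
  linarith

/-- The position of the base sample given the record of a level. -/
theorem pos_W (hC : CloH p L z y t D X x V P N M K e η c) :
    3 * Real.log (2 * M + 1) - (4 * e + E) ≤ CH D3.q (fun w => cv M (x (zb z D3 w))) D3.W := by
  have d0 := D3.law.nonneg
  have h4 := D3.full (Fin 3 → ℤ) Unit (fun w => cv M (x (z (w 0)))) (fun _ => ())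
  have h5 : CH (cpn p z 2) (fun w => cv M (x (z (w 0)))) (fun w => ((), w0 L y D w)) =
      CH (cpn p z 2) (fun w => cv M (x (z (w 0)))) (w0 L y D) :=
    CH_congr (cpn_nonneg hC.law.nonneg z 2) (fun _ _ _ _ h => (Prod.ext_iff.1 h).1)
      (fun _ _ _ _ h => (Prod.ext_iff.1 h).1) (fun _ _ _ _ h => (Prod.ext_iff.1 h).2)
      (fun _ _ _ _ h => Prod.ext rfl h)
  have h6 : CH D3.q (fun w => cv M (x (z (D3.σ w 0)))) (fun w => ((), D3.W w)) =
      CH D3.q (fun w => cv M (x (zb z D3 w))) D3.W :=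
    CH_congr d0 (fun _ _ _ _ h => (Prod.ext_iff.1 h).1)
      (fun _ _ _ _ h => (Prod.ext_iff.1 h).1) (fun _ _ _ _ h => (Prod.ext_iff.1 h).2)
      (fun _ _ _ _ h => Prod.ext rfl h)
  have h7 := free_star hC (fun r : Z => cv M (x r))
  have h9 : CH (cpn p z 2) (fun w => cv M (x (z (w 0)))) (w0 L y D) =
      CH (cpn p z 2) (fun w => cv M (x (z (w 0)))) (fun w => (y (w 0), dd L D w)) := rfl
  have h10 := hC.posf
  linarith

/-- The data of a level are few given its record. -/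
theorem few_W (D3 : Lv (cpn p z 2) (w0 L y D) (ro M L z D X x η) (fun w => V (z (w 0))) M N ∅
    E δ c₃ U) : CH D3.q D3.g D3.W ≤ E := by
  refine le_trans (le_of_eq ?_) D3.few
  refine CH_congr D3.law.nonneg (fun _ _ _ _ h => (Prod.ext_iff.1 h).1)
    (fun _ _ _ _ h => (Prod.ext_iff.1 h).1) (fun w w' _ _ h => Prod.ext h ?_)
    (fun _ _ _ _ h => (Prod.ext_iff.1 h).1)
  funext i
  simp [rs]

/-- Removal of the data. -/
theorem drop_g {Ω' S T T' G G' : Type} [Fintype Ω'] {Q : Ω' → ℝ} (h0 : ∀ ω, 0 ≤ Q ω) (ξ : Ω' → S)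
    (A : Ω' → T) (A' : Ω' → T') (g : Ω' → G) (g' : Ω' → G') {a b : ℝ} (ha : CH Q g A ≤ a)
    (hb : CH Q g' A' ≤ b) :
    CH Q ξ (fun w => (A w, A' w)) - (a + b) ≤ CH Q ξ (fun w => ((A w, g w), (A' w, g' w))) := by
  have h1 := CH_le_add h0 ξ (fun w => (g w, g' w)) (fun w => (A w, A' w))
  have h2 := CH_subadd h0 g g' (fun w => (A w, A' w))
  have h3 : CH Q g (fun w => (A w, A' w)) ≤ CH Q g A :=
    CH_mono_cond h0 fun _ _ _ _ h => (Prod.ext_iff.1 h).1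
  have h4 : CH Q g' (fun w => (A w, A' w)) ≤ CH Q g' A' :=
    CH_mono_cond h0 fun _ _ _ _ h => (Prod.ext_iff.1 h).2
  have h5 : CH Q ξ (fun w => ((g w, g' w), (A w, A' w))) =
      CH Q ξ (fun w => ((A w, g w), (A' w, g' w))) :=
    CH_congr h0 (fun _ _ _ _ h => (Prod.ext_iff.1 h).1) (fun _ _ _ _ h => (Prod.ext_iff.1 h).1)
      (fun _ _ _ _ h => by
        simp only [Prod.mk.injEq] at h ⊢
        tauto) (fun _ _ _ _ h => by
        simp only [Prod.mk.injEq] at h ⊢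
        tauto)
  linarith

end

end Pool.STB6
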