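import Pool.Agent.H6.STB.Core

/-!
# The closed polynomial with explicit numbers
-/

set_option autoImplicit false

namespace Pool.STB6

open Finset Real MvPolynomial
open Pool.Agent.H49.Ent Pool.Agent.H32.Dense Pool.STK
open Pool.BFL (Pb)
open Pool.K2S (cpn)
open Pool.CLU (cpn_law cpn_pos cpn_marg cpn_nonneg)
open Pool.STB (V3 Po Bx mt cv Pb_mono Pb_or Pb_le2 glueLaw' avg_sel)

/-- **The core.** -/
theorem core (N : ℕ) : ∃ (Cr : ℕ) (Cl C₁ : ℝ), 1 ≤ Cr ∧ 1 ≤ Cl ∧ 1 ≤ C₁ ∧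
    ∀ (Ω Λ Z Y 𝒟 : Type) [Fintype Ω] (p : Ω → ℝ) (L : Ω → Λ) (z : Ω → Z) (y : Ω → Y) (t : Ω → ℤ)
    (D : Λ → 𝒟) (X : 𝒟 → V3) (x : Z → V3) (V : Z → ℝ) (P : Λ → Polynomial ℝ) (M : ℕ)
    (K e η c E δ c₃ U ρ : ℝ), CloH p L z y t D X x V P N M K e η c → 1 ≤ M → 0 < η → η ≤ 1 →
    1 ≤ K → 0 ≤ c → 0 ≤ e → 0 ≤ U → 6 / η ^ 3 * (1 / M + K / M) ≤ 1 → 3 * K / M ≤ 1 →
    0 < ρ → ρ < 1 → (Cr : ℝ) ≤ ρ ^ Cr * (2 * M + 1) →
    (∀ x0 : Λ → V3,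
      (∀ ω, 0 < p ω → Bx (K / M) (x (z ω) - x0 (L ω) - ((t ω : ℝ) / M) • X (D (L ω)))) →
      ∃ D3 : Lv (cpn p z 2) (w0 L y D) (ro M L z D X x η) (fun w => V (z (w 0))) M N ∅ E δ c₃ U,
      Pb D3.q (fun ω => ¬ ∀ s : ℝ, |s| ≤ 3 →
        |(bp X η P x0 2 (dd L D (D3.σ ω)) (L (D3.σ ω 2))).eval s - eval (Function.update
          (pt M (ro M L z D X x η (D3.σ ω))) 2 s) (D3.F (D3.W ω) (D3.g ω))| ≤ δ) ≤ c₃) →
    ∃ f : Z → Po, (∀ r, (f r).totalDegree ≤ 3 * N ∧ ∀ q, Bx 3 q → |eval q (f r)| ≤ U) ∧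
      Pb p (fun ω => ¬ |V (z ω) - eval (x (z ω)) (f (z ω))| ≤ dv Cl U K δ C₁ η M +
        Cr * (1 / ρ) ^ Cr * (2 * dv Cl U K δ C₁ η M + 2 * (Cl * U * (1 / M)))) ≤
          3 * (3 * c + c₃) + (8 * e + 8 * ell K η c M + 4 * E + Real.log 2) / Real.log (1 / ρ) ∧
      Pb (glue p p L L) (fun w => ¬ ∀ q, Bx 1 q →
        |eval q (f (z w.1)) - eval q (f (z w.2))| ≤
          3 * (Cr * (1 / ρ) ^ Cr * (2 * dv Cl U K δ C₁ η M + 2 * (Cl * U * (1 / M))))) ≤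
          19 * c + 7 * c₃ +
            3 * ((8 * e + 8 * ell K η c M + 4 * E + Real.log 2) / Real.log (1 / ρ)) := by
  classical
  obtain ⟨Cr, Cl, hCr, hCl1, hCl, hcmp⟩ := cmp (3 * N)
  obtain ⟨C₁, hC11, hC₁⟩ := lip1 N
  refine ⟨Cr, Cl, C₁, hCr, hCl1, hC11, ?_⟩
  intro Ω Λ Z Y 𝒟 _ p L z y t D X x V P M K e η c E δ c₃ U ρ hC hM hη hη1 hK hc he hU hsm hKM hρ
    hρ1 hCM hex
  obtain ⟨x0, hx0⟩ := base hC
  obtain ⟨D3, hpath⟩ := hex x0 hx0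
  have p0 := hC.law.nonneg
  have m0 := cpn_nonneg p0 z 2
  have d0 := D3.law.nonneg
  have hell := ell_nonneg (M := M) hM hη hη1 hK hc
  have hl : 0 < Real.log (1 / ρ) := Real.log_pos (by rw [lt_div_iff₀ hρ]; linarith)
  obtain ⟨φ, hφ⟩ := D3.w0
  have hpos : ∀ w, 0 < D3.q w → (∀ i, 0 < p (D3.σ w i)) ∧ ∀ i, z (D3.σ w i) = z (D3.σ w 0) :=
    fun w hw => cpn_pos p0 z 2 _ (D3.mg.pos d0 hw)
  -- the law of the records
  have hmz : Marg D3.q p (fun w => D3.σ w 0) := D3.mg.comp (cpn_marg p0 z 2 0)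
  have hm2 : Marg D3.q p (fun w => D3.σ w 2) := D3.mg.comp (cpn_marg p0 z 2 2)
  have hzb : ∀ r, law p z r = law D3.q (zb z D3) r := fun r => (hmz.law z r).symm
  have hE0 : 0 ≤ E := (CH_nonneg d0 _ _).trans (few_W D3)
  -- the events
  obtain ⟨g1, hg1⟩ : ∃ g1 : D3.Ω → Prop, g1 = fun w => Gp X η (dd L D (D3.σ w)) := ⟨_, rfl⟩
  obtain ⟨g2, hg2⟩ : ∃ g2 : D3.Ω → Prop, g2 = fun w =>
    |V (z (D3.σ w 0)) - eval (pt M (ro M L z D X x η (D3.σ w))) (D3.F (D3.W w) (D3.g w))| ≤ δ ∧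
      ∀ s : V3, Bx 3 s → |eval s (D3.F (D3.W w) (D3.g w))| ≤ U := ⟨_, rfl⟩
  obtain ⟨g3, hg3⟩ : ∃ g3 : D3.Ω → Prop, g3 = fun w => ∀ s : ℝ, |s| ≤ 3 →
        |(bp X η P x0 2 (dd L D (D3.σ w)) (L (D3.σ w 2))).eval s - eval (Function.update
          (pt M (ro M L z D X x η (D3.σ w))) 2 s) (D3.F (D3.W w) (D3.g w))| ≤ δ := ⟨_, rfl⟩
  obtain ⟨g4, hg4⟩ : ∃ g4 : Ω → Prop, g4 = fun ω =>
    |V (z ω) - (P (L ω)).eval ((t ω : ℝ) / M)| ≤ K / M := ⟨_, rfl⟩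
  have q1 : Pb D3.q (fun w => ¬ g1 w) ≤ 3 * c := by
    rw [hg1, Pool.MIC.Marg.Pb_eq D3.mg (fun w => ¬ Gp X η (dd L D w))]
    exact gp_star hC hη
  have q2 : Pb D3.q (fun w => ¬ g2 w) ≤ c₃ := by rw [hg2]; exact D3.val
  have q3 : Pb D3.q (fun w => ¬ g3 w) ≤ c₃ := by rw [hg3]; exact hpath
  have q4 : Pb p (fun ω => ¬ g4 ω) ≤ c := by rw [hg4]; exact hC.path
  have q12 : Pb D3.q (fun w => ¬ (g1 w ∧ g2 w)) ≤ 3 * c + c₃ := by
    refine (Pb_mono d0 fun w _ h => ?_).trans ((Pb_or d0 (fun w => ¬ g1 w) (fun w => ¬ g2 w)).trans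
      (add_le_add q1 q2))
    by_contra hn
    rw [not_or, not_not, not_not] at hn
    exact h hn
  -- the polynomial of a structure
  obtain ⟨A, hA⟩ : ∃ A : D3.𝒲 × D3.G → Po, A = pl X η U D3.F φ := ⟨_, rfl⟩
  have hAd : ∀ u, (A u).totalDegree ≤ 3 * N := fun u => by
    rw [hA]
    exact pl_deg D3.deg u
  have hAb : ∀ u s, Bx 3 s → |eval s (A u)| ≤ U := fun u s hs => by
    rw [hA]
    exact pl_bd hη hC.X1 hU u s hs
  have hval : ∀ w, g1 w ∧ g2 w → |V (zb z D3 w) - eval (x (zb z D3 w)) (A (D3.W w, D3.g w))| ≤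
      dv Cl U K δ C₁ η M := by
    intro w h
    rw [hg1, hg2] at h
    rw [hA]
    exact pl_val hC hM hη hK (by linarith) (by linarith) hCl hU hφ h.1 h.2
  have hline : ∀ w ω, 0 < D3.q w → 0 < p ω → L ω = L (D3.σ w 2) → g1 w → g2 w → g3 w → g4 ω →
      |V (z ω) - eval (x (z ω)) (A (D3.W w, D3.g w))| ≤ dv Cl U K δ C₁ η M := by
    intro w ω hw hω hL h1 h2 h3 h4
    rw [hg1] at h1
    rw [hg2] at h2
    rw [hg3] at h3
    rw [hg4] at h4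
    rw [hA]
    exact pl_line hC hM hη hK hx0 hC₁ (by linarith) (by linarith) hCl hU hsm hKM hφ hw h1 h2.2 h3
      hω hL h4
  obtain ⟨dc, hdc⟩ : ∃ dc : ℝ, dc = Cr * (1 / ρ) ^ Cr *
    (2 * dv Cl U K δ C₁ η M + 2 * (Cl * U * (1 / M))) := ⟨_, rfl⟩
  obtain ⟨ee, hee⟩ : ∃ ee : ℝ, ee = 8 * e + 8 * ell K η c M + 4 * E := ⟨_, rfl⟩
  rw [← hdc, ← hee]
  -- (1) two structures over the same record
  have e1 : Pb (glue D3.q D3.q (zb z D3) (zb z D3)) (fun w => ¬ ∀ s, Bx 1 s →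
      |eval s (A (D3.W w.1, D3.g w.1)) - eval s (A (D3.W w.2, D3.g w.2))| ≤ dc) ≤
      2 * (3 * c + c₃) + (ee + Real.log 2) / Real.log (1 / ρ) := by
    have gl := glueLaw' D3.law D3.law (X := zb z D3) (Y := zb z D3) fun _ => rfl
    have g0 := gl.nonneg
    have j1 := join D3.law D3.law (zb z D3) (zb z D3) (fun _ => rfl) (fun w => y (D3.σ w 0))
      (fun w => y (D3.σ w 0)) (fun w w' hw hw' h =>
        hC.yz _ _ ((hpos w hw).1 0) ((hpos w' hw').1 0) h)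
      (fun w => cv M (x (zb z D3 w))) D3.W (fun w w' _ _ h => by
        have h5 := hφ w
        have h6 := hφ w'
        rw [h, h6] at h5
        exact (congrArg Prod.fst h5).symm) D3.W
    have j2 := inf_W (D3 := D3) hC
    have j3 := pos_W (D3 := D3) hC
    have k1 : CH (glue D3.q D3.q (zb z D3) (zb z D3)) (fun w => D3.g w.1) (fun w => D3.W w.1) ≤ E := by
      rw [Pool.DY1.CH_glue_fst d0 (fun _ => rfl) D3.W D3.g]
      exact few_W D3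
    have k2 : CH (glue D3.q D3.q (zb z D3) (zb z D3)) (fun w => D3.g w.2) (fun w => D3.W w.2) ≤ E := by
      rw [Pool.DY1.CH_glue_snd d0 (fun _ => rfl) D3.W D3.g]
      exact few_W D3
    have k3 := drop_g g0 (fun w : D3.Ω × D3.Ω => cv M (x (zb z D3 w.1))) (fun w => D3.W w.1)
      (fun w => D3.W w.2) (fun w => D3.g w.1) (fun w => D3.g w.2) k1 k2
    have h1 := hcmp (D3.Ω × D3.Ω) ((D3.𝒲 × D3.G) × (D3.𝒲 × D3.G))
      (glue D3.q D3.q (zb z D3) (zb z D3))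
      (fun w => ((D3.W w.1, D3.g w.1), (D3.W w.2, D3.g w.2))) M (fun w => x (zb z D3 w.1))
      (fun w => V (zb z D3 w.1)) (fun u => A u.1) (fun u => A u.2) U (dv Cl U K δ C₁ η M) ee ρ
      (fun w => (g1 w.1 ∧ g2 w.1) ∧ (g1 w.2 ∧ g2 w.2)) gl hM hρ hρ1 hCM (fun w => hC.x1 _)
      (by rw [hee]; linarith) (fun w hw hE => by
        obtain ⟨a1, a2, a3⟩ := (glue_pos_iff d0 d0 w).1 hw
        refine ⟨hAd _, hAd _, hAb _, hAb _, hval _ hE.1, ?_⟩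
        have h2 := hval _ hE.2
        rw [← a3] at h2
        exact h2)
    rw [← hdc] at h1
    have h2 : Pb (glue D3.q D3.q (zb z D3) (zb z D3)) (fun w => ¬ (g1 w.1 ∧ g2 w.1)) ≤
        3 * c + c₃ := by
      rw [Pool.MIC.Marg.Pb_eq (marg_fst (Z₁ := zb z D3) (Z₂ := zb z D3) d0 fun _ => rfl)
        (fun w => ¬ (g1 w ∧ g2 w))]
      exact q12
    have h3 : Pb (glue D3.q D3.q (zb z D3) (zb z D3)) (fun w => ¬ (g1 w.2 ∧ g2 w.2)) ≤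
        3 * c + c₃ := by
      rw [Pool.MIC.Marg.Pb_eq (marg_snd (Z₁ := zb z D3) (Z₂ := zb z D3) d0 fun _ => rfl)
        (fun w => ¬ (g1 w ∧ g2 w))]
      exact q12
    have h4 := Pb_or g0 (fun w => ¬ (g1 w.1 ∧ g2 w.1)) (fun w => ¬ (g1 w.2 ∧ g2 w.2))
    have h5 := Pb_or g0 (fun w => ¬ (g1 w.1 ∧ g2 w.1) ∨ ¬ (g1 w.2 ∧ g2 w.2))
      (fun w => ((g1 w.1 ∧ g2 w.1) ∧ (g1 w.2 ∧ g2 w.2)) ∧ ¬ ∀ s, Bx 1 s →
        |eval s (A (D3.W w.1, D3.g w.1)) - eval s (A (D3.W w.2, D3.g w.2))| ≤ dc)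
    refine (Pb_mono g0 fun w _ hn => ?_).trans (h5.trans ?_)
    · by_cases h6 : (g1 w.1 ∧ g2 w.1) ∧ (g1 w.2 ∧ g2 w.2)
      · exact Or.inr ⟨h6, hn⟩
      · rw [not_and_or] at h6
        exact Or.inl h6
    · linarith
  -- the selection
  obtain ⟨β, hβ⟩ := avg_sel D3.law D3.law (zb z D3) (zb z D3) (fun _ => rfl)
    (fun w w' => ¬ ∀ s, Bx 1 s →
      |eval s (A (D3.W w, D3.g w)) - eval s (A (D3.W w', D3.g w'))| ≤ dc)
  have e2 := hβ.trans e1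
  obtain ⟨f, hf⟩ : ∃ f : Z → Po, f = fun r => A (D3.W (β r), D3.g (β r)) := ⟨_, rfl⟩
  have e3 : Pb D3.q (fun w => ¬ ∀ s, Bx 1 s →
      |eval s (A (D3.W w, D3.g w)) - eval s (f (zb z D3 w))| ≤ dc) ≤
      2 * (3 * c + c₃) + (ee + Real.log 2) / Real.log (1 / ρ) := by
    rw [hf]
    exact e2
  refine ⟨f, fun r => ⟨?_, fun q hq => ?_⟩, ?_, ?_⟩
  · rw [hf]
    exact hAd _
  · rw [hf]
    exact hAb _ q hq
  · -- the values
    rw [← Pool.MIC.Marg.Pb_eq hmz (fun ω => ¬ |V (z ω) - eval (x (z ω)) (f (z ω))| ≤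
      dv Cl U K δ C₁ η M + dc)]
    refine (Pb_le2 d0 (B := fun w => ¬ (g1 w ∧ g2 w)) (C := fun w => ¬ ∀ s, Bx 1 s →
      |eval s (A (D3.W w, D3.g w)) - eval s (f (zb z D3 w))| ≤ dc)
      fun w _ h1 h2 hn => hn ?_).trans (by linarith)
    rw [not_not] at h1 h2
    have h3 := hval w h1
    have h4 := h2 _ (hC.x1 (zb z D3 w))
    show |V (zb z D3 w) - eval (x (zb z D3 w)) (f (zb z D3 w))| ≤ _
    obtain ⟨A1, A2⟩ := abs_le.1 h3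
    obtain ⟨B1, B2⟩ := abs_le.1 h4
    exact abs_le.2 ⟨by linarith, by linarith⟩
  · -- (2) the lines
    have hlaw : ∀ u, law D3.q (fun w => L (D3.σ w 2)) u = law p L u := fun u => hm2.law L u
    obtain ⟨Q1, hQ1⟩ : ∃ Q1 : D3.Ω × Ω → ℝ, Q1 = glue D3.q p (fun w => L (D3.σ w 2)) L := ⟨_, rfl⟩
    have gl1 : IsLaw Q1 := by rw [hQ1]; exact glueLaw' D3.law hC.law hlaw
    have n1 := gl1.nonneg
    have s1 : Marg Q1 p (fun w => w.2) := by rw [hQ1]; exact marg_snd p0 hlaw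
    have f1 : Marg Q1 D3.q (fun w => w.1) := by rw [hQ1]; exact marg_fst d0 hlaw
    have hlaw2 : ∀ u, law Q1 (fun w => z w.2) u = law D3.q (zb z D3) u := fun u => by
      rw [s1.law z u, hzb]
    have gl := glueLaw' gl1 D3.law hlaw2
    have g0 := gl.nonneg
    have hQpos : ∀ w, 0 < Q1 w → 0 < D3.q w.1 ∧ 0 < p w.2 ∧ L (D3.σ w.1 2) = L w.2 := fun w hw => by
      rw [hQ1] at hw
      exact (glue_pos_iff d0 p0 w).1 hw
    have hgpos : ∀ w, 0 < glue Q1 D3.q (fun w => z w.2) (zb z D3) w →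
        (0 < D3.q w.1.1 ∧ 0 < p w.1.2 ∧ L (D3.σ w.1.1 2) = L w.1.2) ∧ 0 < D3.q w.2 ∧
          z w.1.2 = zb z D3 w.2 := fun w hw => by
      obtain ⟨a1, a2, a3⟩ := (glue_pos_iff n1 d0 w).1 hw
      exact ⟨hQpos _ a1, a2, a3⟩
    have mf : Marg (glue Q1 D3.q (fun w => z w.2) (zb z D3)) Q1 (fun w => w.1) :=
      marg_fst n1 hlaw2
    have ms : Marg (glue Q1 D3.q (fun w => z w.2) (zb z D3)) D3.q (fun w => w.2) :=
      marg_snd d0 hlaw2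
    -- the position
    have j1 := join gl1 D3.law (fun w => z w.2) (zb z D3) hlaw2 (fun w => y w.2)
      (fun w => y (D3.σ w 0)) (fun w w' hw hw' h =>
        hC.yz _ _ (hQpos w hw).2.1 ((hpos w' hw').1 0) h)
      (fun w => cv M (x (z w.2))) (fun w => D3.W w.1) (fun w w' hw hw' h => by
        have h5 := hφ w.1
        have h6 := hφ w'.1
        have h' : D3.W w.1 = D3.W w'.1 := h
        rw [h', h6] at h5
        have h7 : y (D3.σ w.1 0) = y (D3.σ w'.1 0) := (congrArg Prod.fst h5).symm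
        obtain ⟨a1, a2, a3⟩ := hQpos w hw
        obtain ⟨b1, b2, b3⟩ := hQpos w' hw'
        show y w.2 = y w'.2
        rw [← hC.yL _ _ ((hpos _ a1).1 2) a2 a3, ← hC.yL _ _ ((hpos _ b1).1 2) b2 b3,
          hC.yz _ _ ((hpos _ a1).1 2) ((hpos _ a1).1 0) ((hpos _ a1).2 2),
          hC.yz _ _ ((hpos _ b1).1 2) ((hpos _ b1).1 0) ((hpos _ b1).2 2)]
        exact h7) D3.W
    have j2 := inf_W (D3 := D3) hC
    have j3 := pos_line (D3 := D3) hC hM hη hη1 hK hc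
    rw [← hQ1] at j3
    have k1 : CH (glue Q1 D3.q (fun w => z w.2) (zb z D3)) (fun w => D3.g w.1.1)
        (fun w => D3.W w.1.1) ≤ E := by
      rw [mf.CH (fun w => D3.g w.1) (fun w => D3.W w.1), f1.CH D3.g D3.W]
      exact few_W D3
    have k2 : CH (glue Q1 D3.q (fun w => z w.2) (zb z D3)) (fun w => D3.g w.2)
        (fun w => D3.W w.2) ≤ E := by
      rw [ms.CH D3.g D3.W]
      exact few_W D3
    have k3 := drop_g g0 (fun w : (D3.Ω × Ω) × D3.Ω => cv M (x (z w.1.2))) (fun w => D3.W w.1.1)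
      (fun w => D3.W w.2) (fun w => D3.g w.1.1) (fun w => D3.g w.2) k1 k2
    have h1 := hcmp ((D3.Ω × Ω) × D3.Ω) ((D3.𝒲 × D3.G) × (D3.𝒲 × D3.G))
      (glue Q1 D3.q (fun w => z w.2) (zb z D3))
      (fun w => ((D3.W w.1.1, D3.g w.1.1), (D3.W w.2, D3.g w.2))) M (fun w => x (z w.1.2))
      (fun w => V (z w.1.2)) (fun u => A u.1) (fun u => A u.2) U (dv Cl U K δ C₁ η M) ee ρ
      (fun w => ((g1 w.1.1 ∧ g2 w.1.1) ∧ (g3 w.1.1 ∧ g4 w.1.2)) ∧ (g1 w.2 ∧ g2 w.2)) gl hM hρ hρ1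
      hCM (fun w => hC.x1 _) (by rw [hee]; linarith) (fun w hw hE => by
        obtain ⟨⟨a1, a2, a3⟩, a4, a5⟩ := hgpos w hw
        refine ⟨hAd _, hAd _, hAb _, hAb _, ?_, ?_⟩
        · exact hline w.1.1 w.1.2 a1 a2 a3.symm hE.1.1.1 hE.1.1.2 hE.1.2.1 hE.1.2.2
        · have h2 := hval _ hE.2
          rw [← a5] at h2
          exact h2)
    rw [← hdc] at h1
    have u1 : Pb (glue Q1 D3.q (fun w => z w.2) (zb z D3)) (fun w => ¬ (g1 w.1.1 ∧ g2 w.1.1)) ≤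
        3 * c + c₃ := by
      rw [Pool.MIC.Marg.Pb_eq mf (fun w => ¬ (g1 w.1 ∧ g2 w.1)),
        Pool.MIC.Marg.Pb_eq f1 (fun w => ¬ (g1 w ∧ g2 w))]
      exact q12
    have u2 : Pb (glue Q1 D3.q (fun w => z w.2) (zb z D3)) (fun w => ¬ g3 w.1.1) ≤ c₃ := by
      rw [Pool.MIC.Marg.Pb_eq mf (fun w => ¬ g3 w.1), Pool.MIC.Marg.Pb_eq f1 (fun w => ¬ g3 w)]
      exact q3
    have u3 : Pb (glue Q1 D3.q (fun w => z w.2) (zb z D3)) (fun w => ¬ g4 w.1.2) ≤ c := by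
      rw [Pool.MIC.Marg.Pb_eq mf (fun w => ¬ g4 w.2), Pool.MIC.Marg.Pb_eq s1 (fun w => ¬ g4 w)]
      exact q4
    have u4 : Pb (glue Q1 D3.q (fun w => z w.2) (zb z D3)) (fun w => ¬ (g1 w.2 ∧ g2 w.2)) ≤
        3 * c + c₃ := by
      rw [Pool.MIC.Marg.Pb_eq ms (fun w => ¬ (g1 w ∧ g2 w))]
      exact q12
    -- the two polynomials
    have e4 : Pb (glue Q1 D3.q (fun w => z w.2) (zb z D3)) (fun w => ¬ ∀ s, Bx 1 s →
        |eval s (A (D3.W w.1.1, D3.g w.1.1)) - eval s (A (D3.W w.2, D3.g w.2))| ≤ dc) ≤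
        7 * c + 3 * c₃ + (ee + Real.log 2) / Real.log (1 / ρ) := by
      have v1 := Pb_or g0 (fun w => ¬ (g1 w.1.1 ∧ g2 w.1.1)) (fun w => ¬ g3 w.1.1)
      have v2 := Pb_or g0 (fun w => ¬ g4 w.1.2) (fun w => ¬ (g1 w.2 ∧ g2 w.2))
      have v3 := Pb_or g0 (fun w => ¬ (g1 w.1.1 ∧ g2 w.1.1) ∨ ¬ g3 w.1.1)
        (fun w => ¬ g4 w.1.2 ∨ ¬ (g1 w.2 ∧ g2 w.2))
      have v4 := Pb_or g0 (fun w => (¬ (g1 w.1.1 ∧ g2 w.1.1) ∨ ¬ g3 w.1.1) ∨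
        (¬ g4 w.1.2 ∨ ¬ (g1 w.2 ∧ g2 w.2)))
        (fun w => (((g1 w.1.1 ∧ g2 w.1.1) ∧ (g3 w.1.1 ∧ g4 w.1.2)) ∧ (g1 w.2 ∧ g2 w.2)) ∧
          ¬ ∀ s, Bx 1 s →
          |eval s (A (D3.W w.1.1, D3.g w.1.1)) - eval s (A (D3.W w.2, D3.g w.2))| ≤ dc)
      refine (Pb_mono g0 fun w _ hn => ?_).trans (v4.trans ?_)
      · by_cases a1 : (g1 w.1.1 ∧ g2 w.1.1)
        · by_cases a2 : g3 w.1.1
          · by_cases a3 : g4 w.1.2
            · by_cases a4 : (g1 w.2 ∧ g2 w.2)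
              · exact Or.inr ⟨⟨⟨a1, a2, a3⟩, a4⟩, hn⟩
              · exact Or.inl (Or.inr (Or.inr a4))
            · exact Or.inl (Or.inr (Or.inl a3))
          · exact Or.inl (Or.inl (Or.inr a2))
        · exact Or.inl (Or.inl (Or.inl a1))
      · linarith
    -- the first and the last comparison
    have e5 : Pb (glue Q1 D3.q (fun w => z w.2) (zb z D3)) (fun w => ¬ ∀ s, Bx 1 s →
        |eval s (A (D3.W w.1.1, D3.g w.1.1)) - eval s (f (zb z D3 w.1.1))| ≤ dc) ≤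
        2 * (3 * c + c₃) + (ee + Real.log 2) / Real.log (1 / ρ) := by
      rw [Pool.MIC.Marg.Pb_eq mf (fun w => ¬ ∀ s, Bx 1 s →
        |eval s (A (D3.W w.1, D3.g w.1)) - eval s (f (zb z D3 w.1))| ≤ dc),
        Pool.MIC.Marg.Pb_eq f1 (fun w => ¬ ∀ s, Bx 1 s →
        |eval s (A (D3.W w, D3.g w)) - eval s (f (zb z D3 w))| ≤ dc)]
      exact e3
    have e6 : Pb (glue Q1 D3.q (fun w => z w.2) (zb z D3)) (fun w => ¬ ∀ s, Bx 1 s →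
        |eval s (A (D3.W w.2, D3.g w.2)) - eval s (f (zb z D3 w.2))| ≤ dc) ≤
        2 * (3 * c + c₃) + (ee + Real.log 2) / Real.log (1 / ρ) := by
      rw [Pool.MIC.Marg.Pb_eq ms (fun w => ¬ ∀ s, Bx 1 s →
        |eval s (A (D3.W w, D3.g w)) - eval s (f (zb z D3 w))| ≤ dc)]
      exact e3
    -- the law of two samples of a line
    have mm : Marg Q1 (glue p p L L) (fun w => (D3.σ w.1 2, w.2)) := by
      rw [hQ1]
      exact Marg.glue (Z₁ := L) (Z₂ := L) hm2 (Marg.id p)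
    rw [← Pool.MIC.Marg.Pb_eq (mf.comp mm) (fun w => ¬ ∀ q, Bx 1 q →
      |eval q (f (z w.1)) - eval q (f (z w.2))| ≤ 3 * dc)]
    have v1 := Pb_or g0 (fun w => ¬ ∀ s, Bx 1 s →
        |eval s (A (D3.W w.1.1, D3.g w.1.1)) - eval s (f (zb z D3 w.1.1))| ≤ dc)
      (fun w => ¬ ∀ s, Bx 1 s →
        |eval s (A (D3.W w.2, D3.g w.2)) - eval s (f (zb z D3 w.2))| ≤ dc)
    have v2 := Pb_or g0 (fun w => (¬ ∀ s, Bx 1 s →
        |eval s (A (D3.W w.1.1, D3.g w.1.1)) - eval s (f (zb z D3 w.1.1))| ≤ dc) ∨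
      ¬ ∀ s, Bx 1 s →
        |eval s (A (D3.W w.2, D3.g w.2)) - eval s (f (zb z D3 w.2))| ≤ dc)
      (fun w => ¬ ∀ s, Bx 1 s →
        |eval s (A (D3.W w.1.1, D3.g w.1.1)) - eval s (A (D3.W w.2, D3.g w.2))| ≤ dc)
    refine (Pb_mono g0 fun w hw hn => ?_).trans (v2.trans (by linarith))
    by_contra hc'
    rw [not_or, not_or, not_not, not_not, not_not] at hc'
    obtain ⟨⟨c1, c2⟩, c3'⟩ := hc'
    obtain ⟨⟨a1, a2, a3⟩, a4, a5⟩ := hgpos w hw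
    refine hn fun q hq => ?_
    have b1 := c1 q hq
    have b2 := c2 q hq
    have b3 := c3' q hq
    have hz1 : z (D3.σ w.1.1 2) = zb z D3 w.1.1 := (hpos _ a1).2 2
    show |eval q (f (z (D3.σ w.1.1 2))) - eval q (f (z w.1.2))| ≤ 3 * dc
    rw [hz1, a5]
    obtain ⟨A1, A2⟩ := abs_le.1 b1
    obtain ⟨B1, B2⟩ := abs_le.1 b2
    obtain ⟨C1, C2⟩ := abs_le.1 b3
    exact abs_le.2 ⟨by linarith, by linarith⟩

end Pool.STB6
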