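import Pool.Agent.H38.TIE.Mct
import Pool.Agent.H6.STB.Rd4
import Pool.Agent.H31.X.Sub
import Pool.Agent.H55.GEN.W2
import Pool.Agent.H98.STB.Chn

/-!
# Copies, gluings and entropies

`node`: the conditional entropies of a sample given its record and the values of `b` at `n` copies.
`few_cp`: the values of a variable at the copies. `sep_all`: the values of a full variable at the copies
are separated. `join`: a variable of the first factor given a record of the second factor.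
-/

set_option autoImplicit false

namespace Pool.STB6

open Finset Real
open Pool.Agent.H49.Ent Pool.Agent.H32.Dense Pool.STK
open Pool.BFL (Pb)
open Pool.K2S (cpn)
open Pool.CLU (cpn_law cpn_pos cpn_marg cpn_nonneg)

section cp

variable {Ω T T' K 𝒲 β G γ R : Type} [Fintype Ω] {q : Ω → ℝ}

/-- **The conditional entropies of a sample given its record and the nodes.** -/
theorem node (hq : IsLaw q) (κ : Ω → K) (W : Ω → 𝒲) (b : Ω → β) (n : ℕ) (hW : Det q κ W) {e : ℝ}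
    (he : CH q b W - CH q b κ ≤ e) (f : Ω → T) (f' : Ω → T') :
    CH q f (fun ω => (f' ω, W ω)) - n * e ≤
      CH (cpn q κ n) (fun v => f (v 0)) (fun v => (f' (v 0), (W (v 0), fun i : Fin n => b (v i.succ)))) := by
  have q0 := hq.nonneg
  have m0 := cpn_nonneg q0 κ n
  -- the fine record
  have h1 := Pool.TIE38.cpy_H q0 κ n (fun ω => (f ω, (f' ω, κ ω))) b
    (fun ω ω' _ _ h => (Prod.ext_iff.1 (Prod.ext_iff.1 h).2).2)
  have h2 := Pool.TIE38.cpy_le q0 κ n W b hW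
  -- upper bound of the record
  have h3 : CH (cpn q κ n) (fun v => fun i : Fin n => b (v i.succ)) (fun v => (f' (v 0), W (v 0))) ≤
      CH (cpn q κ n) (fun v => fun i : Fin n => b (v i.succ)) (fun v => W (v 0)) :=
    CH_mono_cond m0 fun _ _ _ _ h => (Prod.ext_iff.1 h).2
  have h4 : H (cpn q κ n) (fun v => ((fun i : Fin n => b (v i.succ)), W (v 0))) =
      H (cpn q κ n) (fun v => (W (v 0), fun i : Fin n => b (v i.succ))) :=
    H_congr m0 (fun _ _ _ _ h => Prod.ext (Prod.ext_iff.1 h).2 (Prod.ext_iff.1 h).1)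
      (fun _ _ _ _ h => Prod.ext (Prod.ext_iff.1 h).2 (Prod.ext_iff.1 h).1)
  have h5 : H (cpn q κ n) (fun v => ((fun i : Fin n => b (v i.succ)), (f' (v 0), W (v 0)))) =
      H (cpn q κ n) (fun v => (f' (v 0), (W (v 0), fun i : Fin n => b (v i.succ)))) := by
    refine H_congr m0 (fun _ _ _ _ h => ?_) (fun _ _ _ _ h => ?_)
    · simp only [Prod.mk.injEq] at h ⊢
      tauto
    · simp only [Prod.mk.injEq] at h ⊢
      tauto
  have h6 : H (cpn q κ n) (fun v => W (v 0)) = H q W := (cpn_marg q0 κ n 0).H W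
  have h7 : H (cpn q κ n) (fun v => (f' (v 0), W (v 0))) = H q (fun ω => (f' ω, W ω)) :=
    (cpn_marg q0 κ n 0).H (fun ω => (f' ω, W ω))
  -- lower bound of the variable with the record
  have h8 : CH (cpn q κ n) (fun v => κ (v 0)) (fun v => (f (v 0), (f' (v 0),
      (W (v 0), fun i : Fin n => b (v i.succ))))) ≤
      CH (cpn q κ n) (fun v => κ (v 0)) (fun v => (f (v 0), (f' (v 0), W (v 0)))) :=
    CH_mono_cond m0 fun _ _ _ _ h => by
      simp only [Prod.mk.injEq] at h ⊢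
      exact ⟨h.1, h.2.1, h.2.2.1⟩
  have h9 : CH (cpn q κ n) (fun v => κ (v 0)) (fun v => (f (v 0), (f' (v 0), W (v 0)))) =
      CH q κ (fun ω => (f ω, (f' ω, W ω))) :=
    (cpn_marg q0 κ n 0).CH κ (fun ω => (f ω, (f' ω, W ω)))
  have hpos := cpn_pos q0 κ n
  have h10 : H (cpn q κ n) (fun v => (κ (v 0), (f (v 0), (f' (v 0),
      (W (v 0), fun i : Fin n => b (v i.succ)))))) =
      H (cpn q κ n) (fun v => ((f (v 0), (f' (v 0), κ (v 0))), fun i : Fin n => b (v i.succ))) := by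
    refine H_congr m0 (fun v v' a b' h => ?_) (fun v v' _ _ h => ?_)
    · simp only [Prod.mk.injEq] at h ⊢
      obtain ⟨⟨k1, k2, k3⟩, k4⟩ := h
      exact ⟨k3, k1, k2, hW _ _ ((hpos v a).1 0) ((hpos v' b').1 0) k3, k4⟩
    · simp only [Prod.mk.injEq] at h ⊢
      exact ⟨⟨h.2.1, h.2.2.1, h.1⟩, h.2.2.2.2⟩
  have h11 : H q (fun ω => (κ ω, (f ω, (f' ω, W ω)))) = H q (fun ω => (f ω, (f' ω, κ ω))) := by
    refine H_congr q0 (fun v v' a b' h => ?_) (fun v v' _ _ h => ?_)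
    · simp only [Prod.mk.injEq] at h ⊢
      obtain ⟨k1, k2, k3⟩ := h
      exact ⟨k3, k1, k2, hW _ _ a b' k3⟩
    · simp only [Prod.mk.injEq] at h ⊢
      exact ⟨h.2.1, h.2.2.1, h.1⟩
  have h12 : (n : ℝ) * (CH q b W - CH q b κ) ≤ n * e :=
    mul_le_mul_of_nonneg_left he (Nat.cast_nonneg n)
  unfold CH at h1 h2 h3 h8 h9 h12 ⊢
  beta_reduce at h1 h2 h3 h8 h9 h12 ⊢
  rw [h11] at h9
  rw [h4, h5, h6, h7] at h3
  rw [h10] at h8
  linarith

/-- **The values of a variable at the copies.** -/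
theorem few_cp (hq : IsLaw q) (κ : Ω → K) (g : Ω → G) (r : Ω → R) (n : ℕ)
    {C : (Fin (n + 1) → Ω) → γ}
    (hC : ∀ (i : Fin n) v v', 0 < cpn q κ n v → 0 < cpn q κ n v' → C v = C v' →
      r (v i.succ) = r (v' i.succ)) :
    CH (cpn q κ n) (fun v => fun i : Fin n => g (v i.succ)) C ≤ n * CH q g r := by
  have m0 := cpn_nonneg hq.nonneg κ n
  refine (Pool.H54.QF.CH_pi_le m0 C n (fun v (i : Fin n) => g (v i.succ))).trans ?_
  have h1 : ∀ i : Fin n, CH (cpn q κ n) (fun v => g (v i.succ)) C ≤ CH q g r := by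
    intro i
    refine (CH_mono_cond m0 (W := fun v => r (v i.succ)) ?_).trans
      (le_of_eq ((cpn_marg hq.nonneg κ n i.succ).CH g r))
    exact fun v v' a b h => hC i v v' a b h
  refine (Finset.sum_le_sum fun i _ => h1 i).trans (le_of_eq ?_)
  rw [Finset.sum_const, Finset.card_univ, Fintype.card_fin, nsmul_eq_mul]

/-- Two copies of a full variable are separated. -/
theorem sep_cp (hq : IsLaw q) (κ : Ω → K) (b : Ω → ℤ) {M : ℕ} (hb : ∀ ω, 0 < q ω → |b ω| ≤ (M : ℤ))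
    {e : ℝ} (hfull : Real.log (2 * M + 1) - e ≤ CH q b κ) {r ρ : ℝ} (hρ : 0 < ρ) (hr : 0 ≤ r)
    (hrρ : 2 * r + 1 ≤ ρ * (2 * M + 1)) (n : ℕ) {i j : Fin (n + 1)} (hij : i ≠ j) :
    Pb (cpn q κ n) (fun v => |(b (v i) : ℝ) - b (v j)| ≤ r) * Real.log (1 / ρ) ≤ e + Real.log 2 := by
  classical
  have h1 := Pool.X31.Pb_cpn_pair hq.nonneg κ (n := n) hij
    (fun ω ω' => |(b ω : ℝ) - b ω'| ≤ r)
  have h2 := Pool.X31.Pb_cpn_pair hq.nonneg κ (n := 1) (i := 0) (j := 1) (by decide)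
    (fun ω ω' => |(b ω : ℝ) - b ω'| ≤ r)
  rw [h1, ← h2]
  have m0 := cpn_nonneg hq.nonneg κ 1
  have hpos := cpn_pos hq.nonneg κ 1
  have h3 := Pool.TIE38.cpy_CH hq.nonneg κ 1 b κ b (fun _ _ _ _ h => h)
  have h4 : CH (cpn q κ 1) (fun v => b (v 0)) (fun v => (κ (v 0), fun i : Fin 1 => b (v i.succ))) ≤
      CH (cpn q κ 1) (fun v => b (v 0)) (fun v => b (v 1)) := by
    refine CH_mono_cond m0 fun v v' _ _ h => ?_
    exact congrFun (Prod.ext_iff.1 h).2 0
  have hc : (Finset.Icc (-(M : ℤ)) M).card = 2 * M + 1 := by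
    rw [Int.card_Icc]
    omega
  refine read_set (cpn_law hq κ 1) (fun v => b (v 1)) (fun v => b (v 0)) (Finset.Icc (-(M : ℤ)) M)
    (fun m => Finset.Icc (m - ⌊r⌋) (m + ⌊r⌋)) _ hρ (fun v hv => ?_) ?_ (fun v hv h => ⟨?_, ?_⟩)
  · rw [Finset.mem_Icc, ← abs_le]
    exact hb _ ((hpos v hv).1 0)
  · rw [hc]
    push_cast
    linarith
  · rw [Finset.mem_Icc]
    have h5 := abs_le.1 h
    have h6 : b (v 1) - b (v 0) ≤ ⌊r⌋ := Int.le_floor.2 (by push_cast; linarith [h5.1])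
    have h7 : b (v 0) - b (v 1) ≤ ⌊r⌋ := Int.le_floor.2 (by push_cast; linarith [h5.2])
    constructor <;> linarith
  · have h8 : 0 ≤ ⌊r⌋ := Int.floor_nonneg.2 hr
    have h9 : ((Finset.Icc (b (v 1) - ⌊r⌋) (b (v 1) + ⌊r⌋)).card : ℤ) = 2 * ⌊r⌋ + 1 := by
      rw [Int.card_Icc]
      have : (b (v 1) + ⌊r⌋ + 1 - (b (v 1) - ⌊r⌋)) = 2 * ⌊r⌋ + 1 := by ring
      rw [this, Int.toNat_of_nonneg (by linarith)]
    have h10 : (((Finset.Icc (b (v 1) - ⌊r⌋) (b (v 1) + ⌊r⌋)).card : ℕ) : ℝ) = 2 * (⌊r⌋ : ℝ) + 1 := by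
      exact_mod_cast h9
    rw [h10, hc]
    push_cast
    have h11 := Int.floor_le r
    linarith

/-- **The nodes are separated.** -/
theorem sep_all (hq : IsLaw q) (κ : Ω → K) (b : Ω → ℤ) {M : ℕ}
    (hb : ∀ ω, 0 < q ω → |b ω| ≤ (M : ℤ)) {e : ℝ}
    (hfull : Real.log (2 * M + 1) - e ≤ CH q b κ) {r ρ : ℝ} (hρ : 0 < ρ) (hρ1 : ρ < 1) (hr : 0 ≤ r)
    (hrρ : 2 * r + 1 ≤ ρ * (2 * M + 1)) (n : ℕ) :
    Pb (cpn q κ n) (fun v => ∃ i j : Fin n, i ≠ j ∧ |(b (v i.succ) : ℝ) - b (v j.succ)| ≤ r) ≤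
      n ^ 2 * ((e + Real.log 2) / Real.log (1 / ρ)) := by
  classical
  have hl : 0 < Real.log (1 / ρ) := Real.log_pos (by rw [lt_div_iff₀ hρ]; linarith)
  have m0 := cpn_nonneg hq.nonneg κ n
  have h1 : Pb (cpn q κ n) (fun v => ∃ i j : Fin n, i ≠ j ∧ |(b (v i.succ) : ℝ) - b (v j.succ)| ≤ r) ≤
      Pb (cpn q κ n) (fun v => ∃ ij : Fin n × Fin n, ij.1 ≠ ij.2 ∧
        |(b (v ij.1.succ) : ℝ) - b (v ij.2.succ)| ≤ r) := by
    refine Pool.STB.Pb_mono m0 fun v _ h => ?_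
    obtain ⟨i, j, h⟩ := h
    exact ⟨(i, j), h⟩
  refine h1.trans ((Pool.MIC.Pb_exists_le m0 _).trans ?_)
  have hc0 : 0 ≤ (e + Real.log 2) / Real.log (1 / ρ) ∨ n = 0 := by
    by_cases hn : n = 0
    · exact Or.inr hn
    · left
      refine div_nonneg ?_ hl.le
      have h2 : CH q b κ ≤ Real.log (2 * M + 1) := by
        have h3 := CH_le_card hq.nonneg hq.sum_one b κ (fun _ => Finset.Icc (-(M : ℤ)) M)
          (fun ω hω => by
            rw [Finset.mem_Icc, ← abs_le]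
            exact hb ω hω)
        have hc : (Finset.Icc (-(M : ℤ)) M).card = 2 * M + 1 := by
          rw [Int.card_Icc]
          omega
        rw [Ex_const hq.sum_one, hc] at h3
        push_cast at h3
        exact h3
      have := Real.log_nonneg (show (1 : ℝ) ≤ 2 by norm_num)
      linarith
  rcases hc0 with hc0 | hn
  · have h2 : ∀ ij : Fin n × Fin n, Pb (cpn q κ n) (fun v => ij.1 ≠ ij.2 ∧
        |(b (v ij.1.succ) : ℝ) - b (v ij.2.succ)| ≤ r) ≤ (e + Real.log 2) / Real.log (1 / ρ) := by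
      intro ij
      by_cases hij : ij.1 = ij.2
      · have : Pb (cpn q κ n) (fun v => ij.1 ≠ ij.2 ∧
            |(b (v ij.1.succ) : ℝ) - b (v ij.2.succ)| ≤ r) = 0 := by
          unfold Pb
          refine Finset.sum_eq_zero fun v _ => if_neg fun h => h.1 hij
        rw [this]
        exact hc0
      · rw [le_div_iff₀ hl]
        refine le_trans ?_ (sep_cp hq κ b hb hfull hρ hr hrρ n
          (i := ij.1.succ) (j := ij.2.succ) (fun h => hij (Fin.succ_injective n h)))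
        refine mul_le_mul_of_nonneg_right (Pool.STB.Pb_mono m0 fun v _ h => h.2) hl.le
    refine (Finset.sum_le_sum fun ij _ => h2 ij).trans (le_of_eq ?_)
    rw [Finset.sum_const, Finset.card_univ, Fintype.card_prod, Fintype.card_fin, nsmul_eq_mul]
    push_cast
    ring
  · subst hn
    rw [Finset.univ_eq_empty, Finset.sum_empty]
    simp

end cp

section join

variable {A B Z Y T T' 𝒲 : Type} [Fintype A] [Fintype B] {q : A → ℝ} {r : B → ℝ}

/-- **A variable of the first factor given a record of the second factor.** -/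
theorem join (hq : IsLaw q) (hr : IsLaw r) (a : A → Z) (b : B → Z)
    (hab : ∀ u, law q a u = law r b u) (yA : A → Y) (yB : B → Y)
    (hy : ∀ w w', 0 < q w → 0 < r w' → a w = b w' → yA w = yB w') (f : A → T) (f' : A → T')
    (hf' : Det q f' yA) (W : B → 𝒲) :
    CH q f f' - (CH r W yB - CH r W b) ≤
      CH (glue q r a b) (fun w => f w.1) (fun w => (f' w.1, W w.2)) := by
  have hg := glue_nonneg (Z₁ := a) (Z₂ := b) hq.nonneg hr.nonneg
  have h1 : CH (glue q r a b) (fun w => W w.2) (fun w => f' w.1) ≤ CH r W yB := by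
    rw [← Pool.DY1.CH_glue_snd hr.nonneg hab yB W]
    refine CH_mono_cond hg fun w w' h1 h2 h => ?_
    obtain ⟨a1, a2, a3⟩ := (glue_pos_iff hq.nonneg hr.nonneg w).1 h1
    obtain ⟨b1, b2, b3⟩ := (glue_pos_iff hq.nonneg hr.nonneg w').1 h2
    rw [← hy _ _ a1 a2 a3, ← hy _ _ b1 b2 b3]
    exact hf' _ _ a1 b1 h
  have h2 : CH r W b ≤ CH (glue q r a b) (fun w => W w.2) (fun w => (f w.1, f' w.1)) := by
    rw [← Pool.DY1.CH_glue (A := fun w : A => w) hq.nonneg hr.nonneg hab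
      (fun w w' _ _ h => congrArg a h) W]
    refine CH_mono_cond hg fun w w' _ _ h => ?_
    show (f w.1, f' w.1) = (f w'.1, f' w'.1)
    have h' : w.1 = w'.1 := h
    rw [h']
  have h3 : CH (glue q r a b) (fun w => f w.1) (fun w => f' w.1) = CH q f f' :=
    Pool.DY1.CH_glue_fst hq.nonneg hab f' f
  have e1 : H (glue q r a b) (fun w => (W w.2, (f w.1, f' w.1))) =
      H (glue q r a b) (fun w => (f w.1, (f' w.1, W w.2))) :=
    H_congr hg (fun _ _ _ _ h => by
      simp only [Prod.mk.injEq] at h ⊢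
      tauto) (fun _ _ _ _ h => by
      simp only [Prod.mk.injEq] at h ⊢
      tauto)
  have e2 : H (glue q r a b) (fun w => (W w.2, f' w.1)) =
      H (glue q r a b) (fun w => (f' w.1, W w.2)) :=
    H_congr hg (fun _ _ _ _ h => by
      simp only [Prod.mk.injEq] at h ⊢
      tauto) (fun _ _ _ _ h => by
      simp only [Prod.mk.injEq] at h ⊢
      tauto)
  unfold CH at h1 h2 h3 ⊢
  rw [e1] at h2
  rw [e2] at h1
  linarith

end join

end Pool.STB6
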