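import Pool.Agent.H6.STB.Ej1
import Pool.Agent.H6.STB.Clo

/-!
# A static target with a closed gradient

`endJ : EndJStmt`.
-/

set_option autoImplicit false

namespace Pool.STB6

open Finset Real MvPolynomial Filter
open Pool.Agent.H49.Ent Pool.Agent.H32.Dense Pool.STK
open Pool.BFL (Pb)
open Pool.STB (V3 Po Bx cv Hb Pb_mono Pb_or Pb_le2 glueLaw')

theorem CloH.mono {Ω Λ Z Y 𝒟 : Type} [Fintype Ω] {p : Ω → ℝ} {L : Ω → Λ} {z : Ω → Z} {y : Ω → Y}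
    {t : Ω → ℤ} {D : Λ → 𝒟} {X : 𝒟 → V3} {x : Z → V3} {V : Z → ℝ} {P : Λ → Polynomial ℝ} {N M : ℕ}
    {K K' e e' η c c' : ℝ} (hC : CloH p L z y t D X x V P N M K e η c) (hK : K ≤ K') (he : e ≤ e')
    (hc : c ≤ c') : CloH p L z y t D X x V P N M K' e' η c' := by
  have hKM : K / (M : ℝ) ≤ K' / M := div_le_div_of_nonneg_right hK (Nat.cast_nonneg M)
  refine ⟨hC.law, hC.yL, hC.yz, hC.tM, ?_, ?_, hC.X1, hC.x1, fun ω ω' h h' hL j =>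
    (hC.pos ω ω' h h' hL j).trans hKM, ?_, fun H hH => (hC.gp H hH).trans hc, hC.Pd,
    fun l s hs => (hC.PK l s hs).trans hK, fun r => (hC.VK r).trans hK, ?_, hC.few.trans he⟩
  · have := hC.full
    linarith
  · have := hC.free
    linarith
  · have := hC.posf
    linarith
  · exact (Pb_mono hC.law.nonneg fun ω _ hn h => hn (h.trans hKM)).trans (hC.path.trans hc)

theorem endJ : EndJStmt := by
  intro b c' κ hb3 hc' hκ
  obtain ⟨Cr, A, A₀, hCr, hA, hA₀, hjc, hcore⟩ := ej_core b hb3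
  have hCr1 : (1 : ℝ) ≤ Cr := by exact_mod_cast hCr
  have hA0 : 0 < A := by linarith
  obtain ⟨cs, hcs⟩ : ∃ cs : ℝ, cs = c' / (3 * A) := ⟨_, rfl⟩
  have hcsp : 0 < cs := by rw [hcs]; positivity
  have hAcs : A * (cs + cs + cs) = c' := by
    rw [hcs]
    field_simp
    ring
  obtain ⟨κ', hκ'⟩ : ∃ κ' : ℝ, κ' = min (κ / 2) (1 / 8) := ⟨_, rfl⟩
  have hκ'p : 0 < κ' := by rw [hκ']; exact lt_min (by positivity) (by norm_num)
  have hκ'1 : κ' ≤ κ / 2 := by rw [hκ']; exact min_le_left _ _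
  have hκ'2 : κ' ≤ 1 / 8 := by rw [hκ']; exact min_le_right _ _
  obtain ⟨γc, γ₁c, hγc, hγ₁c, hclo⟩ := clo (b - 1) cs κ' hcsp hκ'p
  obtain ⟨γ₂, hγ₂⟩ : ∃ γ₂ : ℝ, γ₂ = min γc (1 / 2) := ⟨_, rfl⟩
  have hγ₂p : 0 < γ₂ := by rw [hγ₂]; exact lt_min hγc (by norm_num)
  have hγ₂c : γ₂ ≤ γc := by rw [hγ₂]; exact min_le_left _ _
  have hγ₂2 : γ₂ ≤ 1 / 2 := by rw [hγ₂]; exact min_le_right _ _
  obtain ⟨n, hn⟩ : ∃ n : ℕ, n = 3 * b + 1 := ⟨_, rfl⟩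
  have hn1 : (1 : ℝ) ≤ n := by
    rw [hn]
    exact_mod_cast (by omega : 1 ≤ 3 * b + 1)
  obtain ⟨γr, hγr⟩ : ∃ γr : ℝ, γr = γ₂ / (8 * (n * Cr)) := ⟨_, rfl⟩
  have hnC : (1 : ℝ) ≤ n * Cr := by nlinarith
  have hγrp : 0 < γr := by rw [hγr]; positivity
  have hγrC : (n : ℝ) * (Cr * γr) = γ₂ / 8 := by
    rw [hγr]
    field_simp
  have hγrC' : (Cr : ℝ) * γr ≤ 1 / 8 := by
    have h1 : (Cr : ℝ) * γr ≤ n * (Cr * γr) := le_mul_of_one_le_left (by positivity) hn1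
    rw [hγrC] at h1
    linarith
  refine ⟨γ₂ / 4, min γ₁c (γ₂ / (8 * n)), by positivity, lt_min hγ₁c (by positivity), ?_⟩
  intro γ₀ h0 h1
  have h1n : (n : ℝ) * γ₀ ≤ γ₂ / 8 := by
    have h2 : γ₀ ≤ γ₂ / (8 * n) := h1.trans (min_le_right _ _)
    rw [le_div_iff₀ (by positivity)] at h2
    linarith
  obtain ⟨e₁, cc, M₁, he₁, hcc, hM₁⟩ := hclo γ₀ h0 (h1.trans (min_le_left _ _))
  obtain ⟨e₀, he₀⟩ : ∃ e₀ : ℝ, e₀ = min (min (e₁ / 3) κ') (γr * cs / 2) := ⟨_, rfl⟩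
  have he₀p : 0 < e₀ := by
    rw [he₀]
    exact lt_min (lt_min (by positivity) hκ'p) (by positivity)
  have he₀1 : e₀ ≤ e₁ / 3 := by rw [he₀]; exact (min_le_left _ _).trans (min_le_left _ _)
  have he₀2 : e₀ ≤ κ' := by rw [he₀]; exact (min_le_left _ _).trans (min_le_right _ _)
  have he₀3 : e₀ ≤ γr * cs / 2 := by rw [he₀]; exact min_le_right _ _
  have hev : ∀ᶠ M : ℕ in atTop, ((1 < M ∧ M₁ ≤ M) ∧ Real.log 2 ≤ γr * cs / 2 * Real.log M) ∧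
      ((A₀ * (M : ℝ) ^ (2 * e₀) ≤ (M : ℝ) ^ e₁ ∧
        A₀ * (M : ℝ) ^ (2 * e₀ - 1) ≤ (M : ℝ) ^ (-γ₂)) ∧
      ((Cr : ℝ) * (M : ℝ) ^ (0 : ℝ) ≤ (M : ℝ) ^ (7 / 8 : ℝ) ∧
      (2 * A * (M : ℝ) ^ κ' ≤ (M : ℝ) ^ κ ∧
      A * A ^ n * (M : ℝ) ^ (-(3 * γ₂ / 4)) ≤ (M : ℝ) ^ (-(γ₂ / 4))))) :=
    (((eventually_gt_atTop 1).and (eventually_ge_atTop M₁)).and
      (ev_log _ _ (by positivity))).and
      (((ev_pow _ _ _ (by linarith)).and (ev_pow _ _ _ (by linarith))).and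
        ((ev_pow _ _ _ (by norm_num)).and
          ((ev_pow _ _ _ (by linarith)).and (ev_pow _ _ _ (by linarith)))))
  obtain ⟨M₀, hM₀⟩ := eventually_atTop.1 hev
  refine ⟨e₀, min cc cs, M₀, he₀p, lt_min hcc hcsp, ?_⟩
  intro M hMM Ω Λ Z Y 𝒟 _ p L z y t D X Φ x J hJ
  obtain ⟨⟨⟨hM1', hMM₁⟩, hlog⟩, ⟨hp1, hp2⟩, hp3, hp4, hp5⟩ := hM₀ M hMM
  have hM : 1 ≤ M := hM1'.le
  have hM1 : (1 : ℝ) < M := by exact_mod_cast hM1'
  have hM0 : (0 : ℝ) < M := by linarith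
  have hl : 0 < Real.log M := Real.log_pos hM1
  have hpp : ∀ a : ℝ, 0 < (M : ℝ) ^ a := fun a => Real.rpow_pos_of_pos hM0 a
  have hmn : ∀ a a' : ℝ, a ≤ a' → (M : ℝ) ^ a ≤ (M : ℝ) ^ a' := fun a a' h =>
    Real.rpow_le_rpow_of_exponent_le hM1.le h
  have hone : ∀ a : ℝ, (M : ℝ) ^ a / M = (M : ℝ) ^ (a - 1) := fun a => by
    rw [Real.rpow_sub hM0, Real.rpow_one]
  have hK2 : ((M : ℝ) ^ e₀) ^ 2 = (M : ℝ) ^ (2 * e₀) := by
    rw [← Real.rpow_natCast, ← Real.rpow_mul hM0.le]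
    congr 1
    push_cast
    ring
  have hK1 : 1 ≤ (M : ℝ) ^ e₀ := Real.one_le_rpow hM1.le he₀p.le
  have hη1 : (M : ℝ) ^ (-γ₀) ≤ 1 := Real.rpow_le_one_of_one_le_of_nonpos hM1.le (by linarith)
  have hce : 0 ≤ min cc cs := (lt_min hcc hcsp).le
  obtain ⟨ρ, hρ⟩ : ∃ ρ : ℝ, ρ = (M : ℝ) ^ (-γr) := ⟨_, rfl⟩
  have hρp : 0 < ρ := by rw [hρ]; exact hpp _
  have hρ1 : ρ < 1 := by
    rw [hρ]
    exact Real.rpow_lt_one_of_one_lt_of_neg hM1 (by linarith)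
  have hlogρ : Real.log (1 / ρ) = γr * Real.log M := by
    rw [hρ, one_div, Real.log_inv, Real.log_rpow hM0]
    ring
  have hρC : ρ ^ Cr = (M : ℝ) ^ (-(Cr * γr)) := by
    rw [hρ, ← Real.rpow_natCast, ← Real.rpow_mul hM0.le]
    congr 1
    ring
  have hCM : (Cr : ℝ) ≤ ρ ^ Cr * (2 * M + 1) := by
    rw [Real.rpow_zero, mul_one] at hp3
    have h4 : (M : ℝ) ^ (7 / 8 : ℝ) ≤ ρ ^ Cr * M := by
      rw [hρC]
      have h5 : (M : ℝ) ^ (-(Cr * γr)) * M = (M : ℝ) ^ (1 - Cr * γr) := by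
        conv_lhs => rw [show (M : ℝ) ^ (-(Cr * γr)) * (M : ℝ) = (M : ℝ) ^ (-(Cr * γr)) *
          (M : ℝ) ^ (1 : ℝ) by rw [Real.rpow_one]]
        rw [← Real.rpow_add hM0]
        congr 1
        ring
      rw [h5]
      exact hmn _ _ (by linarith)
    have h5 : ρ ^ Cr * M ≤ ρ ^ Cr * (2 * M + 1) :=
      mul_le_mul_of_nonneg_left (by linarith) (by positivity)
    linarith
  -- the closed gradient
  have hf : ∀ i : Fin 3, ∃ f : Z → Po, (∀ r, (f r).totalDegree ≤ 3 * (b - 1) ∧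
      ∀ q, Bx 1 q → |eval q (f r)| ≤ (M : ℝ) ^ κ') ∧
      Pb p (fun ω => ¬ |eval (x (z ω)) (pderiv i (J (z ω))) - eval (x (z ω)) (f (z ω))| ≤
        (M : ℝ) ^ (-γc)) ≤ cs ∧
      Pb (glue p p L L) (fun w => ¬ ∀ q, Bx 1 q →
        |eval q (f (z w.1)) - eval q (f (z w.2))| ≤ (M : ℝ) ^ (-γc)) ≤ cs := by
    intro i
    obtain ⟨P, hP⟩ := hjc Ω Λ Z Y 𝒟 p L z y t D X Φ x J M _ _ _ _ hJ hM hK1 hce i
    refine hM₁ M hMM₁ Ω Λ Z Y 𝒟 p L z y t D X x (fun r => eval (x r) (pderiv i (J r))) P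
      (hP.mono ?_ ?_ (min_le_left _ _))
    · rw [hK2]
      exact hp1
    · exact mul_le_mul_of_nonneg_right (by linarith) hl.le
  choose f hf1 hf2 hf3 using hf
  have hδ : (M : ℝ) ^ (-γc) ≤ (M : ℝ) ^ (-γ₂) := hmn _ _ (by linarith)
  obtain ⟨PP, hPP1, hPP2, hPP3⟩ := hcore Ω Λ Z Y 𝒟 p L z y t D X Φ x J M ((M : ℝ) ^ e₀)
    (e₀ * Real.log M) ((M : ℝ) ^ (-γ₀)) (min cc cs) ρ ((M : ℝ) ^ (-γ₂)) ((M : ℝ) ^ κ') cs f hJ hM
    hK1 (hpp _) hη1 hρp hρ1 hCM hce (by positivity) (by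
      rw [hone]
      exact Real.rpow_le_one_of_one_le_of_nonpos hM1.le (by linarith)) (fun i r => hf1 i r) (by
      rw [hK2, mul_div_assoc, hone]
      exact hp2) (by
      rw [hone, ← Real.rpow_add hM0]
      exact hmn _ _ (by linarith)) (hpp _).le
    (fun i => (Pb_mono hJ.law.nonneg fun ω _ hn h => hn (h.trans hδ)).trans (hf2 i))
    (fun i => (Pb_mono (glueLaw' hJ.law hJ.law (X := L) (Y := L) fun _ => rfl).nonneg
      fun w _ hn h => hn fun q hq => (h q hq).trans hδ).trans (hf3 i))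
  refine ⟨PP, fun r => ⟨(hPP1 r).1, fun q hq => ((hPP1 r).2 q hq).trans ?_⟩, hPP2, ?_⟩
  · have h2 : (M : ℝ) ^ e₀ ≤ (M : ℝ) ^ κ' := hmn _ _ he₀2
    have h3 : A * ((M : ℝ) ^ κ' + (M : ℝ) ^ e₀) ≤ 2 * A * (M : ℝ) ^ κ' := by nlinarith
    linarith
  · have h2 : A * (A * (1 / ρ) ^ Cr / (M : ℝ) ^ (-γ₀)) ^ (3 * b + 1) * (M : ℝ) ^ (-γ₂) ≤
        (M : ℝ) ^ (-(γ₂ / 4)) := by
      rw [← hn]
      have e1 : (1 / ρ) ^ Cr = (M : ℝ) ^ (Cr * γr) := by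
        rw [one_div, inv_pow, hρC, Real.rpow_neg hM0.le, inv_inv]
      have e2 : A * (1 / ρ) ^ Cr / (M : ℝ) ^ (-γ₀) = A * (M : ℝ) ^ (Cr * γr + γ₀) := by
        rw [e1, Real.rpow_neg hM0.le, div_inv_eq_mul, mul_assoc, ← Real.rpow_add hM0]
      have e3 : (A * (M : ℝ) ^ (Cr * γr + γ₀)) ^ n = A ^ n * (M : ℝ) ^ (n * (Cr * γr + γ₀)) := by
        rw [mul_pow, ← Real.rpow_natCast ((M : ℝ) ^ (Cr * γr + γ₀)) n, ← Real.rpow_mul hM0.le]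
        congr 2
        ring
      rw [e2, e3]
      have e4 : A * (A ^ n * (M : ℝ) ^ (n * (Cr * γr + γ₀))) * (M : ℝ) ^ (-γ₂) =
          A * A ^ n * (M : ℝ) ^ (n * (Cr * γr + γ₀) + -γ₂) := by
        rw [Real.rpow_add hM0]
        ring
      rw [e4]
      refine le_trans (mul_le_mul_of_nonneg_left (hmn _ (-(3 * γ₂ / 4)) ?_) (by positivity)) hp5
      have e5 : (n : ℝ) * (Cr * γr + γ₀) = n * (Cr * γr) + n * γ₀ := by ring
      rw [e5, hγrC]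
      linarith
    refine (Pb_mono (glueLaw' hJ.law hJ.law (X := L) (Y := L) fun _ => rfl).nonneg
      fun w _ hn h => hn fun q hq => (h q hq).trans h2).trans (hPP3.trans ?_)
    have h3 : (e₀ * Real.log M + Real.log 2) / Real.log (1 / ρ) ≤ cs := by
      rw [hlogρ, div_le_iff₀ (by positivity)]
      have h4 := mul_le_mul_of_nonneg_right he₀3 hl.le
      linarith
    have h4 : min cc cs ≤ cs := min_le_right _ _
    rw [← hAcs]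
    exact mul_le_mul_of_nonneg_left (by linarith) hA0.le

end Pool.STB6
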