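import Pool.Agent.H98.STB.S

/-!
# A static target with a closed gradient: statement

Lines in space-time of dimension three, a record has a position `x` and a polynomial `J`, a line has a
direction and a homogeneous polynomial `Φ` of degree `b ≥ 3`, as in `ChH`. The three derivatives of
`J` at `x` are few given the position and the closed record. Then the value `J (x)` is the value of a
polynomial which is nearly constant along the lines.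
-/

set_option autoImplicit false

namespace Pool.STB6

open Finset Real MvPolynomial
open Pool.Agent.H49.Ent Pool.Agent.H32.Dense Pool.STK
open Pool.BFL (Pb)
open Pool.STB (V3 Po Bx cv Hb)

section

variable {Ω Λ Z Y 𝒟 : Type} [Fintype Ω]

/-- **The data of the lines with jets.** The fields of `ChH` without `tz` and `nf`; the position is
full given the closed record, the derivatives at the position are few. -/
structure JetH (p : Ω → ℝ) (L : Ω → Λ) (z : Ω → Z) (y : Ω → Y) (t : Ω → ℤ) (D : Λ → 𝒟)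
    (X : 𝒟 → V3) (Φ : 𝒟 → Po) (x : Z → V3) (J : Z → Po) (b M : ℕ) (K e η c : ℝ) : Prop where
  law : IsLaw p
  yL : ∀ ω ω', 0 < p ω → 0 < p ω' → L ω = L ω' → y ω = y ω'
  yz : ∀ ω ω', 0 < p ω → 0 < p ω' → z ω = z ω' → y ω = y ω'
  tM : ∀ ω, 0 < p ω → |t ω| ≤ (M : ℤ)
  full : Real.log (2 * M + 1) - e ≤ CH p t L
  free : CH p (fun ω => D (L ω)) y - e ≤ CH p (fun ω => D (L ω)) z
  X1 : ∀ d, Bx 1 (X d)
  Φ1 : ∀ d, Hb b 1 (Φ d)
  x1 : ∀ r, Bx 1 (x r)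
  J1 : ∀ r, (J r).totalDegree ≤ b ∧ ∀ q, Bx 1 q → |eval q (J r)| ≤ K
  pos : ∀ ω ω', 0 < p ω → 0 < p ω' → L ω = L ω' →
    Bx (K / M) (x (z ω') - x (z ω) - (((t ω' : ℝ) - t ω) / M) • X (D (L ω)))
  jet : ∀ ω ω', 0 < p ω → 0 < p ω' → L ω = L ω' → ∀ q, Bx 4 q →
    |(eval q (J (z ω')) + eval (q - x (z ω')) (Φ (D (L ω)))) -
      (eval q (J (z ω)) + eval (q - x (z ω)) (Φ (D (L ω))))| ≤ K / M
  gp : ∀ H : Z → V3, (∀ r, Bx 1 (H r) ∧ ∃ i, |H r i| = 1) →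
    Pb p (fun ω => |∑ i, H (z ω) i * X (D (L ω)) i| ≤ η) ≤ c
  posf : 3 * Real.log (2 * M + 1) - e ≤ CH p (fun ω => cv M (x (z ω))) y
  few : ∀ i : Fin 3, CH p (fun ω => ⌊(M : ℝ) * eval (x (z ω)) (pderiv i (J (z ω)))⌋)
    (fun ω => (cv M (x (z ω)), y ω)) ≤ e

end

/-- **The closed polynomial with the value of the target.** -/
def EndJStmt : Prop := ∀ (b : ℕ) (c' κ : ℝ), 3 ≤ b → 0 < c' → 0 < κ → ∃ γ γ₁ : ℝ, 0 < γ ∧ 0 < γ₁ ∧
  ∀ γ₀ : ℝ, 0 < γ₀ → γ₀ ≤ γ₁ → ∃ (e₀ c : ℝ) (M₀ : ℕ), 0 < e₀ ∧ 0 < c ∧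
  ∀ (M : ℕ), M₀ ≤ M → ∀ (Ω Λ Z Y 𝒟 : Type) [Fintype Ω] (p : Ω → ℝ) (L : Ω → Λ) (z : Ω → Z)
    (y : Ω → Y) (t : Ω → ℤ) (D : Λ → 𝒟) (X : 𝒟 → V3) (Φ : 𝒟 → Po) (x : Z → V3) (J : Z → Po),
    JetH p L z y t D X Φ x J b M ((M : ℝ) ^ e₀) (e₀ * Real.log M) ((M : ℝ) ^ (-γ₀)) c →
    ∃ PP : Z → Po, (∀ r, (PP r).totalDegree ≤ 3 * b ∧
        ∀ q, Bx 1 q → |eval q (PP r)| ≤ (M : ℝ) ^ κ) ∧
      (∀ r, eval (x r) (PP r) = eval (x r) (J r)) ∧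
      Pb (glue p p L L) (fun w => ¬ ∀ q, Bx 1 q →
        |eval q (PP (z w.1)) - eval q (PP (z w.2))| ≤ (M : ℝ) ^ (-γ)) ≤ c'

end Pool.STB6
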