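import Pool.Agent.H6.STB.EjV
import Pool.Agent.H6.STB.EjS

/-!
# The derivatives of the target are polynomials of the time along the lines
-/

set_option autoImplicit false

namespace Pool.STB6

open Finset Real MvPolynomial
open Pool.Agent.H49.Ent Pool.Agent.H32.Dense Pool.STK
open Pool.BFL (Pb)
open Pool.STB (V3 Po Bx cv Hb ln ln_eval ln_deg Pb_mono Pb_or Pb_le2 glueLaw')

/-- The shift of a polynomial. -/
noncomputable def sh (a : V3) (f : Po) : Po := bind₁ (fun j => MvPolynomial.X j - C (a j)) f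

theorem sh_eval (a : V3) (f : Po) (q : V3) : eval q (sh a f) = eval (q - a) f := by
  unfold sh
  rw [eval, eval₂Hom_bind₁]
  show eval₂ _ _ f = eval₂ _ _ f
  congr 1
  funext j
  show eval₂Hom (RingHom.id ℝ) q (MvPolynomial.X j - C (a j)) = _
  rw [map_sub, eval₂Hom_X', eval₂Hom_C]
  rfl

theorem sh_deg (a : V3) (f : Po) : (sh a f).totalDegree ≤ f.totalDegree := by
  unfold sh
  refine Pool.Agent.H50.PW.totalDegree_bind₁_le _ (fun i => ?_) f
  refine (totalDegree_sub _ _).trans ?_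
  rw [totalDegree_C, totalDegree_X]
  simp

theorem sh_pd (a : V3) (f : Po) (k : Fin 3) : pderiv k (sh a f) = sh a (pderiv k f) := by
  induction f using MvPolynomial.induction_on with
  | C r =>
    unfold sh
    rw [bind₁_C_right, pderiv_C, map_zero]
  | add P Q hP hQ =>
    have h1 : ∀ P Q : Po, sh a (P + Q) = sh a P + sh a Q := fun P Q => by
      unfold sh
      rw [map_add]
    rw [h1, map_add, map_add, h1, hP, hQ]
  | mul_X P i hP =>
    have h1 : ∀ P Q : Po, sh a (P + Q) = sh a P + sh a Q := fun P Q => by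
      unfold sh
      rw [map_add]
    have h2 : ∀ P Q : Po, sh a (P * Q) = sh a P * sh a Q := fun P Q => by
      unfold sh
      rw [map_mul]
    have h3 : ∀ j, sh a (MvPolynomial.X j) = MvPolynomial.X j - C (a j) := fun j => by
      unfold sh
      rw [bind₁_X_right]
    rw [h2, pderiv_mul, hP, h3, pderiv_mul, h1, h2, h2, h3, map_sub, pderiv_C, sub_zero]
    congr 1
    by_cases hi : i = k
    · rw [hi, pderiv_X_self]
      unfold sh
      rw [map_one]
    · rw [pderiv_X_of_ne hi]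
      unfold sh
      rw [map_zero]

theorem sh_zero {b : ℕ} {f : Po} (h : f.IsHomogeneous b) (hb : 1 ≤ b) (a : V3) :
    eval a (sh a f) = 0 := by
  rw [sh_eval, sub_self]
  exact Pool.STB.hom_zero h hb

/-- **The jets of a line.** -/
theorem jet_clo (b : ℕ) (hb3 : 3 ≤ b) : ∃ A : ℝ, 1 ≤ A ∧ ∀ (Ω Λ Z Y 𝒟 : Type) [Fintype Ω]
    (p : Ω → ℝ) (L : Ω → Λ) (z : Ω → Z) (y : Ω → Y) (t : Ω → ℤ) (D : Λ → 𝒟) (X : 𝒟 → V3)
    (Φ : 𝒟 → Po) (x : Z → V3) (J : Z → Po) (M : ℕ) (K e η c : ℝ),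
    JetH p L z y t D X Φ x J b M K e η c → 1 ≤ M → 1 ≤ K → 0 ≤ c →
    ∃ (x0 : Λ → V3) (S : Λ → Po),
      (∀ ω, 0 < p ω → Bx (K / M) (x (z ω) - x0 (L ω) - ((t ω : ℝ) / M) • X (D (L ω)))) ∧
      (∀ l, (S l).totalDegree ≤ b) ∧
      (∀ l (q : V3), Bx 8 q → ∀ i, |eval q (pderiv i (S l))| ≤ A * K) ∧
      (∀ ω, 0 < p ω → |eval (x (z ω)) (J (z ω)) - eval (x (z ω)) (S (L ω))| ≤ K / M) ∧
      (∀ i, CloH p L z y t D X x (fun r => eval (x r) (pderiv i (J r)))
        (fun l => ln (x0 l) (X (D l)) (pderiv i (S l))) (b - 1) M (A * K ^ 2) e η c) ∧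
      (∀ i ω, 0 < p ω → |eval (x (z ω)) (pderiv i (J (z ω))) -
        (ln (x0 (L ω)) (X (D (L ω))) (pderiv i (S (L ω)))).eval ((t ω : ℝ) / M)| ≤
          A * K ^ 2 / M) ∧
      ∀ i ω, 0 < p ω →
        |(ln (x0 (L ω)) (X (D (L ω))) (pderiv i (S (L ω)))).derivative.eval ((t ω : ℝ) / M) -
          ∑ k, eval (x (z ω)) (pderiv k (pderiv i (J (z ω)))) * X (D (L ω)) k| ≤
            A * K ^ 2 / M := by
  classical
  obtain ⟨C, hC, hbd⟩ := bdx b
  refine ⟨21 * C ^ 4, by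
    have : (1 : ℝ) ≤ C ^ 4 := one_le_pow₀ hC
    linarith, ?_⟩
  intro Ω Λ Z Y 𝒟 _ p L z y t D X Φ x J M K e η c hJ hM hK hc
  have p0 := hJ.law.nonneg
  have hM0 : (0 : ℝ) < M := by exact_mod_cast hM
  have hM1 : (1 : ℝ) ≤ M := by exact_mod_cast hM
  have hC2 : (1 : ℝ) ≤ C ^ 2 := one_le_pow₀ hC
  have hC3 : (1 : ℝ) ≤ C ^ 3 := one_le_pow₀ hC
  have hC12 : C ≤ C ^ 4 := le_self_pow₀ hC (by norm_num)
  have hC24 : C ^ 2 ≤ C ^ 4 := pow_le_pow_right₀ hC (by norm_num)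
  have hC34 : C ^ 3 ≤ C ^ 4 := pow_le_pow_right₀ hC (by norm_num)
  have hKK : K ≤ K ^ 2 := le_self_pow₀ hK (by norm_num)
  have hΦd : ∀ d, (Φ d).totalDegree ≤ b := fun d => (hJ.Φ1 d).hom.totalDegree_le
  have hs8 : ∀ ω, 0 < p ω → ∀ i, |(t ω : ℝ) / M * X (D (L ω)) i| ≤ 1 := by
    intro ω hω i
    rw [abs_mul]
    have h1 : |(t ω : ℝ) / M| ≤ 1 := by
      rw [abs_div, abs_of_pos hM0]
      refine (div_le_one hM0).2 ?_
      exact_mod_cast hJ.tM ω hω
    have h2 := hJ.X1 (D (L ω)) i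
    nlinarith [abs_nonneg ((t ω : ℝ) / M), abs_nonneg (X (D (L ω)) i)]
  -- the reference sample
  have hch : ∀ l, ∃ (a : V3) (Sl : Po), (Sl.totalDegree ≤ b ∧
      (∀ q, Bx 1 q → |eval q Sl| ≤ K + C) ∧ Bx 2 a) ∧ ∀ ω, 0 < p ω → L ω = l →
        (Bx (K / M) (x (z ω) - a - ((t ω : ℝ) / M) • X (D l)) ∧ ∀ q, Bx 4 q →
          |eval q (J (z ω)) + eval (q - x (z ω)) (Φ (D l)) - eval q Sl| ≤ K / M) := by
    intro l
    by_cases hl : ∃ ω₀, 0 < p ω₀ ∧ L ω₀ = l
    · obtain ⟨ω₀, h0, rfl⟩ := hl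
      refine ⟨x (z ω₀) - ((t ω₀ : ℝ) / M) • X (D (L ω₀)),
        J (z ω₀) + sh (x (z ω₀)) (Φ (D (L ω₀))), ⟨?_, fun q hq => ?_, fun i => ?_⟩,
        fun ω hω hL => ⟨?_, fun q hq => ?_⟩⟩
      · exact (totalDegree_add _ _).trans (max_le (hJ.J1 _).1 ((sh_deg _ _).trans (hΦd _)))
      · rw [map_add, sh_eval]
        have h1 := (hJ.J1 (z ω₀)).2 q hq
        have h2 := (hbd (Φ (D (L ω₀))) 1 (hΦd _) (hJ.Φ1 _).bd).1 (q - x (z ω₀)) (fun i => by
          rw [Pi.sub_apply]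
          refine (abs_sub _ _).trans ?_
          have := hq i
          have := hJ.x1 (z ω₀) i
          linarith)
        refine (abs_add_le _ _).trans ?_
        linarith
      · rw [Pi.sub_apply, Pi.smul_apply, smul_eq_mul]
        have := hJ.x1 (z ω₀) i
        have := hs8 ω₀ h0 i
        exact (abs_sub _ _).trans (by linarith)
      · have h1 := hJ.pos ω₀ ω h0 hω hL.symm
        have e1 : x (z ω) - (x (z ω₀) - ((t ω₀ : ℝ) / M) • X (D (L ω₀))) -
            ((t ω : ℝ) / M) • X (D (L ω₀)) =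
            x (z ω) - x (z ω₀) - (((t ω : ℝ) - t ω₀) / M) • X (D (L ω₀)) := by
          rw [sub_div, sub_smul]
          abel
        rw [e1]
        exact h1
      · rw [map_add, sh_eval]
        exact hJ.jet ω₀ ω h0 hω hL.symm q hq
    · refine ⟨0, 0, ⟨by rw [totalDegree_zero]; exact Nat.zero_le _, fun q _ => by
        rw [map_zero, abs_zero]
        linarith, fun i => by simp⟩, fun ω hω hL => absurd ⟨ω, hω, hL⟩ hl⟩
  choose x0 S hS hSp using hch
  -- the bounds of `S`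
  have hKC : K + C ≤ 2 * C * K := by nlinarith
  have s0 : ∀ l q, Bx 1 q → |eval q (S l)| ≤ 2 * C * K := fun l q hq => ((hS l).2.1 q hq).trans hKC
  have s1 : ∀ l i q, Bx 8 q → |eval q (pderiv i (S l))| ≤ 2 * C ^ 2 * K := by
    intro l i q hq
    have h1 := (hbd (S l) (2 * C * K) (hS l).1 (s0 l)).2 i q hq
    refine h1.trans (le_of_eq (by ring))
  have hB18 : ∀ q : V3, Bx 1 q → Bx 8 q := fun q hq i => (hq i).trans (by norm_num)
  have hB14 : ∀ q : V3, Bx 1 q → Bx 4 q := fun q hq i => (hq i).trans (by norm_num)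
  have s2 : ∀ l k i q, Bx 8 q → |eval q (pderiv k (pderiv i (S l)))| ≤ 2 * C ^ 3 * K := by
    intro l k i q hq
    have h1 := (hbd (pderiv i (S l)) (2 * C ^ 2 * K) (tdp' (hS l).1 i)
      (fun q hq => s1 l i q (hB18 q hq))).2 k q hq
    refine h1.trans (le_of_eq (by ring))
  have s3 : ∀ l j k i q, Bx 8 q → |eval q (pderiv j (pderiv k (pderiv i (S l))))| ≤
      2 * C ^ 4 * K := by
    intro l j k i q hq
    have h1 := (hbd (pderiv k (pderiv i (S l))) (2 * C ^ 3 * K) (tdp' (tdp' (hS l).1 i) k)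
      (fun q hq => s2 l k i q (hB18 q hq))).2 j q hq
    refine h1.trans (le_of_eq (by ring))
  -- the difference
  have hG : ∀ ω, 0 < p ω → ∀ q, Bx 1 q → |eval q (J (z ω) + sh (x (z ω)) (Φ (D (L ω))) -
      S (L ω))| ≤ K / M := by
    intro ω hω q hq
    rw [map_sub, map_add, sh_eval]
    exact (hSp (L ω) ω hω rfl).2 q (hB14 q hq)
  have hGd : ∀ ω, (J (z ω) + sh (x (z ω)) (Φ (D (L ω))) - S (L ω)).totalDegree ≤ b := fun ω =>
    (totalDegree_sub _ _).trans (max_le ((totalDegree_add _ _).trans (max_le (hJ.J1 _).1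
      ((sh_deg _ _).trans (hΦd _)))) (hS _).1)
  have hx8 : ∀ r, Bx 8 (x r) := fun r => hB18 _ (hJ.x1 r)
  have g1 : ∀ ω, 0 < p ω → ∀ i, |eval (x (z ω)) (pderiv i (J (z ω))) -
      eval (x (z ω)) (pderiv i (S (L ω)))| ≤ C * (K / M) := by
    intro ω hω i
    have h1 := (hbd _ _ (hGd ω) (hG ω hω)).2 i (x (z ω)) (hx8 _)
    rw [map_sub, map_sub, map_add, map_add, sh_pd,
      sh_zero (b := b - 1) (hJ.Φ1 _).hom.pderiv (by omega), add_zero] at h1
    exact h1
  have g2 : ∀ ω, 0 < p ω → ∀ k i, |eval (x (z ω)) (pderiv k (pderiv i (J (z ω)))) -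
      eval (x (z ω)) (pderiv k (pderiv i (S (L ω))))| ≤ C ^ 2 * (K / M) := by
    intro ω hω k i
    have h0 := (hbd _ _ (hGd ω) (hG ω hω)).2 i
    have h1 := (hbd _ _ (tdp' (hGd ω) i) (fun q hq => h0 q (hB18 q hq))).2 k (x (z ω)) (hx8 _)
    rw [map_sub, map_sub, map_sub, map_add, map_add, map_add, sh_pd, sh_pd,
      sh_zero (b := b - 1 - 1) (hJ.Φ1 _).hom.pderiv.pderiv (by omega), add_zero] at h1
    refine h1.trans (le_of_eq (by ring))
  have hpt : ∀ ω, 0 < p ω → Bx 8 (x0 (L ω) + ((t ω : ℝ) / M) • X (D (L ω))) := by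
    intro ω hω i
    have h1 := (hS (L ω)).2.2 i
    have h2 := hs8 ω hω i
    rw [Pi.add_apply, Pi.smul_apply, smul_eq_mul]
    exact (abs_add_le _ _).trans (by linarith)
  have hnear : ∀ (Q : Po) (W : ℝ), (∀ (j : Fin 3) (q : V3), Bx 8 q → |eval q (pderiv j Q)| ≤ W) →
      ∀ ω, 0 < p ω → |eval (x (z ω)) Q - eval (x0 (L ω) + ((t ω : ℝ) / M) • X (D (L ω))) Q| ≤
        3 * (W * (K / M)) := by
    intro Q W hW ω hω
    refine mv3 (hx8 _) (hpt ω hω) hW ?_
    have h1 := (hSp (L ω) ω hω rfl).1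
    rwa [sub_sub] at h1
  have hKM0 : 0 ≤ K / M := by positivity
  have hpath : ∀ i ω, 0 < p ω → |eval (x (z ω)) (pderiv i (J (z ω))) -
      (ln (x0 (L ω)) (X (D (L ω))) (pderiv i (S (L ω)))).eval ((t ω : ℝ) / M)| ≤
        21 * C ^ 4 * K ^ 2 / M := by
    intro i ω hω
    rw [ln_ev]
    have h1 := g1 ω hω i
    have h2 := hnear (pderiv i (S (L ω))) (2 * C ^ 3 * K) (fun j q hq => s2 _ j i q hq) ω hω
    have h3 : C * (K / M) + 3 * (2 * C ^ 3 * K * (K / M)) ≤ 21 * C ^ 4 * K ^ 2 / M := by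
      have e1 : 3 * (2 * C ^ 3 * K * (K / M)) = 6 * C ^ 3 * (K ^ 2 / M) := by ring
      have e2 : 21 * C ^ 4 * K ^ 2 / M = 21 * C ^ 4 * (K ^ 2 / M) := by ring
      rw [e1, e2]
      have h4 : C * (K / M) ≤ C ^ 4 * (K ^ 2 / M) :=
        mul_le_mul hC12 (div_le_div_of_nonneg_right hKK hM0.le) hKM0 (by positivity)
      have h5 : 6 * C ^ 3 * (K ^ 2 / M) ≤ 6 * C ^ 4 * (K ^ 2 / M) :=
        mul_le_mul_of_nonneg_right (by linarith) (by positivity)
      have h6 : 0 ≤ C ^ 4 * (K ^ 2 / M) := by positivity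
      linarith
    obtain ⟨A1, A2⟩ := abs_le.1 h1
    obtain ⟨B1, B2⟩ := abs_le.1 h2
    exact abs_le.2 ⟨by linarith, by linarith⟩
  refine ⟨x0, S, fun ω hω => (hSp (L ω) ω hω rfl).1, fun l => (hS l).1, fun l q hq i => ?_,
    fun ω hω => ?_, fun i => ?_, hpath, fun i ω hω => ?_⟩
  · refine (s1 l i q hq).trans (mul_le_mul_of_nonneg_right ?_ (by linarith))
    linarith
  · have h1 := (hSp (L ω) ω hω rfl).2 (x (z ω)) (hB14 _ (hJ.x1 _))
    rw [sub_self, Pool.STB.hom_zero (hJ.Φ1 _).hom (by omega), add_zero] at h1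
    exact h1
  · refine ⟨hJ.law, hJ.yL, hJ.yz, hJ.tM, hJ.full, hJ.free, hJ.X1, hJ.x1, fun ω ω' h h' hL => ?_,
      hJ.posf, hJ.gp, fun l => ?_, fun l s hs => ?_, fun r => ?_, ?_, hJ.few i⟩
    · refine fun j => (hJ.pos ω ω' h h' hL j).trans (div_le_div_of_nonneg_right ?_ hM0.le)
      have h1 : K ^ 2 ≤ 21 * C ^ 4 * K ^ 2 :=
        le_mul_of_one_le_left (by positivity) (by linarith)
      linarith
    · refine ln_deg _ _ (tdp ?_ i)
      have h1 := (hS l).1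
      omega
    · rw [ln_ev]
      refine (s1 l i _ fun j => ?_).trans ?_
      · have h1 := (hS l).2.2 j
        have h2 : |s * X (D l) j| ≤ 2 := by
          rw [abs_mul]
          have := hJ.X1 (D l) j
          nlinarith [abs_nonneg s, abs_nonneg (X (D l) j)]
        rw [Pi.add_apply, Pi.smul_apply, smul_eq_mul]
        exact (abs_add_le _ _).trans (by linarith)
      · exact mul_le_mul (by linarith) hKK (by linarith) (by positivity)
    · have h1 := (hbd (J r) K (hJ.J1 r).1 (hJ.J1 r).2).2 i (x r) (hx8 r)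
      exact h1.trans (mul_le_mul (by linarith) hKK (by linarith) (by positivity))
    · exact (le_of_eq (Pb_zero p (fun ω hω hn => hn (hpath i ω hω)) p0)).trans hc
  · rw [ln_dev, ← Finset.sum_sub_distrib]
    refine (Finset.abs_sum_le_sum_abs _ _).trans ?_
    have h1 : ∀ k ∈ (univ : Finset (Fin 3)), |X (D (L ω)) k * eval (x0 (L ω) +
        ((t ω : ℝ) / M) • X (D (L ω))) (pderiv k (pderiv i (S (L ω)))) -
        eval (x (z ω)) (pderiv k (pderiv i (J (z ω)))) * X (D (L ω)) k| ≤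
        7 * C ^ 4 * (K ^ 2 / M) := by
      intro k _
      have e1 : X (D (L ω)) k * eval (x0 (L ω) +
        ((t ω : ℝ) / M) • X (D (L ω))) (pderiv k (pderiv i (S (L ω)))) -
        eval (x (z ω)) (pderiv k (pderiv i (J (z ω)))) * X (D (L ω)) k =
        (-(eval (x (z ω)) (pderiv k (pderiv i (S (L ω)))) - eval (x0 (L ω) +
        ((t ω : ℝ) / M) • X (D (L ω))) (pderiv k (pderiv i (S (L ω))))) -
        (eval (x (z ω)) (pderiv k (pderiv i (J (z ω)))) -
          eval (x (z ω)) (pderiv k (pderiv i (S (L ω)))))) * X (D (L ω)) k := by ring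
      rw [e1, abs_mul]
      have h2 := hnear (pderiv k (pderiv i (S (L ω)))) (2 * C ^ 4 * K)
        (fun j q hq => s3 _ j k i q hq) ω hω
      have h3 := g2 ω hω k i
      have h4 := hJ.X1 (D (L ω)) k
      have h5 : |-(eval (x (z ω)) (pderiv k (pderiv i (S (L ω)))) - eval (x0 (L ω) +
        ((t ω : ℝ) / M) • X (D (L ω))) (pderiv k (pderiv i (S (L ω))))) -
        (eval (x (z ω)) (pderiv k (pderiv i (J (z ω)))) -
          eval (x (z ω)) (pderiv k (pderiv i (S (L ω)))))| ≤ 7 * C ^ 4 * (K ^ 2 / M) := by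
        refine (abs_sub _ _).trans ?_
        rw [abs_neg]
        have e2 : 3 * (2 * C ^ 4 * K * (K / M)) = 6 * C ^ 4 * (K ^ 2 / M) := by ring
        rw [e2] at h2
        have h6 : C ^ 2 * (K / M) ≤ C ^ 4 * (K ^ 2 / M) :=
          mul_le_mul hC24 (div_le_div_of_nonneg_right hKK hM0.le) hKM0 (by positivity)
        linarith
      calc _ ≤ 7 * C ^ 4 * (K ^ 2 / M) * 1 := mul_le_mul h5 h4 (abs_nonneg _) (by positivity)
        _ = _ := mul_one _
    refine (Finset.sum_le_sum h1).trans (le_of_eq ?_)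
    rw [Finset.sum_const, Finset.card_univ, Fintype.card_fin, nsmul_eq_mul]
    push_cast
    ring

end Pool.STB6
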