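import Pool.Agent.H6.STB.Ej0

/-!
# The potential of the closed gradient
-/

set_option autoImplicit false

namespace Pool.STB6

open Finset Real MvPolynomial
open Pool.Agent.H49.Ent Pool.Agent.H32.Dense Pool.STK
open Pool.BFL (Pb)
open Pool.STB (V3 Po Bx cv Hb ln ln_eval ln_deg Pb_mono Pb_or Pb_le2 glueLaw')

/-- **Two polynomials with the same gradient along a line.** -/
theorem pp_line {S F : Po} {a a' x0 v : V3} {s s' κ D₁ D₂ ε : ℝ} (hs : |s| ≤ 1) (hs' : |s'| ≤ 1)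
    (ha : Bx 8 a) (ha' : Bx 8 a') (hx : ∀ τ : ℝ, |τ| ≤ 1 → Bx 8 (x0 + τ • v))
    (hv : Bx 1 v) (hn : Bx κ (a - (x0 + s • v))) (hn' : Bx κ (a' - (x0 + s' • v)))
    (h1 : ∀ (j : Fin 3) (q : V3), Bx 8 q → |eval q (pderiv j S)| ≤ D₁)
    (h2 : ∀ (j : Fin 3) (q : V3), Bx 8 q → |eval q (pderiv j F)| ≤ D₂)
    (h3 : ∀ (τ : ℝ), |τ| ≤ 1 → ∀ k, |eval (x0 + τ • v) (pderiv k S) -
      eval (x0 + τ • v) (pderiv k F)| ≤ ε) :
    |(eval a S - eval a F) - (eval a' S - eval a' F)| ≤ 6 * ((D₁ + D₂) * κ) + 6 * ε := by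
  obtain ⟨G, hG⟩ : ∃ G : Po, G = S - F := ⟨_, rfl⟩
  have hGd : ∀ (j : Fin 3) (q : V3), Bx 8 q → |eval q (pderiv j G)| ≤ D₁ + D₂ := by
    intro j q hq
    rw [hG, map_sub, map_sub]
    exact (abs_sub _ _).trans (add_le_add (h1 j q hq) (h2 j q hq))
  have hε : 0 ≤ ε := (abs_nonneg _).trans (h3 0 (by simp) 0)
  have m1 := mv3 ha (hx s hs) hGd hn
  have m2 := mv3 ha' (hx s' hs') hGd hn'
  have hmvt := (convex_Icc (-1 : ℝ) 1).norm_image_sub_le_of_norm_hasDerivWithin_le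
    (f := fun s => (ln x0 v G).eval s) (f' := fun s => (ln x0 v G).derivative.eval s)
    (C := 3 * ε) (x := s') (y := s)
    (fun s _ => ((ln x0 v G).hasDerivAt s).hasDerivWithinAt) (fun τ hτ => by
      rw [Real.norm_eq_abs, ln_dev]
      refine (Finset.abs_sum_le_sum_abs _ _).trans ?_
      have h4 : ∀ k ∈ (univ : Finset (Fin 3)), |v k * eval (x0 + τ • v) (pderiv k G)| ≤ ε := by
        intro k _
        rw [abs_mul, hG, map_sub, map_sub]
        have h5 := h3 τ (abs_le.2 hτ) k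
        calc _ ≤ 1 * ε := mul_le_mul (hv k) h5 (abs_nonneg _) (by norm_num)
          _ = ε := one_mul _
      refine (Finset.sum_le_sum h4).trans (le_of_eq ?_)
      rw [Finset.sum_const, Finset.card_univ, Fintype.card_fin, nsmul_eq_mul]
      norm_num) (abs_le.1 hs') (abs_le.1 hs)
  rw [Real.norm_eq_abs, Real.norm_eq_abs, ln_ev, ln_ev] at hmvt
  have h6 : |s - s'| ≤ 2 := (abs_sub _ _).trans (by linarith)
  have h7 : 3 * ε * |s - s'| ≤ 6 * ε := by nlinarith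
  rw [hG, map_sub, map_sub] at m1 m2 hmvt
  have h8 := hmvt.trans h7
  obtain ⟨A1, A2⟩ := abs_le.1 m1
  obtain ⟨B1, B2⟩ := abs_le.1 m2
  obtain ⟨C1, C2⟩ := abs_le.1 h8
  exact abs_le.2 ⟨by linarith, by linarith⟩

theorem mono_cr {C₁ C₂ : ℕ} (h : C₁ ≤ C₂) {ρ : ℝ} (hρ : 0 < ρ) (hρ1 : ρ < 1) {m : ℝ} (hm : 0 ≤ m)
    (hC : (C₂ : ℝ) ≤ ρ ^ C₂ * m) : (C₁ : ℝ) ≤ ρ ^ C₁ * m := by
  have h1 : (C₁ : ℝ) ≤ C₂ := by exact_mod_cast h
  have h2 : ρ ^ C₂ ≤ ρ ^ C₁ := pow_le_pow_of_le_one hρ.le hρ1.le h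
  exact h1.trans (hC.trans (mul_le_mul_of_nonneg_right h2 hm))

/-- **The potential**, explicit numbers. -/
theorem ej_core (b : ℕ) (hb3 : 3 ≤ b) : ∃ (Cr : ℕ) (A A₀ : ℝ), 1 ≤ Cr ∧ 1 ≤ A ∧ 1 ≤ A₀ ∧
    (∀ (Ω Λ Z Y 𝒟 : Type) [Fintype Ω] (p : Ω → ℝ) (L : Ω → Λ) (z : Ω → Z) (y : Ω → Y) (t : Ω → ℤ)
      (D : Λ → 𝒟) (X : 𝒟 → V3) (Φ : 𝒟 → Po) (x : Z → V3) (J : Z → Po) (M : ℕ) (K e η c : ℝ),
      JetH p L z y t D X Φ x J b M K e η c → 1 ≤ M → 1 ≤ K → 0 ≤ c → ∀ i, ∃ P : Λ → Polynomial ℝ,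
        CloH p L z y t D X x (fun r => eval (x r) (pderiv i (J r))) P (b - 1) M (A₀ * K ^ 2) e η c) ∧
    ∀ (Ω Λ Z Y 𝒟 : Type) [Fintype Ω]
    (p : Ω → ℝ) (L : Ω → Λ) (z : Ω → Z) (y : Ω → Y) (t : Ω → ℤ) (D : Λ → 𝒟) (X : 𝒟 → V3)
    (Φ : 𝒟 → Po) (x : Z → V3) (J : Z → Po) (M : ℕ) (K e η c ρ δ U cs : ℝ) (f : Fin 3 → Z → Po),
    JetH p L z y t D X Φ x J b M K e η c → 1 ≤ M → 1 ≤ K → 0 < η → η ≤ 1 → 0 < ρ → ρ < 1 →
    (Cr : ℝ) ≤ ρ ^ Cr * (2 * M + 1) → 0 ≤ c → 0 ≤ e → K / M ≤ 1 →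
    (∀ i r, (f i r).totalDegree ≤ 3 * (b - 1) ∧ ∀ q, Bx 1 q → |eval q (f i r)| ≤ U) →
    A₀ * K ^ 2 / M ≤ δ → U * (K / M) ≤ δ → 0 ≤ U →
    (∀ i, Pb p (fun ω => ¬ |eval (x (z ω)) (pderiv i (J (z ω))) -
      eval (x (z ω)) (f i (z ω))| ≤ δ) ≤ cs) →
    (∀ i, Pb (glue p p L L) (fun w => ¬ ∀ q, Bx 1 q →
      |eval q (f i (z w.1)) - eval q (f i (z w.2))| ≤ δ) ≤ cs) →
    ∃ PP : Z → Po, (∀ r, (PP r).totalDegree ≤ 3 * b ∧
        ∀ q, Bx 1 q → |eval q (PP r)| ≤ A * (U + K)) ∧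
      (∀ r, eval (x r) (PP r) = eval (x r) (J r)) ∧
      Pb (glue p p L L) (fun w => ¬ ∀ q, Bx 1 q →
        |eval q (PP (z w.1)) - eval q (PP (z w.2))| ≤
          A * (A * (1 / ρ) ^ Cr / η) ^ (3 * b + 1) * δ) ≤
        A * (cs + (e + Real.log 2) / Real.log (1 / ρ) + c) := by
  classical
  obtain ⟨Nm, hNm⟩ : ∃ Nm : ℕ, Nm = 3 * b := ⟨_, rfl⟩
  obtain ⟨C₁, B₁, hC₁, hB₁, hder⟩ := der Nm
  obtain ⟨C₂, B₂, hC₂, hB₂, hvan⟩ := van Nm
  obtain ⟨B₃, hB₃, hbd⟩ := bdx Nm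
  obtain ⟨A₄, hA₄, hpot⟩ := pot_bd (3 * (b - 1))
  obtain ⟨A₅, hA₅, hjet⟩ := jet_clo b hb3
  obtain ⟨W, hW⟩ : ∃ W : ℝ, W = 4 ^ Nm * (Nm + 2) := ⟨_, rfl⟩
  have hW0 : 0 ≤ W := by rw [hW]; positivity
  obtain ⟨A, hA⟩ : ∃ A : ℝ, A = 2 * A₄ + 8 + 6 * (B₃ * A₄) + 18 * B₁ + 36 * (A₄ * B₁ * B₃) + B₂ +
    (9 + 18 * W) := ⟨_, rfl⟩
  have hA41 : 0 ≤ B₃ * A₄ := by positivity
  have hA42 : 0 ≤ A₄ * B₁ * B₃ := by positivity
  have hA1 : 1 ≤ A := by rw [hA]; linarith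
  refine ⟨max C₁ C₂, A, A₅, le_max_of_le_left hC₁, hA1, hA₅, ?_, ?_⟩
  · intro Ω Λ Z Y 𝒟 _ p L z y t D X Φ x J M K e η c hJ hM hK hc i
    obtain ⟨x0, S, -, -, -, -, h5, -, -⟩ :=
      hjet Ω Λ Z Y 𝒟 p L z y t D X Φ x J M K e η c hJ hM hK hc
    exact ⟨_, h5 i⟩
  intro Ω Λ Z Y 𝒟 _ p L z y t D X Φ x J M K e η c ρ δ U cs f hJ hM hK hη hη1 hρ hρ1 hCM hc he hKM
    hf hδK hδU hU0 hval hclo
  obtain ⟨x0, S, j1, j2, j3, j4, -, j6, j7⟩ :=
    hjet Ω Λ Z Y 𝒟 p L z y t D X Φ x J M K e η c hJ hM hK hc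
  have p0 := hJ.law.nonneg
  have hM0 : (0 : ℝ) < M := by exact_mod_cast hM
  have gl := glueLaw' hJ.law hJ.law (X := L) (Y := L) fun _ => rfl
  have g0 := gl.nonneg
  have hm0 : (0 : ℝ) ≤ 2 * M + 1 := by positivity
  have hCM1 := mono_cr (le_max_left C₁ C₂) hρ hρ1 hm0 hCM
  have hCM2 := mono_cr (le_max_right C₁ C₂) hρ hρ1 hm0 hCM
  have hl : 0 < Real.log (1 / ρ) := Real.log_pos (by rw [lt_div_iff₀ hρ]; linarith)
  have hδ0 : 0 ≤ δ := le_trans (by positivity) hδK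
  obtain ⟨r, hr⟩ : ∃ r : ℝ, r = (e + Real.log 2) / Real.log (1 / ρ) := ⟨_, rfl⟩
  have hr0 : 0 ≤ r := by
    have := Real.log_nonneg (show (1 : ℝ) ≤ 2 by norm_num)
    rw [hr]
    positivity
  have hcs : 0 ≤ cs := (Pb_nn p0 _).trans (hval 0)
  obtain ⟨R, hR⟩ : ∃ R : ℝ, R = (1 / ρ) ^ max C₁ C₂ / η := ⟨_, rfl⟩
  have hρ1' : 1 ≤ 1 / ρ := by rw [le_div_iff₀ hρ]; linarith
  have hRc : ∀ C : ℕ, C ≤ max C₁ C₂ → (1 / ρ) ^ C / η ≤ R := fun C hC => by
    rw [hR]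
    exact div_le_div_of_nonneg_right (pow_le_pow_right₀ hρ1' hC) hη.le
  have hRc' : ∀ C : ℕ, (1 / ρ) ^ C ≤ (1 / ρ) ^ C / η := fun C => by
    rw [le_div_iff₀ hη]
    have : 0 ≤ (1 / ρ) ^ C := by positivity
    nlinarith
  have hR1 : 1 ≤ R := by
    have h1 := hRc 0 (Nat.zero_le _)
    have h2 := hRc' 0
    rw [pow_zero] at h1 h2
    linarith
  have hfd : ∀ i s, (f i s).totalDegree ≤ Nm := fun i s => (hf i s).1.trans (by omega)
  have hB18 : ∀ q : V3, Bx 1 q → Bx 8 q := fun q hq i => (hq i).trans (by norm_num)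
  have hpos' : ∀ ω, 0 < p ω →
      Bx (K / M) (x (z ω) - x0 (L ω) - ((t ω : ℝ) / M) • (fun l => X (D l)) (L ω)) := j1
  -- the reading
  have hE1 : ∀ i, Pb (glue p p L L) (fun w => ¬ |eval (x (z w.2)) (f i (z w.1)) -
      (ln (x0 (L w.1)) (X (D (L w.1))) (pderiv i (S (L w.1)))).eval ((t w.2 : ℝ) / M)| ≤ 3 * δ) ≤
        cs + cs := by
    intro i
    refine (Pb_le2 g0 (B := fun w => ¬ |eval (x (z w.2)) (pderiv i (J (z w.2))) -
      eval (x (z w.2)) (f i (z w.2))| ≤ δ) (C := fun w => ¬ ∀ q, Bx 1 q →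
      |eval q (f i (z w.1)) - eval q (f i (z w.2))| ≤ δ) fun w hw a1 a2 hn => hn ?_).trans
      (add_le_add ?_ (hclo i))
    swap
    · rw [not_not] at a1 a2
      obtain ⟨w1, w2, w3⟩ := (glue_pos_iff p0 p0 w).1 hw
      have a3 := a2 _ (hJ.x1 (z w.2))
      have a4 := (j6 i w.2 w2).trans hδK
      rw [← w3] at a4
      obtain ⟨A1, A2⟩ := abs_le.1 a1
      obtain ⟨D1, D2⟩ := abs_le.1 a3
      obtain ⟨E1, E2⟩ := abs_le.1 a4
      exact abs_le.2 ⟨by linarith, by linarith⟩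
    · rw [Pool.MIC.Marg.Pb_eq (marg_snd (Z₁ := L) (Z₂ := L) p0 fun _ => rfl)
        (fun ω => ¬ |eval (x (z ω)) (pderiv i (J (z ω))) - eval (x (z ω)) (f i (z ω))| ≤ δ)]
      exact hval i
  have hd1 : ∀ i, _ := fun i => hder Ω Λ Z p L z t (fun l => X (D l)) x x0 (f i)
    (fun l => ln (x0 l) (X (D l)) (pderiv i (S l)))
    (fun s k => eval (x s) (pderiv k (pderiv i (J s)))) M K e η c U ρ (3 * δ) (cs + cs) 0 hJ.law hM
    hη hη1 hρ hρ1 hCM1 hJ.tM hJ.full (fun l => hJ.X1 _) hJ.x1 hpos' hKM hJ.gp (hfd i)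
    (fun l => ln_deg _ _ ((tdp' (j2 l) i).trans (by omega))) (fun s => (hf i s).2) (by linarith)
    (by linarith) (hE1 i) (le_of_eq (Pb_zero p (fun ω hω hn => hn
      ((j7 i ω hω).trans (by linarith))) p0))
  -- the curl
  obtain ⟨δ₂, hδ₂⟩ : ∃ δ₂ : ℝ, δ₂ = 6 * (B₁ * B₃) * R * δ := ⟨_, rfl⟩
  have hδ20 : 0 ≤ δ₂ := by rw [hδ₂]; positivity
  have hcurl : ∀ i k, Pb p (fun ω => ¬ ∀ q, Bx 1 q →
      |eval q (pderiv k (f i (z ω)) - pderiv i (f k (z ω)))| ≤ (B₂ * R) ^ Nm * δ₂) ≤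
        W * (2 * cs + r + c) := by
    intro i k
    have v1 : Pb p (fun ω => ¬ |eval (x (z ω)) (pderiv k (f i (z ω)) - pderiv i (f k (z ω)))| ≤
        δ₂) ≤ (cs + cs + 0 + r + c) + (cs + cs + 0 + r + c) := by
      have e1 := (hd1 i).2
      have e2 := (hd1 k).2
      rw [← hr] at e1 e2
      refine (Pb_le2 p0 (B := _) (C := _) (fun ω _ a1 a2 hn => hn ?_)).trans (add_le_add e1 e2)
      rw [not_not] at a1 a2
      have a3 := a1 k
      have a4 := a2 i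
      rw [pdc i k] at a4
      have a5 : B₁ * (1 / ρ) ^ C₁ / η * (3 * δ) ≤ 3 * (B₁ * B₃) * R * δ := by
        have h1 := hRc C₁ (le_max_left _ _)
        have h2 : B₁ * (1 / ρ) ^ C₁ / η * (3 * δ) = 3 * B₁ * ((1 / ρ) ^ C₁ / η) * δ := by ring
        rw [h2]
        have h3 : 3 * B₁ * ((1 / ρ) ^ C₁ / η) ≤ 3 * (B₁ * B₃) * R :=
          mul_le_mul (by nlinarith) h1 (by positivity) (by positivity)
        exact mul_le_mul_of_nonneg_right h3 hδ0
      rw [map_sub, hδ₂]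
      obtain ⟨A1, A2⟩ := abs_le.1 a3
      obtain ⟨D1, D2⟩ := abs_le.1 a4
      exact abs_le.2 ⟨by linarith, by linarith⟩
    have v2 : Pb (glue p p L L) (fun w => ¬ ∀ q, Bx 1 q →
        |eval q (pderiv k (f i (z w.1)) - pderiv i (f k (z w.1))) -
          eval q (pderiv k (f i (z w.2)) - pderiv i (f k (z w.2)))| ≤ δ₂) ≤ cs + cs := by
      refine (Pb_le2 g0 (B := _) (C := _) (fun w _ a1 a2 hn => hn fun q hq => ?_)).trans
        (add_le_add (hclo i) (hclo k))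
      rw [not_not] at a1 a2
      have b1 := (hbd (f i (z w.1) - f i (z w.2)) δ ((totalDegree_sub _ _).trans
        (max_le (hfd _ _) (hfd _ _))) (fun q hq => by rw [map_sub]; exact a1 q hq)).2 k q (hB18 q hq)
      have b2 := (hbd (f k (z w.1) - f k (z w.2)) δ ((totalDegree_sub _ _).trans
        (max_le (hfd _ _) (hfd _ _))) (fun q hq => by rw [map_sub]; exact a2 q hq)).2 i q (hB18 q hq)
      rw [map_sub, map_sub] at b1 b2
      have b3 : 2 * (B₃ * δ) ≤ δ₂ := by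
        rw [hδ₂]
        have h1 : 2 * B₃ ≤ 6 * (B₁ * B₃) * R := by
          have h2 : B₃ ≤ B₁ * B₃ := le_mul_of_one_le_left (by linarith) hB₁
          have h3 : 6 * (B₁ * B₃) ≤ 6 * (B₁ * B₃) * R := le_mul_of_one_le_right (by positivity) hR1
          linarith
        have := mul_le_mul_of_nonneg_right h1 hδ0
        linarith
      rw [map_sub, map_sub]
      obtain ⟨A1, A2⟩ := abs_le.1 b1
      obtain ⟨D1, D2⟩ := abs_le.1 b2
      exact abs_le.2 ⟨by linarith, by linarith⟩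
    have v3 := hvan Ω Λ Z p L z t (fun l => X (D l)) x x0 M K e η c ρ hJ.law hM hη hη1 hρ hρ1 hCM2
      hJ.tM hJ.full (fun l => hJ.X1 _) hJ.x1 hpos' hKM hJ.gp (by linarith) he Nm le_rfl
      (fun s => pderiv k (f i s) - pderiv i (f k s)) (2 * (B₃ * U)) δ₂ _ _
      (fun s => (totalDegree_sub _ _).trans (max_le (tdp' (hfd i s) k) (tdp' (hfd k s) i)))
      (fun s q hq => by
        have b1 := (hbd (f i s) U (hfd i s) (hf i s).2).2 k q (hB18 q hq)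
        have b2 := (hbd (f k s) U (hfd k s) (hf k s).2).2 i q (hB18 q hq)
        rw [map_sub]
        exact (abs_sub _ _).trans (by linarith)) hδ20 (by
        have h1 : 2 * (B₃ * U) * (K / M) ≤ 2 * (B₃ * δ) := by
          have := mul_le_mul_of_nonneg_left hδU (show 0 ≤ 2 * B₃ by linarith)
          linarith
        refine h1.trans ?_
        rw [hδ₂]
        have h1 : 2 * B₃ ≤ 6 * (B₁ * B₃) * R := by
          have h2 : B₃ ≤ B₁ * B₃ := le_mul_of_one_le_left (by linarith) hB₁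
          have h3 : 6 * (B₁ * B₃) ≤ 6 * (B₁ * B₃) * R := le_mul_of_one_le_right (by positivity) hR1
          linarith
        have := mul_le_mul_of_nonneg_right h1 hδ0
        linarith) v1 v2
    rw [← hr] at v3
    refine (Pb_mono p0 fun ω _ hn h => hn fun q hq => (h q hq).trans ?_).trans (v3.trans ?_)
    swap
    · refine mul_le_mul_of_nonneg_right (pow_le_pow_left₀ (by positivity) ?_ _) hδ20
      rw [mul_div_assoc]
      exact mul_le_mul_of_nonneg_left (hRc C₂ (le_max_right _ _)) (by linarith)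
    · rw [hW]
      have h1 : (4 : ℝ) ^ Nm * (Nm + 2) * (2 * cs + r + c) - 4 ^ Nm * (cs + cs + 0 + r + c +
        (cs + cs + 0 + r + c) + Nm * (cs + cs + r + c)) = 0 := by ring
      linarith
  -- the potential
  obtain ⟨F, hF⟩ : ∃ F : Z → Po, F = fun s => pot (3 * (b - 1)) (fun i => f i s) := ⟨_, rfl⟩
  have hFd : ∀ s, (F s).totalDegree ≤ Nm := fun s => by
    rw [hF]
    exact (pot_deg _ _).trans (by omega)
  have hFb : ∀ s q, Bx 8 q → |eval q (F s)| ≤ A₄ * U := fun s q hq => by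
    rw [hF]
    exact (hpot (fun i => f i s) fun i => (hf i s).1).1 U (fun i => (hf i s).2) q hq
  have hFp : ∀ s (j : Fin 3) q, Bx 8 q → |eval q (pderiv j (F s))| ≤ B₃ * (A₄ * U) := fun s j q hq =>
    (hbd (F s) (A₄ * U) (hFd s) (fun q hq => hFb s q (hB18 q hq))).2 j q hq
  refine ⟨fun s => F s + C (eval (x s) (J s) - eval (x s) (F s)), fun s => ⟨?_, fun q hq => ?_⟩,
    fun s => ?_, ?_⟩
  · refine (totalDegree_add _ _).trans (max_le ((hFd s).trans (by omega)) ?_)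
    rw [totalDegree_C]
    exact Nat.zero_le _
  · rw [map_add, eval_C]
    have h1 := hFb s q (hB18 q hq)
    have h2 := hFb s (x s) (hB18 _ (hJ.x1 s))
    have h3 := (hJ.J1 s).2 (x s) (hJ.x1 s)
    have h4 : 2 * (A₄ * U) + K ≤ A * (U + K) := by
      have h5 : 2 * A₄ ≤ A := by rw [hA]; linarith
      have h6 := mul_le_mul_of_nonneg_right h5 hU0
      have h7 := mul_le_mul_of_nonneg_right hA1 (show 0 ≤ K by linarith)
      linarith
    refine (abs_add_le _ _).trans ?_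
    have h5 := abs_sub (eval (x s) (J s)) (eval (x s) (F s))
    linarith
  · rw [map_add, eval_C]
    ring
  -- the lines
  · have u1 := Pb_or3 g0 (fun i w => ¬ ∀ q, Bx 1 q →
      |eval q (f i (z w.1)) - eval q (f i (z w.2))| ≤ δ) hclo
    have u2 := Pb_or3 g0 (fun i w => ¬ ∀ s : ℝ, |s| ≤ 1 →
        |eval (x0 (L w.1) + s • X (D (L w.1))) (f i (z w.1)) -
          (ln (x0 (L w.1)) (X (D (L w.1))) (pderiv i (S (L w.1)))).eval s| ≤ 3 * B₁ * R * δ)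
      (a := cs + cs + r) (fun i => by
        have e1 := (hd1 i).1
        rw [← hr] at e1
        rw [Pool.MIC.Marg.Pb_eq (marg_fst (Z₁ := L) (Z₂ := L) p0 fun _ => rfl)
          (fun ω => ¬ ∀ s : ℝ, |s| ≤ 1 → |eval (x0 (L ω) + s • X (D (L ω))) (f i (z ω)) -
          (ln (x0 (L ω)) (X (D (L ω))) (pderiv i (S (L ω)))).eval s| ≤ 3 * B₁ * R * δ)]
        refine (Pb_mono p0 fun ω _ hn h => hn fun s hs => (h s hs).trans ?_).trans e1
        have h1 := (hRc' C₁).trans (hRc C₁ (le_max_left _ _))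
        have h2 : B₁ * (1 / ρ) ^ C₁ * (3 * δ) = 3 * B₁ * (1 / ρ) ^ C₁ * δ := by ring
        rw [h2]
        exact mul_le_mul_of_nonneg_right (mul_le_mul_of_nonneg_left h1 (by linarith)) hδ0)
    have u3 := Pb_or3 g0 (fun i w => ∃ k, ¬ ∀ q, Bx 1 q →
      |eval q (pderiv k (f i (z w.1)) - pderiv i (f k (z w.1)))| ≤ (B₂ * R) ^ Nm * δ₂)
      (a := 3 * (W * (2 * cs + r + c))) (fun i => Pb_or3 g0 (fun k w => ¬ ∀ q, Bx 1 q →
      |eval q (pderiv k (f i (z w.1)) - pderiv i (f k (z w.1)))| ≤ (B₂ * R) ^ Nm * δ₂) (fun k => by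
        rw [Pool.MIC.Marg.Pb_eq (marg_fst (Z₁ := L) (Z₂ := L) p0 fun _ => rfl)
          (fun ω => ¬ ∀ q, Bx 1 q →
            |eval q (pderiv k (f i (z ω)) - pderiv i (f k (z ω)))| ≤ (B₂ * R) ^ Nm * δ₂)]
        exact hcurl i k))
    have u4 := Pb_or g0 (fun w => ∃ i, ¬ ∀ q, Bx 1 q →
      |eval q (f i (z w.1)) - eval q (f i (z w.2))| ≤ δ) (fun w => ∃ i : Fin 3, ¬ ∀ s : ℝ, |s| ≤ 1 →
        |eval (x0 (L w.1) + s • X (D (L w.1))) (f i (z w.1)) -
          (ln (x0 (L w.1)) (X (D (L w.1))) (pderiv i (S (L w.1)))).eval s| ≤ 3 * B₁ * R * δ)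
    refine (Pb_le2 g0 (B := _) (C := _) (fun w hw a1 a2 hn => hn ?_)).trans
      ((add_le_add (u4.trans (add_le_add u1 u2)) u3).trans ?_)
    swap
    · rw [not_or] at a1
      obtain ⟨a0, a1⟩ := a1
      push Not at a0 a1 a2
      obtain ⟨w1, w2, w3⟩ := (glue_pos_iff p0 p0 w).1 hw
      intro q hq
      obtain ⟨δ₃, hδ₃⟩ : ∃ δ₃ : ℝ, δ₃ = (B₂ * R) ^ Nm * δ₂ := ⟨_, rfl⟩
      -- the two potentials
      have k1 : ∀ q', Bx 8 q' → |eval q' (F (z w.1)) - eval q' (F (z w.2))| ≤ A₄ * δ := by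
        intro q' hq'
        have h1 := (hpot (fun i => f i (z w.1) - f i (z w.2)) fun i =>
          (totalDegree_sub _ _).trans (max_le (hf i _).1 (hf i _).1)).1 δ (fun i q'' hq'' => by
            rw [map_sub]
            exact a0 i q'' hq'') q' hq'
        have h2 : pot (3 * (b - 1)) (fun i => f i (z w.1) - f i (z w.2)) =
            F (z w.1) - F (z w.2) := by
          rw [hF]
          exact pot_sub _ (fun i => f i (z w.1)) (fun i => f i (z w.2))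
        rw [h2, map_sub] at h1
        exact h1
      have k2 := k1 q (hB18 q hq)
      have k3 := k1 (x (z w.2)) (hB18 _ (hJ.x1 _))
      -- the targets
      have k4 := j4 w.1 w1
      have k5 := j4 w.2 w2
      rw [← w3] at k5
      -- the line
      have hv8 : ∀ τ : ℝ, |τ| ≤ 1 → Bx 8 (x0 (L w.1) + τ • X (D (L w.1))) := by
        intro τ hτ j
        have h1 := j1 w.1 w1 j
        rw [Pi.sub_apply, Pi.sub_apply, Pi.smul_apply, smul_eq_mul] at h1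
        have h2 := hJ.x1 (z w.1) j
        have h3 := hJ.X1 (D (L w.1)) j
        have h4 : |(t w.1 : ℝ) / M| ≤ 1 := by
          rw [abs_div, abs_of_pos hM0]
          refine (div_le_one hM0).2 ?_
          exact_mod_cast hJ.tM w.1 w1
        have h5 : |(t w.1 : ℝ) / M * X (D (L w.1)) j| ≤ 1 := by
          rw [abs_mul]
          nlinarith [abs_nonneg ((t w.1 : ℝ) / M), abs_nonneg (X (D (L w.1)) j)]
        have h6 : |τ * X (D (L w.1)) j| ≤ 1 := by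
          rw [abs_mul]
          nlinarith [abs_nonneg τ, abs_nonneg (X (D (L w.1)) j)]
        rw [Pi.add_apply, Pi.smul_apply, smul_eq_mul]
        obtain ⟨A1, A2⟩ := abs_le.1 h1
        obtain ⟨B1, B2⟩ := abs_le.1 h2
        obtain ⟨C1, C2⟩ := abs_le.1 h5
        obtain ⟨D1, D2⟩ := abs_le.1 h6
        exact abs_le.2 ⟨by linarith, by linarith⟩
      have htt : ∀ ω, 0 < p ω → |(t ω : ℝ) / M| ≤ 1 := by
        intro ω hω
        rw [abs_div, abs_of_pos hM0]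
        refine (div_le_one hM0).2 ?_
        exact_mod_cast hJ.tM ω hω
      have k6 := pp_line (S := S (L w.1)) (F := F (z w.1)) (a := x (z w.1)) (a' := x (z w.2))
        (x0 := x0 (L w.1)) (v := X (D (L w.1))) (κ := K / M) (D₁ := A₅ * K)
        (D₂ := B₃ * (A₄ * U)) (ε := 3 * B₁ * R * δ + A₄ * δ₃) (htt w.1 w1) (htt w.2 w2)
        (hB18 _ (hJ.x1 _)) (hB18 _ (hJ.x1 _)) hv8 (hJ.X1 _) (by
          have h1 := j1 w.1 w1
          rwa [sub_sub] at h1) (by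
          have h1 := j1 w.2 w2
          rw [← w3] at h1
          rwa [sub_sub] at h1) (fun j q' hq' => j3 _ q' hq' j) (hFp (z w.1)) (fun τ hτ k => by
          have h1 := a1 k τ hτ
          rw [ln_ev] at h1
          have h2 := (hpot (fun i => f i (z w.1)) fun i => (hf i (z w.1)).1).2 δ₃
            (fun i k q' hq' => by
              rw [hδ₃]
              exact a2 i k q' hq') k _ (hv8 τ hτ)
          have h3 : pot (3 * (b - 1)) (fun i => f i (z w.1)) = F (z w.1) := by rw [hF]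
          rw [h3] at h2
          obtain ⟨A1, A2⟩ := abs_le.1 h1
          obtain ⟨B1, B2⟩ := abs_le.1 h2
          exact abs_le.2 ⟨by linarith, by linarith⟩)
      -- the sum
      have n1 : K / M ≤ δ := by
        refine le_trans ?_ hδK
        refine div_le_div_of_nonneg_right ?_ hM0.le
        nlinarith
      have n2 : (A₅ * K + B₃ * (A₄ * U)) * (K / M) ≤ δ + B₃ * A₄ * δ := by
        have h1 : A₅ * K * (K / M) = A₅ * K ^ 2 / M := by ring
        have h2 := mul_le_mul_of_nonneg_left hδU hA41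
        linarith
      have n3 : 2 * (A₄ * δ) + 2 * δ + (6 * (δ + B₃ * A₄ * δ) + 6 * (3 * B₁ * R * δ + A₄ * δ₃)) ≤
          A * (A * (1 / ρ) ^ max C₁ C₂ / η) ^ (3 * b + 1) * δ := by
        have e1 : A * (1 / ρ) ^ max C₁ C₂ / η = A * R := by rw [hR]; ring
        have e2 : (B₂ * R) ^ Nm * R ≤ (A * R) ^ (3 * b + 1) := by
          rw [hNm, pow_succ]
          refine mul_le_mul (pow_le_pow_left₀ (by positivity) ?_ _) ?_ (by linarith)
            (by positivity)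
          · refine mul_le_mul_of_nonneg_right ?_ (by linarith)
            rw [hA]
            linarith
          · exact le_mul_of_one_le_left (by linarith) hA1
        have e3 : 1 ≤ (B₂ * R) ^ Nm := one_le_pow₀ (by nlinarith)
        obtain ⟨Q, hQ⟩ : ∃ Q : ℝ, Q = (B₂ * R) ^ Nm * R := ⟨_, rfl⟩
        have e4 : R ≤ Q := by rw [hQ]; exact le_mul_of_one_le_left (by linarith) e3
        have e5 : 1 ≤ Q := hR1.trans e4
        have e6 : δ₃ = 6 * (B₁ * B₃) * Q * δ := by rw [hδ₃, hδ₂, hQ]; ring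
        rw [e1, e6]
        have e7 : 2 * (A₄ * δ) + 2 * δ + (6 * (δ + B₃ * A₄ * δ) + 6 * (3 * B₁ * R * δ +
            A₄ * (6 * (B₁ * B₃) * Q * δ))) = (2 * A₄ + 8 + 6 * (B₃ * A₄)) * δ +
            18 * B₁ * (R * δ) + 36 * (A₄ * B₁ * B₃) * (Q * δ) := by ring
        rw [e7]
        have e8 : δ ≤ Q * δ := le_mul_of_one_le_left hδ0 e5
        have e9 : R * δ ≤ Q * δ := mul_le_mul_of_nonneg_right e4 hδ0
        have e10 := mul_le_mul_of_nonneg_left e8 (show 0 ≤ 2 * A₄ + 8 + 6 * (B₃ * A₄) by linarith)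
        have e11 := mul_le_mul_of_nonneg_left e9 (show 0 ≤ 18 * B₁ by linarith)
        have e12 : 2 * A₄ + 8 + 6 * (B₃ * A₄) + 18 * B₁ + 36 * (A₄ * B₁ * B₃) ≤ A := by
          rw [hA]
          linarith
        have e13 := mul_le_mul_of_nonneg_right e12 (show 0 ≤ Q * δ by positivity)
        have e14 : A * (Q * δ) ≤ A * ((A * R) ^ (3 * b + 1) * δ) := by
          refine mul_le_mul_of_nonneg_left (mul_le_mul_of_nonneg_right ?_ hδ0) (by linarith)
          rw [hQ]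
          exact e2
        linarith
      refine le_trans ?_ n3
      show |eval q (F (z w.1) + C (eval (x (z w.1)) (J (z w.1)) - eval (x (z w.1)) (F (z w.1)))) -
        eval q (F (z w.2) + C (eval (x (z w.2)) (J (z w.2)) - eval (x (z w.2)) (F (z w.2))))| ≤ _
      rw [map_add, map_add, eval_C, eval_C]
      obtain ⟨K21, K22⟩ := abs_le.1 k2
      obtain ⟨K31, K32⟩ := abs_le.1 k3
      obtain ⟨K41, K42⟩ := abs_le.1 (k4.trans n1)
      obtain ⟨K51, K52⟩ := abs_le.1 (k5.trans n1)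
      obtain ⟨K61, K62⟩ := abs_le.1 k6
      exact abs_le.2 ⟨by linarith, by linarith⟩
    · rw [← hr]
      have h1 : 3 * cs + 3 * (cs + cs + r) + 3 * (3 * (W * (2 * cs + r + c))) ≤
          (9 + 18 * W) * (cs + r + c) := by
        have h2 : 0 ≤ W * r := by positivity
        have h3 : 0 ≤ W * c := by positivity
        have h4 : (9 + 18 * W) * (cs + r + c) - (3 * cs + 3 * (cs + cs + r) +
          3 * (3 * (W * (2 * cs + r + c)))) = 6 * r + 9 * c + 9 * (W * r) + 9 * (W * c) := by ring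
        linarith
      refine h1.trans (mul_le_mul_of_nonneg_right ?_ (by linarith))
      rw [hA]
      linarith

end Pool.STB6
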