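import Pool.Agent.H6.STB.EjA
import Pool.Agent.H6.STB.Core2

/-!
# Reading along a line, the gradient, and polynomials which vanish at their positions
-/

set_option autoImplicit false

namespace Pool.STB6

open Finset Real MvPolynomial
open Pool.Agent.H49.Ent Pool.Agent.H32.Dense Pool.STK
open Pool.BFL (Pb)
open Pool.STB (V3 Po Bx ln ln_eval ln_deg Pb_mono Pb_or Pb_le2 glueLaw')

/-- **Reading a polynomial of one variable at a fresh time of the line.** -/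
theorem rd1 (N : ℕ) : ∃ Cr : ℕ, 1 ≤ Cr ∧ ∀ (Ω Λ : Type) [Fintype Ω] (p : Ω → ℝ) (L : Ω → Λ)
    (t : Ω → ℤ) (g : Ω → Polynomial ℝ) (M : ℕ) (e ρ δ c₁ : ℝ), IsLaw p → 1 ≤ M → 0 < ρ → ρ < 1 →
    (Cr : ℝ) ≤ ρ ^ Cr * (2 * M + 1) → (∀ ω, 0 < p ω → |t ω| ≤ (M : ℤ)) →
    Real.log (2 * M + 1) - e ≤ CH p t L → (∀ ω, (g ω).natDegree ≤ N) →
    Pb (glue p p L L) (fun w => ¬ |(g w.1).eval ((t w.2 : ℝ) / M)| ≤ δ) ≤ c₁ →
    Pb p (fun ω => ¬ ∀ s : ℝ, |s| ≤ 1 → |(g ω).eval s| ≤ Cr * (1 / ρ) ^ Cr * δ) ≤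
      c₁ + (e + Real.log 2) / Real.log (1 / ρ) := by
  classical
  obtain ⟨Cr, hCr, hr⟩ := read_mv 1 N
  refine ⟨Cr, hCr, ?_⟩
  intro Ω Λ _ p L t g M e ρ δ c₁ hp hM hρ hρ1 hCM htM hfull hg hE
  have p0 := hp.nonneg
  have hl : 0 < Real.log (1 / ρ) := Real.log_pos (by rw [lt_div_iff₀ hρ]; linarith)
  have gl := glueLaw' hp hp (X := L) (Y := L) fun _ => rfl
  have g0 := gl.nonneg
  have hf : Real.log (2 * M + 1) - e ≤ CH (glue p p L L) (fun w => fun _ : Fin 1 => t w.2)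
      (fun w => w.1) := by
    have a1 := Pool.DY1.CH_glue (Z₁ := L) (Z₂ := L) (A := fun w : Ω => w) p0 p0 (fun _ => rfl)
      (fun w w' _ _ h => by
        have h' : w = w' := h
        rw [h']) t
    have a2 : CH (glue p p L L) (fun w => t w.2) (fun w => w.1) =
        CH (glue p p L L) (fun w => fun _ : Fin 1 => t w.2) (fun w => w.1) :=
      CH_congr g0 (fun w w' _ _ h => funext fun _ => (Prod.ext_iff.1 h).1)
        (fun w w' _ _ h => congrFun (Prod.ext_iff.1 h).1 0) (fun _ _ _ _ h => h)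
        (fun _ _ _ _ h => h)
    linarith
  have h1 := hr (Ω × Ω) Ω (glue p p L L) (fun w => w.1) M (fun w => fun _ => t w.2)
    (fun ω => m1 (g ω)) (fun _ => δ) (fun w => |(g w.1).eval ((t w.2 : ℝ) / M)| ≤ δ) e ρ 1 gl hM hρ
    hρ1.le hCM le_rfl (fun w hw _ => htM _ ((glue_pos_iff p0 p0 w).1 hw).2.1)
    (by rw [Nat.cast_one, one_mul]; exact hf) (fun w _ hw => ⟨fun i => (m1_deg _ i).trans (hg _), by
      rw [m1_eval]
      exact hw⟩)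
  rw [← le_div_iff₀ hl] at h1
  have h2 := Pb_or g0 (fun w => ¬ |(g w.1).eval ((t w.2 : ℝ) / M)| ≤ δ)
    (fun w => |(g w.1).eval ((t w.2 : ℝ) / M)| ≤ δ ∧ ∃ z : Fin 1 → ℝ, (∀ i, |z i| ≤ 1) ∧
      Cr * (1 / ρ) ^ Cr * δ < |eval z (m1 (g w.1))|)
  rw [← Pool.MIC.Marg.Pb_eq (marg_fst (Z₁ := L) (Z₂ := L) p0 fun _ => rfl)
    (fun ω => ¬ ∀ s : ℝ, |s| ≤ 1 → |(g ω).eval s| ≤ Cr * (1 / ρ) ^ Cr * δ)]
  refine (Pb_mono g0 fun w _ hn => ?_).trans (h2.trans (add_le_add hE h1))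
  by_cases h3 : |(g w.1).eval ((t w.2 : ℝ) / M)| ≤ δ
  · right
    refine ⟨h3, ?_⟩
    push Not at hn
    obtain ⟨s, hs, hs'⟩ := hn
    exact ⟨fun _ => s, fun _ => hs, by rw [m1_eval]; exact hs'⟩
  · exact Or.inl h3

/-- **The gradient of a closed polynomial**, from the path of its values. -/
theorem der (N : ℕ) : ∃ (Cr : ℕ) (B : ℝ), 1 ≤ Cr ∧ 1 ≤ B ∧ ∀ (Ω Λ Z : Type) [Fintype Ω]
    (p : Ω → ℝ) (L : Ω → Λ) (z : Ω → Z) (t : Ω → ℤ) (Xl : Λ → V3) (x : Z → V3) (x0 : Λ → V3)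
    (G : Z → Po) (P : Λ → Polynomial ℝ) (T : Z → V3) (M : ℕ) (K e η c U ρ δ c₁ c₂ : ℝ),
    IsLaw p → 1 ≤ M → 0 < η → η ≤ 1 → 0 < ρ → ρ < 1 → (Cr : ℝ) ≤ ρ ^ Cr * (2 * M + 1) →
    (∀ ω, 0 < p ω → |t ω| ≤ (M : ℤ)) → Real.log (2 * M + 1) - e ≤ CH p t L →
    (∀ l, Bx 1 (Xl l)) → (∀ r, Bx 1 (x r)) → 
    (∀ ω, 0 < p ω → Bx (K / M) (x (z ω) - x0 (L ω) - ((t ω : ℝ) / M) • Xl (L ω))) →
    K / M ≤ 1 → (∀ H : Z → V3, (∀ r, Bx 1 (H r) ∧ ∃ i, |H r i| = 1) →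
      Pb p (fun ω => |∑ i, H (z ω) i * Xl (L ω) i| ≤ η) ≤ c) →
    (∀ r, (G r).totalDegree ≤ N) → (∀ l, (P l).natDegree ≤ N) →
    (∀ r q, Bx 1 q → |eval q (G r)| ≤ U) → 0 ≤ δ → U * (K / M) ≤ δ →
    Pb (glue p p L L) (fun w => ¬ |eval (x (z w.2)) (G (z w.1)) -
      (P (L w.1)).eval ((t w.2 : ℝ) / M)| ≤ δ) ≤ c₁ →
    Pb p (fun ω => ¬ |(P (L ω)).derivative.eval ((t ω : ℝ) / M) -
      ∑ k, T (z ω) k * Xl (L ω) k| ≤ δ) ≤ c₂ →
    Pb p (fun ω => ¬ ∀ s : ℝ, |s| ≤ 1 → |eval (x0 (L ω) + s • Xl (L ω)) (G (z ω)) -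
      (P (L ω)).eval s| ≤ B * (1 / ρ) ^ Cr * δ) ≤ c₁ + (e + Real.log 2) / Real.log (1 / ρ) ∧
    Pb p (fun ω => ¬ ∀ k, |eval (x (z ω)) (pderiv k (G (z ω))) - T (z ω) k| ≤
      B * (1 / ρ) ^ Cr / η * δ) ≤ c₁ + c₂ + (e + Real.log 2) / Real.log (1 / ρ) + c := by
  classical
  obtain ⟨Cr, hCr, hr⟩ := rd1 N
  obtain ⟨B₁, hB₁, hb⟩ := bdx N
  obtain ⟨B₂, hB₂, hm⟩ := mk1 N
  have hCr0 : (1 : ℝ) ≤ Cr := by exact_mod_cast hCr
  refine ⟨Cr, B₂ * (Cr * (1 + 3 * B₁)) + 9 * B₁ ^ 2 + 1, hCr, by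
    have : (0 : ℝ) ≤ B₂ * (Cr * (1 + 3 * B₁)) + 9 * B₁ ^ 2 := by positivity
    linarith, ?_⟩
  intro Ω Λ Z _ p L z t Xl x x0 G P T M K e η c U ρ δ c₁ c₂ hp hM hη hη1 hρ hρ1 hCM htM hfull hX hx
    hpos hKM hgp hG hP hU hδ hUδ hE1 hE2
  have p0 := hp.nonneg
  have hM0 : (0 : ℝ) < M := by exact_mod_cast hM
  have gl := glueLaw' hp hp (X := L) (Y := L) fun _ => rfl
  have g0 := gl.nonneg
  have hρC : 1 ≤ (1 / ρ) ^ Cr := one_le_pow₀ (by rw [le_div_iff₀ hρ]; linarith)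
  have htM' : ∀ ω, 0 < p ω → |(t ω : ℝ) / M| ≤ 1 := fun ω hω => by
    rw [abs_div, abs_of_pos hM0]
    refine (div_le_one hM0).2 ?_
    exact_mod_cast htM ω hω
  have hx0 : ∀ ω, 0 < p ω → Bx 3 (x0 (L ω)) := by
    intro ω hω i
    have h1 := hpos ω hω i
    rw [Pi.sub_apply, Pi.sub_apply, Pi.smul_apply, smul_eq_mul] at h1
    have h2 := hx (z ω) i
    have h3 : |(t ω : ℝ) / M * Xl (L ω) i| ≤ 1 := by
      rw [abs_mul]
      have := htM' ω hω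
      have := hX (L ω) i
      nlinarith [abs_nonneg ((t ω : ℝ) / M), abs_nonneg (Xl (L ω) i)]
    obtain ⟨A1, A2⟩ := abs_le.1 h1
    obtain ⟨B1, B2⟩ := abs_le.1 h2
    obtain ⟨C1, C2⟩ := abs_le.1 h3
    exact abs_le.2 ⟨by linarith, by linarith⟩
  have hpt : ∀ ω, 0 < p ω → ∀ s : ℝ, |s| ≤ 1 → Bx 8 (x0 (L ω) + s • Xl (L ω)) := by
    intro ω hω s hs i
    have h1 := hx0 ω hω i
    rw [Pi.add_apply, Pi.smul_apply, smul_eq_mul]
    have h3 : |s * Xl (L ω) i| ≤ 1 := by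
      rw [abs_mul]
      have := hX (L ω) i
      nlinarith [abs_nonneg s, abs_nonneg (Xl (L ω) i)]
    exact (abs_add_le _ _).trans (by linarith)
  have hx8 : ∀ r, Bx 8 (x r) := fun r i => (hx r i).trans (by norm_num)
  have hnear : ∀ (Q : Po) (D : ℝ), (∀ (j : Fin 3) (q : V3), Bx 8 q → |eval q (pderiv j Q)| ≤ D) →
      ∀ ω, 0 < p ω → |eval (x (z ω)) Q - eval (x0 (L ω) + ((t ω : ℝ) / M) • Xl (L ω)) Q| ≤
        3 * (D * (K / M)) := by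
    intro Q D hD ω hω
    refine mv3 (hx8 _) (hpt ω hω _ (htM' ω hω)) hD ?_
    have h1 := hpos ω hω
    rwa [sub_sub] at h1
  have hU0 : 0 ≤ U := by
    obtain ⟨ω, hω⟩ : ∃ ω, 0 < p ω := by
      by_contra hcon
      push Not at hcon
      have h1 := hp.sum_one
      rw [Finset.sum_eq_zero fun ω _ => le_antisymm (hcon ω) (p0 ω)] at h1
      exact zero_ne_one h1
    exact (abs_nonneg _).trans (hU (z ω) 0 fun i => by simp)
  -- reading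
  have hE1' : Pb (glue p p L L) (fun w => ¬ |((ln (x0 (L w.1)) (Xl (L w.1)) (G (z w.1)) -
      P (L w.1))).eval ((t w.2 : ℝ) / M)| ≤ (1 + 3 * B₁) * δ) ≤ c₁ := by
    refine (Pb_mono g0 fun w hw hn h => hn ?_).trans hE1
    obtain ⟨w1, w2, w3⟩ := (glue_pos_iff p0 p0 w).1 hw
    rw [Polynomial.eval_sub, ln_ev, w3]
    have h1 := hnear (G (z w.1)) (B₁ * U) (hb (G (z w.1)) U (hG _) (hU _)).2 w.2 w2
    rw [w3] at h
    have h2 : 3 * (B₁ * U * (K / M)) ≤ 3 * B₁ * δ := by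
      have := mul_le_mul_of_nonneg_left hUδ (show 0 ≤ 3 * B₁ by linarith)
      linarith
    obtain ⟨A1, A2⟩ := abs_le.1 h1
    obtain ⟨D1, D2⟩ := abs_le.1 h
    exact abs_le.2 ⟨by linarith, by linarith⟩
  have h1 := hr Ω Λ p L t (fun ω => ln (x0 (L ω)) (Xl (L ω)) (G (z ω)) - P (L ω)) M e ρ
    ((1 + 3 * B₁) * δ) c₁ hp hM hρ hρ1 hCM htM hfull (fun ω =>
      (Polynomial.natDegree_sub_le _ _).trans (max_le (ln_deg _ _ (hG _)) (hP _))) hE1'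
  obtain ⟨D₁, hD₁⟩ : ∃ D₁ : ℝ, D₁ = Cr * (1 / ρ) ^ Cr * ((1 + 3 * B₁) * δ) := ⟨_, rfl⟩
  rw [← hD₁] at h1
  have hD0 : 0 ≤ D₁ := by rw [hD₁]; positivity
  have hρ0 : 0 ≤ (1 / ρ) ^ Cr := by linarith
  constructor
  · refine (Pb_mono p0 fun ω hω hn h => hn fun s hs => ?_).trans h1
    have h2 := h s hs
    rw [Polynomial.eval_sub, ln_ev] at h2
    refine h2.trans ?_
    rw [hD₁]
    have h3 : (Cr : ℝ) * (1 / ρ) ^ Cr * ((1 + 3 * B₁) * δ) =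
      Cr * (1 + 3 * B₁) * ((1 / ρ) ^ Cr * δ) := by ring
    have h4 : (B₂ * (Cr * (1 + 3 * B₁)) + 9 * B₁ ^ 2 + 1) * (1 / ρ) ^ Cr * δ =
      B₂ * (Cr * (1 + 3 * B₁)) * ((1 / ρ) ^ Cr * δ) + (9 * B₁ ^ 2 + 1) * ((1 / ρ) ^ Cr * δ) := by
      ring
    rw [h3, h4]
    have h5 : 0 ≤ (1 / ρ) ^ Cr * δ := by positivity
    have h6 : (Cr : ℝ) * (1 + 3 * B₁) ≤ B₂ * (Cr * (1 + 3 * B₁)) :=
      le_mul_of_one_le_left (by positivity) hB₂
    have h7 := mul_le_mul_of_nonneg_right h6 h5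
    have h8 : 0 ≤ (9 * B₁ ^ 2 + 1) * ((1 / ρ) ^ Cr * δ) := by positivity
    linarith
  -- the gradient in the direction of the line
  obtain ⟨Δ, hΔ⟩ : ∃ Δ : Z → V3, Δ = fun r k =>
    if ∃ ω, 0 < p ω ∧ z ω = r then eval (x r) (pderiv k (G r)) - T r k else 0 := ⟨_, rfl⟩
  have hΔe : ∀ ω, 0 < p ω → ∀ k, Δ (z ω) k = eval (x (z ω)) (pderiv k (G (z ω))) - T (z ω) k := by
    intro ω hω k
    rw [hΔ]
    exact if_pos ⟨ω, hω, rfl⟩
  obtain ⟨D₂, hD₂⟩ : ∃ D₂ : ℝ, D₂ = B₂ * D₁ + 9 * B₁ ^ 2 * δ + δ := ⟨_, rfl⟩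
  have hdir : Pb p (fun ω => ¬ |∑ k, Δ (z ω) k * Xl (L ω) k| ≤ D₂) ≤
      c₁ + (e + Real.log 2) / Real.log (1 / ρ) + c₂ := by
    refine (Pb_le2 p0 (B := fun ω => ¬ ∀ s : ℝ, |s| ≤ 1 →
      |(ln (x0 (L ω)) (Xl (L ω)) (G (z ω)) - P (L ω)).eval s| ≤ D₁)
      (C := fun ω => ¬ |(P (L ω)).derivative.eval ((t ω : ℝ) / M) -
        ∑ k, T (z ω) k * Xl (L ω) k| ≤ δ) fun ω hω a1 a2 hn => hn ?_).trans (add_le_add h1 hE2)
    rw [not_not] at a1 a2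
    have a3 := hm _ D₁ ((Polynomial.natDegree_sub_le _ _).trans (max_le (ln_deg _ _ (hG _)) (hP _)))
      a1 ((t ω : ℝ) / M) (htM' ω hω)
    rw [Polynomial.derivative_sub, Polynomial.eval_sub, ln_dev] at a3
    have a4 : ∀ k, |eval (x (z ω)) (pderiv k (G (z ω))) -
        eval (x0 (L ω) + ((t ω : ℝ) / M) • Xl (L ω)) (pderiv k (G (z ω)))| ≤ 3 * B₁ ^ 2 * δ := by
      intro k
      have b1 := (hb (G (z ω)) U (hG _) (hU _)).2 k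
      have b2 := (hb (pderiv k (G (z ω))) (B₁ * U) (tdp' (hG _) k) (fun q hq =>
        b1 q fun i => (hq i).trans (by norm_num))).2
      have b3 := hnear (pderiv k (G (z ω))) (B₁ * (B₁ * U)) b2 ω hω
      refine b3.trans ?_
      have := mul_le_mul_of_nonneg_left hUδ (show 0 ≤ 3 * B₁ ^ 2 by positivity)
      linarith
    have a5 : ∑ k, Δ (z ω) k * Xl (L ω) k = (∑ k, Xl (L ω) k *
        eval (x0 (L ω) + ((t ω : ℝ) / M) • Xl (L ω)) (pderiv k (G (z ω))) -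
          (P (L ω)).derivative.eval ((t ω : ℝ) / M)) +
        ((P (L ω)).derivative.eval ((t ω : ℝ) / M) - ∑ k, T (z ω) k * Xl (L ω) k) +
        ∑ k, (eval (x (z ω)) (pderiv k (G (z ω))) -
          eval (x0 (L ω) + ((t ω : ℝ) / M) • Xl (L ω)) (pderiv k (G (z ω)))) * Xl (L ω) k := by
      rw [Finset.sum_congr rfl fun k _ => by rw [hΔe ω hω k]]
      simp only [sub_mul, Finset.sum_sub_distrib]
      have : ∑ k, Xl (L ω) k *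
        eval (x0 (L ω) + ((t ω : ℝ) / M) • Xl (L ω)) (pderiv k (G (z ω))) = ∑ k,
        eval (x0 (L ω) + ((t ω : ℝ) / M) • Xl (L ω)) (pderiv k (G (z ω))) * Xl (L ω) k :=
        Finset.sum_congr rfl fun k _ => mul_comm _ _
      rw [this]
      ring
    have a6 : |∑ k, (eval (x (z ω)) (pderiv k (G (z ω))) -
          eval (x0 (L ω) + ((t ω : ℝ) / M) • Xl (L ω)) (pderiv k (G (z ω)))) * Xl (L ω) k| ≤
        9 * B₁ ^ 2 * δ := by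
      refine (Finset.abs_sum_le_sum_abs _ _).trans ?_
      have b1 : ∀ k ∈ (univ : Finset (Fin 3)), |(eval (x (z ω)) (pderiv k (G (z ω))) -
          eval (x0 (L ω) + ((t ω : ℝ) / M) • Xl (L ω)) (pderiv k (G (z ω)))) * Xl (L ω) k| ≤
          3 * B₁ ^ 2 * δ := by
        intro k _
        rw [abs_mul]
        have b2 := a4 k
        have b3 := hX (L ω) k
        calc _ ≤ 3 * B₁ ^ 2 * δ * 1 := mul_le_mul b2 b3 (abs_nonneg _) (by positivity)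
          _ = _ := mul_one _
      refine (Finset.sum_le_sum b1).trans (le_of_eq ?_)
      rw [Finset.sum_const, Finset.card_univ, Fintype.card_fin, nsmul_eq_mul]
      push_cast
      ring
    rw [a5, hD₂]
    refine (abs_add_le _ _).trans (add_le_add ((abs_add_le _ _).trans (add_le_add a3 a2)) a6 |>.trans
      (le_of_eq (by ring)))
  -- the direction of the error
  obtain ⟨mx, hmx⟩ : ∃ mx : Z → Fin 3, ∀ r k, |Δ r k| ≤ |Δ r (mx r)| := by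
    have h2 : ∀ r : Z, ∃ i : Fin 3, ∀ k, |Δ r k| ≤ |Δ r i| := by
      intro r
      obtain ⟨i, _, hi⟩ := Finset.exists_max_image (univ : Finset (Fin 3)) (fun k => |Δ r k|)
        ⟨0, Finset.mem_univ _⟩
      exact ⟨i, fun k => hi k (Finset.mem_univ _)⟩
    exact ⟨fun r => (h2 r).choose, fun r => (h2 r).choose_spec⟩
  obtain ⟨H, hH⟩ : ∃ H : Z → V3, H = fun r k => if Δ r (mx r) = 0 then 1 else
    Δ r k / Δ r (mx r) := ⟨_, rfl⟩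
  have hH1 : ∀ r, Bx 1 (H r) ∧ ∃ i, |H r i| = 1 := by
    intro r
    by_cases h0 : Δ r (mx r) = 0
    · refine ⟨fun i => ?_, 0, ?_⟩
      · rw [hH]
        show |if Δ r (mx r) = 0 then (1 : ℝ) else _| ≤ 1
        rw [if_pos h0, abs_one]
      · rw [hH]
        show |if Δ r (mx r) = 0 then (1 : ℝ) else _| = 1
        rw [if_pos h0, abs_one]
    · refine ⟨fun i => ?_, mx r, ?_⟩
      · rw [hH]
        show |if Δ r (mx r) = 0 then (1 : ℝ) else _| ≤ 1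
        rw [if_neg h0, abs_div]
        exact (div_le_one (abs_pos.2 h0)).2 (hmx r i)
      · rw [hH]
        show |if Δ r (mx r) = 0 then (1 : ℝ) else _| = 1
        rw [if_neg h0, div_self h0, abs_one]
  have h3 := hgp H hH1
  have h4 := Pb_le2 p0 (A := fun ω => ¬ ∀ k, |eval (x (z ω)) (pderiv k (G (z ω))) - T (z ω) k| ≤
      (B₂ * (Cr * (1 + 3 * B₁)) + 9 * B₁ ^ 2 + 1) * (1 / ρ) ^ Cr / η * δ)
    (B := fun ω => ¬ |∑ k, Δ (z ω) k * Xl (L ω) k| ≤ D₂)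
    (C := fun ω => |∑ i, H (z ω) i * Xl (L ω) i| ≤ η) fun ω hω a1 a2 hn => ?_
  · refine h4.trans ?_
    linarith
  rw [not_not] at a1
  rw [not_le] at a2
  refine hn fun k => ?_
  rw [← hΔe ω hω k]
  have hb1 : |Δ (z ω) (mx (z ω))| * η ≤ D₂ := by
    by_cases h0 : Δ (z ω) (mx (z ω)) = 0
    · rw [h0, abs_zero, zero_mul]
      exact (abs_nonneg _).trans a1
    · have e1 : ∑ k, Δ (z ω) k * Xl (L ω) k =
          Δ (z ω) (mx (z ω)) * ∑ i, H (z ω) i * Xl (L ω) i := by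
        rw [Finset.mul_sum]
        refine Finset.sum_congr rfl fun i _ => ?_
        rw [hH]
        show _ = Δ (z ω) (mx (z ω)) * ((if Δ (z ω) (mx (z ω)) = 0 then (1 : ℝ) else
          Δ (z ω) i / Δ (z ω) (mx (z ω))) * Xl (L ω) i)
        rw [if_neg h0]
        field_simp
      rw [e1, abs_mul] at a1
      exact (mul_le_mul_of_nonneg_left a2.le (abs_nonneg _)).trans a1
  have hb2 : D₂ ≤ (B₂ * (Cr * (1 + 3 * B₁)) + 9 * B₁ ^ 2 + 1) * (1 / ρ) ^ Cr * δ := by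
    rw [hD₂, hD₁]
    have h5 : (9 * B₁ ^ 2 + 1) * δ ≤ (9 * B₁ ^ 2 + 1) * ((1 / ρ) ^ Cr * δ) :=
      mul_le_mul_of_nonneg_left (le_mul_of_one_le_left hδ hρC) (by positivity)
    have h6 : B₂ * (Cr * (1 / ρ) ^ Cr * ((1 + 3 * B₁) * δ)) =
      B₂ * (Cr * (1 + 3 * B₁)) * ((1 / ρ) ^ Cr * δ) := by ring
    have h7 : (B₂ * (Cr * (1 + 3 * B₁)) + 9 * B₁ ^ 2 + 1) * (1 / ρ) ^ Cr * δ =
      B₂ * (Cr * (1 + 3 * B₁)) * ((1 / ρ) ^ Cr * δ) + (9 * B₁ ^ 2 + 1) * ((1 / ρ) ^ Cr * δ) := by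
      ring
    rw [h6, h7]
    linarith
  refine (hmx (z ω) k).trans ?_
  have hb3 : |Δ (z ω) (mx (z ω))| ≤ D₂ / η := by
    rw [le_div_iff₀ hη]
    exact hb1
  refine hb3.trans ((div_le_div_of_nonneg_right hb2 hη.le).trans (le_of_eq ?_))
  ring

end Pool.STB6
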