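import Pool.Agent.H6.STB.EjR

/-!
# A closed polynomial which vanishes at its positions
-/

set_option autoImplicit false

namespace Pool.STB6

open Finset Real MvPolynomial
open Pool.Agent.H49.Ent Pool.Agent.H32.Dense Pool.STK
open Pool.BFL (Pb)
open Pool.STB (V3 Po Bx ln ln_eval ln_deg Pb_mono Pb_or Pb_le2 glueLaw')

theorem Pb_zero {Ω : Type} [Fintype Ω] (p : Ω → ℝ) {A : Ω → Prop} (h : ∀ ω, 0 < p ω → ¬ A ω)
    (p0 : ∀ ω, 0 ≤ p ω) : Pb p A = 0 := by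
  classical
  unfold Pb
  refine Finset.sum_eq_zero fun ω _ => ?_
  by_cases hA : A ω
  · rw [if_pos hA]
    by_contra hne
    exact h ω (lt_of_le_of_ne (p0 ω) (Ne.symm hne)) hA
  · rw [if_neg hA]

theorem Pb_nn {Ω : Type} [Fintype Ω] {p : Ω → ℝ} (p0 : ∀ ω, 0 ≤ p ω) (A : Ω → Prop) :
    0 ≤ Pb p A := by
  classical
  unfold Pb
  refine Finset.sum_nonneg fun ω _ => ?_
  split_ifs
  · exact p0 ω
  · exact le_rfl

/-- Events indexed by the three coordinates. -/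
theorem Pb_or3 {Ω : Type} [Fintype Ω] {p : Ω → ℝ} (p0 : ∀ ω, 0 ≤ p ω) (A : Fin 3 → Ω → Prop)
    {a : ℝ} (h : ∀ k, Pb p (A k) ≤ a) : Pb p (fun ω => ∃ k, A k ω) ≤ 3 * a := by
  have h1 := Pb_or p0 (A 0) (A 1)
  have h2 := Pb_or p0 (fun ω => A 0 ω ∨ A 1 ω) (A 2)
  refine (Pb_mono p0 fun ω _ hn => ?_).trans (h2.trans ?_)
  · obtain ⟨k, hk⟩ := hn
    fin_cases k
    · exact Or.inl (Or.inl hk)
    · exact Or.inl (Or.inr hk)
    · exact Or.inr hk
  · have := h 0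
    have := h 1
    have := h 2
    linarith

/-- **A closed polynomial which vanishes at its positions vanishes on the box.** -/
theorem van (Nm : ℕ) : ∃ (Cr : ℕ) (B : ℝ), 1 ≤ Cr ∧ 1 ≤ B ∧ ∀ (Ω Λ Z : Type) [Fintype Ω]
    (p : Ω → ℝ) (L : Ω → Λ) (z : Ω → Z) (t : Ω → ℤ) (Xl : Λ → V3) (x : Z → V3) (x0 : Λ → V3)
    (M : ℕ) (K e η c ρ : ℝ),
    IsLaw p → 1 ≤ M → 0 < η → η ≤ 1 → 0 < ρ → ρ < 1 → (Cr : ℝ) ≤ ρ ^ Cr * (2 * M + 1) →
    (∀ ω, 0 < p ω → |t ω| ≤ (M : ℤ)) → Real.log (2 * M + 1) - e ≤ CH p t L →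
    (∀ l, Bx 1 (Xl l)) → (∀ r, Bx 1 (x r)) →
    (∀ ω, 0 < p ω → Bx (K / M) (x (z ω) - x0 (L ω) - ((t ω : ℝ) / M) • Xl (L ω))) →
    K / M ≤ 1 → (∀ H : Z → V3, (∀ r, Bx 1 (H r) ∧ ∃ i, |H r i| = 1) →
      Pb p (fun ω => |∑ i, H (z ω) i * Xl (L ω) i| ≤ η) ≤ c) → 0 ≤ K → 0 ≤ e →
    ∀ n, n ≤ Nm → ∀ (G : Z → Po) (U δ c₁ c₂ : ℝ), (∀ r, (G r).totalDegree ≤ n) →
    (∀ r q, Bx 1 q → |eval q (G r)| ≤ U) → 0 ≤ δ → U * (K / M) ≤ δ →
    Pb p (fun ω => ¬ |eval (x (z ω)) (G (z ω))| ≤ δ) ≤ c₁ →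
    Pb (glue p p L L) (fun w => ¬ ∀ q, Bx 1 q →
      |eval q (G (z w.1)) - eval q (G (z w.2))| ≤ δ) ≤ c₂ →
    Pb p (fun ω => ¬ ∀ q, Bx 1 q → |eval q (G (z ω))| ≤ (B * (1 / ρ) ^ Cr / η) ^ n * δ) ≤
      4 ^ n * (c₁ + n * (c₂ + (e + Real.log 2) / Real.log (1 / ρ) + c)) := by
  classical
  obtain ⟨Cr, B₀, hCr, hB₀, hd⟩ := der Nm
  obtain ⟨B₁, hB₁, hb⟩ := bdx Nm
  refine ⟨Cr, 14 * B₀ * B₁, hCr, by nlinarith, ?_⟩
  intro Ω Λ Z _ p L z t Xl x x0 M K e η c ρ hp hM hη hη1 hρ hρ1 hCM htM hfull hX hx hpos hKM hgp hK he n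
  have p0 := hp.nonneg
  have hM0 : (0 : ℝ) < M := by exact_mod_cast hM
  have gl := glueLaw' hp hp (X := L) (Y := L) fun _ => rfl
  have g0 := gl.nonneg
  have hρC : 1 ≤ (1 / ρ) ^ Cr := one_le_pow₀ (by rw [le_div_iff₀ hρ]; linarith)
  have hρC0 : 0 ≤ (1 / ρ) ^ Cr := by linarith
  induction n with
  | zero =>
    intro _ G U δ c₁ c₂ hG hU hδ _ h1 _
    have e1 : (4 : ℝ) ^ 0 * (c₁ + (0 : ℕ) * (c₂ + (e + Real.log 2) / Real.log (1 / ρ) + c)) = c₁ := by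
      rw [pow_zero, Nat.cast_zero, zero_mul, add_zero, one_mul]
    rw [e1, pow_zero, one_mul]
    refine (Pb_mono p0 fun ω _ hn h => hn fun q _ => ?_).trans h1
    have h2 : G (z ω) = C (coeff 0 (G (z ω))) :=
      totalDegree_eq_zero_iff_eq_C.1 (Nat.le_zero.1 (hG _))
    rw [h2, eval_C] at h
    rw [h2, eval_C]
    exact h
  | succ n ih =>
    intro hn G U δ c₁ c₂ hG hU hδ hUδ h1 h2
    have hGN : ∀ r, (G r).totalDegree ≤ Nm := fun r => (hG r).trans hn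
    obtain ⟨r, hr⟩ : ∃ r : ℝ, r = (e + Real.log 2) / Real.log (1 / ρ) := ⟨_, rfl⟩
    obtain ⟨A₁, hA₁⟩ : ∃ A₁ : ℝ, A₁ = 2 * B₀ * B₁ * (1 / ρ) ^ Cr / η := ⟨_, rfl⟩
    have hη1' : 1 ≤ 1 / η := by rw [le_div_iff₀ hη]; linarith
    have hA₁B : B₁ ≤ A₁ := by
      rw [hA₁, mul_div_assoc]
      have h3 : 1 ≤ (1 / ρ) ^ Cr / η := by
        rw [le_div_iff₀ hη]
        linarith
      have h4 : B₁ ≤ 2 * B₀ * B₁ := by nlinarith
      exact h4.trans (le_mul_of_one_le_right (by positivity) h3)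
    have hA₁0 : 0 ≤ A₁ := by linarith
    -- the derivatives at the positions
    have hE1 : Pb (glue p p L L) (fun w => ¬ |eval (x (z w.2)) (G (z w.1)) -
        (0 : Polynomial ℝ).eval ((t w.2 : ℝ) / M)| ≤ 2 * δ) ≤ c₁ + c₂ := by
      have h3 := Pb_le2 g0 (A := fun w => ¬ |eval (x (z w.2)) (G (z w.1)) -
        (0 : Polynomial ℝ).eval ((t w.2 : ℝ) / M)| ≤ 2 * δ)
        (B := fun w => ¬ |eval (x (z w.2)) (G (z w.2))| ≤ δ)
        (C := fun w => ¬ ∀ q, Bx 1 q → |eval q (G (z w.1)) - eval q (G (z w.2))| ≤ δ)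
        fun w _ a1 a2 hn => hn ?_
      · refine h3.trans (add_le_add ?_ h2)
        rw [Pool.MIC.Marg.Pb_eq (marg_snd (Z₁ := L) (Z₂ := L) p0 fun _ => rfl)
          (fun ω => ¬ |eval (x (z ω)) (G (z ω))| ≤ δ)]
        exact h1
      · rw [not_not] at a1 a2
        rw [Polynomial.eval_zero, sub_zero]
        have a3 := a2 _ (hx (z w.2))
        obtain ⟨C1, C2⟩ := abs_le.1 a1
        obtain ⟨D1, D2⟩ := abs_le.1 a3
        exact abs_le.2 ⟨by linarith, by linarith⟩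
    have h3 := (hd Ω Λ Z p L z t Xl x x0 G (fun _ => 0) (fun _ => 0) M K e η c U ρ (2 * δ) (c₁ + c₂)
      0 hp hM hη hη1 hρ hρ1 hCM htM hfull hX hx hpos hKM hgp hGN (fun _ => by simp) hU
      (by linarith) (by linarith) hE1 (le_of_eq (Pb_zero p (fun ω _ hn => hn (by
        simp only [Polynomial.derivative_zero, Polynomial.eval_zero, Pi.zero_apply, zero_mul,
          Finset.sum_const_zero, sub_self, abs_zero]
        linarith)) p0))).2
    rw [← hr] at h3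
    -- the derivatives on the box
    have h4 : ∀ k, Pb p (fun ω => ¬ ∀ q, Bx 1 q → |eval q (pderiv k (G (z ω)))| ≤
        (14 * B₀ * B₁ * (1 / ρ) ^ Cr / η) ^ n * (A₁ * δ)) ≤
        4 ^ n * (c₁ + c₂ + 0 + r + c + n * (c₂ + r + c)) := by
      intro k
      rw [hr]
      refine ih (by omega) (fun s => pderiv k (G s)) (B₁ * U) (A₁ * δ) _ c₂ (fun s => tdp (hG s) k)
        (fun s q hq => (hb (G s) U (hGN s) (hU s)).2 k q fun i => (hq i).trans (by norm_num))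
        (by positivity) ?_ ?_ ?_
      · have := mul_le_mul_of_nonneg_left hUδ (show 0 ≤ B₁ by linarith)
        have h5 := mul_le_mul_of_nonneg_right hA₁B hδ
        linarith
      · rw [← hr]
        refine (Pb_mono p0 fun ω _ hn h => hn ?_).trans h3
        have h5 := h k
        rw [Pi.zero_apply, sub_zero] at h5
        refine h5.trans ?_
        rw [hA₁]
        have h6 : B₀ * (1 / ρ) ^ Cr / η * (2 * δ) = 1 * (2 * B₀ * ((1 / ρ) ^ Cr / η) * δ) := by ring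
        have h7 : 2 * B₀ * B₁ * (1 / ρ) ^ Cr / η * δ = B₁ * (2 * B₀ * ((1 / ρ) ^ Cr / η) * δ) := by
          ring
        rw [h6, h7]
        exact mul_le_mul_of_nonneg_right hB₁ (by positivity)
      · refine (Pb_mono g0 fun w _ hn h => hn fun q hq => ?_).trans h2
        have h5 := (hb (G (z w.1) - G (z w.2)) δ ((totalDegree_sub _ _).trans
          (max_le (hGN _) (hGN _))) (fun q hq => by
            rw [map_sub]
            exact h q hq)).2 k q fun i => (hq i).trans (by norm_num)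
        rw [map_sub, map_sub] at h5
        exact h5.trans (mul_le_mul_of_nonneg_right hA₁B hδ)
    have h5 := Pb_or3 p0 (fun k ω => ¬ ∀ q, Bx 1 q → |eval q (pderiv k (G (z ω)))| ≤
        (14 * B₀ * B₁ * (1 / ρ) ^ Cr / η) ^ n * (A₁ * δ)) h4
    have hc1 : 0 ≤ c₁ := (Pb_nn p0 _).trans h1
    have h6 := Pb_le2 p0 (A := fun ω => ¬ ∀ q, Bx 1 q → |eval q (G (z ω))| ≤
        (14 * B₀ * B₁ * (1 / ρ) ^ Cr / η) ^ (n + 1) * δ)
      (B := fun ω => ¬ |eval (x (z ω)) (G (z ω))| ≤ δ)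
      (C := fun ω => ∃ k, ¬ ∀ q, Bx 1 q → |eval q (pderiv k (G (z ω)))| ≤
        (14 * B₀ * B₁ * (1 / ρ) ^ Cr / η) ^ n * (A₁ * δ)) fun ω _ a1 a2 hn => hn fun q hq => ?_
    · refine h6.trans ((add_le_add h1 h5).trans ?_)
      push_cast
      rw [← hr, pow_succ]
      have h7 : c₁ ≤ 4 ^ n * c₁ := le_mul_of_one_le_left hc1 (one_le_pow₀ (by norm_num))
      have h8 : 0 ≤ 4 ^ n * (c₁ + (n + 1) * (c₂ + r + c)) := by
        have h9 := (Pb_nn p0 _).trans (h4 0)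
        have h10 : 4 ^ n * (c₁ + c₂ + 0 + r + c + n * (c₂ + r + c)) =
          4 ^ n * (c₁ + (n + 1) * (c₂ + r + c)) := by ring
        rwa [h10] at h9
      have h11 : c₁ + 3 * (4 ^ n * (c₁ + c₂ + 0 + r + c + n * (c₂ + r + c))) =
        c₁ + 3 * (4 ^ n * (c₁ + (n + 1) * (c₂ + r + c))) := by ring
      rw [h11]
      have hc2 : 0 ≤ c₂ := (Pb_nn g0 _).trans h2
      have hl : 0 < Real.log (1 / ρ) := Real.log_pos (by rw [lt_div_iff₀ hρ]; linarith)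
      have hr0 : 0 ≤ r := by
        have := Real.log_nonneg (show (1 : ℝ) ≤ 2 by norm_num)
        rw [hr]
        positivity
      have hc0 : 0 ≤ c := (Pb_nn p0 _).trans (hgp (fun _ => fun _ => 1) fun _ =>
        ⟨fun _ => by rw [abs_one], 0, by rw [abs_one]⟩)
      have h12 : 0 ≤ 4 ^ n * ((n + 1) * (c₂ + r + c)) := by positivity
      have h13 : 4 ^ n * 4 * (c₁ + (n + 1) * (c₂ + r + c)) - (c₁ + 3 * (4 ^ n * (c₁ + (n + 1) *
        (c₂ + r + c)))) = 4 ^ n * c₁ - c₁ + 4 ^ n * ((n + 1) * (c₂ + r + c)) := by ring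
      linarith
    · rw [not_not] at a1
      push Not at a2
      have a3 := mv3 (P := G (z ω)) (r := 1) (u := q) (w := x (z ω)) (ε := 2) hq (hx _)
        (fun j q' hq' => a2 j q' hq') (fun i => by
          rw [Pi.sub_apply]
          refine (abs_sub _ _).trans ?_
          have := hq i
          have := hx (z ω) i
          linarith)
      have a4 : (14 * B₀ * B₁ * (1 / ρ) ^ Cr / η) ^ (n + 1) * δ =
          (14 * B₀ * B₁ * (1 / ρ) ^ Cr / η) ^ n * (7 * (A₁ * δ)) := by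
        rw [pow_succ, hA₁]
        ring
      have hA1 : 1 ≤ 14 * B₀ * B₁ * (1 / ρ) ^ Cr / η := by
        have h3 : 1 ≤ (1 / ρ) ^ Cr / η := by
          rw [le_div_iff₀ hη]
          linarith
        have h4 : 1 ≤ 14 * B₀ * B₁ := by nlinarith
        rw [mul_div_assoc]
        nlinarith
      have a5 : δ ≤ (14 * B₀ * B₁ * (1 / ρ) ^ Cr / η) ^ n * (A₁ * δ) := by
        have h5 : 1 ≤ (14 * B₀ * B₁ * (1 / ρ) ^ Cr / η) ^ n := one_le_pow₀ hA1
        have h6 : δ ≤ A₁ * δ := le_mul_of_one_le_left hδ (hB₁.trans hA₁B)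
        exact h6.trans (le_mul_of_one_le_left (by positivity) h5)
      rw [a4]
      obtain ⟨C1, C2⟩ := abs_le.1 a1
      obtain ⟨D1, D2⟩ := abs_le.1 a3
      exact abs_le.2 ⟨by linarith, by linarith⟩

end Pool.STB6
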