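import Pool.Agent.H6.STB.Vbr
import Pool.Agent.H98.STB.VrF

/-!
# The numbers of the event of the class theorem, from the record

`vbn_vbt`: the frame `FrN` and the structure `VbN` for the data `vbt` at a record.
-/

set_option autoImplicit false

namespace Pool.STB6

open Finset Real MvPolynomial
open Pool.Agent.H49.Ent Pool.Agent.H32.Dense Pool.STK Pool.KA Pool.KSAT Pool.K2S Pool.PB Pool.S6C
open Pool.GEN Pool.CHT Pool.CHX Pool.D2F Pool.D2Con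
open Pool.STB (VbT VbN vbt FrN frn_num Po)
open Pool.STB82 (gjb gjb_le gjb_off)
open Pool.PKG (Kg RecG RecT KgQ)

/-- The rates. -/
theorem vbrt_ex {n b Cg ne C : ℕ} {A τ kr : ℝ} (hn : 0 < n) (hb : 1 ≤ b) (hA : 1 ≤ A)
    (hτ : 0 < τ) (hτ1 : τ ≤ 1) (hkr : 0 < kr) :
    ∃ u₀ : ℝ, 0 < u₀ ∧ u₀ ≤ kr ∧ ∀ v : ℝ, 0 < v → v ≤ u₀ → ∃ s₁ : ℝ, 0 < s₁ ∧ s₁ ≤ v ∧
      8 * (C + 1) * s₁ = v ∧
    ∀ (rho sr s0 o0 xq K ε q : ℝ), 0 < rho → rho ≤ s₁ → 0 < sr → sr ≤ s₁ → 0 ≤ xq →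
    |o0| + (ne + b * (n + 2) + n + 10) * kr + xq ≤ K → 0 ≤ ε → 16 * ε ≤ v → s0 ≤ sr * q →
    0 < q → VbRt n b Cg ne C A τ kr v rho sr s0 o0 xq K ε q := by
  have hA0 : 0 < A := by linarith
  have hC0 : (0 : ℝ) ≤ C := Nat.cast_nonneg C
  have hCg0 : (0 : ℝ) ≤ Cg := Nat.cast_nonneg Cg
  obtain ⟨u₀, hu₀⟩ : ∃ u₀ : ℝ, u₀ = min (τ * kr / (8 * A)) (kr / (Cg + 1)) := ⟨_, rfl⟩
  have hu0 : 0 < u₀ := by
    rw [hu₀]
    exact lt_min (by positivity) (by positivity)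
  have hu1 : u₀ * (8 * A) ≤ τ * kr := by
    have h1 : u₀ ≤ τ * kr / (8 * A) := by rw [hu₀]; exact min_le_left _ _
    rwa [le_div_iff₀ (by positivity)] at h1
  have hu2 : u₀ * (Cg + 1) ≤ kr := by
    have h1 : u₀ ≤ kr / (Cg + 1) := by rw [hu₀]; exact min_le_right _ _
    rwa [le_div_iff₀ (by positivity)] at h1
  have hu3 : 8 * u₀ ≤ kr := by
    have h1 : u₀ * 8 ≤ u₀ * (8 * A) := mul_le_mul_of_nonneg_left (by linarith) hu0.le
    have h2 : τ * kr ≤ 1 * kr := mul_le_mul_of_nonneg_right hτ1 hkr.le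
    linarith
  refine ⟨u₀, hu0, by linarith, ?_⟩
  intro v hv hvu
  obtain ⟨s₁, hs₁⟩ : ∃ s₁ : ℝ, s₁ = v / (8 * (C + 1)) := ⟨_, rfl⟩
  have hs0 : 0 < s₁ := by rw [hs₁]; positivity
  have hs8 : 8 * (C + 1) * s₁ = v := by
    rw [hs₁]
    field_simp
  have hs9 : 8 * s₁ ≤ v := by nlinarith
  have hs10 : 8 * (C * s₁) ≤ v := by nlinarith
  refine ⟨s₁, hs0, by linarith, hs8, ?_⟩
  intro rho sr s0 o0 xq K ε q hrho hrho1 hsr hsr1 hxq hK hε hεv hs0q hq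
  exact
    { hn := hn
      hb := hb
      hA := hA
      hτ := hτ
      hτ1 := hτ1
      hkr := hkr
      hv := hv
      vA := (mul_le_mul_of_nonneg_right hvu (by positivity)).trans hu1
      vC := (mul_le_mul_of_nonneg_right hvu (by positivity)).trans hu2
      v8 := by linarith
      ro := hrho
      ro1 := by linarith
      ro2 := by
        have := mul_le_mul_of_nonneg_left hrho1 hC0
        linarith
      hs := hsr
      hs1 := by linarith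
      hs2 := by
        have := mul_le_mul_of_nonneg_left hsr1 hC0
        linarith
      sq := hs0q
      hx := hxq
      hK := hK
      hε := hε
      hε1 := hεv
      hq := hq }

/-- **The numbers `VbNum`** of the data `vbt`. -/
theorem vbnum_vbt {m J : ℕ} (F : Fam m J) (c : ℕ → Fin m) {L : ℕ → ℝ → ℝ → ℝ} {n C₀ C₁ C C' N : ℕ}
    (hC₀ : 1 ≤ C₀) (hC' : C' = C₁ * (C₀ + 2) + C + C₀) {a0 kr v rho s0 s sr xx xq q E e2 w : ℝ}
    (hq : 0 < q) (hrho : 0 < rho) (hrk : rho ≤ kr) (hN : ((n : ℝ) + 1) * kr ≤ N * rho)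
    (hs : s = sr * q) (hs0 : 0 ≤ s0) (hsr : 0 < sr) (hw : w = 2 * rho * q) (hxx : 0 ≤ xx)
    (hxq : xx ≤ xq * q) (hE : 0 ≤ E) {d : ℕ → ℕ → ℝ}
    (hd : ∀ k ≤ N, ∀ l < 3, 0 ≤ d k l ∧ d k l ≤ s) {d3 : ℝ} (hd3 : 0 ≤ d3 ∧ d3 ≤ s)
    {g' : ℕ → ℕ → ℕ}
    (hg' : ∀ k ≤ N, ∀ l < 3, g' k l = ⌊(L l (a0 + k * rho * q) (a0 + k * rho * q) - d k l) * J⌋₊)
    {W k y g₃ e₁' e₁ e₂ st lz X : ℕ} (hW : W = ⌊a0 * J⌋₊) (hk : k = ⌊kr * q * J⌋₊)
    (hy : y = ⌊v * q * J⌋₊) (hg₃ : g₃ = ⌊(L 3 a0 a0 - d3) * J⌋₊)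
    (he' : e₁' = C₀ * (⌊(s0 + 3 * s) * J⌋₊ + 1) + ⌊E * J⌋₊) (he₁ : e₁ = ⌊e2 * J⌋₊ - 1)
    (he₂ : e₂ = e₁' + y + 2 * y + 6)
    (hst : st = C₁ * (C₀ * (⌊(s0 + 3 * s) * J⌋₊ + 1) + (⌊w * J⌋₊ + 1) + 1))
    (hX : X = C * (⌊(s0 + 3 * s) * J⌋₊ + ⌊w * J⌋₊ + 1) + ⌊(E + s) * J⌋₊ + ⌊xx * J⌋₊)
    (hlz : lz = X + nlp (fun j => if j < 3 then g' 0 j else g₃) 0 3) {A : ℕ → ℕ} {ji : ℕ → ℕ}
    (Gn : ℕ → PtT F → ℕ → MvPolynomial (Option (Fin m)) ℝ)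
    (Hn : ℕ → LnT F → ℕ → MvPolynomial (Option (Fin m)) ℝ)
    (pP : PtT F → ℕ → MvPolynomial (Option (Fin m)) ℝ)
    (pH : LnT F → ℕ → MvPolynomial (Option (Fin m)) ℝ)
    (zP : PtT F → MvPolynomial (Option (Fin m)) ℝ) (zH : LnT F → MvPolynomial (Option (Fin m)) ℝ)
    (f : ℕ → PtT F → Po) (f' : ℕ → LnT F → Po) (kf : LnT F → Po) :
    VbNum L n C' a0 kr v (2 * rho) sr s0 xq q E e2 (g' 0) X
      (vbt F c W k y y g₃ e₁' e₁ e₂ st lz A g' (gjb kr rho) ji Gn Hn pP pH zP zH f f' kf) := by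
  have hJ0 : (0 : ℝ) ≤ J := Nat.cast_nonneg J
  have hsp : 0 < s := by rw [hs]; positivity
  have hw0 : 0 < w := by rw [hw]; positivity
  obtain ⟨a, ha⟩ : ∃ a, a = ⌊(s0 + 3 * s) * (J : ℝ)⌋₊ := ⟨_, rfl⟩
  obtain ⟨v', hv'⟩ : ∃ v', v' = ⌊w * (J : ℝ)⌋₊ := ⟨_, rfl⟩
  rw [← ha] at he' hst hX
  rw [← hv'] at hst hX
  have ba : (a : ℝ) ≤ (s0 + 3 * s) * J := by
    rw [ha]
    exact Nat.floor_le (by positivity)
  have bv : (v' : ℝ) ≤ w * J := by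
    rw [hv']
    exact Nat.floor_le (by positivity)
  have hls : lsD C' s0 sr (2 * rho) q J = C' * ((s0 + 3 * s) * J + w * J + 1) := by
    unfold lsD
    rw [hs, hw]
  have hav : ((a + v' + 1 : ℕ) : ℝ) ≤ (s0 + 3 * s) * J + w * J + 1 := by
    push_cast
    linarith
  have hbd : ∀ z : ℕ, z ≤ C' * (a + v' + 1) → (z : ℝ) ≤ lsD C' s0 sr (2 * rho) q J := by
    intro z hz
    rw [hls]
    have h1 : (z : ℝ) ≤ ((C' * (a + v' + 1) : ℕ) : ℝ) := by exact_mod_cast hz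
    refine h1.trans ?_
    push_cast
    refine mul_le_mul_of_nonneg_left ?_ (Nat.cast_nonneg C')
    push_cast at hav
    exact hav
  have z1 : C₁ * (C₀ * (a + 1) + (v' + 1) + 1) ≤ C' * (a + v' + 1) := by
    rw [hC']
    have h1 : C₀ * (a + 1) + (v' + 1) + 1 ≤ (C₀ + 2) * (a + v' + 1) := by nlinarith
    calc C₁ * (C₀ * (a + 1) + (v' + 1) + 1) ≤ C₁ * ((C₀ + 2) * (a + v' + 1)) :=
          Nat.mul_le_mul_left _ h1
      _ = C₁ * (C₀ + 2) * (a + v' + 1) := by ring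
      _ ≤ (C₁ * (C₀ + 2) + C + C₀) * (a + v' + 1) :=
          Nat.mul_le_mul_right _ (by omega)
  have z2 : C₀ * (a + 1) ≤ C' * (a + v' + 1) := by
    rw [hC']
    calc C₀ * (a + 1) ≤ C₀ * (a + v' + 1) := Nat.mul_le_mul_left _ (by omega)
      _ ≤ (C₁ * (C₀ + 2) + C + C₀) * (a + v' + 1) := Nat.mul_le_mul_right _ (by omega)
  have z3 : C * (a + v' + 1) ≤ C' * (a + v' + 1) := by
    rw [hC']
    exact Nat.mul_le_mul_right _ (by omega)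
  have fE : ((⌊E * (J : ℝ)⌋₊ : ℕ) : ℝ) ≤ E * J := Nat.floor_le (by positivity)
  have fEs : ((⌊(E + s) * (J : ℝ)⌋₊ : ℕ) : ℝ) ≤ (E + s) * J := Nat.floor_le (by positivity)
  have fx : ((⌊xx * (J : ℝ)⌋₊ : ℕ) : ℝ) ≤ xx * J := Nat.floor_le (by positivity)
  constructor
  · exact hW
  · exact hk
  · exact hy
  · exact hy
  · intro l hl
    refine ⟨d 0 l, (hd 0 (Nat.zero_le _) l hl).1, by rw [← hs]; exact (hd 0 (Nat.zero_le _) l hl).2,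
      ?_⟩
    have h1 := hg' 0 (Nat.zero_le _) l hl
    have e1 : a0 + ((0 : ℕ) : ℝ) * rho * q = a0 := by
      push_cast
      ring
    rw [e1] at h1
    exact h1
  · rfl
  · exact ⟨d3, hd3.1, by rw [← hs]; exact hd3.2, hg₃⟩
  · intro i hi
    obtain ⟨h1, h2⟩ := gjb_off i hrho hrk
    have hkr0 : 0 < kr := hrho.trans_le hrk
    have hgN : gjb kr rho i ≤ N := gjb_le hrho hkr0.le hi.le hN
    refine ⟨a0 + (gjb kr rho i : ℝ) * rho * q, ?_, ?_, fun l hl => ⟨d (gjb kr rho i) l, ?_, ?_, ?_⟩⟩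
    · have := mul_le_mul_of_nonneg_right h2 hq.le
      have e1 : ((gjb kr rho i : ℝ) * rho + 2 * rho) * q =
        (gjb kr rho i : ℝ) * rho * q + 2 * rho * q := by ring
      rw [e1] at this
      linarith
    · have := mul_le_mul_of_nonneg_right h1 hq.le
      have e1 : (((i : ℝ) + 1) * kr - rho) * q = ((i : ℝ) + 1) * kr * q - rho * q := by ring
      rw [e1] at this
      have : 0 < rho * q := by positivity
      linarith
    · exact (hd _ hgN l hl).1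
    · rw [← hs]
      exact (hd _ hgN l hl).2
    · exact hg' _ hgN l hl
  · show ((st : ℕ) : ℝ) ≤ _
    rw [hst]
    exact hbd _ z1
  · show ((e₁' : ℕ) : ℝ) ≤ _
    rw [he']
    push_cast
    have h1 := hbd _ z2
    push_cast at h1
    linarith
  · show ⌊sr * q * (J : ℝ)⌋₊ + 1 ≤ e₁'
    rw [he', ← hs]
    have h1 : ⌊s * (J : ℝ)⌋₊ ≤ a := by
      rw [ha]
      exact Nat.floor_le_floor (mul_le_mul_of_nonneg_right (by linarith) hJ0)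
    have h2 : a + 1 ≤ C₀ * (a + 1) := Nat.le_mul_of_pos_left _ hC₀
    omega
  · show e₂ = e₁' + y + 2 * y + 6
    exact he₂
  · exact he₁
  · rw [hX]
    push_cast
    have h1 := hbd _ z3
    push_cast at h1
    have h2 := mul_le_mul_of_nonneg_right hxq hJ0
    rw [← hs]
    linarith
  · exact hlz

/-- **The frame and `VbN` at a record.** -/
theorem vbn_vbt {n b Cg ne C₀ C₁ C : ℕ} {A τ kr : ℝ} (hn : 0 < n) (hb : 1 ≤ b) (hA : 1 ≤ A)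
    (hτ : 0 < τ) (hτ1 : τ ≤ 1) (hkr : 0 < kr) (hC₀ : 1 ≤ C₀) :
    ∃ u₀ : ℝ, 0 < u₀ ∧ u₀ ≤ kr ∧ ∀ v : ℝ, 0 < v → v ≤ u₀ → ∃ s₁ : ℝ, 0 < s₁ ∧ s₁ ≤ v ∧
    ∀ (rho sr s0 o0 xq K ε : ℝ), 0 < rho → rho ≤ s₁ → 0 < sr → sr ≤ s₁ → 0 ≤ xq →
    |o0| + (ne + b * (n + 2) + n + 10) * kr + xq ≤ K → 0 ≤ ε → 16 * ε ≤ v →
    ∀ {m : ℕ} {S : PCl m} {al : ℝ} {g₀ : ℝ → ℝ} {P : List (Fin m) × Fin m → ℝ → ℝ → ℝ}
      {θ : ℝ} {P₂ : ℕ → List (Fin m) × Fin m → ℝ → ℝ → ℝ} {θ₂ Eb e₂ : ℕ → ℝ}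
      {c : ℕ → Fin m} {Pt : ℝ → ℝ → ℝ} {r : ℝ → ℝ} {h K₀ g : ℝ} {L T : ℕ → ℝ → ℝ → ℝ}
      {Sl : ℕ → ℝ} {κ : ℕ → Kg} {G : Set ℝ} {S₀ N : ℕ} {A' V : ℕ → ℝ} {S₂ N' : ℕ} {V' : ℕ → ℝ}
      {q t : ℝ},
    RecG S al g₀ P θ P₂ θ₂ Eb e₂ c Pt r h K₀ g L T Sl κ G S₀ N A' V S₂ N' V' K ε q t →
    3 < m → Sl 1 = 1 → Sl 3 = b → 0 ≤ s0 → s0 ≤ sr * q →
    (∀ i ≤ n, ∃ k < N', V' k = o0 + ((i : ℝ) + 1) * kr) →
    ∀ {wn : ℝ} {sf : ℕ → ℕ → ℝ}, wn ≤ t + o0 * q →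
    (∀ i < n, ∀ l < 2, sf i l ≤ L l (t + o0 * q + ((i : ℝ) + 2) * kr * q)
      (t + o0 * q + ((i : ℝ) + 2) * kr * q)) →
    ∀ {Nb : ℕ}, ((n : ℝ) + 1) * kr ≤ Nb * rho → |o0| + Nb * rho ≤ K →
    ∀ {s w xx : ℝ} {d : ℕ → ℕ → ℝ} {d3 : ℝ}, s = sr * q → w = 2 * rho * q → 0 ≤ xx →
    xx ≤ xq * q → (∀ k ≤ Nb, ∀ l < 3, 0 ≤ d k l ∧ d k l ≤ s) → 0 ≤ d3 ∧ d3 ≤ s →
    ∃ wi : ℕ → ℚ,
      (∀ i ≤ n, 0 < wi i ∧ wi i ≤ 1 ∧ e₂ 3 < θ₂ 3 * wi i ∧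
        ∀ j ≤ 3, bet (P₂ 3) c j (wi i) (wi i) + v * q / 16 ≤ 1) ∧
      (∀ i < n, t + o0 * q + ((i : ℝ) + 2) * kr * q ≤ 1) ∧
      ∃ J₀ : ℕ, ∀ J : ℕ, J₀ ≤ J → ∀ {W k y g₃ se₀ ve ye X e₁' e₁ e₂' st lz : ℕ} {Ab : ℕ → ℕ}
        {g' : ℕ → ℕ → ℕ}, W = ⌊(t + o0 * q) * J⌋₊ → k = ⌊kr * q * J⌋₊ → y = ⌊v * q * J⌋₊ →
        g₃ = ⌊(L 3 (t + o0 * q) (t + o0 * q) - d3) * J⌋₊ →
        se₀ = C₀ * (⌊(s0 + 3 * s) * J⌋₊ + 1) → ve = ⌊w * J⌋₊ + 1 →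
        ye = C * (⌊(s0 + 3 * s) * J⌋₊ + ⌊w * J⌋₊ + 1) →
        X = ye + ⌊(Eb 3 + s) * J⌋₊ + ⌊xx * J⌋₊ → e₁' = se₀ + ⌊Eb 3 * J⌋₊ →
        e₁ = ⌊e₂ 3 * J⌋₊ - 1 → e₂' = e₁' + y + 2 * y + 6 → st = C₁ * (se₀ + ve + 1) →
        lz = X + nlp (fun j => if j < 3 then g' 0 j else g₃) 0 3 →
        (∀ k ≤ Nb, Ab k = ⌊(t + o0 * q + k * rho * q) * J⌋₊) →
        (∀ k ≤ Nb, ∀ l < 3, g' k l = ⌊(L l (t + o0 * q + k * rho * q)
          (t + o0 * q + k * rho * q) - d k l) * J⌋₊) →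
        FrN J n Nb C₁ b W k y y g₃ e₁' e₁ st lz se₀ ve ye ⌊Eb 3 * J⌋₊ X Ab
          (fun _ => ⌊(Eb 3 + s) * J⌋₊) g' (gjb kr rho) (fun i => gjb kr rho (i + 1))
          (t + o0 * q) (v * q / 8 * Real.log 2) ∧
        ∀ (F : Fam m J) (Gn : ℕ → PtT F → ℕ → MvPolynomial (Option (Fin m)) ℝ)
          (Hn : ℕ → LnT F → ℕ → MvPolynomial (Option (Fin m)) ℝ)
          (pP : PtT F → ℕ → MvPolynomial (Option (Fin m)) ℝ)
          (pH : LnT F → ℕ → MvPolynomial (Option (Fin m)) ℝ)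
          (zP : PtT F → MvPolynomial (Option (Fin m)) ℝ)
          (zH : LnT F → MvPolynomial (Option (Fin m)) ℝ) (f : ℕ → PtT F → Po)
          (f' : ℕ → LnT F → Po) (kf : LnT F → Po),
          VbN (P₂ 3) c n b Cg ne A τ (kr * q) (v * q) (v * q / 16) (e₂ 3) (e₂ 3) wn wi
            (fun i => wi (i + 1)) (fun i => t + o0 * q + ((i : ℝ) + 2) * kr * q) sf
            (fun i => L 3 (t + o0 * q) (t + o0 * q) + b * (((i : ℝ) + 1) * kr * q))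
            (fun i => L 3 (t + o0 * q) (t + o0 * q) + b * (((i : ℝ) + 1) * kr * q) + kr * q)
            (vbt F c W k y y g₃ e₁' e₁ e₂' st lz Ab g' (gjb kr rho)
              (fun i => gjb kr rho (i + 1)) Gn Hn pP pH zP zH f f' kf) := by
  obtain ⟨C', hC'⟩ : ∃ C', C' = C₁ * (C₀ + 2) + C + C₀ := ⟨_, rfl⟩
  obtain ⟨u₀, hu0, hu1, hu⟩ := vbrt_ex (Cg := Cg) (ne := ne) (C := C') hn hb hA hτ hτ1 hkr
  refine ⟨u₀, hu0, hu1, ?_⟩
  intro v hv hvu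
  obtain ⟨s₁, hs1, hs1v, hs8, hrt⟩ := hu v hv hvu
  refine ⟨s₁ / 2, by linarith, by linarith, ?_⟩
  intro rho sr s0 o0 xq K ε hrho hrho1 hsr hsr1 hxq hK hε hεv m S al g₀ P θ P₂ θ₂ Eb e₂ c Pt r h K₀
    g L T Sl κ G S₀ N A' V S₂ N' V' q t R hm S1 S3 hs0 hs0q hV wn sf hwn hsf Nb hNb hNK s w xx d d3
    hs hw hxx hxq' hd hd3
  have hq := R.q0
  have H := hrt (2 * rho) sr s0 o0 xq K ε q (by linarith) (by linarith) hsr (by linarith) hxq hK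
    hε hεv hs0q hq
  have hrk : rho ≤ kr := by linarith
  have hsp : 0 < s := by rw [hs]; positivity
  have hw0 : 0 < w := by rw [hw]; positivity
  obtain ⟨a0, ha0⟩ : ∃ a0, a0 = t + o0 * q := ⟨_, rfl⟩
  obtain ⟨rr, Lv, h1, h2⟩ := vb_lv R H hm S1 S3 hV ha0
  rw [← ha0] at hwn hsf ⊢
  refine ⟨rr, fun i hi => ⟨(h1 i hi).1, (h1 i hi).2.1, (h1 i hi).2.2, h2 i hi⟩, ?_, ?_⟩
  · intro i hi
    have h3 : (i : ℝ) ≤ n := by exact_mod_cast hi.le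
    have hkq : 0 < kr * q := by positivity
    have h4 : ((i : ℝ) + 2) * (kr * q) ≤ ((n : ℝ) + 4) * (kr * q) :=
      mul_le_mul_of_nonneg_right (by linarith) hkq.le
    have h5 : 0 ≤ ((i : ℝ) + 2) * kr * q := by positivity
    have h6 := (abs_le.1 (H.box t ha0 (x := a0 + ((i : ℝ) + 2) * kr * q) (by linarith)
      (by linarith))).2
    have h7 := R.t1
    linarith
  -- the balls
  have hNKq : |o0| * q + (Nb : ℝ) * rho * q ≤ K * q := by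
    have := mul_le_mul_of_nonneg_right hNK hq.le
    linarith
  have hoq := abs_le.1 (le_refl |o0|)
  have hoq1 : o0 * q ≤ |o0| * q := mul_le_mul_of_nonneg_right hoq.2 hq.le
  have hoq2 : -|o0| * q ≤ o0 * q := mul_le_mul_of_nonneg_right hoq.1 hq.le
  have hNb0 : 0 ≤ (Nb : ℝ) * rho * q := by positivity
  have hball : ∀ k ≤ Nb, a0 ≤ a0 + (k : ℝ) * rho * q ∧ a0 + (k : ℝ) * rho * q ≤ 1 := by
    intro k hk
    have h3 : (k : ℝ) ≤ Nb := by exact_mod_cast hk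
    have h4 : 0 ≤ (k : ℝ) * rho * q := by positivity
    have h5 : (k : ℝ) * rho * q ≤ (Nb : ℝ) * rho * q :=
      mul_le_mul_of_nonneg_right (mul_le_mul_of_nonneg_right h3 hrho.le) hq.le
    have h6 := R.t1
    exact ⟨by linarith, by linarith⟩
  have ha0p := Lv.a0p
  have hmo : ∀ k ≤ Nb, ∀ l < 4, L l a0 a0 ≤ L l (a0 + (k : ℝ) * rho * q) (a0 + (k : ℝ) * rho * q) :=
    fun k hk l hl => by
      obtain ⟨b1, b2⟩ := hball k hk
      exact (R.lawL l (by omega)).mono ha0p.le le_rfl b1 b1 le_rfl b2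
  have hEb := Lv.Eb0
  have hC'0 : (0 : ℝ) ≤ C' := Nat.cast_nonneg C'
  have hkq : 0 < kr * q := by positivity
  have hvq : 0 < v * q := by positivity
  have hb0 : (0 : ℝ) ≤ b := Nat.cast_nonneg b
  have hn0 : (0 : ℝ) ≤ n := Nat.cast_nonneg n
  have hne0 : (0 : ℝ) ≤ ne := Nat.cast_nonneg ne
  have hKq : (ne : ℝ) * (kr * q) + b * (n + 2) * (kr * q) + n * (kr * q) + 10 * (kr * q) + xq * q ≤
      K * q := by
    have h3 := mul_le_mul_of_nonneg_right hK hq.le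
    have h4 : 0 ≤ |o0| * q := by positivity
    have e1 : (|o0| + ((ne : ℝ) + b * (n + 2) + n + 10) * kr + xq) * q = |o0| * q +
      ((ne : ℝ) * (kr * q) + b * (n + 2) * (kr * q) + n * (kr * q) + 10 * (kr * q) + xq * q) := by
        ring
    rw [e1] at h3
    linarith
  have p1 : 0 ≤ (ne : ℝ) * (kr * q) := by positivity
  have p2 : 0 ≤ (b : ℝ) * (n + 2) * (kr * q) := by positivity
  have p3 : 0 ≤ (n : ℝ) * (kr * q) := by positivity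
  have p4 : 0 ≤ xq * q := by positivity
  have h8v : 8 * (v * q) ≤ kr * q := by
    have := mul_le_mul_of_nonneg_right H.v8 hq.le
    linarith
  have hs4 : s0 + 3 * s ≤ 4 * s := by linarith
  have hCs : (C' : ℝ) * s ≤ v * q / 16 := by
    have h3 : (8 : ℝ) * (C' + 1) * sr ≤ v / 2 := by
      have h4 : (8 : ℝ) * (C' + 1) * sr ≤ 8 * (C' + 1) * (s₁ / 2) :=
        mul_le_mul_of_nonneg_left hsr1 (by positivity)
      linarith
    have h5 := mul_le_mul_of_nonneg_right h3 hq.le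
    have e1 : 8 * ((C' : ℝ) + 1) * sr * q = 8 * (C' * s) + 8 * s := by rw [hs]; ring
    rw [e1] at h5
    linarith
  have hCw : (C' : ℝ) * w ≤ v * q / 8 := by
    have h3 : (8 : ℝ) * (C' + 1) * rho ≤ v / 2 := by
      have h4 : (8 : ℝ) * (C' + 1) * rho ≤ 8 * (C' + 1) * (s₁ / 2) :=
        mul_le_mul_of_nonneg_left hrho1 (by positivity)
      linarith
    have h5 := mul_le_mul_of_nonneg_right h3 hq.le
    have e1 : 8 * ((C' : ℝ) + 1) * rho * q = 4 * (C' * w) + 8 * rho * q := by rw [hw]; ring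
    rw [e1] at h5
    have : 0 < rho * q := by positivity
    linarith
  have hw8 : w ≤ v * q / 8 := by
    have h3 : (8 : ℝ) * rho ≤ v / 2 := by
      have h4 : (8 : ℝ) * rho ≤ 8 * (C' + 1) * (s₁ / 2) := by nlinarith
      linarith
    have h5 := mul_le_mul_of_nonneg_right h3 hq.le
    rw [hw]
    linarith
  have hs16 : s ≤ v * q / 16 := by
    have h3 : (8 : ℝ) * sr ≤ v / 2 := by
      have h4 : (8 : ℝ) * sr ≤ 8 * (C' + 1) * (s₁ / 2) := by nlinarith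
      linarith
    have h5 := mul_le_mul_of_nonneg_right h3 hq.le
    rw [hs]
    linarith
  have hCC : (C₀ : ℝ) ≤ C' ∧ (C : ℝ) ≤ C' := by
    rw [hC']
    push_cast
    have h3 : (0 : ℝ) ≤ C₁ * (C₀ + 2) := by positivity
    have h4 : (0 : ℝ) ≤ C := Nat.cast_nonneg C
    have h5 : (0 : ℝ) ≤ C₀ := Nat.cast_nonneg C₀
    exact ⟨by linarith, by linarith⟩
  have hC0s : (C₀ : ℝ) * (s0 + 3 * s) ≤ v * q / 4 := by
    have h3 : (C₀ : ℝ) * (s0 + 3 * s) ≤ C' * (4 * s) := mul_le_mul hCC.1 hs4 (by linarith) hC'0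
    linarith
  have hCs' : (C : ℝ) * (s0 + 3 * s + w) ≤ 3 * (v * q) / 8 := by
    have h3 : (C : ℝ) * (s0 + 3 * s + w) ≤ C' * (4 * s + w) :=
      mul_le_mul hCC.2 (by linarith) (by linarith) hC'0
    linarith
  have hrm : ∀ l ≤ 3, L l a0 a0 + Eb 3 + 3 * K * q ≤ 1 := Lv.rm
  obtain ⟨J₁, hJ₁⟩ := frn_num n Nb C₁ C₀ C b (A₀ := a0) (q := q) (kr := kr) (ρ := rho)
    (U := v * q) (X₀ := v * q) (s₀ := s0) (s := s) (v := w) (xx := xx) (E := Eb 3) (e2 := e₂ 3)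
    (δ := v * q / 4) (Lv := fun k l => if l < 3 then L l (a0 + (k : ℝ) * rho * q)
      (a0 + (k : ℝ) * rho * q) else 0) (d := d) ha0p.le hq hrho hrk hNb hw (by linarith) hs0 hsp
    hEb.le hxx (by linarith) (fun k hk l => by
      by_cases hl : l < 3
      · simp only [hl, if_true]
        have h3 := hmo k hk l (by omega)
        have h4 := Lv.lo l (by omega)
        linarith
      · simp only [hl, if_false]
        exact le_rfl) hd (by linarith) (by linarith) (by linarith) (fun k hk => by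
      obtain ⟨b1, b2⟩ := hball k hk
      simp only [show (0 : ℕ) < 3 by norm_num, if_true]
      have h3 := lv_low R (l := 0) (by omega) (a := a0 + (k : ℝ) * rho * q)
        (w := a0 + (k : ℝ) * rho * q) (by linarith) le_rfl b2
      linarith) hC₀ (by linarith [Lv.ee]) (by
      simp only [show (1 : ℕ) < 3 by norm_num, if_true]
      have e1 : a0 + ((0 : ℕ) : ℝ) * rho * q = a0 := by
        push_cast
        ring
      rw [e1]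
      have := hrm 1 (by norm_num)
      linarith) (by
      have h3 := hrm 1 (by norm_num)
      have h4 := Lv.lo 1 (by norm_num)
      linarith) (fun k hk l hl => by
      simp only [hl, if_true]
      have e1 : a0 + ((0 : ℕ) : ℝ) * rho * q = a0 := by
        push_cast
        ring
      rw [e1]
      exact hmo k hk l (by omega)) (by
      have h3 : (b : ℝ) * ((n + 1) * (kr * q)) ≤ b * (n + 2) * (kr * q) := by
        have h4 : 0 ≤ (b : ℝ) * (kr * q) := by positivity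
        linarith
      linarith [Lv.ee])
  obtain ⟨J₂, hJ₂⟩ := exists_nat_ge
    ((16 * (((b : ℝ) + 1) * (n + 2)) + 16 * C' + 16 * Cg + 256) / (v * q))
  refine ⟨max J₁ J₂, ?_⟩
  intro J hJ W k y g₃ se₀ ve ye X e₁' e₁ e₂' st lz Ab g' eW ek ey eg es ev eye eX ee₁' ee₁ ee₂ est
    elz hAb hg'
  have hJ0 : (J₂ : ℝ) ≤ J := by exact_mod_cast (le_max_right _ _).trans hJ
  have hJ1 : 16 * (((b : ℝ) + 1) * (n + 2)) + 16 * C' + 16 * Cg + 256 ≤ v * q * J := by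
    have h3 := hJ₂.trans hJ0
    rw [div_le_iff₀ (by positivity)] at h3
    linarith
  refine ⟨?_, ?_⟩
  · have h3 := hJ₁ J ((le_max_left _ _).trans hJ) Ab g' g₃ hAb (fun k hk l hl => by
      simp only [hl, if_true]
      exact hg' k hk l hl)
    rw [← eW, ← ek, ← ey, ← es, ← ev, ← eye, ← eX, ← ee₁', ← ee₁, ← elz] at h3
    have e1 : v * q / 4 / 2 * Real.log 2 = v * q / 8 * Real.log 2 := by ring
    rw [est, ← e1]
    exact h3
  · intro F Gn Hn pP pH zP zH f f' kf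
    have N1 := vbnum_vbt F c (L := L) (C₀ := C₀) (C₁ := C₁) (C := C) (C' := C') (a0 := a0)
      (kr := kr) (v := v) (rho := rho) (s0 := s0) (s := s) (sr := sr) (xx := xx) (xq := xq)
      (q := q) (E := Eb 3) (e2 := e₂ 3) (w := w) (n := n) (N := Nb) hC₀ hC' hq hrho hrk hNb hs hs0
      hsr hw hxx hxq' hEb.le hd hd3 hg' eW ek ey eg (ee₁'.trans (by rw [es])) ee₁ ee₂
      (est.trans (by rw [es, ev])) (eX.trans (by rw [eye])) elz (A := Ab)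
      (ji := fun i => gjb kr rho (i + 1)) Gn Hn pP pH zP zH f f' kf
    exact vbn_of H Lv N1 hJ1 hwn hsf

end Pool.STB6
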