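import Mathlib

/-!
# The margin of the parameter `y` for the cut with a loss

`vb_line`: for a given number `E` the parameter `y` of the data `vbt` exceeds `E + 1` times the
errors of the record.
-/

set_option autoImplicit false

namespace Pool.STB6

open Real

/-- **The line of `y`.** -/
theorem vb_line (E C₀ C : ℕ) {v : ℝ} (hv : 0 < v) : ∃ s₂ : ℝ, 0 < s₂ ∧
    ∀ (rho sr s0 q : ℝ), 0 < rho → rho ≤ s₂ → 0 < sr → sr ≤ s₂ → 0 < q → 0 ≤ s0 →
    s0 ≤ sr * q → ∀ {s w : ℝ}, s = sr * q → w = 2 * rho * q → ∃ J₀ : ℕ, ∀ J : ℕ, J₀ ≤ J →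
    ∀ {y se₀ ye : ℕ}, y = ⌊v * q * J⌋₊ → se₀ = C₀ * (⌊(s0 + 3 * s) * J⌋₊ + 1) →
    ye = C * (⌊(s0 + 3 * s) * J⌋₊ + ⌊w * J⌋₊ + 1) →
    (((E + 1) * (se₀ + ye + 3) : ℕ) : ℝ) * Real.log 2 + v * q / 16 * J ≤ y * Real.log 2 := by
  obtain ⟨D, hD⟩ : ∃ D : ℝ, D = ((E : ℝ) + 1) * (C₀ + C + 3) := ⟨_, rfl⟩
  have hE0 : (0 : ℝ) ≤ E := Nat.cast_nonneg E
  have hC00 : (0 : ℝ) ≤ C₀ := Nat.cast_nonneg C₀
  have hC0 : (0 : ℝ) ≤ C := Nat.cast_nonneg C
  have hD0 : 0 < D := by rw [hD]; positivity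
  refine ⟨v / (24 * D), by positivity, ?_⟩
  intro rho sr s0 q hrho hrho1 hsr hsr1 hq hs0 hs0q s w hs hw
  have hvq : 0 < v * q := by positivity
  obtain ⟨J₀, hJ₀⟩ := exists_nat_ge ((D + 1) / (5 / 8 * (v * q)))
  refine ⟨J₀, ?_⟩
  intro J hJ y se₀ ye hy hse hye
  have hJr : (0 : ℝ) ≤ J := Nat.cast_nonneg J
  have hJ1 : D + 1 ≤ 5 / 8 * (v * q) * J := by
    have h1 : (J₀ : ℝ) ≤ J := by exact_mod_cast hJ
    have h2 := hJ₀.trans h1
    rw [div_le_iff₀ (by positivity)] at h2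
    linarith
  have hs0' : 0 < s := by rw [hs]; positivity
  have hw0 : 0 < w := by rw [hw]; positivity
  have ba : ((⌊(s0 + 3 * s) * (J : ℝ)⌋₊ : ℕ) : ℝ) ≤ (s0 + 3 * s) * J :=
    Nat.floor_le (by positivity)
  have bw : ((⌊w * (J : ℝ)⌋₊ : ℕ) : ℝ) ≤ w * J := Nat.floor_le (by positivity)
  obtain ⟨X, hX⟩ : ∃ X : ℝ, X = (s0 + 3 * s) * J + w * J + 1 := ⟨_, rfl⟩
  have hwJ : 0 ≤ w * J := by positivity
  have hsJ : 0 ≤ (s0 + 3 * s) * (J : ℝ) := by positivity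
  have h1 : (se₀ : ℝ) ≤ C₀ * X := by
    rw [hse]
    push_cast
    exact mul_le_mul_of_nonneg_left (by rw [hX]; linarith) hC00
  have h2 : (ye : ℝ) ≤ C * X := by
    rw [hye]
    push_cast
    exact mul_le_mul_of_nonneg_left (by rw [hX]; linarith) hC0
  have hX1 : 1 ≤ X := by rw [hX]; linarith
  have h3 : (((E + 1) * (se₀ + ye + 3) : ℕ) : ℝ) ≤ D * X := by
    push_cast
    rw [hD, mul_assoc]
    exact mul_le_mul_of_nonneg_left (by nlinarith) (by positivity)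
  have h4 : (s0 + 3 * s) * J + w * J ≤ 6 * (v / (24 * D)) * q * J := by
    have h5 : s0 + 3 * s + w ≤ 6 * (v / (24 * D)) * q := by
      have h6 : sr * q ≤ v / (24 * D) * q := mul_le_mul_of_nonneg_right hsr1 hq.le
      have h7 : rho * q ≤ v / (24 * D) * q := mul_le_mul_of_nonneg_right hrho1 hq.le
      rw [hs, hw]
      nlinarith
    have := mul_le_mul_of_nonneg_right h5 hJr
    linarith
  have h5 : D * X ≤ v * q / 4 * J + D := by
    have h6 : D * (6 * (v / (24 * D)) * q * J) = v * q / 4 * J := by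
      field_simp
      ring
    have h7 := mul_le_mul_of_nonneg_left h4 hD0.le
    rw [hX]
    nlinarith
  have hl2 : 0 < Real.log 2 := Real.log_pos one_lt_two
  have hl2'' : 1 / 2 < Real.log 2 := by linarith [Real.log_two_gt_d9]
  have h6 : v * q * J - 1 ≤ y := by
    have := (Nat.lt_floor_add_one (v * q * J)).le
    rw [hy]
    linarith
  have h7 : v * q / 16 * J ≤ v * q / 8 * J * Real.log 2 := by
    have : 0 ≤ v * q / 8 * J := by positivity
    nlinarith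
  have h8 := mul_le_mul_of_nonneg_right (h3.trans h5) hl2.le
  have h9 := mul_le_mul_of_nonneg_right h6 hl2.le
  have h10 := mul_le_mul_of_nonneg_right hJ1 hl2.le
  nlinarith

end Pool.STB6
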