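import Pool.Agent.H6.STB.Evl
import Pool.Agent.H6.STB.Vbw
import Pool.Agent.H6.STB.Vbx
import Pool.Agent.H77.STB.Vbl

/-!
# The event of a static target at a record

`ev_core`: for an abstract hereditary family of labels closed at a window, blind closed labels at the
balls and the mixed derivative with a loss: the events `VbE` with the numbers `VbN`.
-/

set_option autoImplicit false

namespace Pool.STB6

open Finset Real MvPolynomial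
open Pool.Agent.H49.Ent Pool.Agent.H32.Dense Pool.STK Pool.KA Pool.KSAT Pool.K2S Pool.PB Pool.S6C
open Pool.GEN Pool.RCD Pool.LA91 Pool.PKG Pool.CHT Pool.CHX Pool.NVX
open Pool.GRD (LbP)
open Pool.ALT (Fml BlB)
open Pool.STB77 (NodF Inc)
open Pool.STB (N1L InpL LsN GrN nAA nWW nι nσ ball_at ball_zero pair_at ball_mono box_in lv_lin
  lv_mono lv_sta nod_box nι_le nAA_ball Po VbT VbE VbN FrN vbt)
open Pool.STB65 (NsR NsQ MxS)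
open Pool.STB82 (gjb)

/-- Two floors and a loss. -/
theorem fl_loss {x y z : ℝ} (hx : 0 ≤ x) (hz : 0 ≤ z) (h : x + z < y) : ∃ J₀ : ℕ, ∀ J : ℕ,
    J₀ ≤ J → ⌊x * J⌋₊ + (⌊z * J⌋₊ + 1) ≤ ⌊y * J⌋₊ := by
  obtain ⟨J₀, hJ₀⟩ := exists_nat_ge (1 / (y - x - z))
  refine ⟨J₀, fun J hJ => Nat.le_floor ?_⟩
  have hJr : (0 : ℝ) ≤ J := Nat.cast_nonneg J
  have h1 : 1 / (y - x - z) ≤ J := hJ₀.trans (by exact_mod_cast hJ)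
  rw [div_le_iff₀ (by linarith)] at h1
  have h2 : ((⌊x * (J : ℝ)⌋₊ : ℕ) : ℝ) ≤ x * J := Nat.floor_le (by positivity)
  have h3 : ((⌊z * (J : ℝ)⌋₊ : ℕ) : ℝ) ≤ z * J := Nat.floor_le (by positivity)
  push_cast
  linarith

/-- **The event at a record.** -/
theorem ev_core (D b : ℕ) (hD : 1 ≤ D) (hb : 1 ≤ b) : ∃ C₀ D' K₂ : ℕ, 1 ≤ C₀ ∧ D ≤ D' ∧ D' ≤ K₂ ∧
    ∀ (Kd : ℕ) (_ : K₂ ≤ Kd) {n Cg ne : ℕ} {Ac τ kr : ℝ} (_ : 0 < n) (_ : 1 ≤ Ac) (_ : 0 < τ)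
      (_ : τ ≤ 1) (_ : 0 < kr), ∃ u₀ : ℝ, 0 < u₀ ∧ u₀ ≤ kr ∧ ∀ v : ℝ, 0 < v → v ≤ u₀ →
    ∃ s₁ : ℝ, 0 < s₁ ∧ s₁ ≤ v ∧ ∀ {S : PCl 4} {al : ℝ}
    {g₀ : ℝ → ℝ} {P₀ : List (Fin 4) × Fin 4 → ℝ → ℝ → ℝ} {θ : ℝ}
    {P₂ : ℕ → List (Fin 4) × Fin 4 → ℝ → ℝ → ℝ} {θ₂ Eb e₂ : ℕ → ℝ}
    {c : ℕ → Fin 4} {Pt : ℝ → ℝ → ℝ} {r : ℝ → ℝ} {h Kn g : ℝ} {L T : ℕ → ℝ → ℝ → ℝ}
    {Sl : ℕ → ℝ} {κ : ℕ → Kg} {G : Set ℝ} {S₀ N₀ : ℕ} {A V : ℕ → ℝ} {S₂ N' : ℕ} {V' : ℕ → ℝ}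
    {K ε q t : ℝ}
    (_ : RecG S al g₀ P₀ θ P₂ θ₂ Eb e₂ c Pt r h Kn g L T Sl κ G S₀ N₀ A V S₂ N' V' K ε q t)
    (_ : Sl 1 = 1) (_ : Sl 3 = b) (_ : κ 3 = .sta) (_ : 0 ≤ ε) (_ : 16 * ε ≤ v)
    {oW y ρ : ℝ} {Ng P pc N M' Nx : ℕ} {Ax Vx : ℕ → ℝ}
    (_ : LsN oW y ρ Ng P Nx Ax Vx N₀ A V N' V' K) (_ : GrN y ρ Ng P pc N M')
    (_ : ∀ k < Ng + P + 2 + Nx, NodF S c 3 D L (Eb 3) (Eb 3) (nAA t q oW y ρ Ng P Ax k)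
      (nWW t q oW ρ Ng P Vx k))
    {Db : ℕ} {oV : ℝ} {Ψ : Fml 4} {pN : ℝ} {p p₂ z : ℕ → ℝ} (_ : Db ≤ D) (_ : oV ≤ oW)
    (_ : ∀ (J : ℕ) (F : Fam 4 J) (A B : F.Ω → Prop) (V : Type) (z : PtT F → V)
      (z' : LnT F → V) (G : V → MvPolynomial (Option (Fin 4)) ℝ), Sub B A →
      Ψ J F A V z z' G → Ψ J F B V z z' G)
    (_ : ∀ (J : ℕ) (F : Fam 4 J) (A : F.Ω → Prop) (V : Type) (z : PtT F → V) (z' : LnT F → V)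
      (G : V → MvPolynomial (Option (Fin 4)) ℝ), Ψ J F A V z z' G →
      LbP F ((range 3).image c) (c 3) D J ⌊(t + oV * q) * J⌋₊ ⌊pN * J⌋₊ A z z' G)
    (_ : ∀ k ≤ N + (P - pc), BlB S c 2 (c 3) (t + oV * q) (nAA t q oW y ρ Ng P Ax (nι N M' k))
      Db Db (p k) (p₂ k) (z k) Ψ)
    (_ : ∀ k ≤ N + (P - pc), ∃ χ : ℝ, 0 < χ ∧ Bas S (fun J F A => ∃ (P₁ : ℕ) (V₁ : Type)
      (z₁ : PtT F → V₁) (z₁' : LnT F → V₁) (G₁ : V₁ → MvPolynomial (Option (Fin 4)) ℝ),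
      LbP F ((range 3).image c) (c 3) Db J ⌊nAA t q oW y ρ Ng P Ax (nι N M' k) * J⌋₊ P₁ A z₁ z₁'
        G₁ ∧ (p k + χ) * J ≤ P₁))
    (_ : ∀ k ≤ N + (P - pc), ∃ χ : ℝ, 0 < χ ∧ Bas S (fun J F A => ∃ (P₁ : ℕ) (V₁ : Type)
      (z₁ : PtT F → V₁) (z₁' : LnT F → V₁) (G₁ : V₁ → MvPolynomial (Option (Fin 4)) ℝ),
      LbP F ((range 2).image c) (c 2) Db J ⌊nAA t q oW y ρ Ng P Ax (nι N M' k) * J⌋₊ P₁ A z₁ z₁'
        G₁ ∧ (p₂ k + χ) * J ≤ P₁))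
    {xq xx s₀ sr s : ℝ} (_ : 0 ≤ xq) (_ : 0 ≤ xx) (_ : xx ≤ xq * q)
    (_ : L 3 (t + oW * q) (t + oW * q) ≤ pN + xx)
    (_ : ∀ k ≤ N, L 3 (t + oW * q) (t + oW * q) +
      b * (nAA t q oW y ρ Ng P Ax (nι N M' k) - (t + oW * q)) ≤ p k + s₀)
    (_ : ∀ k ≤ N, z k + (L 3 (t + oW * q) (t + oW * q) +
      b * (nAA t q oW y ρ Ng P Ax (nι N M' k) - (t + oW * q))) ≤
      L 2 (nAA t q oW y ρ Ng P Ax (nι N M' k)) (nAA t q oW y ρ Ng P Ax (nι N M' k)) + s₀)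
    (_ : 4 * (ε * q) ≤ s₀) (_ : ρ ≤ s₁) (_ : 0 < sr) (_ : sr ≤ s₁) (_ : s = sr * q)
    (_ : s₀ ≤ sr * q) {Dr : ℕ} (_ : D' ≤ Dr) {Lm : ℝ} (_ : 0 ≤ Lm) (_ : Lm ≤ t - K * q)
    (_ : NsQ C₀ N (N + (P - pc)) (L 3 (nAA t q oW y ρ Ng P Ax (nι N M' 0))
          (nWW t q oW ρ Ng P Vx (nι N M' 0)) +
        b * (nAA t q oW y ρ Ng P Ax (nι N M' N) - nAA t q oW y ρ Ng P Ax (nι N M' 0)) - Lm)
      L (nAA t q oW y ρ Ng P Ax) (nWW t q oW ρ Ng P Vx) (nι N M') (nσ Ng pc N) p z s₀ s ∨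
      MxS S c D Dr (Ng + P + 2 + Nx) L (Eb 3) (Eb 3) s s₀ (t + oV * q)
        (nAA t q oW y ρ Ng P Ax) (nWW t q oW ρ Ng P Vx) (nσ Ng pc N N)
        (L 3 (nAA t q oW y ρ Ng P Ax (nι N M' 0)) (nWW t q oW ρ Ng P Vx (nι N M' 0)) +
          b * (nAA t q oW y ρ Ng P Ax (nι N M' N) - nAA t q oW y ρ Ng P Ax (nι N M' 0)) - Lm) Ψ)
    {N₁ : ℕ} (_ : N₁ ≤ N) (_ : ((n : ℝ) + 1) * kr ≤ N₁ * ρ) (_ : Lm < ((N : ℝ) - N₁) * ρ * q)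
    (_ : |oW| + N₁ * ρ ≤ K) (_ : |oW| + (ne + b * (n + 2) + n + 10) * kr + xq ≤ K)
    (_ : ∀ i ≤ n, ∃ k < N', V' k = oW + ((i : ℝ) + 1) * kr) {sf : ℕ → ℕ → ℝ}
    (_ : ∀ i < n, ∀ l < 2, sf i l ≤ L l (t + oW * q + ((i : ℝ) + 2) * kr * q)
      (t + oW * q + ((i : ℝ) + 2) * kr * q))
    (_ : Bas S (fun J F A => ∃ (V : Type) (z : PtT F → V) (z' : LnT F → V)
      (G : V → MvPolynomial (Option (Fin 4)) ℝ), Ψ J F A V z z' G)),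
    ∃ wi : ℕ → ℚ, (∀ i ≤ n, 0 < wi i ∧ wi i ≤ 1 ∧ e₂ 3 < θ₂ 3 * wi i ∧
        ∀ j ≤ 3, bet (P₂ 3) c j (wi i) (wi i) + v * q / 16 ≤ 1) ∧
      (∀ i < n, t + oW * q + ((i : ℝ) + 2) * kr * q ≤ 1) ∧
      ∃ c₀ : ℝ, 0 < c₀ ∧ Bas S (fun J F A' => ∃ (V : Type) (z : PtT F → V) (z' : LnT F → V)
        (G : V → MvPolynomial (Option (Fin 4)) ℝ), Ψ J F A' V z z' G ∧
        ∃ B : F.Ω → Prop, Sub B A' ∧ c₀ * Pe F.p A' ≤ Pe F.p B ∧ ∃ t' : VbT F,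
          VbE F c B Kd n N₁ b ⌊(t + oV * q) * J⌋₊ z z' G t' ∧
          VbN (P₂ 3) c n b Cg ne Ac τ (kr * q) (v * q) (v * q / 16) (e₂ 3) (e₂ 3) (t + oV * q) wi
            (fun i => wi (i + 1)) (fun i => t + oW * q + ((i : ℝ) + 2) * kr * q) sf
            (fun i => L 3 (t + oW * q) (t + oW * q) + b * (((i : ℝ) + 1) * kr * q))
            (fun i => L 3 (t + oW * q) (t + oW * q) + b * (((i : ℝ) + 1) * kr * q) + kr * q)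
            t') := by
  classical
  obtain ⟨C₀, C, D', K₀, hC₀, hDD', hn1⟩ := n1_recL D b hD
  obtain ⟨E, hcut⟩ := Pool.STB77.cut_s 4 (D' + K₀ + b + 1) b (by omega) hb (by omega)
  obtain ⟨C₁, K₂, hDK₂, hev⟩ := Pool.STB77.vb_eventL (m := 4) D' K₀ b hcut
  refine ⟨C₀, D', K₂, hC₀, hDD', hDK₂, ?_⟩
  intro Kd hKd n Cg ne Ac τ kr hn hAc hτ hτ1 hkr
  obtain ⟨u₀, hu0, hu1, hu⟩ := vbn_vbt (n := n) (b := b) (Cg := Cg) (ne := ne) (C₀ := C₀)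
    (C₁ := C₁) (C := C) hn hb hAc hτ hτ1 hkr hC₀
  refine ⟨u₀, hu0, hu1, fun v hv hvu => ?_⟩
  obtain ⟨s₁, hs1, hs1v, hs⟩ := hu v hv hvu
  obtain ⟨s₂, hs2, hln⟩ := vb_line E C₀ C hv
  have hC₀r : (0 : ℝ) ≤ C₀ := Nat.cast_nonneg C₀
  refine ⟨min (min s₁ s₂) (kr / (2 * (C₀ + 1))), lt_min (lt_min hs1 hs2) (by positivity),
    (min_le_left _ _).trans ((min_le_left _ _).trans hs1v), ?_⟩
  intro S al g₀ P₀ θ P₂ θ₂ Eb e₂ c Pt r h Kn g L T Sl κ G S₀ N₀ A V S₂ N' V' K ε q t R S1 S3 hκ hε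
    hεv oW y ρ Ng P pc N M' Nx Ax Vx H gr hnd Db oV Ψ pN p p₂ zz hDb hio hΨs hΨ hbl hl3 hl2 xq xx s₀
    sr s hxq hxx hxxq hx hlq hlb hs₀ hρ hsr hsr1 hs' hs₀q Dr hDr Lm hLm0 hLm hmx N₁ hN₁ hN₁k hLN
    hN₁K hKn hV sf hsf hex
  have hq := R.q0
  have hr := gr.r0
  have hεq : 0 ≤ ε * q := by positivity
  have hs₀0 : 0 ≤ s₀ := by linarith
  have hsp : 0 < s := by rw [hs']; positivity
  have hρ1 : ρ ≤ s₁ := hρ.trans ((min_le_left _ _).trans (min_le_left _ _))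
  have hρ2 : ρ ≤ s₂ := hρ.trans ((min_le_left _ _).trans (min_le_right _ _))
  have hsr2 : sr ≤ s₁ := hsr1.trans ((min_le_left _ _).trans (min_le_left _ _))
  have hsr3 : sr ≤ s₂ := hsr1.trans ((min_le_left _ _).trans (min_le_right _ _))
  have hsr4 : sr ≤ kr / (2 * (C₀ + 1)) := hsr1.trans (min_le_right _ _)
  have hn0 : (0 : ℝ) ≤ n := Nat.cast_nonneg n
  have hb0 : (0 : ℝ) ≤ b := Nat.cast_nonneg b
  have hne0 : (0 : ℝ) ≤ ne := Nat.cast_nonneg ne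
  have hkK : kr ≤ K := by
    have h1 : 1 * kr ≤ (ne + b * (n + 2) + n + 10) * kr :=
      mul_le_mul_of_nonneg_right (by nlinarith [mul_nonneg hb0 hn0]) hkr.le
    have := abs_nonneg oW
    linarith
  have hCs : C₀ * (s₀ + 4 * s) ≤ 3 * K * q := by
    have h1 : s₀ + 4 * s ≤ 5 * (sr * q) := by rw [hs']; linarith
    have h2 : (C₀ : ℝ) * (s₀ + 4 * s) ≤ C₀ * (5 * (sr * q)) := mul_le_mul_of_nonneg_left h1 hC₀r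
    have h3 : (C₀ : ℝ) * sr ≤ kr / 2 := by
      have h4 : (C₀ : ℝ) * sr ≤ C₀ * (kr / (2 * (C₀ + 1))) := mul_le_mul_of_nonneg_left hsr4 hC₀r
      have h5 : (C₀ : ℝ) * (kr / (2 * (C₀ + 1))) ≤ kr / 2 := by
        rw [mul_div_assoc', div_le_div_iff₀ (by positivity) (by norm_num)]
        nlinarith
      linarith
    have h4 := mul_le_mul_of_nonneg_right h3 hq.le
    have h5 := mul_le_mul_of_nonneg_right hkK hq.le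
    have h6 : 0 < kr * q := by positivity
    nlinarith
  obtain ⟨z1, z2, z3, z4⟩ := ball_zero R H gr
  obtain ⟨w1, w2, w3⟩ := box_in R z3 z4
  have hNN : N ≤ N + (P - pc) := Nat.le_add_right _ _
  -- the labels
  obtain ⟨K₁, d, ψ, hK₁, hψ, hd, hbas⟩ := hn1 R S1 S3 hκ hε H gr hnd hDb hio hΨ hbl hl3 hl2 hxx hx
    hlq hlb hs₀ (v := 2 * ρ * q) (by nlinarith) hDr hsp hCs hLm0 hLm hmx
  have hMx : ∀ k ≤ N, nι N M' k < Ng + P + 2 + Nx := fun k hk => by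
    have := gr.ι_le (hk.trans hNN)
    omega
  have e0 : nι N M' 0 = 0 := nι_le (Nat.zero_le _)
  -- the numbers
  obtain ⟨wi, hwi, hai, J₀, hJ⟩ := hs ρ sr s₀ oW xq K ε hr hρ1 hsr hsr2 hxq hKn hε hεv R
    (by norm_num) S1 S3 hs₀0 hs₀q hV (wn := t + oV * q) (sf := sf) (by nlinarith) hsf (Nb := N₁)
    hN₁k hN₁K (s := s) (w := 2 * ρ * q) (xx := xx) (d := fun k l => d (nι N M' k) l)
    (d3 := d 0 3) hs' rfl hxx hxxq (fun k hk l hl => by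
      obtain ⟨h1, h2, -⟩ := hd _ (hMx k (hk.trans hN₁)) l (by omega)
      exact ⟨h1.le, h2⟩) (by
      obtain ⟨h1, h2, -⟩ := hd 0 (by omega) 3 le_rfl
      exact ⟨h1.le, h2⟩)
  obtain ⟨J₁, hJ₁⟩ := hln ρ sr s₀ q hr hρ2 hsr hsr3 hq hs₀0 hs₀q hs' (w := 2 * ρ * q) rfl
  have hnA : ∀ k ≤ N, nAA t q oW y ρ Ng P Ax (nι N M' k) = t + oW * q + k * ρ * q := by
    intro k hk
    rw [nι_le hk, nAA_ball (hk.trans gr.NNg)]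
    ring
  obtain ⟨J₂, hJ₂⟩ := fl_loss (x := t + oW * q + N₁ * ρ * q) (y := t + oW * q + N * ρ * q)
    (z := Lm) (by positivity) hLm0 (by linarith)
  refine ⟨wi, hwi, hai, 1 / (8 * K₁), by positivity, ?_⟩
  -- the events
  have hl2'' : 1 / 2 < Real.log 2 := by linarith [Real.log_two_gt_d9]
  have hvq : 0 < v * q := by positivity
  have hfin := hev (K := Kd) (n := n) (N := N) (N₁ := N₁) hKd hN₁ R.tmh R.ne (c := c) (Ψ := Ψ)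
    (wn := t + oV * q) (w := t + oW * q) (ε := v * q / 16) (K₁ := K₁) (by positivity) w3 hK₁ hΨs
    (fun J F A V z z' G hG => by
      have h1 := hΨ J F A V z z' G hG
      refine ⟨fun v => (h1.deg v).trans (hDD'.trans (hDK₂.trans hKd)), fun v b b' hb hbb => ?_,
        h1.cls⟩
      refine h1.dep v b b' hb fun i hi => ?_
      obtain ⟨l, hl, rfl⟩ := Finset.mem_image.1 hi
      exact hbb l (Finset.mem_range.1 hl))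
    hex (W := fun J => ⌊(t + oW * q) * J⌋₊) (k := fun J => ⌊kr * q * J⌋₊)
    (y := fun J => ⌊v * q * J⌋₊) (x := fun J => ⌊v * q * J⌋₊)
    (g₃ := fun J => ⌊(L 3 (t + oW * q) (t + oW * q) - d 0 3) * J⌋₊)
    (e₁' := fun J => C₀ * (⌊(s₀ + 3 * s) * J⌋₊ + 1) + ⌊Eb 3 * J⌋₊)
    (e₁ := fun J => ⌊e₂ 3 * J⌋₊ - 1)
    (e₂ := fun J => C₀ * (⌊(s₀ + 3 * s) * J⌋₊ + 1) + ⌊Eb 3 * J⌋₊ + ⌊v * q * J⌋₊ +
      2 * ⌊v * q * J⌋₊ + 6)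
    (st := fun J => C₁ * (C₀ * (⌊(s₀ + 3 * s) * J⌋₊ + 1) + (⌊2 * ρ * q * J⌋₊ + 1) + 1))
    (lz := fun J => (C * (⌊(s₀ + 3 * s) * J⌋₊ + ⌊2 * ρ * q * J⌋₊ + 1) + ⌊(Eb 3 + s) * J⌋₊ +
      ⌊xx * J⌋₊) + nlp (fun j => if j < 3 then ⌊(L j (nAA t q oW y ρ Ng P Ax (nι N M' 0))
        (nWW t q oW ρ Ng P Vx (nι N M' 0)) - d (nι N M' 0) j) * J⌋₊ else
        ⌊(L 3 (t + oW * q) (t + oW * q) - d 0 3) * J⌋₊) 0 3)
    (s := fun J => C₀ * (⌊(s₀ + 3 * s) * J⌋₊ + 1)) (v := fun J => ⌊2 * ρ * q * J⌋₊ + 1)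
    (y₀ := fun J => C * (⌊(s₀ + 3 * s) * J⌋₊ + ⌊2 * ρ * q * J⌋₊ + 1))
    (e := fun J => ⌊Eb 3 * J⌋₊)
    (X := fun J => C * (⌊(s₀ + 3 * s) * J⌋₊ + ⌊2 * ρ * q * J⌋₊ + 1) + ⌊(Eb 3 + s) * J⌋₊ +
      ⌊xx * J⌋₊) (Lx := fun J => ⌊Lm * J⌋₊ + 1)
    (A := fun J k => ⌊nAA t q oW y ρ Ng P Ax (nι N M' k) * J⌋₊)
    (ee := fun J _ => ⌊(Eb 3 + s) * J⌋₊)
    (g := fun J k l => ⌊(L l (nAA t q oW y ρ Ng P Ax (nι N M' k))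
      (nWW t q oW ρ Ng P Vx (nι N M' k)) - d (nι N M' k) l) * J⌋₊)
    (jb := gjb kr ρ) (ji := fun i => gjb kr ρ (i + 1))
    (Bas.mono 0 hbas fun J _ F A' hA V z z' G hG => by
      obtain ⟨B, Gn, Hn, pP, pH, xP, xH, zP, zH, f, f', kf, gS, h1, h2, h3⟩ := hA V z z' G hG
      exact ⟨B, Gn, Hn, pP, pH, xP, xH, zP, zH, f, f', kf, gS, h1, h2, h3⟩)
    (J₀ := max J₀ (max J₁ J₂)) (fun J hJJ => by
      have h1 := (hJ J ((le_max_left _ _).trans hJJ) (Ab := fun k =>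
        ⌊nAA t q oW y ρ Ng P Ax (nι N M' k) * J⌋₊)
        (g' := fun k l => ⌊(L l (nAA t q oW y ρ Ng P Ax (nι N M' k))
          (nWW t q oW ρ Ng P Vx (nι N M' k)) - d (nι N M' k) l) * J⌋₊) rfl rfl rfl rfl rfl rfl rfl
        rfl rfl rfl rfl rfl rfl (fun k hk => by rw [hnA k (hk.trans hN₁)]) (fun k hk l hl => by
          obtain ⟨b1, b2, -, -⟩ := ball_at R H gr (k := k) ((hk.trans hN₁).trans hNN)
          show ⌊(L l (nAA t q oW y ρ Ng P Ax (nι N M' k))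
            (nWW t q oW ρ Ng P Vx (nι N M' k)) - d (nι N M' k) l) * (J : ℝ)⌋₊ = _
          rw [b2, ← b1, hnA k (hk.trans hN₁)])).1
      exact { h1 with
        sy := by
          have h2 := h1.sy
          have h3 : v * q / 16 * J ≤ v * q / 8 * Real.log 2 * J := by
            have : 0 ≤ v * q / 8 * (J : ℝ) := by positivity
            nlinarith
          linarith })
    (fun J hJJ => by
      show ⌊nAA t q oW y ρ Ng P Ax (nι N M' N₁) * (J : ℝ)⌋₊ + (⌊Lm * (J : ℝ)⌋₊ + 1) ≤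
        ⌊nAA t q oW y ρ Ng P Ax (nι N M' N) * (J : ℝ)⌋₊
      rw [hnA N₁ hN₁, hnA N le_rfl]
      exact hJ₂ J ((le_max_right _ _).trans ((le_max_right _ _).trans hJJ)))
    (fun J hJJ => hJ₁ J ((le_max_left _ _).trans ((le_max_right _ _).trans hJJ)) rfl rfl rfl)
  refine Bas.mono J₀ hfin ?_
  rintro J hJJ F A' ⟨V₁, z₁, z₁', G₁, hG, B, hB, hPB, t', hE, Gn, Hn, pP, pH, zP, zH, f, f', kf,
    ht'⟩
  refine ⟨V₁, z₁, z₁', G₁, hG, B, hB, hPB, t', hE, ?_⟩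
  rw [ht']
  exact (hJ J hJJ (Ab := fun k => ⌊nAA t q oW y ρ Ng P Ax (nι N M' k) * J⌋₊)
    (g' := fun k l => ⌊(L l (nAA t q oW y ρ Ng P Ax (nι N M' k))
      (nWW t q oW ρ Ng P Vx (nι N M' k)) - d (nι N M' k) l) * J⌋₊) rfl rfl rfl rfl rfl rfl rfl
    rfl rfl rfl rfl rfl rfl (fun k hk => by rw [hnA k (hk.trans hN₁)]) (fun k hk l hl => by
      obtain ⟨b1, b2, -, -⟩ := ball_at R H gr (k := k) ((hk.trans hN₁).trans hNN)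
      show ⌊(L l (nAA t q oW y ρ Ng P Ax (nι N M' k))
        (nWW t q oW ρ Ng P Vx (nι N M' k)) - d (nι N M' k) l) * (J : ℝ)⌋₊ = _
      rw [b2, ← b1, hnA k (hk.trans hN₁)])).2 F Gn Hn pP pH zP zH f f' kf

end Pool.STB6
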