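import Pool.Agent.H98.STB.VrR

/-!
# The static chain at a record, with a loss

`nsq_num`: the numbers `NsQ` from the lower bounds of the static pairs. `nsq_rec`: the slope of `c 2`
is smaller than the static slope: one of the pairs `(oW + (pc + 1) y, oW)`, `Q ≤ pc ≤ P`; a coarse
grid, with the loss `Lm`. `nsq_sta`: `c 2` is static, the last pair.
-/

set_option autoImplicit false

namespace Pool.STB6

open Finset Real MvPolynomial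
open Pool.Agent.H49.Ent Pool.Agent.H32.Dense Pool.STK Pool.KA Pool.KSAT Pool.K2S Pool.PB Pool.S6C
open Pool.GEN Pool.RCD Pool.LA91 Pool.PKG
open Pool.STB65 (NsR NsQ)
open Pool.STB (nAA nWW nι nσ LsN GrN ball_at ball_zero pair_at box_in lv_lin lv_sta lv_mono nι_le)

section

variable {m : ℕ} {S : PCl m} {al : ℝ} {g₀ : ℝ → ℝ} {P₀ : List (Fin m) × Fin m → ℝ → ℝ → ℝ}
  {θ : ℝ} {P₂ : ℕ → List (Fin m) × Fin m → ℝ → ℝ → ℝ} {θ₂ Eb e₂ : ℕ → ℝ}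
  {c : ℕ → Fin m} {Pt : ℝ → ℝ → ℝ} {r : ℝ → ℝ} {h K₀ g : ℝ} {L T : ℕ → ℝ → ℝ → ℝ}
  {Sl : ℕ → ℝ} {κ : ℕ → Kg} {G : Set ℝ} {S₀ N₀ : ℕ} {A V : ℕ → ℝ} {S₂ N' : ℕ} {V' : ℕ → ℝ}
  {K ε q t : ℝ}

/-- **The numbers of the static chain**, if no later static pair of `c 2` is much larger than the
first one, and no later ball. -/
theorem nsq_num
    (R : RecG S al g₀ P₀ θ P₂ θ₂ Eb e₂ c Pt r h K₀ g L T Sl κ G S₀ N₀ A V S₂ N' V' K ε q t)
    (hm : 3 < m) {b : ℕ} (hS3 : Sl 3 = b) (hκ : κ 3 = .sta) (hε : 0 ≤ ε)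
    {oW y ρ : ℝ} {Ng P pc N M' Nx : ℕ} {Ax Vx : ℕ → ℝ}
    (H : LsN oW y ρ Ng P Nx Ax Vx N₀ A V N' V' K) (gr : GrN y ρ Ng P pc N M')
    {s₀ Lm z : ℝ} (hz1 : (b * y + 3 * ε) * q ≤ s₀ + Lm)
    (hF : ∀ j : ℕ, pc + 1 ≤ j → j ≤ P + 1 →
      L 2 (t + (oW + (j : ℝ) * y) * q) (t + oW * q) ≤
        L 2 (t + (oW + ((pc + 1 : ℕ) : ℝ) * y) * q) (t + oW * q) +
          b * (((j : ℝ) - ((pc + 1 : ℕ) : ℝ)) * y * q))
    (hB : L 2 (t + (oW + ((P + 1 : ℕ) : ℝ) * y) * q) (t + (oW + ((P + 1 : ℕ) : ℝ) * y) * q) + z +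
        3 * (ε * q) ≤
      s₀ + Lm + L 2 (t + (oW + ((pc + 1 : ℕ) : ℝ) * y) * q) (t + oW * q) +
        b * ((((P + 1 : ℕ) : ℝ) - ((pc + 1 : ℕ) : ℝ)) * y * q))
    {C : ℕ} {s η X : ℝ} (hs₀ : 0 ≤ s₀) (hCz : C * (s₀ + 6 * s) ≤ z)
    (hηz : 2 * (η * q) ≤ z) (hXz : X * q ≤ z) (hc : C * (s₀ + 6 * s) + 2 * s ≤ t - K * q) :
    NsQ C N (N + (P - pc)) (L 3 (nAA t q oW y ρ Ng P Ax (nι N M' 0))
          (nWW t q oW ρ Ng P Vx (nι N M' 0)) +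
        b * (nAA t q oW y ρ Ng P Ax (nι N M' N) - nAA t q oW y ρ Ng P Ax (nι N M' 0)) - Lm)
      L (nAA t q oW y ρ Ng P Ax) (nWW t q oW ρ Ng P Vx) (nι N M') (nσ Ng pc N)
      (fun k => L 3 (nAA t q oW y ρ Ng P Ax (nι N M' k)) (nAA t q oW y ρ Ng P Ax (nι N M' k)) -
        2 * (η * q))
      (fun k => L 2 (nAA t q oW y ρ Ng P Ax (nι N M' k)) (nAA t q oW y ρ Ng P Ax (nι N M' k)) -
        L 3 (nAA t q oW y ρ Ng P Ax (nι N M' k)) (nAA t q oW y ρ Ng P Ax (nι N M' k)) + X * q)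
      s₀ s := by
  have hq := R.q0
  have hy := gr.y0
  have hyq : 0 < y * q := mul_pos hy hq
  have hb0 : (0 : ℝ) ≤ b := Nat.cast_nonneg b
  have hεq : 0 ≤ ε * q := by positivity
  have hpP := gr.pP
  obtain ⟨z1, z2, z3, z4⟩ := ball_zero R H gr
  obtain ⟨w1, w2, w3⟩ := box_in R z3 z4
  -- the pairs and the balls
  have hpr : ∀ i, pc + i ≤ P →
      nAA t q oW y ρ Ng P Ax (nσ Ng pc N (N + i)) =
        t + (oW + ((pc + 1 + i : ℕ) : ℝ) * y) * q ∧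
      nWW t q oW ρ Ng P Vx (nσ Ng pc N (N + i)) = t + oW * q ∧
      nAA t q oW y ρ Ng P Ax (nι N M' (N + i)) = t + (oW + ((pc + 1 + i : ℕ) : ℝ) * y) * q ∧
      nWW t q oW ρ Ng P Vx (nι N M' (N + i)) = t + (oW + ((pc + 1 + i : ℕ) : ℝ) * y) * q ∧
      |t + (oW + ((pc + 1 + i : ℕ) : ℝ) * y) * q - t| ≤ K * q ∧
      t + oW * q ≤ t + (oW + ((pc + 1 + i : ℕ) : ℝ) * y) * q ∧
      t + (oW + ((pc + 1 + i : ℕ) : ℝ) * y) * q < 1 := by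
    intro i hi
    obtain ⟨s1, s2, -, s4, s5, s6, s7⟩ := pair_at R H gr hi
    have s8 := (ball_at R H gr (k := N + i) (by omega)).2.1
    have s9 := (ball_at R H gr (k := N + i) (by omega)).1
    obtain ⟨b1, b2, b3⟩ := box_in R s5 s6
    refine ⟨by rw [s1, s4], s2, s4, ?_, b1, by nlinarith, b3⟩
    rw [s8, ← s9, s4]
  -- the levels
  have hlin : ∀ l < m, ∀ i, pc + i ≤ P →
      |L l (t + (oW + ((pc + 1 + i : ℕ) : ℝ) * y) * q)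
        (t + (oW + ((pc + 1 + i : ℕ) : ℝ) * y) * q) - L l (t + oW * q) (t + oW * q) -
        Sl l * (((pc + 1 + i : ℕ) : ℝ) * y * q)| ≤ 2 * (ε * q) := by
    intro l hl i hi
    have h1 := lv_lin R hl w1 (hpr i hi).2.2.2.2.1
    have e : t + (oW + ((pc + 1 + i : ℕ) : ℝ) * y) * q - (t + oW * q) =
      ((pc + 1 + i : ℕ) : ℝ) * y * q := by ring
    rw [e] at h1
    exact h1
  have h3b : ∀ i, pc + i ≤ P → L 3 (t + oW * q) (t + oW * q) +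
      b * (((pc + 1 + i : ℕ) : ℝ) * y * q) ≤
      L 3 (t + (oW + ((pc + 1 + i : ℕ) : ℝ) * y) * q)
        (t + (oW + ((pc + 1 + i : ℕ) : ℝ) * y) * q) + 2 * (ε * q) := by
    intro i hi
    have h1 := (abs_le.1 (hlin 3 hm i hi)).1
    rw [hS3] at h1
    linarith
  have h3s : ∀ i, pc + i ≤ P → L 3 (t + oW * q) (t + oW * q) +
      b * (((pc + 1 + i : ℕ) : ℝ) * y * q) ≤
      L 3 (t + (oW + ((pc + 1 + i : ℕ) : ℝ) * y) * q) (t + oW * q) + 3 * (ε * q) := by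
    intro i hi
    have h1 := h3b i hi
    obtain ⟨-, -, -, -, b1, b2, -⟩ := hpr i hi
    have h2 := lv_sta R hm hκ (a := t + (oW + ((pc + 1 + i : ℕ) : ℝ) * y) * q)
      (w := t + oW * q) (by linarith [(abs_le.1 w1).1]) b2 (by linarith [(abs_le.1 b1).2])
    linarith
  have hlow : ∀ l < m, ∀ i, pc + i ≤ P →
      t - K * q ≤ L l (t + (oW + ((pc + 1 + i : ℕ) : ℝ) * y) * q) (t + oW * q) ∧
      0 ≤ L l (t + (oW + ((pc + 1 + i : ℕ) : ℝ) * y) * q) (t + oW * q) ∧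
      0 ≤ L l (t + (oW + ((pc + 1 + i : ℕ) : ℝ) * y) * q)
        (t + (oW + ((pc + 1 + i : ℕ) : ℝ) * y) * q) := by
    intro l hl i hi
    obtain ⟨-, -, -, -, b1, b2, b3⟩ := hpr i hi
    have h1 := R.low_at hl w2.le b2 b3.le
    have h2 := R.low_at hl (w2.le.trans b2) le_rfl b3.le
    exact ⟨by linarith [(abs_le.1 w1).1], by linarith, by linarith⟩
  have hFi : ∀ i, pc + i ≤ P →
      L 2 (t + (oW + ((pc + 1 + i : ℕ) : ℝ) * y) * q) (t + oW * q) ≤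
        L 2 (t + (oW + ((pc + 1 : ℕ) : ℝ) * y) * q) (t + oW * q) +
          b * ((i : ℝ) * y * q) := by
    intro i hi
    have h1 := hF (pc + 1 + i) (by omega) (by omega)
    have e : (((pc + 1 + i : ℕ) : ℝ) - ((pc + 1 : ℕ) : ℝ)) = i := by push_cast; ring
    rw [e] at h1
    exact h1
  have e0 : pc + 0 ≤ P := hpP
  obtain ⟨n1, n2, n3, n4, -, -, -⟩ := hpr 0 e0
  rw [Nat.add_zero] at n1 n2 n3 n4
  -- the amount of the target at the last ball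
  obtain ⟨i₁, hi₁⟩ : ∃ i₁, i₁ = P - pc := ⟨_, rfl⟩
  have hi1 : pc + i₁ ≤ P := by omega
  have hP1 : pc + 1 + i₁ = P + 1 := by omega
  obtain ⟨l1, l2, l3, l4, l5, l6, l7⟩ := hpr i₁ hi1
  have eN : N + i₁ = N + (P - pc) := by rw [hi₁]
  have hiP : (i₁ : ℝ) = ((P + 1 : ℕ) : ℝ) - ((pc + 1 : ℕ) : ℝ) := by
    rw [← hP1]
    push_cast
    ring
  have hBi : L 2 (t + (oW + ((pc + 1 + i₁ : ℕ) : ℝ) * y) * q)
      (t + (oW + ((pc + 1 + i₁ : ℕ) : ℝ) * y) * q) + z + 3 * (ε * q) ≤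
      s₀ + Lm + L 2 (t + (oW + ((pc + 1 : ℕ) : ℝ) * y) * q) (t + oW * q) +
        b * ((i₁ : ℝ) * y * q) := by
    rw [hP1, hiP]
    exact hB
  have hγ : L 3 (t + oW * q) (t + oW * q) +
      b * (t + (oW + ((pc + 1 : ℕ) : ℝ) * y) * q - (t + oW * q)) - Lm =
      L 3 (t + oW * q) (t + oW * q) + b * (((pc + 1 : ℕ) : ℝ) * y * q) - Lm := by ring
  have hsp : ∀ i : ℕ, b * (((pc + 1 + i : ℕ) : ℝ) * y * q) =
      b * (((pc + 1 : ℕ) : ℝ) * y * q) + b * ((i : ℝ) * y * q) := by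
    intro i
    push_cast
    ring
  rw [z1, z2, n3, hγ, ← eN]
  have hmz : 3 * (ε * q) ≤ s₀ + Lm := by
    have : 0 ≤ b * (y * q) := by positivity
    linarith
  constructor
  · intro k hk1 hk2
    obtain ⟨i, rfl⟩ : ∃ i, k = N + i := ⟨k - N, by omega⟩
    obtain ⟨b1, b2, -, -, -, -, -⟩ := hpr i (by omega)
    rw [b1, b2]
    exact (hlow 2 (by omega) i (by omega)).2.1
  · rw [l3, l4]
    exact (hlow 2 (by omega) i₁ hi1).2.2
  · intro k hk1 hk2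
    obtain ⟨i, rfl⟩ : ∃ i, k = N + i := ⟨k - N, by omega⟩
    obtain ⟨b1, b2, -, -, -, -, -⟩ := hpr i (by omega)
    obtain ⟨c1, c2, -, -, -, -, -⟩ := hpr (i + 1) (by omega)
    rw [Nat.add_assoc, c1, c2, b1, b2, n1, n2]
    have h1 := hFi (i + 1) (by omega)
    have h2 := h3s i (by omega)
    rw [hsp i] at h2
    have e : b * (((i + 1 : ℕ) : ℝ) * y * q) = b * ((i : ℝ) * y * q) + b * (y * q) := by
      push_cast
      ring
    rw [e] at h1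
    linarith
  · intro k hk1 hk2
    obtain ⟨i, rfl⟩ : ∃ i, k = N + i := ⟨k - N, by omega⟩
    obtain ⟨b1, b2, -, -, -, -, -⟩ := hpr i (by omega)
    rw [b1, b2, n1, n2]
    have h1 := hFi i (by omega)
    have h2 := h3s i (by omega)
    rw [hsp i] at h2
    linarith
  · rw [l1, l2]
    exact hc.trans (hlow 3 hm i₁ hi1).1
  · rw [l3, l4, n1, n2, l1, l2]
    have h2 := h3s i₁ hi1
    rw [hsp i₁] at h2
    linarith
  · rw [l3, l4, n1, n2]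
    have h2 := h3b i₁ hi1
    rw [hsp i₁] at h2
    linarith
  · intro l hl
    rw [l1, l2, l3, l4]
    have h1 := lv_mono R (l := l) (by omega) w2.le l6 le_rfl l6 le_rfl l7.le
    linarith
  · rw [n1, n2]
    have e3 : nAA t q oW y ρ Ng P Ax (nι N M' (N + i₁)) =
      t + (oW + ((pc + 1 + i₁ : ℕ) : ℝ) * y) * q := l3
    show L 2 (nAA t q oW y ρ Ng P Ax (nι N M' (N + i₁)))
      (nAA t q oW y ρ Ng P Ax (nι N M' (N + i₁))) -
      L 3 (nAA t q oW y ρ Ng P Ax (nι N M' (N + i₁)))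
        (nAA t q oW y ρ Ng P Ax (nι N M' (N + i₁))) + X * q + _ ≤ _
    rw [e3]
    have h2 := h3b i₁ hi1
    rw [hsp i₁] at h2
    linarith

/-- **The static chain at a record**: the slope of `c 2` is smaller than the static slope. -/
theorem nsq_rec
    (R : RecG S al g₀ P₀ θ P₂ θ₂ Eb e₂ c Pt r h K₀ g L T Sl κ G S₀ N₀ A V S₂ N' V' K ε q t)
    (hm : 3 < m) {b : ℕ} (hS3 : Sl 3 = b) (hκ : κ 3 = .sta) (hε : 0 ≤ ε) {oW y : ℝ} (hy : 0 < y)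
    {Q P : ℕ} (hQP : Q ≤ P) (ho : -K ≤ oW) (ho' : oW + ((P + 1 : ℕ) : ℝ) * y ≤ K) :
    ∃ pc, Q ≤ pc ∧ pc ≤ P ∧ ∀ {ρ : ℝ} {Ng N M' Nx : ℕ} {Ax Vx : ℕ → ℝ}
      (_ : LsN oW y ρ Ng P Nx Ax Vx N₀ A V N' V' K) (_ : GrN y ρ Ng P pc N M')
      {s₀ Lm z : ℝ} (_ : (b * y + 3 * ε) * q ≤ s₀ + Lm)
      (_ : b * (((Q + 1 : ℕ) : ℝ) * y * q) + z + 5 * (ε * q) ≤
        s₀ + Lm + (b - Sl 2) * (((P + 1 : ℕ) : ℝ) * y * q))
      {C : ℕ} {s η X : ℝ} (_ : 0 ≤ s₀) (_ : C * (s₀ + 6 * s) ≤ z)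
      (_ : 2 * (η * q) ≤ z) (_ : X * q ≤ z) (_ : C * (s₀ + 6 * s) + 2 * s ≤ t - K * q),
      NsQ C N (N + (P - pc)) (L 3 (nAA t q oW y ρ Ng P Ax (nι N M' 0))
            (nWW t q oW ρ Ng P Vx (nι N M' 0)) +
          b * (nAA t q oW y ρ Ng P Ax (nι N M' N) - nAA t q oW y ρ Ng P Ax (nι N M' 0)) - Lm)
        L (nAA t q oW y ρ Ng P Ax) (nWW t q oW ρ Ng P Vx) (nι N M') (nσ Ng pc N)
        (fun k => L 3 (nAA t q oW y ρ Ng P Ax (nι N M' k)) (nAA t q oW y ρ Ng P Ax (nι N M' k)) -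
          2 * (η * q))
        (fun k => L 2 (nAA t q oW y ρ Ng P Ax (nι N M' k)) (nAA t q oW y ρ Ng P Ax (nι N M' k)) -
          L 3 (nAA t q oW y ρ Ng P Ax (nι N M' k)) (nAA t q oW y ρ Ng P Ax (nι N M' k)) + X * q)
        s₀ s := by
  have hq := R.q0
  -- the argument of the maximum
  obtain ⟨F, hFd⟩ : ∃ F : ℕ → ℝ, ∀ j, F j = L 2 (t + (oW + (j : ℝ) * y) * q) (t + oW * q) -
    b * ((j : ℝ) * y * q) := ⟨fun j => _, fun j => rfl⟩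
  obtain ⟨j₀, hj₀, hmax⟩ := Finset.exists_max_image (Finset.Icc (Q + 1) (P + 1)) F
    ⟨Q + 1, Finset.mem_Icc.2 ⟨le_rfl, by omega⟩⟩
  rw [Finset.mem_Icc] at hj₀
  obtain ⟨pc, rfl⟩ : ∃ pc, j₀ = pc + 1 := ⟨j₀ - 1, by omega⟩
  refine ⟨pc, by omega, by omega, ?_⟩
  intro ρ Ng N M' Nx Ax Vx H gr s₀ Lm z hz1 hz2 C s η X hs₀ hCz hηz hXz hc
  have hm1 : ∀ j, Q + 1 ≤ j → j ≤ P + 1 → F j ≤ F (pc + 1) := fun j h1 h2 =>
    hmax j (Finset.mem_Icc.2 ⟨h1, h2⟩)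
  refine nsq_num R hm hS3 hκ hε H gr (z := z) hz1 (fun j h1 h2 => ?_) ?_ hs₀ hCz hηz hXz hc
  · have h3 := hm1 j (by omega) h2
    rw [hFd, hFd] at h3
    have e : b * (((j : ℝ) - ((pc + 1 : ℕ) : ℝ)) * y * q) = b * ((j : ℝ) * y * q) -
      b * (((pc + 1 : ℕ) : ℝ) * y * q) := by ring
    rw [e]
    linarith
  · have h3 := hm1 (Q + 1) le_rfl (by omega)
    rw [hFd, hFd] at h3
    -- the window
    have hP1 : (0 : ℝ) ≤ ((P + 1 : ℕ) : ℝ) * y := by positivity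
    have w := box_in R ho (by linarith : oW ≤ K)
    have hQ1 : ((Q + 1 : ℕ) : ℝ) * y ≤ ((P + 1 : ℕ) : ℝ) * y :=
      mul_le_mul_of_nonneg_right (by exact_mod_cast (by omega : Q + 1 ≤ P + 1)) hy.le
    have hQ0 : (0 : ℝ) ≤ ((Q + 1 : ℕ) : ℝ) * y := by positivity
    have w' := box_in R (o := oW + ((Q + 1 : ℕ) : ℝ) * y) (by linarith) (by linarith)
    have wP := box_in R (o := oW + ((P + 1 : ℕ) : ℝ) * y) (by linarith) ho'
    have hwa : t + oW * q ≤ t + (oW + ((Q + 1 : ℕ) : ℝ) * y) * q := by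
      have := mul_nonneg hQ0 hq.le
      linarith
    have h4 := lv_mono R (l := 2) (by omega) w.2.1.le le_rfl hwa le_rfl hwa w'.2.2.le
    have h5 := (abs_le.1 (lv_lin R (l := 2) (by omega) w.1 wP.1)).2
    have e1 : Sl 2 * (t + (oW + ((P + 1 : ℕ) : ℝ) * y) * q - (t + oW * q)) =
      Sl 2 * (((P + 1 : ℕ) : ℝ) * y * q) := by ring
    rw [e1] at h5
    have e : b * ((((P + 1 : ℕ) : ℝ) - ((pc + 1 : ℕ) : ℝ)) * y * q) =
      b * (((P + 1 : ℕ) : ℝ) * y * q) - b * (((pc + 1 : ℕ) : ℝ) * y * q) := by ring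
    rw [e]
    have e2 : (b - Sl 2) * (((P + 1 : ℕ) : ℝ) * y * q) = b * (((P + 1 : ℕ) : ℝ) * y * q) -
      Sl 2 * (((P + 1 : ℕ) : ℝ) * y * q) := by ring
    rw [e2] at hz2
    linarith

/-- **The static chain at a record**: `c 2` is static; the last pair. -/
theorem nsq_sta
    (R : RecG S al g₀ P₀ θ P₂ θ₂ Eb e₂ c Pt r h K₀ g L T Sl κ G S₀ N₀ A V S₂ N' V' K ε q t)
    (hm : 3 < m) {b : ℕ} (hS3 : Sl 3 = b) (hκ : κ 3 = .sta) (hκ2 : κ 2 = .sta) (hε : 0 ≤ ε)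
    {oW y ρ : ℝ} {Ng P pc N M' Nx : ℕ} {Ax Vx : ℕ → ℝ} (hpc : pc = P)
    (H : LsN oW y ρ Ng P Nx Ax Vx N₀ A V N' V' K) (gr : GrN y ρ Ng P pc N M')
    {s₀ Lm z : ℝ} (hz1 : (b * y + 3 * ε) * q ≤ s₀ + Lm) (hz2 : z + 4 * (ε * q) ≤ s₀ + Lm)
    {C : ℕ} {s η X : ℝ} (hs₀ : 0 ≤ s₀) (hCz : C * (s₀ + 6 * s) ≤ z)
    (hηz : 2 * (η * q) ≤ z) (hXz : X * q ≤ z) (hc : C * (s₀ + 6 * s) + 2 * s ≤ t - K * q) :
    NsQ C N (N + (P - pc)) (L 3 (nAA t q oW y ρ Ng P Ax (nι N M' 0))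
          (nWW t q oW ρ Ng P Vx (nι N M' 0)) +
        b * (nAA t q oW y ρ Ng P Ax (nι N M' N) - nAA t q oW y ρ Ng P Ax (nι N M' 0)) - Lm)
      L (nAA t q oW y ρ Ng P Ax) (nWW t q oW ρ Ng P Vx) (nι N M') (nσ Ng pc N)
      (fun k => L 3 (nAA t q oW y ρ Ng P Ax (nι N M' k)) (nAA t q oW y ρ Ng P Ax (nι N M' k)) -
        2 * (η * q))
      (fun k => L 2 (nAA t q oW y ρ Ng P Ax (nι N M' k)) (nAA t q oW y ρ Ng P Ax (nι N M' k)) -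
        L 3 (nAA t q oW y ρ Ng P Ax (nι N M' k)) (nAA t q oW y ρ Ng P Ax (nι N M' k)) + X * q)
      s₀ s := by
  have hq := R.q0
  have hy := gr.y0
  refine nsq_num R hm hS3 hκ hε H gr (z := z) hz1 (fun j h1 h2 => ?_) ?_ hs₀ hCz hηz hXz hc
  · obtain rfl : j = pc + 1 := by omega
    rw [sub_self]
    have : (b : ℝ) * (0 * y * q) = 0 := by ring
    linarith
  · rw [hpc, sub_self]
    have e : (b : ℝ) * (0 * y * q) = 0 := by ring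
    rw [e]
    have hP := H.o1
    have hP1 : (0 : ℝ) ≤ ((P + 1 : ℕ) : ℝ) * y := by positivity
    have w := box_in R H.o0 (by linarith : oW ≤ K)
    have wP := box_in R (o := oW + ((P + 1 : ℕ) : ℝ) * y) (by linarith [H.o0]) hP
    have hwa : t + oW * q ≤ t + (oW + ((P + 1 : ℕ) : ℝ) * y) * q := by
      have := mul_nonneg hP1 hq.le
      linarith
    have h1 := lv_sta R (by omega) hκ2 (a := t + (oW + ((P + 1 : ℕ) : ℝ) * y) * q)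
      (w := t + oW * q) (by linarith [(abs_le.1 w.1).1]) hwa (by linarith [(abs_le.1 wP.1).2])
    linarith

end

end Pool.STB6
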