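import Mathlib.Tactic.Linarith
import Mathlib.Tactic.Positivity
import Mathlib.Tactic.Ring
import Mathlib.Tactic.FieldSimp
import Mathlib.Data.Real.Archimedean
import Mathlib.Algebra.Order.Floor.Semiring

/-!
# Inequalities of the numbers of the class theorem

`NQ`: the numbers of an event at the windows of a record, in the unit of a digit. `nq_*`: the
inequalities of `VbN`.
-/

set_option autoImplicit false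

namespace Pool.STB6

/-- Floors. -/
theorem fl_up {z : ℝ} (h : 0 ≤ z) : (⌊z⌋₊ : ℝ) ≤ z := Nat.floor_le h

theorem fl_lo (z : ℝ) : z - 1 ≤ (⌊z⌋₊ : ℝ) := by
  have := Nat.lt_floor_add_one z
  linarith

theorem fl_up' {z u : ℝ} (h : z ≤ u) (hu : 0 ≤ u) : (⌊z⌋₊ : ℝ) ≤ u := by
  rcases le_or_gt 0 z with h0 | h0
  · exact (Nat.floor_le h0).trans h
  · rw [Nat.floor_of_nonpos h0.le]
    push_cast
    exact hu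

/-- A natural number below a real one is below its floor. -/
theorem nat_le_fl {a : ℕ} {z : ℝ} (h : (a : ℝ) ≤ z) : a ≤ ⌊z⌋₊ := Nat.le_floor h

/-- **The numbers in the unit of a digit.** -/
structure NQ (n b C Cg ne J : ℕ) (Z kQ KQ xQ EJ eJ LJ1 LJ3 aJ : ℝ)
    (W k y x g1 g3 e1' e2 e1 s lz : ℕ) : Prop where
  n1 : 1 ≤ n
  b1 : 1 ≤ b
  zb : 16 * (((b : ℝ) + 1) * (n + 2)) + 16 * C + 16 * Cg + 256 ≤ Z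
  kz : 8 * Z ≤ kQ
  cg : Cg * Z + Z ≤ kQ
  kj : ne * kQ + b * n * kQ + 2 * b * kQ + n * kQ + 10 * kQ + xQ ≤ KQ
  xq : 0 ≤ xQ
  k1 : (k : ℝ) ≤ kQ
  k2 : kQ - 1 ≤ k
  y1 : (y : ℝ) ≤ Z
  y2 : Z - 1 ≤ y
  x1 : (x : ℝ) ≤ Z
  x2 : Z - 1 ≤ x
  W1 : (W : ℝ) ≤ aJ
  W2 : aJ - 1 ≤ W
  g1u : (g1 : ℝ) ≤ LJ1
  g1l : LJ1 - Z / 8 - 1 ≤ g1
  g3u : (g3 : ℝ) ≤ LJ3
  g3l : LJ3 - Z / 8 - 1 ≤ g3
  su : (s : ℝ) ≤ 5 / 8 * Z + C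
  e1'u : (e1' : ℝ) ≤ 5 / 8 * Z + C + EJ
  e1'l : W ≤ g1 + e1'
  lzu : (lz : ℝ) + g3 + 3 * KQ ≤ J + Z + C + xQ
  e2e : e2 = e1' + y + 2 * x + 6
  e1l : EJ + 3 * KQ - 2 ≤ e1
  e1u : (e1 : ℝ) + 1 ≤ eJ
  e0 : 0 ≤ EJ
  ee : EJ + 3 * KQ ≤ eJ
  r1 : LJ1 + EJ + 3 * KQ ≤ J
  r3 : LJ3 + EJ + 3 * KQ ≤ J
  lo : aJ ≤ LJ1
  a0 : 0 ≤ aJ
  L0 : 0 ≤ LJ3

section

variable {n b C Cg ne J : ℕ} {Z kQ KQ xQ EJ eJ LJ1 LJ3 aJ : ℝ}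
  {W k y x g1 g3 e1' e2 e1 s lz : ℕ}

/-- The signs. -/
theorem NQ.pos (H : NQ n b C Cg ne J Z kQ KQ xQ EJ eJ LJ1 LJ3 aJ W k y x g1 g3 e1' e2 e1 s lz) :
    0 < Z ∧ 0 < kQ ∧ 0 ≤ (ne : ℝ) * kQ ∧ 0 ≤ (b : ℝ) * n * kQ ∧ kQ ≤ b * kQ ∧ kQ ≤ n * kQ ∧
      (b : ℝ) * n ≤ (b + 1) * (n + 2) ∧ (n : ℝ) + 2 ≤ (b + 1) * (n + 2) ∧ 0 ≤ (C : ℝ) ∧
      0 ≤ (Cg : ℝ) := by
  have hb1 : (1 : ℝ) ≤ b := by exact_mod_cast H.b1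
  have hn1 : (1 : ℝ) ≤ n := by exact_mod_cast H.n1
  have hC : (0 : ℝ) ≤ C := Nat.cast_nonneg C
  have hCg : (0 : ℝ) ≤ Cg := Nat.cast_nonneg Cg
  have h0 : (0 : ℝ) ≤ (b + 1) * (n + 2) := by positivity
  have hZ : 0 < Z := by linarith [H.zb]
  have hk : 0 < kQ := by linarith [H.kz]
  refine ⟨hZ, hk, by positivity, by positivity, by nlinarith, by nlinarith, by nlinarith,
    by nlinarith, hC, hCg⟩

/-- The multiples of `k`. -/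
theorem NQ.mul (H : NQ n b C Cg ne J Z kQ KQ xQ EJ eJ LJ1 LJ3 aJ W k y x g1 g3 e1' e2 e1 s lz)
    {i : ℕ} (hi : i < n) :
    ((i : ℝ) + 1) * k ≤ ((i : ℝ) + 1) * kQ ∧ ((i : ℝ) + 1) * kQ - n ≤ ((i : ℝ) + 1) * k ∧
      ((i : ℝ) + 1) * kQ ≤ n * kQ ∧ kQ ≤ ((i : ℝ) + 1) * kQ ∧
      b * (((i : ℝ) + 1) * k) ≤ b * (((i : ℝ) + 1) * kQ) ∧
      b * (((i : ℝ) + 1) * kQ) - b * n ≤ b * (((i : ℝ) + 1) * k) ∧
      b * (((i : ℝ) + 1) * kQ) ≤ b * n * kQ ∧ 0 ≤ b * (((i : ℝ) + 1) * kQ) := by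
  obtain ⟨hZ, hk, -⟩ := H.pos
  have h0 : (i : ℝ) + 1 ≤ n := by exact_mod_cast hi
  have h1 : (0 : ℝ) ≤ (i : ℝ) + 1 := by positivity
  have a1 := mul_le_mul_of_nonneg_left H.k1 h1
  have a2 : ((i : ℝ) + 1) * kQ - n ≤ ((i : ℝ) + 1) * k := by
    have := mul_le_mul_of_nonneg_left H.k2 h1
    linarith
  have a3 : ((i : ℝ) + 1) * kQ ≤ n * kQ := mul_le_mul_of_nonneg_right h0 hk.le
  have hb0 : (0 : ℝ) ≤ b := Nat.cast_nonneg b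
  refine ⟨a1, a2, a3, ?_, mul_le_mul_of_nonneg_left a1 hb0, ?_, ?_, by positivity⟩
  · have : 0 ≤ (i : ℝ) * kQ := by positivity
    linarith
  · have := mul_le_mul_of_nonneg_left a2 hb0
    linarith
  · have := mul_le_mul_of_nonneg_left a3 hb0
    linarith

theorem NQ.H (H : NQ n b C Cg ne J Z kQ KQ xQ EJ eJ LJ1 LJ3 aJ W k y x g1 g3 e1' e2 e1 s lz)
    {A τ : ℝ} (hA : 1 ≤ A) (hτ1 : τ ≤ 1) (hτ : 0 < τ) (h : 8 * A * Z ≤ τ * kQ) :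
    A * ((y : ℝ) + x + 1) ≤ τ * k := by
  obtain ⟨hZ, hk, -, -, -, -, h7, h8, h9, h10⟩ := H.pos
  have h1 : A * ((y : ℝ) + x + 1) ≤ A * (2 * Z + 1) :=
    mul_le_mul_of_nonneg_left (by linarith [H.y1, H.x1]) (by linarith)
  have h2 : τ * (kQ - 1) ≤ τ * k := mul_le_mul_of_nonneg_left H.k2 hτ.le
  have h3 : (1 : ℝ) ≤ Z := by
    have h4 : (0 : ℝ) ≤ (b + 1) * (n + 2) := by positivity
    linarith [H.zb]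
  have h4 : A * 1 ≤ A * Z := mul_le_mul_of_nonneg_left h3 (by linarith)
  linarith

theorem NQ.Wgx (H : NQ n b C Cg ne J Z kQ KQ xQ EJ eJ LJ1 LJ3 aJ W k y x g1 g3 e1' e2 e1 s lz) :
    W ≤ g1 + x := by
  obtain ⟨hZ, hk, -, -, -, -, h7, h8, h9, h10⟩ := H.pos
  have h4 : (0 : ℝ) ≤ (b + 1) * (n + 2) := by positivity
  have : (W : ℝ) ≤ ((g1 + x : ℕ) : ℝ) := by
    push_cast
    linarith [H.W1, H.lo, H.g1l, H.x2, H.zb]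
  exact_mod_cast this

theorem NQ.e2J (H : NQ n b C Cg ne J Z kQ KQ xQ EJ eJ LJ1 LJ3 aJ W k y x g1 g3 e1' e2 e1 s lz) :
    (e2 : ℝ) ≤ 4 * Z + EJ + kQ ∧ (e2 : ℝ) ≤ eJ := by
  obtain ⟨hZ, hk, h3, h4, h5, h6, h7, h8, h9, h10⟩ := H.pos
  have h11 : (0 : ℝ) ≤ (b + 1) * (n + 2) := by positivity
  have h1 : (e2 : ℝ) = e1' + y + 2 * x + 6 := by
    rw [H.e2e]
    push_cast
    ring
  have h2 : (e2 : ℝ) ≤ 4 * Z + EJ + kQ := by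
    rw [h1]
    linarith [H.e1'u, H.y1, H.x1, H.zb, H.kz]
  exact ⟨h2, by linarith [H.kz, H.kj, H.ee, H.xq]⟩

theorem NQ.J1 (H : NQ n b C Cg ne J Z kQ KQ xQ EJ eJ LJ1 LJ3 aJ W k y x g1 g3 e1' e2 e1 s lz)
    {i : ℕ} (hi : i < n) : e2 + g1 + (k + i * k + k) + x + 4 ≤ J := by
  obtain ⟨hZ, hk, h3, h4, h5, h6, h7, h8, h9, h10⟩ := H.pos
  obtain ⟨a1, a2, a3, a4, a5, a6, a7, a8⟩ := H.mul hi
  have h11 : (0 : ℝ) ≤ (b + 1) * (n + 2) := by positivity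
  have : ((e2 + g1 + (k + i * k + k) + x + 4 : ℕ) : ℝ) ≤ J := by
    push_cast
    have e : (k : ℝ) + i * k = ((i : ℝ) + 1) * k := by ring
    linarith [H.e2J.1, H.g1u, H.x1, H.zb, H.kz, H.kj, H.r1, H.k1, H.xq]
  exact_mod_cast this

theorem NQ.sy (H : NQ n b C Cg ne J Z kQ KQ xQ EJ eJ LJ1 LJ3 aJ W k y x g1 g3 e1' e2 e1 s lz) :
    s + 1 ≤ 2 * y := by
  obtain ⟨hZ, hk, h3, h4, h5, h6, h7, h8, h9, h10⟩ := H.pos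
  have h11 : (0 : ℝ) ≤ (b + 1) * (n + 2) := by positivity
  have : ((s + 1 : ℕ) : ℝ) ≤ ((2 * y : ℕ) : ℝ) := by
    push_cast
    linarith [H.su, H.y2, H.zb]
  exact_mod_cast this

theorem NQ.pJ (H : NQ n b C Cg ne J Z kQ KQ xQ EJ eJ LJ1 LJ3 aJ W k y x g1 g3 e1' e2 e1 s lz)
    {i : ℕ} (hi : i < n) : g3 + b * (k + i * k) + x ≤ J := by
  obtain ⟨hZ, hk, h3, h4, h5, h6, h7, h8, h9, h10⟩ := H.pos
  obtain ⟨a1, a2, a3, a4, a5, a6, a7, a8⟩ := H.mul hi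
  have : ((g3 + b * (k + i * k) + x : ℕ) : ℝ) ≤ J := by
    push_cast
    have e : (b : ℝ) * (k + i * k) = b * (((i : ℝ) + 1) * k) := by ring
    rw [e]
    linarith [H.g3u, H.x1, H.kz, H.kj, H.r3, H.e0, H.xq]
  exact_mod_cast this

theorem NQ.gr (H : NQ n b C Cg ne J Z kQ KQ xQ EJ eJ LJ1 LJ3 aJ W k y x g1 g3 e1' e2 e1 s lz)
    {i gc : ℕ} (hi : i < n) (hgc : LJ1 + ((i : ℝ) + 1) * kQ - Z ≤ gc) :
    g1 + e1' + ne * k + Cg * (y + 1) + (g3 + b * (k + i * k) + x) ≤ g3 + e1 + gc := by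
  obtain ⟨hZ, hk, h3, h4, h5, h6, h7, h8, h9, h10⟩ := H.pos
  obtain ⟨a1, a2, a3, a4, a5, a6, a7, a8⟩ := H.mul hi
  have h11 : (0 : ℝ) ≤ (b + 1) * (n + 2) := by positivity
  have h12 : (Cg : ℝ) * (y + 1) ≤ kQ + Cg := by
    have := mul_le_mul_of_nonneg_left H.y1 h10
    linarith [H.cg]
  have h13 : (ne : ℝ) * k ≤ ne * kQ := mul_le_mul_of_nonneg_left H.k1 (Nat.cast_nonneg ne)
  have : ((g1 + e1' + ne * k + Cg * (y + 1) + (g3 + b * (k + i * k) + x) : ℕ) : ℝ) ≤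
      ((g3 + e1 + gc : ℕ) : ℝ) := by
    push_cast
    have e : (b : ℝ) * (k + i * k) = b * (((i : ℝ) + 1) * k) := by ring
    rw [e]
    linarith [H.g1u, H.e1'u, H.x1, H.kz, H.kj, H.e1l, H.zb, H.xq]
  exact_mod_cast this

theorem NQ.JE1 (H : NQ n b C Cg ne J Z kQ KQ xQ EJ eJ LJ1 LJ3 aJ W k y x g1 g3 e1' e2 e1 s lz)
    {i : ℕ} (hi : i < n) : lz + g3 + b * (k + i * k) + k + 2 ≤ J := by
  obtain ⟨hZ, hk, h3, h4, h5, h6, h7, h8, h9, h10⟩ := H.pos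
  obtain ⟨a1, a2, a3, a4, a5, a6, a7, a8⟩ := H.mul hi
  have h11 : (0 : ℝ) ≤ (b + 1) * (n + 2) := by positivity
  have : ((lz + g3 + b * (k + i * k) + k + 2 : ℕ) : ℝ) ≤ J := by
    push_cast
    have e : (b : ℝ) * (k + i * k) = b * (((i : ℝ) + 1) * k) := by ring
    rw [e]
    linarith [H.lzu, H.kz, H.kj, H.k1, H.zb, H.xq]
  exact_mod_cast this

theorem NQ.JE2 (H : NQ n b C Cg ne J Z kQ KQ xQ EJ eJ LJ1 LJ3 aJ W k y x g1 g3 e1' e2 e1 s lz)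
    {i : ℕ} (hi : i < n) : g1 + e1' + Cg * (y + 1) + b * (k + i * k) + k + 4 ≤ J := by
  obtain ⟨hZ, hk, h3, h4, h5, h6, h7, h8, h9, h10⟩ := H.pos
  obtain ⟨a1, a2, a3, a4, a5, a6, a7, a8⟩ := H.mul hi
  have h11 : (0 : ℝ) ≤ (b + 1) * (n + 2) := by positivity
  have h12 : (Cg : ℝ) * (y + 1) ≤ kQ + Cg := by
    have := mul_le_mul_of_nonneg_left H.y1 h10
    linarith [H.cg]
  have : ((g1 + e1' + Cg * (y + 1) + b * (k + i * k) + k + 4 : ℕ) : ℝ) ≤ J := by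
    push_cast
    have e : (b : ℝ) * (k + i * k) = b * (((i : ℝ) + 1) * k) := by ring
    rw [e]
    linarith [H.g1u, H.e1'u, H.kz, H.kj, H.r1, H.k1, H.zb, H.xq]
  exact_mod_cast this

/-- The gradients of the target. -/
theorem NQ.Xe (H : NQ n b C Cg ne J Z kQ KQ xQ EJ eJ LJ1 LJ3 aJ W k y x g1 g3 e1' e2 e1 s lz)
    {i X : ℕ} (hi : i < n) (hX : (X : ℝ) ≤ Z + C + EJ + xQ) :
    X + b * (k + i * k) + 2 * x + 1 ≤ e1 := by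
  obtain ⟨hZ, hk, h3, h4, h5, h6, h7, h8, h9, h10⟩ := H.pos
  obtain ⟨a1, a2, a3, a4, a5, a6, a7, a8⟩ := H.mul hi
  have h11 : (0 : ℝ) ≤ (b + 1) * (n + 2) := by positivity
  have : ((X + b * (k + i * k) + 2 * x + 1 : ℕ) : ℝ) ≤ e1 := by
    push_cast
    have e : (b : ℝ) * (k + i * k) = b * (((i : ℝ) + 1) * k) := by ring
    rw [e]
    linarith [H.e1l, H.kz, H.kj, H.x1, H.zb, H.xq]
  exact_mod_cast this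

/-- The losses. -/
theorem NQ.ly (H : NQ n b C Cg ne J Z kQ KQ xQ EJ eJ LJ1 LJ3 aJ W k y x g1 g3 e1' e2 e1 s lz)
    {s' : ℕ} (hs' : (s' : ℝ) ≤ 5 / 8 * Z + C) {l2 : ℝ} (hl2 : 5 / 8 ≤ l2) :
    s' ≤ y ∧ ((s' : ℝ) + 1) * l2 + Z / 16 ≤ y * l2 := by
  obtain ⟨hZ, hk, h3, h4, h5, h6, h7, h8, h9, h10⟩ := H.pos
  have h11 : (0 : ℝ) ≤ (b + 1) * (n + 2) := by positivity
  constructor
  · have : (s' : ℝ) ≤ y := by linarith [H.y2, H.zb]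
    exact_mod_cast this
  · have h1 : Z / 10 ≤ (y : ℝ) - (s' + 1) := by linarith [H.y2, H.zb]
    have h2 : Z / 10 * (5 / 8) ≤ ((y : ℝ) - (s' + 1)) * l2 :=
      mul_le_mul h1 hl2 (by norm_num) (by linarith)
    linarith

/-- The rows. -/
theorem NQ.s1 (H : NQ n b C Cg ne J Z kQ KQ xQ EJ eJ LJ1 LJ3 aJ W k y x g1 g3 e1' e2 e1 s lz)
    {i : ℕ} (hi : i < n) :
    LJ3 + b * (((i : ℝ) + 1) * kQ) ≤ g3 + b * ((k : ℝ) + i * k) + x := by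
  obtain ⟨hZ, hk, h3, h4, h5, h6, h7, h8, h9, h10⟩ := H.pos
  obtain ⟨a1, a2, a3, a4, a5, a6, a7, a8⟩ := H.mul hi
  have e : (b : ℝ) * (k + i * k) = b * (((i : ℝ) + 1) * k) := by ring
  rw [e]
  linarith [H.g3l, H.x2, H.zb]

theorem NQ.s2 (H : NQ n b C Cg ne J Z kQ KQ xQ EJ eJ LJ1 LJ3 aJ W k y x g1 g3 e1' e2 e1 s lz)
    {i : ℕ} (hi : i < n) :
    ((g3 + b * (k + i * k) + k : ℕ) : ℝ) ≤ LJ3 + b * (((i : ℝ) + 1) * kQ) + kQ + x := by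
  obtain ⟨a1, a2, a3, a4, a5, a6, a7, a8⟩ := H.mul hi
  push_cast
  have e : (b : ℝ) * (k + i * k) = b * (((i : ℝ) + 1) * k) := by ring
  rw [e]
  linarith [H.g3u, H.k1, Nat.cast_nonneg (α := ℝ) x]

/-- The windows. -/
theorem NQ.win (H : NQ n b C Cg ne J Z kQ KQ xQ EJ eJ LJ1 LJ3 aJ W k y x g1 g3 e1' e2 e1 s lz)
    (i : ℕ) {z : ℝ} (hz : aJ + ((i : ℝ) + 1) * kQ ≤ z) : W + k + i * k ≤ ⌊z⌋₊ := by
  refine nat_le_fl ?_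
  push_cast
  have h1 : (0 : ℝ) ≤ (i : ℝ) + 1 := by positivity
  have a1 := mul_le_mul_of_nonneg_left H.k1 h1
  linarith [H.W1]

theorem NQ.l3 (H : NQ n b C Cg ne J Z kQ KQ xQ EJ eJ LJ1 LJ3 aJ W k y x g1 g3 e1' e2 e1 s lz)
    {i : ℕ} (hi : i < n) {β z : ℝ} (hβ : β ≤ LJ3 + b * (((i : ℝ) + 1) * kQ) + Z / 4)
    (hz : aJ + ((i : ℝ) + 1) * kQ ≤ z) :
    ⌊β⌋₊ + (W + k + i * k) ≤ g3 + b * (k + i * k) + x + ⌊z⌋₊ := by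
  obtain ⟨hZ, hk, h3, h4, h5, h6, h7, h8, h9, h10⟩ := H.pos
  obtain ⟨a1, a2, a3, a4, a5, a6, a7, a8⟩ := H.mul hi
  have h1 : (⌊β⌋₊ : ℝ) ≤ LJ3 + b * (((i : ℝ) + 1) * kQ) + Z / 4 :=
    fl_up' hβ (by linarith [H.L0])
  have h2 := fl_lo z
  have : ((⌊β⌋₊ + (W + k + i * k) : ℕ) : ℝ) ≤ ((g3 + b * (k + i * k) + x + ⌊z⌋₊ : ℕ) : ℝ) := by
    push_cast
    have e : (b : ℝ) * (k + i * k) = b * (((i : ℝ) + 1) * k) := by ring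
    rw [e]
    linarith [H.g3l, H.x2, H.zb, H.W1]
  exact_mod_cast this

theorem NQ.l0 (H : NQ n b C Cg ne J Z kQ KQ xQ EJ eJ LJ1 LJ3 aJ W k y x g1 g3 e1' e2 e1 s lz)
    {β z : ℝ} (hβ : β ≤ z + Z / 4) (hz : 0 ≤ z) : ⌊β⌋₊ ≤ ⌊z⌋₊ + x := by
  obtain ⟨hZ, hk, h3, h4, h5, h6, h7, h8, h9, h10⟩ := H.pos
  have h11 : (0 : ℝ) ≤ (b + 1) * (n + 2) := by positivity
  have h1 : (⌊β⌋₊ : ℝ) ≤ z + Z / 4 := fl_up' hβ (by linarith)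
  have h2 := fl_lo z
  have : ((⌊β⌋₊ : ℕ) : ℝ) ≤ ((⌊z⌋₊ + x : ℕ) : ℝ) := by
    push_cast
    linarith [H.x2, H.zb]
  exact_mod_cast this

theorem NQ.l1 (H : NQ n b C Cg ne J Z kQ KQ xQ EJ eJ LJ1 LJ3 aJ W k y x g1 g3 e1' e2 e1 s lz)
    {β z w : ℝ} (hβ : β ≤ LJ1 + w + Z / 4) (hw : 0 ≤ w) (hz : aJ + w ≤ z) :
    ⌊β⌋₊ + W ≤ g1 + ⌊z⌋₊ + x := by
  obtain ⟨hZ, hk, h3, h4, h5, h6, h7, h8, h9, h10⟩ := H.pos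
  have h11 : (0 : ℝ) ≤ (b + 1) * (n + 2) := by positivity
  have h1 : (⌊β⌋₊ : ℝ) ≤ LJ1 + w + Z / 4 := fl_up' hβ (by linarith [H.lo, H.a0])
  have h2 := fl_lo z
  have : ((⌊β⌋₊ + W : ℕ) : ℝ) ≤ ((g1 + ⌊z⌋₊ + x : ℕ) : ℝ) := by
    push_cast
    linarith [H.g1l, H.x2, H.zb, H.W1]
  exact_mod_cast this

theorem NQ.f0 (H : NQ n b C Cg ne J Z kQ KQ xQ EJ eJ LJ1 LJ3 aJ W k y x g1 g3 e1' e2 e1 s lz)
    {i : ℕ} (hi : i < n) {β : ℝ} (hβ : β ≤ aJ + ((i : ℝ) + 1) * kQ + kQ + Z / 4) :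
    β ≤ W + k + i * k + k + x := by
  obtain ⟨hZ, hk, h3, h4, h5, h6, h7, h8, h9, h10⟩ := H.pos
  obtain ⟨a1, a2, a3, a4, a5, a6, a7, a8⟩ := H.mul hi
  have h11 : (0 : ℝ) ≤ (b + 1) * (n + 2) := by positivity
  linarith [H.x2, H.zb, H.W2, H.k2]

theorem NQ.f1 (H : NQ n b C Cg ne J Z kQ KQ xQ EJ eJ LJ1 LJ3 aJ W k y x g1 g3 e1' e2 e1 s lz)
    {i : ℕ} (hi : i < n) {β : ℝ} (hβ : β ≤ LJ1 + ((i : ℝ) + 1) * kQ + kQ + Z / 4) :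
    β ≤ g1 + (k + i * k + k) + x := by
  obtain ⟨hZ, hk, h3, h4, h5, h6, h7, h8, h9, h10⟩ := H.pos
  obtain ⟨a1, a2, a3, a4, a5, a6, a7, a8⟩ := H.mul hi
  have h11 : (0 : ℝ) ≤ (b + 1) * (n + 2) := by positivity
  linarith [H.x2, H.zb, H.g1l, H.k2]

end

end Pool.STB6
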