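import Pool.Agent.H98.STB.VbD
import Pool.Agent.H3.D2G.RecG
import Pool.Agent.H6.STB.Vbq

/-!
# The numbers of the class theorem, from the record

`VbNum`: the numbers of the data of an event at the windows of a record. `vbn_rec`: the structure
`VbN` of `vb_void`, from `RecG`.
-/

set_option autoImplicit false

namespace Pool.STB6

open Finset Real
open Pool.Agent.H49.Ent Pool.Agent.H32.Dense Pool.STK Pool.KA Pool.KSAT Pool.K2S Pool.PB Pool.S6C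
open Pool.GEN Pool.CHT Pool.CHX Pool.D2F Pool.D2Con
open Pool.STB (VbT VbN)
open Pool.PKG (Kg RecG RecT KgQ)

/-- The losses of the labels. -/
noncomputable def lsD (C : ℕ) (s0 sr rho q : ℝ) (J : ℕ) : ℝ :=
  C * ((s0 + 3 * (sr * q)) * J + rho * q * J + 1)

/-- **The numbers of an event.** `a0`: the first window; `kr`, `v`, `rho`, `sr`: the rates; `q`: the
scale; `g0`: the levels of the first ball. -/
structure VbNum {m J : ℕ} {F : Fam m J} (L : ℕ → ℝ → ℝ → ℝ) (n C : ℕ)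
    (a0 kr v rho sr s0 xq q Eb e₂ : ℝ) (g0 : ℕ → ℕ) (X : ℕ) (t : VbT F) : Prop where
  W : t.W₀ = ⌊a0 * J⌋₊
  k : t.k = ⌊kr * q * J⌋₊
  y : t.y = ⌊v * q * J⌋₊
  x : t.x = ⌊v * q * J⌋₊
  hg0 : ∀ l < 3, ∃ d : ℝ, 0 ≤ d ∧ d ≤ sr * q ∧ g0 l = ⌊(L l a0 a0 - d) * J⌋₊
  g1 : t.g1 = g0 1
  g3 : ∃ d : ℝ, 0 ≤ d ∧ d ≤ sr * q ∧ t.g₃ = ⌊(L 3 a0 a0 - d) * J⌋₊
  gc : ∀ i < n, ∃ a' : ℝ, a0 + ((i : ℝ) + 1) * kr * q - rho * q ≤ a' ∧
    a' ≤ a0 + ((i : ℝ) + 1) * kr * q ∧ ∀ l < 3, ∃ d : ℝ, 0 ≤ d ∧ d ≤ sr * q ∧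
      t.gc i l = ⌊(L l a' a' - d) * J⌋₊
  s : (t.s : ℝ) ≤ lsD C s0 sr rho q J
  e1' : (t.e₁' : ℝ) ≤ lsD C s0 sr rho q J + Eb * J
  e1l : ⌊sr * q * J⌋₊ + 1 ≤ t.e₁'
  e2 : t.e₂ = t.e₁' + t.y + 2 * t.x + 6
  e1 : t.e₁ = ⌊e₂ * J⌋₊ - 1
  hX : (X : ℝ) ≤ lsD C s0 sr rho q J + (Eb + sr * q) * J + xq * q * J
  lz : t.lz = X + nlp (fun j => if j < 3 then g0 j else t.g₃) 0 3

/-- The rates. -/
structure VbRt (n b Cg ne C : ℕ) (A τ kr v rho sr s0 o0 xq K ε q : ℝ) : Prop where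
  hn : 0 < n
  hb : 1 ≤ b
  hA : 1 ≤ A
  hτ : 0 < τ
  hτ1 : τ ≤ 1
  hkr : 0 < kr
  hv : 0 < v
  vA : v * (8 * A) ≤ τ * kr
  vC : v * (Cg + 1) ≤ kr
  v8 : 8 * v ≤ kr
  ro : 0 < rho
  ro1 : 8 * rho ≤ v
  ro2 : 8 * (C * rho) ≤ v
  hs : 0 < sr
  hs1 : 8 * sr ≤ v
  hs2 : 8 * (C * sr) ≤ v
  sq : s0 ≤ sr * q
  hx : 0 ≤ xq
  hK : |o0| + (ne + b * (n + 2) + n + 10) * kr + xq ≤ K
  hε : 0 ≤ ε
  hε1 : 16 * ε ≤ v
  hq : 0 < q

/-- The levels at the windows. -/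
structure VbLv {m : ℕ} (P : List (Fin m) × Fin m → ℝ → ℝ → ℝ) (c : ℕ → Fin m)
    (L : ℕ → ℝ → ℝ → ℝ) (n b : ℕ) (a0 kr v K q Eb e₂ θ₂ t ε : ℝ) (rr : ℕ → ℚ) : Prop where
  a0p : 0 < a0
  lo : ∀ l ≤ 3, a0 ≤ L l a0 a0
  rm : ∀ l ≤ 3, L l a0 a0 + Eb + 3 * K * q ≤ 1
  mo : ∀ l ≤ 3, ∀ x : ℝ, a0 ≤ x → x ≤ a0 + ((n : ℝ) + 1) * kr * q → L l a0 a0 ≤ L l x x ∧
    L l x x ≤ 1
  l0 : ∀ x : ℝ, a0 ≤ x → x ≤ a0 + ((n : ℝ) + 2) * kr * q → L 0 x x ≤ x + ε * q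
  l1 : ∀ x : ℝ, a0 ≤ x → x ≤ a0 + ((n : ℝ) + 2) * kr * q →
    |L 1 x x - L 1 a0 a0 - (x - a0)| ≤ 2 * (ε * q)
  r0 : ∀ i ≤ n, a0 + ((i : ℝ) + 1) * kr * q ≤ rr i
  r1 : ∀ i ≤ n, bet P c 0 (rr i) (rr i) ≤ a0 + ((i : ℝ) + 1) * kr * q + v * q / 8
  r2 : ∀ i ≤ n, bet P c 1 (rr i) (rr i) ≤ L 1 a0 a0 + ((i : ℝ) + 1) * kr * q + v * q / 16 +
    2 * (ε * q)
  r3 : ∀ i ≤ n, bet P c 3 (rr i) (rr i) ≤ L 3 a0 a0 + b * (((i : ℝ) + 1) * kr * q) +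
    v * q / 16 + 2 * (ε * q)
  Eb0 : 0 < Eb
  ee : Eb + 3 * K * q ≤ e₂

section

variable {m : ℕ} {S : PCl m} {al : ℝ} {g₀ : ℝ → ℝ} {P : List (Fin m) × Fin m → ℝ → ℝ → ℝ}
  {θ : ℝ} {P₂ : ℕ → List (Fin m) × Fin m → ℝ → ℝ → ℝ} {θ₂ Eb e₂ : ℕ → ℝ}
  {c : ℕ → Fin m} {Pt : ℝ → ℝ → ℝ} {r : ℝ → ℝ} {h K₀ g : ℝ} {L T : ℕ → ℝ → ℝ → ℝ}
  {Sl : ℕ → ℝ} {κ : ℕ → Kg} {G : Set ℝ} {S₀ N : ℕ} {A' V : ℕ → ℝ} {S₂ N' : ℕ} {V' : ℕ → ℝ}
  {K ε q t : ℝ}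

/-- **The rational windows.** -/
theorem rat_win (R : RecG S al g₀ P θ P₂ θ₂ Eb e₂ c Pt r h K₀ g L T Sl κ G S₀ N A' V S₂ N' V'
    K ε q t) (hm : 3 < m) {n : ℕ} {o0 kr e : ℝ} (hkr : 0 < kr) (he : 0 < e)
    (hV : ∀ i ≤ n, ∃ k < N', V' k = o0 + ((i : ℝ) + 1) * kr) :
    ∃ rr : ℕ → ℚ, ∀ i ≤ n, t + o0 * q + ((i : ℝ) + 1) * kr * q ≤ (rr i : ℝ) ∧
      (rr i : ℝ) ≤ t + o0 * q + ((i : ℝ) + 1) * kr * q + kr * q ∧ ∀ j ≤ 3,
        bet (P₂ 3) c j (rr i) (rr i) ≤ L j (t + o0 * q + ((i : ℝ) + 1) * kr * q)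
          (t + o0 * q + ((i : ℝ) + 1) * kr * q) + e := by
  classical
  have hq := R.q0
  have key : ∀ i : ℕ, ∃ r' : ℚ, i ≤ n → t + o0 * q + ((i : ℝ) + 1) * kr * q ≤ (r' : ℝ) ∧
      (r' : ℝ) ≤ t + o0 * q + ((i : ℝ) + 1) * kr * q + kr * q ∧ ∀ j ≤ 3,
        bet (P₂ 3) c j (r') (r') ≤ L j (t + o0 * q + ((i : ℝ) + 1) * kr * q)
          (t + o0 * q + ((i : ℝ) + 1) * kr * q) + e := by
    intro i
    by_cases hi : i ≤ n
    · obtain ⟨k, hk, hVk⟩ := hV i hi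
      obtain ⟨d, hd, h1⟩ := (R.tg 3 (by norm_num) hm).ratc k hk e he
      have e1 : t + V' k * q = t + o0 * q + ((i : ℝ) + 1) * kr * q := by
        rw [hVk]
        ring
      rw [e1] at h1
      have h2 : t + o0 * q + ((i : ℝ) + 1) * kr * q <
          t + o0 * q + ((i : ℝ) + 1) * kr * q + min d (kr * q) := by
        have : 0 < min d (kr * q) := lt_min hd (by positivity)
        linarith
      obtain ⟨r', hr1, hr2⟩ := exists_rat_btwn h2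
      have h3 : min d (kr * q) ≤ d := min_le_left _ _
      have h4 : min d (kr * q) ≤ kr * q := min_le_right _ _
      exact ⟨r', fun _ => ⟨hr1.le, by linarith, h1 r' hr1.le (by linarith)⟩⟩
    · exact ⟨0, fun h => absurd h hi⟩
  choose rr hrr using key
  exact ⟨rr, fun i hi => hrr i hi⟩

/-- The levels are at least the radius. -/
theorem lv_low (R : RecG S al g₀ P θ P₂ θ₂ Eb e₂ c Pt r h K₀ g L T Sl κ G S₀ N A' V S₂ N' V'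
    K ε q t) {l : ℕ} (hl : l < m) {a w : ℝ} (h0 : 0 ≤ w) (h1 : w ≤ a) (h2 : a ≤ 1) :
    a ≤ L l a w := by
  rw [R.lv l hl]
  unfold Pool.ISO.lvN
  split_ifs with h3
  · exact R.thr.low _ a w h0 h1 h2
  · exact R.tgs.low () a w h0 h1 h2

/-- The levels of two windows. -/
theorem lv_two (R : RecG S al g₀ P θ P₂ θ₂ Eb e₂ c Pt r h K₀ g L T Sl κ G S₀ N A' V S₂ N' V'
    K ε q t) {l : ℕ} (hl : l < m) {x a0 : ℝ} (hx : |x - t| ≤ K * q) (ha : |a0 - t| ≤ K * q) :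
    |L l x x - L l a0 a0 - Sl l * (x - a0)| ≤ 2 * (ε * q) := by
  have d1 := abs_le.1 (R.dL l hl x hx)
  have d2 := abs_le.1 (R.dL l hl a0 ha)
  have e1 : Sl l * (x - a0) = Sl l * (x - t) - Sl l * (a0 - t) := by ring
  rw [e1]
  exact abs_le.2 ⟨by linarith [d1.1, d2.2], by linarith [d1.2, d2.1]⟩

/-- The windows are in the box. -/
theorem VbRt.box {n b Cg ne C : ℕ} {A τ kr v rho sr s0 o0 xq K ε q : ℝ}
    (H : VbRt n b Cg ne C A τ kr v rho sr s0 o0 xq K ε q) (t : ℝ) {a0 : ℝ} (ha0 : a0 = t + o0 * q)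
    {x : ℝ} (h1 : a0 ≤ x) (h2 : x ≤ a0 + ((n : ℝ) + 4) * kr * q) : |x - t| ≤ K * q := by
  have hK := H.hK
  have hkr := H.hkr
  have hq := H.hq
  have hx := H.hx
  have ho := abs_le.1 (le_refl |o0|)
  have hb1 : (1 : ℝ) ≤ b := by exact_mod_cast H.hb
  have h3 : (0 : ℝ) ≤ ne * kr := by positivity
  have h4 : (0 : ℝ) ≤ b * (n + 2) * kr := by positivity
  have h5 : |o0| + ((n : ℝ) + 4) * kr ≤ K := by nlinarith
  have h6 : |o0| * q + ((n : ℝ) + 4) * kr * q ≤ K * q := by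
    have := mul_le_mul_of_nonneg_right h5 hq.le
    linarith
  have h7 : -(|o0| * q) ≤ o0 * q := by
    have := mul_le_mul_of_nonneg_right ho.1 hq.le
    linarith
  have h8 : o0 * q ≤ |o0| * q := mul_le_mul_of_nonneg_right ho.2 hq.le
  have h9 : 0 ≤ ((n : ℝ) + 4) * kr * q := by positivity
  exact abs_le.2 ⟨by linarith, by linarith⟩

/-- **The levels.** -/
theorem vb_lv (R : RecG S al g₀ P θ P₂ θ₂ Eb e₂ c Pt r h K₀ g L T Sl κ G S₀ N A' V S₂ N' V'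
    K ε q t) {n b Cg ne C : ℕ} {A τ kr v rho sr s0 o0 xq : ℝ}
    (H : VbRt n b Cg ne C A τ kr v rho sr s0 o0 xq K ε q) (hm : 3 < m) (S1 : Sl 1 = 1)
    (S3 : Sl 3 = b) (hV : ∀ i ≤ n, ∃ k < N', V' k = o0 + ((i : ℝ) + 1) * kr) {a0 : ℝ}
    (ha0 : a0 = t + o0 * q) : ∃ rr : ℕ → ℚ,
      VbLv (P₂ 3) c L n b a0 kr v K q (Eb 3) (e₂ 3) (θ₂ 3) t ε rr ∧
      (∀ i ≤ n, 0 < rr i ∧ rr i ≤ 1 ∧ e₂ 3 < θ₂ 3 * rr i) ∧
      ∀ i ≤ n, ∀ j ≤ 3, bet (P₂ 3) c j (rr i) (rr i) + v * q / 16 ≤ 1 := by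
  have hq := H.hq
  have hkr := H.hkr
  have hv := H.hv
  have W := R.tg 3 (by norm_num) hm
  obtain ⟨rr, hrr⟩ := rat_win (e := v * q / 16) R hm hkr (by positivity) hV
  rw [← ha0] at hrr
  have hbox : ∀ x : ℝ, a0 ≤ x → x ≤ a0 + ((n : ℝ) + 4) * kr * q → |x - t| ≤ K * q :=
    fun x h1 h2 => H.box t ha0 h1 h2
  have hkq : 0 < kr * q := by positivity
  have hnq : 0 ≤ (n : ℝ) * (kr * q) := by positivity
  have hKq := R.t0
  have hKq1 := R.t1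
  have ha0b := hbox a0 le_rfl (by nlinarith)
  have ha0p : 0 < a0 := by
    have := (abs_le.1 ha0b).1
    linarith
  have ha01 : a0 < 1 := by
    have := (abs_le.1 ha0b).2
    linarith
  have hvK : v * q ≤ K * q := by
    have h1 : v ≤ K := by
      have h2 := H.hK
      have h3 := H.v8
      have h4 : (0 : ℝ) ≤ ne * kr := by positivity
      have h5 : (0 : ℝ) ≤ b * (n + 2) * kr := by positivity
      have h6 : (0 : ℝ) ≤ n * kr := by positivity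
      have h7 := abs_nonneg o0
      have h8 := H.hx
      nlinarith
    exact mul_le_mul_of_nonneg_right h1 hq.le
  have hI : ∀ i ≤ n, a0 ≤ a0 + ((i : ℝ) + 1) * kr * q ∧
      a0 + ((i : ℝ) + 1) * kr * q + kr * q ≤ a0 + ((n : ℝ) + 4) * kr * q := by
    intro i hi
    have h1 : (i : ℝ) ≤ n := by exact_mod_cast hi
    have h2 : 0 ≤ ((i : ℝ) + 1) * kr * q := by positivity
    have h3 : ((i : ℝ) + 2) * (kr * q) ≤ ((n : ℝ) + 4) * (kr * q) :=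
      mul_le_mul_of_nonneg_right (by linarith) hkq.le
    exact ⟨by linarith, by linarith⟩
  have hεv : 16 * (ε * q) ≤ v * q := by
    have := mul_le_mul_of_nonneg_right H.hε1 hq.le
    linarith
  refine ⟨rr, ⟨ha0p, fun l hl => lv_low R (by omega) ha0p.le le_rfl ha01.le,
    fun l hl => (W.room l hl a0 ha0b).le, ?_, ?_, ?_, fun i hi => (hrr i hi).1, ?_, ?_, ?_,
    W.Eb0, W.Ebe.le⟩, ?_, ?_⟩
  · intro l hl x h1 h2
    have h3 := hbox x h1 (by nlinarith)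
    have h4 := (abs_le.1 h3).2
    refine ⟨(R.lawL l (by omega)).mono ha0p.le le_rfl h1 h1 le_rfl (by linarith), ?_⟩
    have := W.room l hl x h3
    have := W.Eb0
    have : 0 ≤ 3 * K * q := by
      have : 0 < K * q := by nlinarith
      linarith
    linarith
  · intro x h1 h2
    have := (abs_le.1 (R.l0 x (hbox x h1 (by nlinarith)))).2
    linarith
  · intro x h1 h2
    have := lv_two R (l := 1) (by omega) (hbox x h1 (by nlinarith)) ha0b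
    rw [S1, one_mul] at this
    exact this
  · intro i hi
    obtain ⟨h1, h2, h3⟩ := hrr i hi
    obtain ⟨h4, h5⟩ := hI i hi
    have h6 := (abs_le.1 (R.l0 _ (hbox _ h4 (by linarith)))).2
    have h7 := h3 0 (by norm_num)
    linarith
  · intro i hi
    obtain ⟨h1, h2, h3⟩ := hrr i hi
    obtain ⟨h4, h5⟩ := hI i hi
    have h6 := (abs_le.1 (lv_two R (l := 1) (by omega) (hbox _ h4 (by linarith)) ha0b)).2
    rw [S1, one_mul] at h6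
    have h7 := h3 1 (by norm_num)
    linarith
  · intro i hi
    obtain ⟨h1, h2, h3⟩ := hrr i hi
    obtain ⟨h4, h5⟩ := hI i hi
    have h6 := (abs_le.1 (lv_two R (l := 3) (by omega) (hbox _ h4 (by linarith)) ha0b)).2
    rw [S3, show a0 + ((i : ℝ) + 1) * kr * q - a0 = ((i : ℝ) + 1) * kr * q by ring] at h6
    have h7 := h3 3 le_rfl
    linarith
  · intro i hi
    obtain ⟨h1, h2, h3⟩ := hrr i hi
    obtain ⟨h4, h5⟩ := hI i hi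
    have h6 := hbox (rr i) (by linarith) (by linarith)
    have h7 := W.eθ _ h6
    have h8 := abs_le.1 h6
    refine ⟨?_, ?_, h7⟩
    · have : (0 : ℝ) < (rr i : ℝ) := by linarith
      exact_mod_cast this
    · have : (rr i : ℝ) ≤ 1 := by linarith
      exact_mod_cast this
  · intro i hi j hj
    obtain ⟨h1, h2, h3⟩ := hrr i hi
    obtain ⟨h4, h5⟩ := hI i hi
    have h6 := W.room j hj _ (hbox _ h4 (by linarith))
    have h7 := h3 j hj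
    have := W.Eb0
    have h8 : K * q * 3 = 3 * K * q := by ring
    have h9 : 0 < v * q := by positivity
    linarith

end

end Pool.STB6
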