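import Pool.Agent.H6.STB.Vbn

/-!
# The numbers of the class theorem, from the record: the end
-/

set_option autoImplicit false

namespace Pool.STB6

open Finset Real
open Pool.Agent.H49.Ent Pool.Agent.H32.Dense Pool.STK Pool.KA Pool.KSAT Pool.K2S Pool.PB Pool.S6C
open Pool.GEN Pool.CHT Pool.CHX Pool.D2F Pool.D2Con
open Pool.STB (VbT VbN)
open Pool.PKG (Kg RecG RecT KgQ)

section

variable {m J : ℕ} {F : Fam m J} {P : List (Fin m) × Fin m → ℝ → ℝ → ℝ} {c : ℕ → Fin m}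
  {L : ℕ → ℝ → ℝ → ℝ} {n b Cg ne C : ℕ}
  {A τ kr v rho sr s0 o0 xq K ε q Eb e₂ θ₂ t a0 : ℝ} {rr : ℕ → ℚ} {g0 : ℕ → ℕ} {X : ℕ}
  {t' : VbT F}

/-- The losses. -/
theorem lsD_le (H : VbRt n b Cg ne C A τ kr v rho sr s0 o0 xq K ε q) (J : ℕ) :
    lsD C s0 sr rho q J ≤ 5 / 8 * (v * q * J) + C := by
  have hC0 : (0 : ℝ) ≤ C := Nat.cast_nonneg C
  have hJ : (0 : ℝ) ≤ J := Nat.cast_nonneg J
  have hqJ : 0 ≤ q * (J : ℝ) := mul_nonneg H.hq.le hJ
  have h1 := mul_le_mul_of_nonneg_right H.hs2 hqJ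
  have h1' := mul_le_mul_of_nonneg_right H.ro2 hqJ
  have h2 : (C : ℝ) * ((s0 + 3 * (sr * q)) * J + rho * q * J + 1) ≤
      C * ((4 * (sr * q)) * J + rho * q * J + 1) := by
    refine mul_le_mul_of_nonneg_left ?_ hC0
    have := mul_le_mul_of_nonneg_right
      (show s0 + 3 * (sr * q) ≤ 4 * (sr * q) by linarith [H.sq]) hJ
    linarith
  unfold lsD
  linarith

/-- **The numbers in the unit of a digit.** -/
theorem nq_of (H : VbRt n b Cg ne C A τ kr v rho sr s0 o0 xq K ε q)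
    (Lv : VbLv P c L n b a0 kr v K q Eb e₂ θ₂ t ε rr)
    (N1 : VbNum L n C a0 kr v rho sr s0 xq q Eb e₂ g0 X t')
    (hJ : 16 * (((b : ℝ) + 1) * (n + 2)) + 16 * C + 16 * Cg + 256 ≤ v * q * J) :
    NQ n b C Cg ne J (v * q * J) (kr * q * J) (K * q * J) (xq * q * J) (Eb * J) (e₂ * J)
      (L 1 a0 a0 * J) (L 3 a0 a0 * J) (a0 * J) t'.W₀ t'.k t'.y t'.x t'.g1 t'.g₃ t'.e₁' t'.e₂ t'.e₁
      t'.s t'.lz := by
  have hq := H.hq
  have hkr := H.hkr
  have hv := H.hv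
  have hJn : (0 : ℝ) ≤ J := Nat.cast_nonneg J
  have hqJ : 0 ≤ q * (J : ℝ) := mul_nonneg hq.le hJn
  have ha0 := Lv.a0p
  have hEb := Lv.Eb0
  have hsr := H.hs
  have hC0 : (0 : ℝ) ≤ C := Nat.cast_nonneg C
  have hCg0 : (0 : ℝ) ≤ Cg := Nat.cast_nonneg Cg
  have hb0 : (0 : ℝ) ≤ b := Nat.cast_nonneg b
  have hn0 : (0 : ℝ) ≤ n := Nat.cast_nonneg n
  have hne0 : (0 : ℝ) ≤ ne := Nat.cast_nonneg ne
  have hbn : 0 ≤ ((b : ℝ) + 1) * (n + 2) := by positivity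
  have hZ0 : 0 < v * q * J := by linarith
  have srJ : sr * q * J ≤ v * q * J / 8 := by
    have h2 := mul_le_mul_of_nonneg_right H.hs1 hqJ
    linarith
  have hls := lsD_le H J
  have lvJ : ∀ l ≤ 3, L l a0 a0 * J + Eb * J + 3 * (K * q * J) ≤ J := by
    intro l hl
    have := mul_le_mul_of_nonneg_right (Lv.rm l hl) hJn
    linarith
  have loJ : ∀ l ≤ 3, a0 * J ≤ L l a0 a0 * J := fun l hl =>
    mul_le_mul_of_nonneg_right (Lv.lo l hl) hJn
  have a0J : 0 ≤ a0 * J := by positivity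
  -- the levels of the first ball
  have gu : ∀ l ≤ 3, ∀ {g : ℕ} {d : ℝ}, 0 ≤ d → g = ⌊(L l a0 a0 - d) * J⌋₊ →
      (g : ℝ) ≤ L l a0 a0 * J := by
    intro l hl g d hd hg
    rw [hg]
    refine fl_up' ?_ (by linarith [loJ l hl])
    have := mul_nonneg hd hJn
    linarith
  have gl : ∀ l : ℕ, ∀ {g : ℕ} {d : ℝ}, d ≤ sr * q → g = ⌊(L l a0 a0 - d) * J⌋₊ →
      L l a0 a0 * J - sr * q * J - 1 ≤ g := by
    intro l g d hd hg
    have h1 := fl_lo ((L l a0 a0 - d) * J)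
    rw [← hg] at h1
    have h2 := mul_le_mul_of_nonneg_right hd hJn
    linarith
  obtain ⟨d1, hd10, hd11, hd1⟩ := N1.hg0 1 (by norm_num)
  rw [← N1.g1] at hd1
  obtain ⟨d3, hd30, hd31, hd3⟩ := N1.g3
  have e2J : 1 ≤ ⌊e₂ * J⌋₊ := by
    refine nat_le_fl ?_
    push_cast
    have h1 := mul_le_mul_of_nonneg_right Lv.ee hJn
    have h2 : 0 ≤ Eb * J := by positivity
    have h3 : v * q * J ≤ K * q * J := by
      have h4 : v ≤ K := by
        have h5 := H.hK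
        have h6 := H.v8
        have h7 : 0 ≤ ne * kr := by positivity
        have h8 : 0 ≤ b * (n + 2) * kr := by positivity
        have h9 : 0 ≤ n * kr := by positivity
        have h10 := abs_nonneg o0
        have h11 := H.hx
        nlinarith
      have := mul_le_mul_of_nonneg_right h4 hqJ
      linarith
    linarith
  have hWg : (t'.W₀ : ℝ) ≤ t'.g1 + sr * q * J + 1 := by
    have h1 : (t'.W₀ : ℝ) ≤ a0 * J := by rw [N1.W]; exact fl_up a0J
    have h2 := gl 1 hd11 hd1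
    have h3 := loJ 1 (by norm_num)
    linarith
  have hlzg : (t'.lz : ℝ) + t'.g₃ + 3 * (K * q * J) ≤ J + v * q * J + C + xq * q * J := by
    have hsup : nlp (fun j => if j < 3 then g0 j else t'.g₃) 0 3 + t'.g₃ =
        (Finset.Icc 0 3).sup (fun j => if j < 3 then g0 j else t'.g₃) := by
      unfold nlp
      have h3 : (if 3 < 3 then g0 3 else t'.g₃) ≤
          (Finset.Icc 0 3).sup (fun j => if j < 3 then g0 j else t'.g₃) :=
        Finset.le_sup (f := fun j => if j < 3 then g0 j else t'.g₃)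
          (Finset.mem_Icc.2 ⟨by norm_num, le_rfl⟩)
      have h4 : (if 3 < 3 then g0 3 else t'.g₃) = t'.g₃ := if_neg (lt_irrefl 3)
      rw [h4] at h3
      simp only [lt_irrefl, if_false]
      omega
    obtain ⟨j, hj, hje⟩ := Finset.exists_mem_eq_sup (Finset.Icc 0 3)
      (Finset.nonempty_Icc.2 (by norm_num)) (fun j => if j < 3 then g0 j else t'.g₃)
    have hj3 : j ≤ 3 := (Finset.mem_Icc.1 hj).2
    have hb : ((((Finset.Icc 0 3).sup (fun j => if j < 3 then g0 j else t'.g₃) : ℕ)) : ℝ) ≤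
        L j a0 a0 * J := by
      rw [hje]
      by_cases h3 : j < 3
      · obtain ⟨d, hd0, hd1, hd⟩ := N1.hg0 j h3
        simp only [h3, if_true]
        exact gu j hj3 hd0 hd
      · have : j = 3 := by omega
        subst this
        simp only [lt_irrefl, if_false]
        exact gu 3 le_rfl hd30 hd3
    have h5 : (t'.lz : ℝ) + t'.g₃ = X +
        (((Finset.Icc 0 3).sup (fun j => if j < 3 then g0 j else t'.g₃) : ℕ) : ℝ) := by
      rw [← hsup, N1.lz]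
      push_cast
      ring
    have h6 := N1.hX
    have h7 := lvJ j hj3
    rw [h5]
    linarith
  refine ⟨H.hn, H.hb, hJ, ?_, ?_, ?_, ?_, ?_, ?_, ?_, ?_, ?_, ?_, ?_, ?_, ?_, ?_, ?_, ?_, ?_, ?_,
    ?_, hlzg, N1.e2, ?_, ?_, ?_, ?_, lvJ 1 (by norm_num), lvJ 3 le_rfl, loJ 1 (by norm_num), a0J,
    ?_⟩
  · have := mul_le_mul_of_nonneg_right H.v8 hqJ
    linarith
  · have := mul_le_mul_of_nonneg_right H.vC hqJ
    linarith
  · have h1 : ne * kr + b * n * kr + 2 * b * kr + n * kr + 10 * kr + xq ≤ K := by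
      have := H.hK
      have := abs_nonneg o0
      linarith
    have := mul_le_mul_of_nonneg_right h1 hqJ
    linarith
  · have := mul_nonneg H.hx hqJ
    linarith
  · rw [N1.k]; exact fl_up (by positivity)
  · rw [N1.k]; exact fl_lo _
  · rw [N1.y]; exact fl_up (by positivity)
  · rw [N1.y]; exact fl_lo _
  · rw [N1.x]; exact fl_up (by positivity)
  · rw [N1.x]; exact fl_lo _
  · rw [N1.W]; exact fl_up a0J
  · rw [N1.W]; exact fl_lo _
  · exact gu 1 (by norm_num) hd10 hd1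
  · have := gl 1 hd11 hd1
    linarith
  · exact gu 3 le_rfl hd30 hd3
  · have := gl 3 hd31 hd3
    linarith
  · exact N1.s.trans hls
  · have := N1.e1'
    linarith
  · have h1 := fl_lo (sr * q * J)
    have h2 : ((⌊sr * q * J⌋₊ + 1 : ℕ) : ℝ) ≤ t'.e₁' := by exact_mod_cast N1.e1l
    push_cast at h2
    -- `W₀ < g1 + e₁' + 1`
    have h3 : (t'.W₀ : ℝ) < t'.g1 + t'.e₁' + 1 := by
      have h4 := Nat.lt_floor_add_one (sr * q * (J : ℝ))
      linarith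
    have h4 : t'.W₀ < t'.g1 + t'.e₁' + 1 := by exact_mod_cast h3
    omega
  · have h1 := fl_lo (e₂ * J)
    have h2 : ((t'.e₁ : ℕ) : ℝ) = (⌊e₂ * J⌋₊ : ℝ) - 1 := by
      rw [N1.e1, Nat.cast_sub e2J]
      push_cast
      ring
    have h3 := mul_le_mul_of_nonneg_right Lv.ee hJn
    rw [h2]
    linarith
  · have h2 : ((t'.e₁ : ℕ) : ℝ) = (⌊e₂ * J⌋₊ : ℝ) - 1 := by
      rw [N1.e1, Nat.cast_sub e2J]
      push_cast
      ring
    have h3 := mul_le_mul_of_nonneg_right Lv.ee hJn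
    have h4 : (⌊e₂ * J⌋₊ : ℝ) ≤ e₂ * J := by
      refine fl_up ?_
      have h5 : 0 ≤ Eb * J := by positivity
      have h6 : 0 ≤ K * q * J := by
        have h7 : 0 ≤ K := by
          have h5 := H.hK
          have h7 : 0 ≤ ne * kr := by positivity
          have h8 : 0 ≤ b * (n + 2) * kr := by positivity
          have h9 : 0 ≤ n * kr := by positivity
          have h10 := abs_nonneg o0
          have h11 := H.hx
          nlinarith
        positivity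
      linarith
    rw [h2]
    linarith
  · positivity
  · have h3 := mul_le_mul_of_nonneg_right Lv.ee hJn
    linarith
  · have := loJ 3 le_rfl
    linarith

/-- The natural exponent of a direction. -/
theorem nlp_sup (f : ℕ → ℕ) {l : ℕ} (hl : l ≤ 3) : nlp f l 3 + f 3 = (Finset.Icc l 3).sup f := by
  unfold nlp
  have h3 : f 3 ≤ (Finset.Icc l 3).sup f :=
    Finset.le_sup (f := f) (Finset.mem_Icc.2 ⟨hl, le_rfl⟩)
  omega

theorem nlp_anti (f : ℕ → ℕ) (l : ℕ) : nlp f l 3 ≤ nlp f 0 3 := by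
  unfold nlp
  exact Nat.sub_le_sub_right (Finset.sup_mono (Finset.Icc_subset_Icc (Nat.zero_le l) le_rfl)) _

/-- The balls below the windows. -/
theorem gc_of (H : VbRt n b Cg ne C A τ kr v rho sr s0 o0 xq K ε q)
    (Lv : VbLv P c L n b a0 kr v K q Eb e₂ θ₂ t ε rr)
    (N1 : VbNum L n C a0 kr v rho sr s0 xq q Eb e₂ g0 X t')
    (hJ : 256 ≤ v * q * J) (hx : v * q * J - 1 ≤ (t'.x : ℝ)) {i : ℕ} (hi : i < n) :
    L 1 a0 a0 * J + ((i : ℝ) + 1) * (kr * q * J) - v * q * J ≤ t'.gc i 1 ∧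
      (∀ l < 3, t'.gc i l ≤ J) ∧ ∀ l < 3, g0 l ≤ t'.gc i l + t'.x := by
  have hq := H.hq
  have hkr := H.hkr
  have hJn : (0 : ℝ) ≤ J := Nat.cast_nonneg J
  have hqJ : 0 ≤ q * (J : ℝ) := mul_nonneg hq.le hJn
  have ha0 := Lv.a0p
  have e1 := mul_le_mul_of_nonneg_right H.hs1 hqJ
  have e2 := mul_le_mul_of_nonneg_right H.ro1 hqJ
  have e3 := mul_le_mul_of_nonneg_right H.hε1 hqJ
  have hkq : 0 < kr * q := by positivity
  have hin : (i : ℝ) + 1 ≤ n := by exact_mod_cast hi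
  obtain ⟨a', h1, h2, h3⟩ := N1.gc i hi
  have hak : rho * q ≤ kr * q :=
    mul_le_mul_of_nonneg_right (by linarith [H.ro1, H.v8, H.ro, H.hv]) hq.le
  have hi0 : 0 ≤ (i : ℝ) * (kr * q) := by positivity
  have ha' : a0 ≤ a' := by linarith
  have hnn : ((i : ℝ) + 1) * (kr * q) ≤ n * (kr * q) := mul_le_mul_of_nonneg_right hin hkq.le
  have ha1 : a' ≤ a0 + ((n : ℝ) + 1) * kr * q := by linarith
  have ha2 : a' ≤ a0 + ((n : ℝ) + 2) * kr * q := by linarith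
  have hlo : ∀ l < 3, L l a0 a0 * J - sr * q * J - 1 ≤ (t'.gc i l : ℝ) := by
    intro l hl
    obtain ⟨d, hd0, hd1, hd⟩ := h3 l hl
    have h4 := fl_lo ((L l a' a' - d) * J)
    rw [← hd] at h4
    have h5 := mul_le_mul_of_nonneg_right (Lv.mo l (by omega) a' ha' ha1).1 hJn
    have h6 := mul_le_mul_of_nonneg_right hd1 hJn
    linarith
  refine ⟨?_, ?_, ?_⟩
  · obtain ⟨d, hd0, hd1, hd⟩ := h3 1 (by norm_num)
    have h4 := fl_lo ((L 1 a' a' - d) * J)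
    rw [← hd] at h4
    have h5 := mul_le_mul_of_nonneg_right (abs_le.1 (Lv.l1 a' ha' ha2)).1 hJn
    have h6 := mul_le_mul_of_nonneg_right hd1 hJn
    have h7 := mul_le_mul_of_nonneg_right h1 hJn
    linarith
  · intro l hl
    obtain ⟨d, hd0, hd1, hd⟩ := h3 l hl
    have h5 := mul_le_mul_of_nonneg_right (Lv.mo l (by omega) a' ha' ha1).2 hJn
    have h6 := mul_nonneg hd0 hJn
    have h7 : (t'.gc i l : ℝ) ≤ J := by
      rw [hd]
      exact fl_up' (by linarith) hJn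
    exact_mod_cast h7
  · intro l hl
    obtain ⟨d, hd0, hd1, hd⟩ := N1.hg0 l hl
    have h5 := mul_nonneg hd0 hJn
    have h6 : (g0 l : ℝ) ≤ L l a0 a0 * J := by
      rw [hd]
      have h7 := mul_le_mul_of_nonneg_right (Lv.lo l (by omega)) hJn
      have h8 : 0 ≤ a0 * J := by positivity
      exact fl_up' (by linarith) (by linarith)
    have h7 := hlo l hl
    have h8 : (g0 l : ℝ) ≤ ((t'.gc i l + t'.x : ℕ) : ℝ) := by
      push_cast
      linarith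
    exact_mod_cast h8

/-- **The numbers.** -/
theorem vbn_of (H : VbRt n b Cg ne C A τ kr v rho sr s0 o0 xq K ε q)
    (Lv : VbLv P c L n b a0 kr v K q Eb e₂ θ₂ t ε rr)
    (N1 : VbNum L n C a0 kr v rho sr s0 xq q Eb e₂ g0 X t')
    (hJ : 16 * (((b : ℝ) + 1) * (n + 2)) + 16 * C + 16 * Cg + 256 ≤ v * q * J) {wn : ℝ}
    (hwn : wn ≤ a0) {sf : ℕ → ℕ → ℝ}
    (hsf : ∀ i < n, ∀ l < 2, sf i l ≤ L l (a0 + ((i : ℝ) + 2) * kr * q)
      (a0 + ((i : ℝ) + 2) * kr * q)) :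
    VbN P c n b Cg ne A τ (kr * q) (v * q) (v * q / 16) e₂ e₂ wn rr (fun i => rr (i + 1))
      (fun i => a0 + ((i : ℝ) + 2) * kr * q) sf
      (fun i => L 3 a0 a0 + b * (((i : ℝ) + 1) * kr * q))
      (fun i => L 3 a0 a0 + b * (((i : ℝ) + 1) * kr * q) + kr * q) t' := by
  have Q := nq_of H Lv N1 hJ
  have hq := H.hq
  have hkr := H.hkr
  have hJn : (0 : ℝ) ≤ J := Nat.cast_nonneg J
  have hqJ : 0 ≤ q * (J : ℝ) := mul_nonneg hq.le hJn
  have hC0 : (0 : ℝ) ≤ C := Nat.cast_nonneg C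
  have hCg0 : (0 : ℝ) ≤ Cg := Nat.cast_nonneg Cg
  have hbn : 0 ≤ ((b : ℝ) + 1) * (n + 2) := by positivity
  have hJ256 : 256 ≤ v * q * J := by linarith
  have hε := mul_le_mul_of_nonneg_right H.hε1 hqJ
  have hkq : 0 < kr * q := by have := H.hkr; positivity
  have hrJ : ∀ i ≤ n, a0 * J + ((i : ℝ) + 1) * (kr * q * J) ≤ rr i * J := fun i hi => by
    have := mul_le_mul_of_nonneg_right (Lv.r0 i hi) hJn
    linarith
  have hfx : ∀ i < n, a0 ≤ a0 + ((i : ℝ) + 2) * kr * q ∧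
      a0 + ((i : ℝ) + 2) * kr * q ≤ a0 + ((n : ℝ) + 2) * kr * q := by
    intro i hi
    have h1 : (i : ℝ) ≤ n := by exact_mod_cast hi.le
    have h2 : 0 ≤ ((i : ℝ) + 2) * kr * q := by positivity
    have h3 : ((i : ℝ) + 2) * (kr * q) ≤ ((n : ℝ) + 2) * (kr * q) :=
      mul_le_mul_of_nonneg_right (by linarith) hkq.le
    exact ⟨by linarith, by linarith⟩
  refine ⟨N1.k, N1.y, Q.H H.hA H.hτ1 H.hτ ?_, ?_, ?_, ?_, ?_, ?_, ?_, ?_, Q.Wgx, Q.e1'l, ?_, ?_,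
    nat_le_fl Q.e2J.2, ?_, fun i hi => Q.J1 hi, Q.sy,
    fun i hi => (gc_of H Lv N1 hJ256 Q.x2 hi).2.1, fun i hi => Q.pJ hi, ?_, ?_, ?_, ?_, ?_, ?_,
    fun i hi => Q.JE1 hi, fun i hi => Q.JE2 hi⟩
  · have := mul_le_mul_of_nonneg_right H.vA hqJ
    linarith
  · rw [N1.W]
    exact Nat.floor_le_floor (mul_le_mul_of_nonneg_right hwn hJn)
  · intro i hi
    exact Q.win i (hrJ i hi.le)
  · intro i hi
    have h1 := Q.win (i + 1) (z := rr (i + 1) * J) (hrJ (i + 1) hi)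
    have h2 : (i + 1) * t'.k = i * t'.k + t'.k := by ring
    rw [h2] at h1
    show t'.W₀ + t'.k + i * t'.k + t'.k ≤ ⌊((rr (i + 1) : ℚ) : ℝ) * J⌋₊
    omega
  · intro i hi
    have h1 := Q.win (i + 1) (z := (a0 + ((i : ℝ) + 2) * kr * q) * J) (by
      push_cast
      linarith)
    have h2 : (i + 1) * t'.k = i * t'.k + t'.k := by ring
    rw [h2] at h1
    show t'.W₀ + t'.k + i * t'.k + t'.k ≤ ⌊(a0 + ((i : ℝ) + 2) * kr * q) * J⌋₊
    omega
  · intro i hi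
    refine Q.l3 hi (β := (bet P c 3 (rr i) (rr i) + v * q / 16) * J) (z := rr i * J) ?_
      (hrJ i hi.le)
    have h1 := mul_le_mul_of_nonneg_right (Lv.r3 i hi.le) hJn
    linarith
  · intro i hi
    refine Q.l0 (β := (bet P c 0 (rr (i + 1)) (rr (i + 1)) + v * q / 16) * J)
      (z := rr (i + 1) * J) ?_ ?_
    · have h1 := mul_le_mul_of_nonneg_right (Lv.r1 (i + 1) hi) hJn
      have h2 := hrJ (i + 1) hi
      linarith
    · have h2 := hrJ (i + 1) hi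
      have h3 : 0 ≤ a0 * J := mul_nonneg Lv.a0p.le hJn
      have h4 : 0 ≤ (((i + 1 : ℕ) : ℝ) + 1) * (kr * q * J) := by positivity
      linarith
  · intro i hi
    refine Q.l1 (β := (bet P c 1 (rr (i + 1)) (rr (i + 1)) + v * q / 16) * J)
      (z := rr (i + 1) * J) (w := (((i + 1 : ℕ) : ℝ) + 1) * (kr * q * J)) ?_ (by positivity)
      (hrJ (i + 1) hi)
    have h1 := mul_le_mul_of_nonneg_right (Lv.r2 (i + 1) hi) hJn
    linarith
  · have := N1.e2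
    omega
  · have := N1.e2
    omega
  · refine nat_le_fl ?_
    push_cast
    exact Q.e1u
  · intro i hi l hl
    have h1 := Q.gr hi (gc_of H Lv N1 hJ256 Q.x2 hi).1
    have h2 := nlp_sup (fun j => if j < 3 then t'.gc i j else t'.p b i) (l := l) (by omega)
    have h3 : t'.gc i 1 ≤ (Finset.Icc l 3).sup (fun j => if j < 3 then t'.gc i j else t'.p b i) := by
      have h4 := Finset.le_sup (f := fun j => if j < 3 then t'.gc i j else t'.p b i)
        (Finset.mem_Icc.2 ⟨by omega, by norm_num⟩ : 1 ∈ Finset.Icc l 3)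
      simpa using h4
    simp only [lt_irrefl, if_false] at h2
    have h5 : t'.p b i = t'.g₃ + b * (t'.k + i * t'.k) + t'.x := rfl
    have h6 : (if l = 0 then t'.e₁' else 0) ≤ t'.e₁' := by
      split_ifs
      · exact le_rfl
      · exact Nat.zero_le _
    omega
  · intro i hi
    have h1 := Q.s1 hi
    show (L 3 a0 a0 + b * (((i : ℝ) + 1) * kr * q)) * J ≤ _
    linarith
  · intro i hi
    have h1 := Q.s2 hi
    show _ ≤ (L 3 a0 a0 + b * (((i : ℝ) + 1) * kr * q) + kr * q) * J + (t'.x : ℝ)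
    linarith
  · intro i hi
    have h1 := Q.k2
    have h2 : (0 : ℝ) ≤ t'.x := Nat.cast_nonneg _
    show (L 3 a0 a0 + b * (((i : ℝ) + 1) * kr * q) + kr * q -
      (L 3 a0 a0 + b * (((i : ℝ) + 1) * kr * q))) * J ≤ _
    linarith
  · intro i hi
    refine Q.f0 hi ?_
    have h1 := Lv.l0 _ (hfx i hi).1 (hfx i hi).2
    have h2 := mul_le_mul_of_nonneg_right (hsf i hi 0 (by norm_num)) hJn
    have h3 := mul_le_mul_of_nonneg_right h1 hJn
    linarith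
  · intro i hi
    refine Q.f1 hi ?_
    have h1 := (abs_le.1 (Lv.l1 _ (hfx i hi).1 (hfx i hi).2)).2
    have h2 := mul_le_mul_of_nonneg_right (hsf i hi 1 (by norm_num)) hJn
    have h3 := mul_le_mul_of_nonneg_right h1 hJn
    linarith

/-- **The gradients of the target and the losses.** -/
theorem vbn_ex (H : VbRt n b Cg ne C A τ kr v rho sr s0 o0 xq K ε q)
    (Lv : VbLv P c L n b a0 kr v K q Eb e₂ θ₂ t ε rr)
    (N1 : VbNum L n C a0 kr v rho sr s0 xq q Eb e₂ g0 X t')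
    (hJ : 16 * (((b : ℝ) + 1) * (n + 2)) + 16 * C + 16 * Cg + 256 ≤ v * q * J) :
    (∀ l < 2, X + nlp (fun j => if j < 3 then g0 j else t'.g₃) l 3 ≤ t'.lz) ∧
    (∀ i < n, ∀ l < 3, X + nlp (fun j => if j < 3 then g0 j else t'.g₃) l 3 + 1 ≤
      t'.e₁ + nlp (fun j => if j < 3 then t'.gc i j else t'.p b i) l 3) ∧
    ∀ s' : ℕ, (s' : ℝ) ≤ lsD C s0 sr rho q J → s' ≤ t'.y ∧
      ((s' : ℝ) + 1) * Real.log 2 + v * q / 16 * J ≤ t'.y * Real.log 2 := by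
  have Q := nq_of H Lv N1 hJ
  have hq := H.hq
  have hJn : (0 : ℝ) ≤ J := Nat.cast_nonneg J
  have hqJ : 0 ≤ q * (J : ℝ) := mul_nonneg hq.le hJn
  have hC0 : (0 : ℝ) ≤ C := Nat.cast_nonneg C
  have hCg0 : (0 : ℝ) ≤ Cg := Nat.cast_nonneg Cg
  have hbn : 0 ≤ ((b : ℝ) + 1) * (n + 2) := by positivity
  have hJ256 : 256 ≤ v * q * J := by linarith
  have hls := lsD_le H J
  refine ⟨fun l _ => ?_, fun i hi l hl => ?_, fun s' hs' => ?_⟩
  · rw [N1.lz]
    exact Nat.add_le_add_left (nlp_anti _ l) X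
  · have hX : (X : ℝ) ≤ v * q * J + C + Eb * J + xq * q * J := by
      have h1 := N1.hX
      have h2 := mul_le_mul_of_nonneg_right H.hs1 hqJ
      linarith
    have h1 := Q.Xe hi hX
    have h2 := nlp_sup (fun j => if j < 3 then g0 j else t'.g₃) (l := l) hl.le
    have h3 := nlp_sup (fun j => if j < 3 then t'.gc i j else t'.p b i) (l := l) hl.le
    simp only [lt_irrefl, if_false] at h2 h3
    have h5 : t'.p b i = t'.g₃ + b * (t'.k + i * t'.k) + t'.x := rfl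
    have h4 : (Finset.Icc l 3).sup (fun j => if j < 3 then g0 j else t'.g₃) ≤
        (Finset.Icc l 3).sup (fun j => if j < 3 then t'.gc i j else t'.p b i) + t'.x := by
      refine Finset.sup_le fun j hj => ?_
      have h6 := Finset.le_sup (f := fun j => if j < 3 then t'.gc i j else t'.p b i) hj
      have hj3 := (Finset.mem_Icc.1 hj).2
      by_cases h7 : j < 3
      · simp only [h7, if_true] at h6 ⊢
        have h8 := (gc_of H Lv N1 hJ256 Q.x2 hi).2.2 j h7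
        omega
      · simp only [h7, if_false] at h6 ⊢
        omega
    omega
  · have h1 : (5 : ℝ) / 8 ≤ Real.log 2 := by
      have h2 := Real.log_two_gt_d9
      have h3 : (5 : ℝ) / 8 ≤ 0.6931471803 := by norm_num
      linarith
    obtain ⟨a1, a2⟩ := Q.ly (hs'.trans hls) h1
    refine ⟨a1, ?_⟩
    have e : v * q / 16 * J = v * q * J / 16 := by ring
    rw [e]
    exact a2

end

/-- **The numbers of the class theorem**, from the record. -/
theorem vbn_rec {n b Cg ne C : ℕ} {A τ kr : ℝ} (hn : 0 < n) (hb : 1 ≤ b) (hA : 1 ≤ A)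
    (hτ : 0 < τ) (hτ1 : τ ≤ 1) (hkr : 0 < kr) :
    ∃ u₀ : ℝ, 0 < u₀ ∧ u₀ ≤ kr ∧ ∀ v : ℝ, 0 < v → v ≤ u₀ → ∃ s₁ : ℝ, 0 < s₁ ∧ s₁ ≤ v ∧
    ∀ (rho sr s0 o0 xq K ε : ℝ), 0 < rho → rho ≤ s₁ → 0 < sr → sr ≤ s₁ → 0 ≤ xq →
    |o0| + (ne + b * (n + 2) + n + 10) * kr + xq ≤ K → 0 ≤ ε → 16 * ε ≤ v →
    ∀ {m : ℕ} {S : PCl m} {al : ℝ} {g₀ : ℝ → ℝ} {P : List (Fin m) × Fin m → ℝ → ℝ → ℝ}
      {θ : ℝ} {P₂ : ℕ → List (Fin m) × Fin m → ℝ → ℝ → ℝ} {θ₂ Eb e₂ : ℕ → ℝ}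
      {c : ℕ → Fin m} {Pt : ℝ → ℝ → ℝ} {r : ℝ → ℝ} {h K₀ g : ℝ} {L T : ℕ → ℝ → ℝ → ℝ}
      {Sl : ℕ → ℝ} {κ : ℕ → Kg} {G : Set ℝ} {S₀ N : ℕ} {A' V : ℕ → ℝ} {S₂ N' : ℕ} {V' : ℕ → ℝ}
      {q t : ℝ},
    RecG S al g₀ P θ P₂ θ₂ Eb e₂ c Pt r h K₀ g L T Sl κ G S₀ N A' V S₂ N' V' K ε q t →
    3 < m → Sl 1 = 1 → Sl 3 = b → s0 ≤ sr * q →
    (∀ i ≤ n, ∃ k < N', V' k = o0 + ((i : ℝ) + 1) * kr) →
    ∀ {wn : ℝ} {sf : ℕ → ℕ → ℝ}, wn ≤ t + o0 * q →
    (∀ i < n, ∀ l < 2, sf i l ≤ L l (t + o0 * q + ((i : ℝ) + 2) * kr * q)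
      (t + o0 * q + ((i : ℝ) + 2) * kr * q)) →
    ∃ wi : ℕ → ℚ,
      (∀ i ≤ n, 0 < wi i ∧ wi i ≤ 1 ∧ e₂ 3 < θ₂ 3 * wi i ∧
        ∀ j ≤ 3, bet (P₂ 3) c j (wi i) (wi i) + v * q / 16 ≤ 1) ∧
      (∀ i < n, t + o0 * q + ((i : ℝ) + 2) * kr * q ≤ 1) ∧
      ∃ J₀ : ℕ, ∀ J : ℕ, J₀ ≤ J → ∀ {F : Fam m J} (g0 : ℕ → ℕ) (X : ℕ) (t' : VbT F),
        VbNum L n C (t + o0 * q) kr v rho sr s0 xq q (Eb 3) (e₂ 3) g0 X t' →
        VbN (P₂ 3) c n b Cg ne A τ (kr * q) (v * q) (v * q / 16) (e₂ 3) (e₂ 3) wn wi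
          (fun i => wi (i + 1)) (fun i => t + o0 * q + ((i : ℝ) + 2) * kr * q) sf
          (fun i => L 3 (t + o0 * q) (t + o0 * q) + b * (((i : ℝ) + 1) * kr * q))
          (fun i => L 3 (t + o0 * q) (t + o0 * q) + b * (((i : ℝ) + 1) * kr * q) + kr * q)
          t' ∧
        (∀ l < 2, X + nlp (fun j => if j < 3 then g0 j else t'.g₃) l 3 ≤ t'.lz) ∧
        (∀ i < n, ∀ l < 3, X + nlp (fun j => if j < 3 then g0 j else t'.g₃) l 3 + 1 ≤
          t'.e₁ + nlp (fun j => if j < 3 then t'.gc i j else t'.p b i) l 3) ∧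
        ∀ s' : ℕ, (s' : ℝ) ≤ lsD C s0 sr rho q J → s' ≤ t'.y ∧
          ((s' : ℝ) + 1) * Real.log 2 + v * q / 16 * J ≤ t'.y * Real.log 2 := by
  have hA0 : 0 < A := by linarith
  have hC0 : (0 : ℝ) ≤ C := Nat.cast_nonneg C
  have hCg0 : (0 : ℝ) ≤ Cg := Nat.cast_nonneg Cg
  obtain ⟨u₀, hu₀⟩ : ∃ u₀ : ℝ, u₀ = min (τ * kr / (8 * A)) (kr / (Cg + 1)) := ⟨_, rfl⟩
  have hu0 : 0 < u₀ := by
    rw [hu₀]
    exact lt_min (by positivity) (by positivity)
  have hu1 : u₀ * (8 * A) ≤ τ * kr := by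
    have h1 : u₀ ≤ τ * kr / (8 * A) := by rw [hu₀]; exact min_le_left _ _
    rwa [le_div_iff₀ (by positivity)] at h1
  have hu2 : u₀ * (Cg + 1) ≤ kr := by
    have h1 : u₀ ≤ kr / (Cg + 1) := by rw [hu₀]; exact min_le_right _ _
    rwa [le_div_iff₀ (by positivity)] at h1
  have hu3 : 8 * u₀ ≤ kr := by
    have h1 : u₀ * 8 ≤ u₀ * (8 * A) := mul_le_mul_of_nonneg_left (by linarith) hu0.le
    have h2 : τ * kr ≤ 1 * kr := mul_le_mul_of_nonneg_right hτ1 hkr.le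
    linarith
  refine ⟨u₀, hu0, by linarith, ?_⟩
  intro v hv hvu
  obtain ⟨s₁, hs₁⟩ : ∃ s₁ : ℝ, s₁ = v / (8 * (C + 1)) := ⟨_, rfl⟩
  have hs0 : 0 < s₁ := by rw [hs₁]; positivity
  have hs8 : 8 * (C + 1) * s₁ = v := by
    rw [hs₁]
    field_simp
  have hs9 : 8 * s₁ ≤ v := by nlinarith
  have hs10 : 8 * (C * s₁) ≤ v := by nlinarith
  refine ⟨s₁, hs0, by linarith, ?_⟩
  intro rho sr s0 o0 xq K ε hrho hrho1 hsr hsr1 hxq hK hε hεv m S al g₀ P θ P₂ θ₂ Eb e₂ c Pt r h K₀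
    g L T Sl κ G S₀ N A' V S₂ N' V' q t R hm S1 S3 hs0q hV wn sf hwn hsf
  have hq := R.q0
  have H : VbRt n b Cg ne C A τ kr v rho sr s0 o0 xq K ε q :=
    { hn := hn
      hb := hb
      hA := hA
      hτ := hτ
      hτ1 := hτ1
      hkr := hkr
      hv := hv
      vA := (mul_le_mul_of_nonneg_right hvu (by positivity)).trans hu1
      vC := (mul_le_mul_of_nonneg_right hvu (by positivity)).trans hu2
      v8 := by linarith
      ro := hrho
      ro1 := by linarith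
      ro2 := by
        have := mul_le_mul_of_nonneg_left hrho1 hC0
        linarith
      hs := hsr
      hs1 := by linarith
      hs2 := by
        have := mul_le_mul_of_nonneg_left hsr1 hC0
        linarith
      sq := hs0q
      hx := hxq
      hK := hK
      hε := hε
      hε1 := hεv
      hq := hq }
  obtain ⟨rr, Lv, h1, h2⟩ := vb_lv R H hm S1 S3 hV rfl
  refine ⟨rr, fun i hi => ⟨(h1 i hi).1, (h1 i hi).2.1, (h1 i hi).2.2, h2 i hi⟩, ?_, ?_⟩
  · intro i hi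
    have h3 : (i : ℝ) ≤ n := by exact_mod_cast hi.le
    have hkq : 0 < kr * q := by positivity
    have h4 : ((i : ℝ) + 2) * (kr * q) ≤ ((n : ℝ) + 4) * (kr * q) :=
      mul_le_mul_of_nonneg_right (by linarith) hkq.le
    have h5 : 0 ≤ ((i : ℝ) + 2) * kr * q := by positivity
    have h6 := (abs_le.1 (H.box t rfl (x := t + o0 * q + ((i : ℝ) + 2) * kr * q) (by linarith)
      (by linarith))).2
    have h7 := R.t1
    linarith
  · obtain ⟨J₀, hJ₀⟩ := exists_nat_ge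
      ((16 * (((b : ℝ) + 1) * (n + 2)) + 16 * C + 16 * Cg + 256) / (v * q))
    refine ⟨J₀, ?_⟩
    intro J hJ F g0 X t' N1
    have hJ0 : (J₀ : ℝ) ≤ J := by exact_mod_cast hJ
    have hJ1 : 16 * (((b : ℝ) + 1) * (n + 2)) + 16 * C + 16 * Cg + 256 ≤ v * q * J := by
      have h3 := hJ₀.trans hJ0
      rw [div_le_iff₀ (by positivity)] at h3
      linarith
    obtain ⟨a1, a2, a3⟩ := vbn_ex H Lv N1 hJ1
    exact ⟨vbn_of H Lv N1 hJ1 hwn hsf, a1, a2, a3⟩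

end Pool.STB6
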